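import Pool.Agent.Lib.MP_cd3a7b_ag.Q5.St

/-! Approximation of an analytic germ by polynomials in a local coordinate. -/

namespace Pool.Agent.Lib.MP_cd3a7b_ag.Q5

open Filter Topology Asymptotics

namespace AppAux

lemma factor {f : ℂ → ℂ} {a : ℂ} (hf : AnalyticAt ℂ f a) (h0 : f a = 0) :
    ∃ g : ℂ → ℂ, AnalyticAt ℂ g a ∧ g a = deriv f a ∧ ∀ z, f z = (z - a) * g z := by
  obtain ⟨p, hp⟩ := hf
  refine ⟨dslope f a, ⟨_, hp.has_fpower_series_dslope_fslope⟩, dslope_same f a, fun z => ?_⟩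
  have := sub_smul_dslope f a z
  rw [h0, sub_zero, smul_eq_mul] at this
  exact this.symm

lemma main {φ σ : ℂ → ℂ} {a : ℂ} (hφ : AnalyticAt ℂ φ a) (hσ : AnalyticAt ℂ σ a) (s0 : σ a = 0)
    (s1 : deriv σ a ≠ 0) (p0 : φ a = 0) (p1 : deriv φ a = 0) (M : ℕ) :
    ∃ p : Polynomial ℂ, p.coeff 0 = 0 ∧ p.coeff 1 = 0 ∧ p.natDegree ≤ M + 1 ∧
      ∃ g : ℂ → ℂ, AnalyticAt ℂ g a ∧ ∀ z, φ z - p.eval (σ z) = (z - a) ^ (M + 2) * g z := by
  obtain ⟨h, hh, ha, e⟩ := factor hσ s0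
  rw [← ha] at s1
  induction M with
  | zero =>
    obtain ⟨g, hg, ga, e1⟩ := factor hφ p0
    obtain ⟨g', hg', -, e2⟩ := factor hg (ga.trans p1)
    refine ⟨0, rfl, rfl, by simp, g', hg', fun z => ?_⟩
    rw [Polynomial.eval_zero, e1, e2]
    ring
  | succ M ih =>
    obtain ⟨p, c0, c1, hd, g, hg, e1⟩ := ih
    obtain ⟨g', hg', -, e2⟩ := factor (f := fun z => g z - g a / h a ^ (M + 2) * h z ^ (M + 2))
      (hg.sub (analyticAt_const.mul (hh.pow _))) (by field_simp; ring)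
    refine ⟨p + Polynomial.monomial (M + 2) (g a / h a ^ (M + 2)), ?_, ?_, ?_, g', hg',
      fun z => ?_⟩
    · simp [c0, Polynomial.coeff_monomial]
    · simp [c1, Polynomial.coeff_monomial]
    · exact (Polynomial.natDegree_add_le _ _).trans
        (max_le (by omega) (Polynomial.natDegree_monomial_le _))
    · rw [Polynomial.eval_add, Polynomial.eval_monomial, ← sub_sub, e1, e z, mul_pow]
      linear_combination (z - a) ^ (M + 2) * e2 z

end AppAux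

theorem stApp : StApp := by
  intro φ σ a hφ hσ s0 s1 p0 p1 M
  obtain ⟨p, c0, c1, hd, g, hg, e⟩ := AppAux.main hφ hσ s0 s1 p0 p1 M
  refine ⟨p, c0, c1, hd, ?_⟩
  simp only [e]
  simpa using (isBigO_refl (fun z => (z - a) ^ (M + 2)) (𝓝 a)).mul
    (hg.continuousAt.tendsto.isBigO_one ℂ)

end Pool.Agent.Lib.MP_cd3a7b_ag.Q5
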