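import Pool.Agent.Lib.MP_cd3a7b_ag.Q5.St

/-! Gluing lines in a quintic threefold: nearby leaves avoid a set of small dimension. -/

namespace Pool.Agent.Lib.MP_cd3a7b_ag.Q5

open MvPolynomial Finset Filter Topology

namespace AvoidAux

theorem lim_of_mem {Y : Type} [TopologicalSpace Y] {K : Set Y} (hK : IsCompact K) (f : ℕ → Y)
    (hf : ∀ n, f n ∈ K) : ∃ y ∈ K, Tendsto f (hyperfilter ℕ : Filter ℕ) (𝓝 y) := by
  obtain ⟨y, hy, h⟩ := hK.ultrafilter_le_nhds ((hyperfilter ℕ).map f) (by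
    rw [Ultrafilter.coe_map, le_principal_iff, Filter.mem_map]
    exact Filter.univ_mem' hf)
  exact ⟨y, hy, h⟩

theorem ann_compact (R : ℝ) : IsCompact (Ann R) := by
  refine (isCompact_closedBall (0 : ℂ) R).of_isClosed_subset ?_ fun z hz => ?_
  · exact (isClosed_le continuous_const continuous_norm).inter
      (isClosed_le continuous_norm continuous_const)
  · simpa using hz.2

theorem ann_ne {R : ℝ} (hR : 1 ≤ R) {z : ℂ} (hz : z ∈ Ann R) : z ≠ 0 := by
  have h : 0 < R⁻¹ := by positivity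
  exact norm_pos_iff.1 (h.trans_le hz.1)

theorem one_mem_ann {R : ℝ} (hR : 1 ≤ R) : (1 : ℂ) ∈ Ann R :=
  ⟨by simpa using inv_le_one_of_one_le₀ hR, by simpa using hR⟩

theorem pre : IsPreconnected ({0}ᶜ : Set ℂ) :=
  (isConnected_compl_singleton_of_one_lt_rank (by simp) (0 : ℂ)).isPreconnected

theorem sh_mul {o : Om} {P : ℤ} (h : sh P o = o) (i : ℕ) : sh (P * i) o = o := by
  induction i with
  | zero => funext s; simp [sh]
  | succ i ih =>
    funext s
    have h1 := congrFun h (s + P * i)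
    have h2 := congrFun ih s
    simp only [sh] at h1 h2 ⊢
    rw [← h2, ← h1]
    congr 1
    push_cast
    ring

theorem sh_cont (t : ℤ) : Continuous (sh t) :=
  continuous_pi fun s => continuous_apply (s + t)

theorem euler {F : Pol} (hF : F.IsHomogeneous 5) {p : E} (hp : eval p F = 0) :
    dot (grad F p) p = 0 := by
  have h := congrArg (eval p) hF.sum_X_mul_pderiv
  simp only [map_sum, map_mul, eval_X, map_nsmul, hp, smul_zero] at h
  rw [← h]
  exact Finset.sum_congr rfl fun i _ => mul_comm _ _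

theorem dot_deriv (F : Pol) {v : ℂ → E} {a : ℂ} {v' : E} (hv : HasDerivAt v v' a)
    (h : ∀ᶠ z in 𝓝 a, eval (v z) F = 0) : dot (grad F (v a)) v' = 0 := by
  obtain ⟨L, hL, hL'⟩ := hasFDerivAt_eval_alg F (v a)
  have h1 := hL.comp_hasDerivAt a hv
  have h2 : HasDerivAt ((fun v : E => eval v F) ∘ v) 0 a :=
    (hasDerivAt_const a (0 : ℂ)).congr_of_eventuallyEq h
  have h3 := h1.unique h2
  rw [hL'] at h3
  rw [← h3]
  exact Finset.sum_congr rfl fun i _ => mul_comm _ _

theorem dep_pair {a b c d : E} (hab : LinearIndependent ℂ ![a, b])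
    (h : ¬ LinearIndependent ℂ ![a, b, c, d]) :
    ∃ α β γ δ : ℂ, (γ ≠ 0 ∨ δ ≠ 0) ∧ γ • c + δ • d = α • a + β • b := by
  obtain ⟨g, hg, i, hi⟩ := Fintype.not_linearIndependent_iff.1 h
  simp only [Fin.sum_univ_four, Matrix.cons_val_zero, Matrix.cons_val_one, Matrix.cons_val]
    at hg
  refine ⟨-g 0, -g 1, g 2, g 3, ?_, ?_⟩
  · by_contra hn
    push Not at hn
    obtain ⟨h2, h3⟩ := hn
    rw [h2, h3, zero_smul, zero_smul, add_zero, add_zero] at hg
    have h4 := Fintype.linearIndependent_iff.1 hab ![g 0, g 1] (by simpa using hg)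
    have h0 : g 0 = 0 := h4 0
    have h1 : g 1 = 0 := h4 1
    fin_cases i
    · exact hi h0
    · exact hi h1
    · exact hi h2
    · exact hi h3
  · rw [neg_smul, neg_smul]
    linear_combination (exp := 1) hg

end AvoidAux

open AvoidAux

theorem stAvoid (hWalk : StWalk) (hChart : StChart) (hBlow : StBlow) (hLimit : StLimit)
    (hTL : StTL) (hFin : StFin) : StAvoid := by
  classical
  intro F ε c C X hp Z G o P R hZ hcone hdep hG hne hP hper hR H
  obtain ⟨on, s, hs0, hs, hon, hcl, hmm⟩ := hBlow F ε c C X hp o P hP hper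
  have hl : (hyperfilter ℕ : Filter ℕ) ≤ atTop := Nat.hyperfilter_le_atTop
  have hsol := hp.fam.sol
  -- the limit direction
  have hD : ∀ k, ∃ y, Tendsto (fun n => ((s n : ℂ))⁻¹ • (X (on n) k - X o k))
      (hyperfilter ℕ : Filter ℕ) (𝓝 y) := by
    intro k
    obtain ⟨y, -, hy⟩ := lim_of_mem (isCompact_closedBall (0 : E × ℂ) (C * kw (k - 0)))
      (fun n => ((s n : ℂ))⁻¹ • (X (on n) k - X o k)) fun n => by
        have h1 : ‖X (on n) k - X o k‖ ≤ C * s n * kw (k - 0) :=
          (le_max_left _ _).trans (hcl n k)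
        rw [mem_closedBall_zero_iff, norm_smul, norm_inv, Complex.norm_real,
          Real.norm_of_nonneg (hs0 n).le, inv_mul_le_iff₀ (hs0 n)]
        linarith
    exact ⟨y, hy⟩
  choose D hD using hD
  have hD1 : ∀ i : ℤ, 1 ≤ mm D (4 * P * i) := by
    intro i
    have h1 := ((continuous_snd.tendsto _).comp (hD (4 * P * i))).norm.max
      ((continuous_snd.tendsto _).comp (hD (4 * P * i + 1))).norm
    refine ge_of_tendsto h1 ?_
    filter_upwards [hl (hmm i)] with n hn
    have hs' := hs0 n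
    simp only [Function.comp, Prod.smul_snd, norm_smul, norm_inv, Complex.norm_real,
      Real.norm_of_nonneg hs'.le]
    rw [← mul_max_of_nonneg _ _ (inv_pos.2 hs').le, le_inv_mul_iff₀ hs', mul_one]
    exact hn
  -- the shifts
  have hXo : ∀ i : ℕ, shx (4 * (P * i)) (X o) = X o := fun i => by
    rw [← hChart.equi F ε c C X hp.fam hp.est, sh_mul hper]
  have hoi : ∀ i : ℕ, Tendsto (fun n => sh (P * i) (on n)) (hyperfilter ℕ : Filter ℕ) (𝓝 o) := by
    intro i
    have h1 := ((sh_cont (P * i)).tendsto o).comp (hon.mono_left hl)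
    rwa [sh_mul hper] at h1
  have hlim : ∀ i : ℕ, Tan F o (X o) (shx (4 * (P * i)) D) ∧ ∀ k (zn : ℕ → ℂ) z, z ≠ 0 →
      Tendsto zn (hyperfilter ℕ : Filter ℕ) (𝓝 z) →
      Tendsto (fun n => ((s n : ℂ))⁻¹ • (V (sh (P * i) (on n)) (X (sh (P * i) (on n))) k (zn n) -
        V o (X o) k (zn n))) (hyperfilter ℕ : Filter ℕ)
        (𝓝 (Eta o (X o) (shx (4 * (P * i)) D) k z)) := by
    intro i
    refine hLimit F ε c (C * kw (4 * (P * i))) o (X o) _ (fun n => sh (P * i) (on n))
      (fun n => X (sh (P * i) (on n))) s _ inferInstance hp.pos hp.half hp.cpos (hsol o)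
      (fun n => hsol _) hs0 (hs.mono_left hl) (hoi i) (fun n j => ?_) fun k => ?_
    · have h1 := hcl n (j + 4 * (P * i))
      have h2 : dl (sh (P * i) (on n)) o (X (sh (P * i) (on n))) (X o) ε j =
          dl (on n) o (X (on n)) (X o) ε (j + 4 * (P * i)) := by
        have h3 : w o j = w o (j + 4 * (P * i)) := by rw [← hWalk.sh, sh_mul hper]
        have h4 : X o j = X o (j + 4 * (P * i)) := (congrFun (hXo i) j).symm
        simp only [dl]
        rw [hChart.equi F ε c C X hp.fam hp.est, hWalk.sh, h3, h4]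
        rfl
      rw [h2]
      refine h1.trans ?_
      have h5 := hWalk.kw_add j (4 * (P * i))
      have h6 : 0 ≤ C * s n := mul_nonneg (by linarith [hp.one]) (hs0 n).le
      rw [sub_zero, sub_zero]
      calc C * s n * kw (j + 4 * (P * i)) ≤ C * s n * (kw j * kw (4 * (P * i))) :=
            mul_le_mul_of_nonneg_left h5 h6
        _ = _ := by ring
    · have h4 : X o k = X o (k + 4 * (P * i)) := (congrFun (hXo i) k).symm
      simp only [hChart.equi F ε c C X hp.fam hp.est]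
      rw [h4]
      exact hD (k + 4 * (P * i))
  -- the leaf through `o`
  set v : ℂ → E := V o (X o) 0 with hv
  have hder : ∀ y, y ≠ 0 → HasDerivAt v (y⁻¹ • V' o (X o) 0 y) y := fun y hy =>
    (hChart.der o (X o) 0 ε y (hsol o).small hp.half hy).1
  have han : AnalyticOnNhd ℂ v {0}ᶜ :=
    DifferentiableOn.analyticOnNhd
      (fun y hy => (hder y hy).differentiableAt.differentiableWithinAt) isOpen_compl_singleton
  have hanG : AnalyticOnNhd ℂ (fun z => eval (v z) G) {0}ᶜ :=
    DifferentiableOn.analyticOnNhd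
      (fun y hy => ((differentiable_eval G (v y)).comp y
        (hder y hy).differentiableAt).differentiableWithinAt) isOpen_compl_singleton
  have hfreq : ∀ a : ℂ, a ≠ 0 → ¬ ∃ᶠ z in 𝓝[≠] a, eval (v z) G = 0 := by
    intro a ha h
    obtain ⟨z, hz, hz'⟩ := hne
    exact hz' (hanG.eqOn_zero_of_preconnected_of_frequently_eq_zero pre ha h hz)
  have hfin : {a ∈ Ann R | eval (v a) G = 0}.Finite := by
    by_contra hinf
    obtain ⟨a, ha, hacc⟩ := Set.Infinite.exists_accPt_of_subset_isCompact hinf (ann_compact R)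
      (Set.sep_subset _ _)
    exact hfreq a (ann_ne hR ha) ((accPt_iff_frequently_nhdsNE.1 hacc).mono fun z hz => hz.2)
  -- the hits
  have hhit : ∀ i : ℕ, ∃ a ∈ {a ∈ Ann R | eval (v a) G = 0},
      Lim v a Z (Eta o (X o) (shx (4 * (P * i)) D) 0 a) := by
    intro i
    have h1 : ∀ n, ∃ z ∈ Ann R, (∃ z ∈ Ann R, V (sh (P * i) (on n)) (X (sh (P * i) (on n))) 0 z ∈ Z)
        → V (sh (P * i) (on n)) (X (sh (P * i) (on n))) 0 z ∈ Z := by
      intro n
      by_cases h : ∃ z ∈ Ann R, V (sh (P * i) (on n)) (X (sh (P * i) (on n))) 0 z ∈ Z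
      · obtain ⟨z, hz, hz'⟩ := h
        exact ⟨z, hz, fun _ => hz'⟩
      · exact ⟨1, one_mem_ann hR, fun h' => absurd h' h⟩
    choose zn hzn hzn' using h1
    obtain ⟨a, ha, hza⟩ := lim_of_mem (ann_compact R) zn hzn
    have ha0 := ann_ne hR ha
    have h2 := (hlim i).2 0 zn a ha0 hza
    have h3 : ∀ᶠ n in (hyperfilter ℕ : Filter ℕ),
        V (sh (P * i) (on n)) (X (sh (P * i) (on n))) 0 (zn n) ∈ Z :=
      ((hoi i).eventually H).mono fun n hn => hzn' n hn
    refine ⟨a, ⟨ha, hG _ ?_⟩, _, zn, s, _, inferInstance, hza, hs.mono_left hl, hs0, h3, h2⟩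
    have h4 : Tendsto (fun n => (s n : ℂ)) (hyperfilter ℕ : Filter ℕ) (𝓝 0) := by
      have h := (Complex.continuous_ofReal.tendsto 0).comp (hs.mono_left hl)
      rwa [Complex.ofReal_zero] at h
    have h5 := (h4.smul h2).add (((hder a ha0).continuousAt.tendsto).comp hza)
    rw [zero_smul, zero_add] at h5
    refine hZ.mem_of_tendsto h5 (h3.mono fun n hn => ?_)
    have h6 : (s n : ℂ) ≠ 0 := Complex.ofReal_ne_zero.2 (hs0 n).ne'
    simpa [smul_smul, mul_inv_cancel₀ h6, hv] using hn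
  choose a ha hLim using hhit
  -- the classes
  have hcol : ∀ a : ℂ, ∃ col : E → ℕ, (Set.range col).Finite ∧ (a ≠ 0 → ∀ η η', Lim v a Z η →
      Lim v a Z η' → dot (grad F (v a)) η = 0 → dot (grad F (v a)) η' = 0 → col η = col η' →
      ¬ LinearIndependent ℂ ![v a, V' o (X o) 0 a, η, η']) := by
    intro a
    by_cases ha0 : a = 0
    · exact ⟨fun _ => 0, by simp, fun h => absurd ha0 h⟩
    have hF : ∀ᶠ z in 𝓝 a, eval (v z) F = 0 :=
      (eventually_ne_nhds ha0).mono fun z hz => (hsol o).zero 0 z hz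
    have hFa : eval (v a) F = 0 := (hsol o).zero 0 a ha0
    obtain ⟨col, h1, h2⟩ := hTL Z v a a (grad F (v a)) G hcone hdep (han a ha0) hG
      (fun h => hfreq a ha0 (h.filter_mono nhdsWithin_le_nhds).frequently) ha0
      (fun h => by
        obtain ⟨i, hi⟩ := hp.smooth (v a) (hp.ne o 0 a ha0) hFa
        exact hi (congrFun h i))
      (euler hp.hom hFa) (dot_deriv F (hder a ha0).differentiableAt.hasDerivAt hF)
    refine ⟨col, h1, fun _ => ?_⟩
    rwa [(hder a ha0).deriv, smul_smul, mul_inv_cancel₀ ha0, one_smul] at h2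
  choose col hcol1 hcol2 using hcol
  obtain ⟨i, i', hii, heq⟩ := Set.Finite.exists_lt_map_eq_of_forall_mem
    (f := fun i : ℕ => (a i, col (a i) (Eta o (X o) (shx (4 * (P * i)) D) 0 (a i))))
    (t := {a ∈ Ann R | eval (v a) G = 0} ×ˢ ⋃ b ∈ {a ∈ Ann R | eval (v a) G = 0}, Set.range (col b))
    (fun i => ⟨ha i, Set.mem_biUnion (ha i) ⟨_, rfl⟩⟩)
    (hfin.prod (hfin.biUnion fun b _ => hcol1 b))
  obtain ⟨h1, h2⟩ := Prod.mk.inj heq
  have ha0 := ann_ne hR (ha i).1
  have hL' := hLim i'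
  rw [← h1] at h2 hL'
  have h3 := hcol2 (a i) ha0 _ _ (hLim i) hL' ((hlim i).1.zero 0 _ ha0)
    ((hlim i').1.zero 0 _ ha0) h2
  have h4 := hp.wr o (X o) _ _ (a i) (hsol o) (hlim i).1 (hlim i').1 ha0 h3
  obtain ⟨α, β, γ, δ, h5, h6⟩ := dep_pair (hp.est.ind o (X o) (hsol o)) h4
  obtain ⟨h7, h8⟩ := hChart.comb F ε c o (X o) _ _ γ δ hp.pos hp.half hp.cpos (hsol o)
    (hlim i).1 (hlim i').1
  have h9 := hp.est.nd o (X o) _ α β (hsol o) h7 (by rw [h8 0 1 one_ne_zero, h6])
  obtain ⟨N, hN⟩ := hFin D (4 * P) i i' γ δ hD1 (by exact_mod_cast hii.ne) (by omega) h5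
    fun k => by
      have := congrFun h9 k
      simpa [shx, mul_assoc] using this
  have hT : Tan F o (X o) D := by
    have := (hlim 0).1
    have h0 : shx (4 * (P * ((0 : ℕ) : ℤ))) D = D := by
      funext k
      simp [shx]
    rwa [h0] at this
  have h10 := hD1 0
  rw [hp.est.bdd o (X o) D N (hsol o) hT hN] at h10
  simp [mm] at h10
  linarith

end Pool.Agent.Lib.MP_cd3a7b_ag.Q5
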