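import Pool.Agent.Lib.MP_cd3a7b_ag.Q5.St

/-! Gluing lines in a quintic threefold: the category argument. -/

namespace Pool.Agent.Lib.MP_cd3a7b_ag.Q5

open MvPolynomial Finset Filter Topology

namespace BaireAux

theorem eval_smul' {G : Pol} {k : ℕ} (hG : G.IsHomogeneous k) (c : ℂ) (x : E) :
    eval (c • x) G = c ^ k * eval x G := by
  rw [eval_eq', eval_eq', Finset.mul_sum]
  refine Finset.sum_congr rfl fun d hd => ?_
  have h : ∑ i, d i = k := by
    have h1 := hG (mem_support_iff.mp hd)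
    rw [← h1, Finsupp.weight_apply, Finsupp.sum_fintype _ _ (by simp)]
    simp
  simp only [Pi.smul_apply, smul_eq_mul, mul_pow, Finset.prod_mul_distrib,
    Finset.prod_pow_eq_pow_sum, h]
  ring

theorem ann_compact (R : ℝ) : IsCompact (Ann R) := by
  have h : Ann R = Metric.closedBall (0 : ℂ) R ∩ {z | R⁻¹ ≤ ‖z‖} := by
    ext z
    simp [Ann, and_comm]
  rw [h]
  exact (isCompact_closedBall 0 R).inter_right (isClosed_le continuous_const continuous_norm)

theorem ann_ne {R : ℝ} (hR : 1 ≤ R) {z : ℂ} (hz : z ∈ Ann R) : z ≠ 0 := by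
  have h : 0 < R⁻¹ := by positivity
  exact norm_pos_iff.mp (h.trans_le hz.1)

theorem mem_ann {z : ℂ} (hz : z ≠ 0) : ∃ n : ℕ, z ∈ Ann ((n : ℝ) + 1) := by
  obtain ⟨n, hn⟩ := exists_nat_ge (max ‖z‖ ‖z‖⁻¹)
  have h0 : 0 < ‖z‖ := norm_pos_iff.mpr hz
  refine ⟨n, ?_, by linarith [le_max_left ‖z‖ ‖z‖⁻¹]⟩
  exact inv_le_of_inv_le₀ h0 (by linarith [le_max_right ‖z‖ ‖z‖⁻¹])

theorem exists_not_dvd {F : Pol} {p : E} (hp : eval p F = 0) {S : Set Pol}
    (hh : 3 ≤ (Ideal.span S).height) : ∃ G ∈ S, ¬ F ∣ G := by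
  by_contra h
  push Not at h
  have h1 : Ideal.span S ≤ Ideal.span {F} :=
    Ideal.span_le.mpr fun G hG => Ideal.mem_span_singleton.mpr (h G hG)
  have h2 : ¬ IsUnit F := fun hu => (hu.map (eval p)).ne_zero hp
  have h3 := (hh.trans (Ideal.height_mono h1)).trans (Ideal.height_span_singleton_le_one h2)
  exact absurd h3 (by decide)

end BaireAux

open BaireAux in
theorem stBaire (_hChart : StChart) (hCont : StCont) (hAvoid : StAvoid) (hDep : StDep)
    (hTop : StTop) (hDense : StDense) : StBaire := by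
  intro F ε c C X hp S hS hh
  set Z : Set E := {x | ∀ G ∈ S, eval x G = 0} with hZ
  have hZc : IsClosed Z := by
    have h : Z = ⋂ G ∈ S, {x : E | eval x G = 0} := by
      ext x
      simp [hZ]
    rw [h]
    exact isClosed_biInter fun G _ => isClosed_eq (continuous_eval G) continuous_const
  have hcone : IsCone Z := fun a x hx G hG => by
    obtain ⟨k, hk⟩ := hS G hG
    rw [eval_smul' hk, hx G hG, mul_zero]
  obtain ⟨G, hG, hFG⟩ := exists_not_dvd
    ((hp.fam.sol (fun _ => true)).zero 0 1 one_ne_zero) hh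
  obtain ⟨k, hk⟩ := hS G hG
  have hn1 : ∀ n : ℕ, (1 : ℝ) ≤ (n : ℝ) + 1 := fun n => by
    have : (0 : ℝ) ≤ n := Nat.cast_nonneg n
    linarith
  have hres : ∀ n : ℕ,
      {o : Om | ∀ z ∈ Ann ((n : ℝ) + 1), V o (X o) 0 z ∉ Z} ∈ residual Om := by
    intro n
    refine residual_of_dense_open ?_ ?_
    · refine isOpen_iff_mem_nhds.mpr fun o ho => ?_
      refine (ann_compact _).eventually_forall_of_forall_eventually
        (P := fun o' z => V o' (X o') 0 z ∉ Z) fun z hz => ?_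
      exact (hCont F ε c C X hp o z (ann_ne (hn1 n) hz)).eventually
        (hZc.isOpen_compl.mem_nhds (ho z hz))
    · refine dense_iff_inter_open.mpr fun U hU hne => ?_
      by_contra hemp
      obtain ⟨o₁, ho₁U, ho₁⟩ := (dense_of_mem_residual hTop.trv).inter_open_nonempty U hU hne
      have h1 : ∃ z, z ≠ 0 ∧ eval (V o₁ (X o₁) 0 z) G ≠ 0 := by
        by_contra h
        push Not at h
        exact hFG (hDense F ε c C X hp o₁ ho₁ G k hk h)
      obtain ⟨z, hz, hz'⟩ := h1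
      have h2 : Tendsto (fun o : Om => V o (X o) 0 z) (𝓝 o₁) (𝓝 (V o₁ (X o₁) 0 z)) :=
        (hCont F ε c C X hp o₁ z hz).comp (f := fun o : Om => (o, z))
          (Continuous.prodMk_left z).continuousAt
      have h3 : ∀ᶠ o in 𝓝 o₁, eval (V o (X o) 0 z) G ≠ 0 :=
        (((continuous_eval G).tendsto _).comp h2).eventually_ne hz'
      obtain ⟨o₂, ho₂, P, hP, hper⟩ := hTop.per o₁ _ (inter_mem (hU.mem_nhds ho₁U) h3)
      refine hAvoid F ε c C X hp Z G o₂ P ((n : ℝ) + 1) hZc hcone (hDep S hh)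
        (fun x hx => hx G hG) ⟨z, hz, ho₂.2⟩ hP hper (hn1 n) ?_
      filter_upwards [hU.mem_nhds ho₂.1] with o ho
      by_contra h
      push Not at h
      exact hemp ⟨o, ho, h⟩
  have hall : {o | Trv o} ∩ ⋂ n : ℕ, {o : Om | ∀ z ∈ Ann ((n : ℝ) + 1), V o (X o) 0 z ∉ Z} ∈
      residual Om := inter_mem hTop.trv (countable_iInter_mem.mpr hres)
  obtain ⟨o, ho, ho'⟩ := (dense_of_mem_residual hall).nonempty
  refine ⟨o, ho, fun z hz => ?_⟩
  obtain ⟨n, hn⟩ := mem_ann hz
  have h := Set.mem_iInter.mp ho' n z hn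
  by_contra h'
  push Not at h'
  exact h h'

end Pool.Agent.Lib.MP_cd3a7b_ag.Q5
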