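import Pool.Agent.Lib.MP_cd3a7b_ag.Q5.St

/-! Flipping a periodic walk at two far blocks and recentring. -/

namespace Pool.Agent.Lib.MP_cd3a7b_ag.Q5

open MvPolynomial Finset Filter Topology

namespace BlowAux

/-- The walk flipped at the blocks `-1` and `M`. -/
def fl (o : Om) (M : ℤ) : Om := fun t => if t = -1 ∨ t = M then !o t else o t

theorem fl_ne (o : Om) (M t : ℤ) (h : t = -1 ∨ t = M) : fl o M t ≠ o t := by
  simp [fl, h]

theorem fl_eq (o : Om) (M t : ℤ) (h : ¬ (t = -1 ∨ t = M)) : fl o M t = o t := if_neg h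

theorem per (o : Om) (P : ℤ) (h : sh P o = o) (i : ℤ) : sh (P * i) o = o := by
  have hp : Function.Periodic o P := fun s => congrFun h s
  funext s
  have := hp.int_mul i s
  rw [Int.cast_id, mul_comm] at this
  exact this

theorem mm_le (D : St) (k : ℤ) (b : ℝ) (h1 : ‖D k‖ ≤ b) (h2 : ‖D (k + 1)‖ ≤ b) : mm D k ≤ b :=
  max_le ((norm_snd_le _).trans h1) ((norm_snd_le _).trans h2)

theorem mm_nonneg (D : St) (k : ℤ) : 0 ≤ mm D k := (norm_nonneg _).trans (le_max_left _ _)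

theorem mm_shift (x x' : St) (t k : ℤ) : mm (shx t x - shx t x') k = mm (x - x') (k + t) := by
  simp only [mm, shx, Pi.sub_apply, add_right_comm k 1 t]

end BlowAux

open BlowAux

theorem stBlow (hWalk : StWalk) (hChart : StChart) : StBlow := by
  intro F ε c C X hP o P hP0 hper
  obtain ⟨M, hM⟩ : ∃ M : ℕ → ℤ, ∀ n, M n = P * (2 * (n + 1)) := ⟨_, fun _ => rfl⟩
  have hC : 0 < C := lt_of_lt_of_le one_pos hP.one
  have hag : ∀ n, Agree (fl o (M n)) o 0 (4 * M n + 2) := fun n =>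
    hWalk.agree _ _ _ _ fun s h1 h2 => fl_eq o _ s (by omega)
  have hmin : ∀ n : ℕ, ∃ j : ℤ, (1 ≤ j ∧ j ≤ 2 * (n + 1)) ∧ ∀ j' : ℤ, 1 ≤ j' → j' ≤ 2 * (n + 1) →
      mm (X (fl o (M n)) - X o) (4 * (P * j)) ≤ mm (X (fl o (M n)) - X o) (4 * (P * j')) := by
    intro n
    obtain ⟨j, hj, h⟩ := (Finset.Icc (1 : ℤ) (2 * (n + 1))).exists_min_image
      (fun j => mm (X (fl o (M n)) - X o) (4 * (P * j))) ⟨1, Finset.mem_Icc.2 ⟨le_rfl, by omega⟩⟩
    exact ⟨j, Finset.mem_Icc.1 hj, fun j' h1 h2 => h j' (Finset.mem_Icc.2 ⟨h1, h2⟩)⟩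
  choose j hj hjm using hmin
  obtain ⟨s, hs⟩ : ∃ s : ℕ → ℝ, ∀ n, s n = mm (X (fl o (M n)) - X o) (4 * (P * j n)) :=
    ⟨_, fun _ => rfl⟩
  have hPj : ∀ n, 1 ≤ P * j n ∧ P * j n ≤ M n := fun n =>
    ⟨by nlinarith [(hj n).1], by rw [hM]; exact mul_le_mul_of_nonneg_left (hj n).2 hP0.le⟩
  have hcl : ∀ n, Close (fl o (M n)) o (X (fl o (M n))) (X o) ε (4 * (P * j n)) (C * s n) := by
    intro n
    rw [hs]
    refine hP.est.ap _ _ _ _ (-1) (4 * M n + 3) _ (hP.fam.sol _) (hP.fam.sol _) ?_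
      (by have := hPj n; omega) (by have := hPj n; omega) ?_ ?_
    · have := hag n
      rwa [show (-1 : ℤ) + 1 = 0 by ring, show 4 * M n + 3 - 1 = 4 * M n + 2 by ring]
    · exact (hP.fam.lb _ _ (-1) (fl_ne o _ _ (Or.inl rfl))).2
    · rw [show 4 * M n + 3 - 3 = 4 * M n by ring]
      exact (hP.fam.lb _ _ (M n) (fl_ne o _ _ (Or.inr rfl))).1
  have hfl : ∀ n t, t = -1 ∨ t = M n → ε ≤ C * s n * kw (4 * t + 3 - 4 * (P * j n)) := by
    intro n t ht
    refine le_trans ?_ (hcl n (4 * t + 3))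
    refine le_trans ?_ (le_max_right _ _)
    rw [if_neg (hWalk.flip _ _ t (fl_ne o _ _ ht))]
  have hs0 : ∀ n, 0 ≤ s n := fun n => hs n ▸ mm_nonneg _ _
  have hpos : ∀ n, 0 < s n := by
    intro n
    refine lt_of_le_of_ne (hs0 n) fun h => ?_
    have := hfl n (-1) (Or.inl rfl)
    rw [← h, mul_zero, zero_mul] at this
    exact absurd hP.pos (not_lt.2 this)
  have hle : ∀ n, s n ≤ C * (1 / 2) ^ n := by
    intro n
    have h1 : (n : ℤ) + 1 ≤ P * (n + 1) := by nlinarith [Int.natCast_nonneg n]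
    have h2 : M n = 2 * (P * (n + 1)) := by rw [hM]; ring
    rw [hs]
    refine (hjm n (n + 1) (by omega) (by omega)).trans (mm_le _ _ _ ?_ ?_)
    · exact hP.est.dec _ _ _ _ _ n (hP.fam.sol _) (hP.fam.sol _)
        fun i i1 i2 => hag n i (by omega) (by omega)
    · exact hP.est.dec _ _ _ _ _ n (hP.fam.sol _) (hP.fam.sol _)
        fun i i1 i2 => hag n i (by omega) (by omega)
  have hlim : Tendsto s atTop (𝓝 0) := by
    refine squeeze_zero hs0 hle ?_
    simpa using (tendsto_pow_atTop_nhds_zero_of_lt_one (r := (1 / 2 : ℝ)) (by norm_num)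
      (by norm_num)).const_mul C
  have hfar : ∀ b : ℤ, ∀ᶠ n in atTop, ∀ t, t = -1 ∨ t = M n →
      b.natAbs < (4 * t + 3 - 4 * (P * j n)).natAbs := by
    intro b
    have h1 : Tendsto (fun n => C * s n * kw b) atTop (𝓝 0) := by
      simpa using (hlim.const_mul C).mul_const (kw b)
    filter_upwards [h1.eventually_lt_const hP.pos] with n hn t ht
    by_contra h
    have h2 := mul_le_mul_of_nonneg_left (hWalk.kw_mono _ _ (not_lt.1 h))
      (mul_nonneg hC.le (hs0 n))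
    exact absurd ((hfl n t ht).trans h2) (not_le.2 hn)
  have hX : ∀ n, X (sh (P * j n) (fl o (M n))) = shx (4 * (P * j n)) (X (fl o (M n))) :=
    fun n => hChart.equi F ε c C X hP.fam hP.est _ _
  have hXo : ∀ n, X o = shx (4 * (P * j n)) (X o) := fun n => by
    rw [← hChart.equi F ε c C X hP.fam hP.est, per o P hper]
  refine ⟨fun n => sh (P * j n) (fl o (M n)), s, hpos, hlim, ?_, fun n i => ?_, fun i => ?_⟩
  · refine tendsto_pi_nhds.2 fun t => tendsto_const_nhds.congr' ?_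
    filter_upwards [hfar (4 * t + 3)] with n hn
    have h1 : ¬ (t + P * j n = -1 ∨ t + P * j n = M n) := fun h => by
      have := hn _ h
      rw [show 4 * (t + P * j n) + 3 - 4 * (P * j n) = 4 * t + 3 by ring] at this
      exact lt_irrefl _ this
    exact ((fl_eq o _ _ h1).trans (congrFun (per o P hper (j n)) t)).symm
  · have h1 := hcl n (i + 4 * (P * j n))
    rw [add_sub_cancel_right] at h1
    rw [sub_zero]
    refine le_trans (le_of_eq ?_) h1
    have h2 : w o i = w o (i + 4 * (P * j n)) := by rw [← hWalk.sh, per o P hper]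
    have h3 : X o i = X o (i + 4 * (P * j n)) := congrFun (hXo n) i
    simp only [dl]
    rw [hX, hWalk.sh, h2, h3]
    rfl
  · filter_upwards [hfar (4 * (P * |i|) + 3)] with n hn
    have h1 := hn (-1) (Or.inl rfl)
    have h2 := hn (M n) (Or.inr rfl)
    have h3 := hPj n
    have h4 : 0 ≤ P * |i| := mul_nonneg hP0.le (abs_nonneg i)
    have h5 : |i| < j n := lt_of_mul_lt_mul_left (a := P) (by omega) hP0.le
    have h6 : |i| < 2 * (n + 1) - j n :=
      lt_of_mul_lt_mul_left (a := P) (by rw [mul_sub, ← hM]; omega) hP0.le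
    have h7 := le_abs_self i
    have h8 := neg_abs_le i
    have h9 := mm_shift (X (fl o (M n))) (X o) (4 * (P * j n)) (4 * P * i)
    rw [← hX, ← hXo] at h9
    rw [h9, show 4 * P * i + 4 * (P * j n) = 4 * (P * (i + j n)) by ring, hs]
    exact hjm n _ (by omega) (by omega)

end Pool.Agent.Lib.MP_cd3a7b_ag.Q5
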