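import Pool.Agent.Lib.MP_cd3a7b_ag.Q5.St

/-! Change of chart, shifts and linear combinations. -/

namespace Pool.Agent.Lib.MP_cd3a7b_ag.Q5

open MvPolynomial Finset Filter Topology

namespace ChartAux

theorem va_chart (hP : StProd) (o : Om) (x : St) (k j : ℤ) (h : (x (k + 1)).2 ≠ 0) :
    va o x k j = (x (k + 1)).2 ^ (j - 1) • va o x (k + 1) (j - 1) := by
  have e1 : k + 1 + (j - 1) = k + j := by ring
  simp only [va, e1, smul_smul]
  rw [hP.chart (ta x) k j h]
  rfl

theorem grow (hW : StWalk) (D : St) (k : ℤ) (N : ℝ) (h : Grow D 0 N) : Grow D k (N * kw k) := by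
  intro i
  have h0 : 0 ≤ N := by
    have h1 := (norm_nonneg _).trans (h 0)
    have h2 := hW.one_le_kw (0 - 0)
    by_contra h3
    nlinarith
  have h1 := hW.kw_add k (i - k)
  rw [show k + (i - k) = i - 0 by ring] at h1
  calc ‖D i‖ ≤ N * kw (i - 0) := h i
    _ ≤ N * (kw k * kw (i - k)) := by gcongr
    _ = _ := by ring

theorem low_ne {x : St} {a : ℝ} (ha : 0 < a) (h : Low x a) (k : ℤ) : (x k).2 ≠ 0 :=
  norm_pos_iff.1 (ha.trans_le (h k))

theorem u_shift (hW : StWalk) (o : Om) (x : St) (t k j : ℤ) :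
    u (sh t o) (shx (4 * t) x) (k + j) = u o x (k + 4 * t + j) := by
  have e1 : k + j + 4 * t = k + 4 * t + j := by ring
  simp only [u, shx, hW.sh, e1]

theorem va_shift (hW : StWalk) (hP : StProd) (o : Om) (x : St) (t k : ℤ) :
    va (sh t o) (shx (4 * t) x) k = va o x (k + 4 * t) := by
  funext j
  simp only [va, u_shift hW]
  rw [← (hP.shift (ta x) (4 * t) k j).1]
  rfl

theorem ea_shift (hW : StWalk) (hP : StProd) (o : Om) (x D : St) (t k : ℤ) :
    ea (sh t o) (shx (4 * t) x) (shx (4 * t) D) k = ea o x D (k + 4 * t) := by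
  funext j
  have e1 : k + j + 4 * t = k + 4 * t + j := by ring
  simp only [ea, u_shift hW]
  rw [← (hP.shift (ta x) (4 * t) k j).1,
    ← (hP.shift (fun i => (D i).2 / (x i).2) (4 * t) k j).2, ← e1]
  rfl

theorem ea_lin (hP : StProd) (o : Om) (x D D' : St) (α β : ℂ) (k : ℤ) :
    ea o x (α • D + β • D') k = fun j => α • ea o x D k j + β • ea o x D' k j := by
  funext j
  have e1 : (fun i => ((α • D + β • D') i).2 / (x i).2) =
      fun i => α * ((D i).2 / (x i).2) + β * ((D' i).2 / (x i).2) := by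
    funext i
    simp only [Pi.add_apply, Pi.smul_apply, Prod.snd_add, Prod.smul_snd, smul_eq_mul]
    ring
  simp only [ea]
  rw [e1, hP.rlin]
  simp only [Pi.add_apply, Pi.smul_apply, Prod.fst_add, Prod.smul_fst]
  module

theorem dot_lin (g a b : E) (α β : ℂ) : dot g (α • a + β • b) = α * dot g a + β * dot g b := by
  simp only [dot, Pi.add_apply, Pi.smul_apply, smul_eq_mul, mul_sum, ← sum_add_distrib]
  exact sum_congr rfl fun i _ => by ring

theorem sol (hW : StWalk) (hP : StProd) (F : Pol) (ε c : ℝ) (o : Om) (x : St) (t : ℤ)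
    (h : Sol F ε c o x) : Sol F ε c (sh t o) (shx (4 * t) x) := by
  refine ⟨fun k => ?_, fun k => h.small _, fun k => h.low _, fun k y hy => ?_⟩
  · rw [hW.sh]; exact h.b0 _
  · rw [V, va_shift hW hP]; exact h.zero _ y hy

end ChartAux

open ChartAux

theorem stChart (hWalk : StWalk) (hProd : StProd) (hLau : StLau) (hSerA : StSerA) : StChart where
  v o x k y h hy := hLau.chart _ _ _ y h hy fun j => va_chart hProd o x k j h
  v' o x k ε y hs hε h hy := by
    have f1 := hSerA.fast o x (k + 1) ε hs hε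
    have h1 := (hLau.lin _ _ 1 1 f1 (hLau.fd _ f1)).2 _ (mul_ne_zero h hy)
    rw [one_smul, one_smul] at h1
    refine (hLau.chart _ (fun j => (1 : ℂ) • va o x (k + 1) j +
      (1 : ℂ) • ((j : ℂ) • va o x (k + 1) j)) _ y h hy fun j => ?_).trans (congrArg _ h1)
    simp only [va', va_chart hProd o x k j h, Int.cast_sub, Int.cast_one]
    module
  eta o x D k ε a N y hs hε ha hl hg hy := by
    have h := low_ne ha hl (k + 1)
    have f1 := hSerA.fast o x (k + 1) ε hs hε
    have f2 := hSerA.faste o x D (k + 1) ε a _ hs hε ha hl (grow hWalk D (k + 1) N hg)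
    have h1 := (hLau.lin _ _ 1 ((D (k + 1)).2 / (x (k + 1)).2) f2 (hLau.fd _ f1)).2 _
      (mul_ne_zero h hy)
    rw [one_smul] at h1
    refine (hLau.chart _ (fun j => (1 : ℂ) • ea o x D (k + 1) j +
      ((D (k + 1)).2 / (x (k + 1)).2) • ((j : ℂ) • va o x (k + 1) j)) _ y h hy
      fun j => ?_).trans (congrArg _ h1)
    have e1 : k + 1 + (j - 1) = k + j := by ring
    have e2 : ta x (k + 1) = (x (k + 1)).2 := rfl
    simp only [ea, va, e1, Int.cast_sub, Int.cast_one]
    rw [hProd.chart (ta x) k j h, hProd.rchart _ k j, e2]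
    module
  der o x k ε y hs hε hy :=
    ⟨hLau.der _ y (hSerA.fast o x k ε hs hε) hy,
      (hLau.der _ y (hLau.fd _ (hSerA.fast o x k ε hs hε)) hy).differentiableAt⟩
  dere o x D k ε a N y hs hε ha hl hg hy :=
    (hLau.der _ y (hSerA.faste o x D k ε a _ hs hε ha hl (grow hWalk D k N hg)) hy).differentiableAt
  grow := grow hWalk
  shift o x D t k := by
    refine ⟨congrArg Lau (va_shift hWalk hProd o x t k), congrArg Lau ?_,
      congrArg Lau (ea_shift hWalk hProd o x D t k)⟩
    funext j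
    simp only [va', va_shift hWalk hProd]
  sol := sol hWalk hProd
  comb F ε c o x D D' α β hε0 hε hc hs hD hD' := by
    obtain ⟨N, hN⟩ := hD.grow
    obtain ⟨N', hN'⟩ := hD'.grow
    have key : ∀ k y, y ≠ 0 →
        Eta o x (α • D + β • D') k y = α • Eta o x D k y + β • Eta o x D' k y := by
      intro k y hy
      rw [Eta, ea_lin hProd]
      exact (hLau.lin _ _ α β
        (hSerA.faste o x D k ε _ _ hs.small hε (mul_pos hc hε0) hs.low (grow hWalk D k N hN))
        (hSerA.faste o x D' k ε _ _ hs.small hε (mul_pos hc hε0) hs.low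
          (grow hWalk D' k N' hN'))).2 y hy
    refine ⟨⟨fun k => ?_, ⟨‖α‖ * N + ‖β‖ * N', fun i => ?_⟩, fun k y hy => ?_⟩, key⟩
    · simp [hD.b0 k, hD'.b0 k]
    · calc ‖(α • D + β • D') i‖ ≤ ‖α • D i‖ + ‖β • D' i‖ := norm_add_le _ _
        _ = ‖α‖ * ‖D i‖ + ‖β‖ * ‖D' i‖ := by rw [norm_smul, norm_smul]
        _ ≤ ‖α‖ * (N * kw (i - 0)) + ‖β‖ * (N' * kw (i - 0)) := by
          gcongr
          · exact hN i
          · exact hN' i
        _ = _ := by ring
    · rw [key k y hy, dot_lin, hD.zero k y hy, hD'.zero k y hy]; simp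
  equi F ε c C X hF hE t o := by
    funext k
    have h1 : ∀ n : ℕ, ‖X (sh t o) k - shx (4 * t) (X o) k‖ ≤ C * (1 / 2) ^ n := fun n =>
      hE.dec _ _ _ _ k n (hF.sol _) (sol hWalk hProd F ε c o _ t (hF.sol o)) fun _ _ _ => rfl
    have h2 : Tendsto (fun n : ℕ => C * (1 / 2 : ℝ) ^ n) atTop (𝓝 (C * 0)) :=
      (tendsto_pow_atTop_nhds_zero_of_lt_one (by norm_num) (by norm_num)).const_mul C
    rw [mul_zero] at h2
    exact sub_eq_zero.1 (norm_le_zero_iff.1 (ge_of_tendsto' h2 h1))

end Pool.Agent.Lib.MP_cd3a7b_ag.Q5
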