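import Pool.Agent.Lib.MP_cd3a7b_ag.Q5.St

/-! Laurent coefficients on the unit circle. -/

namespace Pool.Agent.Lib.MP_cd3a7b_ag.Q5

open Finset Filter Topology Complex Metric

namespace CoAux

theorem ne_of_norm {y : ℂ} (hy : ‖y‖ = 1) : y ≠ 0 := by
  intro h
  simp [h] at hy

theorem norm_of_sphere {y : ℂ} (hy : y ∈ sphere (0 : ℂ) 1) : ‖y‖ = 1 := by
  simpa using hy

theorem tpi_ne : (2 * Real.pi * I : ℂ) ≠ 0 := by
  simp [Real.pi_ne_zero, I_ne_zero]

theorem contOn_zpow (m : ℤ) : ContinuousOn (fun y : ℂ => y ^ m) (sphere 0 1) := fun y hy =>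
  (continuousAt_zpow₀ y m (Or.inl (ne_of_norm (norm_of_sphere hy)))).continuousWithinAt

theorem integ (m : ℤ) {f : ℂ → ℂ} (hf : ContinuousOn f (sphere 0 1)) :
    CircleIntegrable (fun y => y ^ m * f y) 0 1 :=
  ((contOn_zpow m).mul hf).circleIntegrable zero_le_one

theorem bound (n : ℤ) (f : ℂ → ℂ) (M : ℝ) (h : ∀ y, ‖y‖ = 1 → ‖f y‖ ≤ M) : ‖co n f‖ ≤ M := by
  have := circleIntegral.norm_two_pi_i_inv_smul_integral_le_of_norm_le_const
    (f := fun y => y ^ (-(n + 1)) * f y) (c := 0) (R := 1) (C := M) zero_le_one (by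
      intro z hz
      have h1 := norm_of_sphere hz
      rw [norm_mul, norm_zpow, h1, one_zpow, one_mul]
      exact h z h1)
  simpa [co] using this

theorem congr' (n : ℤ) (f g : ℂ → ℂ) (h : ∀ y, ‖y‖ = 1 → f y = g y) : co n f = co n g := by
  unfold co
  congr 1
  refine circleIntegral.integral_congr zero_le_one fun y hy => ?_
  simp only [h y (norm_of_sphere hy)]

theorem add (n : ℤ) (f g : ℂ → ℂ) (hf : ContinuousOn f (sphere 0 1))
    (hg : ContinuousOn g (sphere 0 1)) :
    co n (fun y => f y + g y) = co n f + co n g ∧ co n (fun y => f y - g y) = co n f - co n g := by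
  unfold co
  constructor
  · rw [← smul_add, ← circleIntegral.integral_add (integ _ hf) (integ _ hg)]
    simp only [mul_add]
  · rw [← smul_sub, ← circleIntegral.integral_sub (integ _ hf) (integ _ hg)]
    simp only [mul_sub]

theorem int_zpow (m : ℤ) :
    (∮ y in C(0, 1), (y : ℂ) ^ m) = if m = -1 then 2 * Real.pi * I else 0 := by
  split_ifs with h
  · subst h
    simpa using circleIntegral.integral_sub_center_inv (0 : ℂ) (R := 1) one_ne_zero
  · simpa using circleIntegral.integral_sub_zpow_of_ne h (0 : ℂ) (0 : ℂ) 1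

theorem mono (n m : ℤ) (a : ℂ) : co n (fun y => a * y ^ m) = if n = m then a else 0 := by
  have e1 : (∮ y in C(0, 1), y ^ (-(n + 1)) * (a * y ^ m)) =
      ∮ y in C(0, 1), a * (y : ℂ) ^ (m - (n + 1)) := by
    refine circleIntegral.integral_congr zero_le_one fun y hy => ?_
    have h0 := ne_of_norm (norm_of_sphere hy)
    rw [sub_eq_add_neg, zpow_add₀ h0]
    ring
  unfold co
  rw [e1, circleIntegral.integral_const_mul, int_zpow]
  by_cases h : n = m
  · rw [if_pos h, if_pos (by omega), smul_eq_mul]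
    have := tpi_ne
    field_simp
  · rw [if_neg h, if_neg (by omega)]
    simp

theorem const (n : ℤ) (a : ℂ) : co n (fun _ => a) = if n = 0 then a else 0 := by
  rw [← mono n 0 a]
  simp

theorem poly (a : Fin 6 → ℂ) (r : Fin 6) :
    co (r : ℕ) (fun y => ∑ s, a s * y ^ (s : ℕ)) = a r := by
  have e1 : co (r : ℕ) (fun y => ∑ s, a s * y ^ (s : ℕ)) =
      ∑ s : Fin 6, co (r : ℕ) (fun y => a s * y ^ ((s : ℕ) : ℤ)) := by
    unfold co
    rw [← Finset.smul_sum, ← circleIntegral.integral_fun_sum]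
    · simp only [Finset.mul_sum, zpow_natCast]
    · intro s _
      exact integ _ (continuousOn_const.mul (contOn_zpow _))
  rw [e1]
  simp only [mono]
  rw [Finset.sum_eq_single r]
  · simp
  · intro s _ hs
    rw [if_neg]
    intro h
    exact hs (Fin.ext (by exact_mod_cast h.symm))
  · simp

theorem mul (n : ℤ) (f : ℂ → ℂ) : co n (fun y => y ^ 5 * f y) = co (n - 5) f := by
  unfold co
  congr 1
  refine circleIntegral.integral_congr zero_le_one fun y hy => ?_
  have h0 := ne_of_norm (norm_of_sphere hy)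
  have e1 : -(n - 5 + 1) = -(n + 1) + 5 := by ring
  simp only
  rw [e1, zpow_add₀ h0, mul_assoc]
  rfl

theorem rot (lam : ℂ) (θ : ℝ) : circleMap 0 ‖lam‖ (θ + arg lam) = lam * circleMap 0 1 θ := by
  simp only [circleMap, zero_add, ofReal_one, one_mul, ofReal_add, add_mul, exp_add]
  conv_rhs => rw [← norm_mul_exp_arg_mul_I lam]
  ring

theorem change (g : ℂ → ℂ) (lam : ℂ) :
    (∮ z in C(0, ‖lam‖), g z) = lam * ∮ y in C(0, 1), g (lam * y) := by
  set h : ℝ → ℂ := fun θ => deriv (circleMap 0 ‖lam‖) θ • g (circleMap 0 ‖lam‖ θ) with hh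
  have hp : Function.Periodic h (2 * Real.pi) := by
    intro θ
    simp only [hh, deriv_circleMap, periodic_circleMap 0 ‖lam‖ θ]
  have e1 : (∮ z in C(0, ‖lam‖), g z) = ∫ θ in (0 : ℝ)..0 + 2 * Real.pi, h θ := by
    simp only [circleIntegral, zero_add, hh]
  have e2 := hp.intervalIntegral_add_eq 0 (arg lam)
  have e3 : ∫ θ in (0 : ℝ)..2 * Real.pi, h (θ + arg lam) =
      ∫ θ in (arg lam)..arg lam + 2 * Real.pi, h θ := by
    rw [intervalIntegral.integral_comp_add_right h (arg lam), zero_add, add_comm]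
  rw [e1, e2, ← e3, circleIntegral, ← intervalIntegral.integral_const_mul]
  refine intervalIntegral.integral_congr fun θ _ => ?_
  simp only [hh, deriv_circleMap, rot, smul_eq_mul]
  ring

theorem radius (g : ℂ → ℂ) (hg : DifferentiableOn ℂ g {0}ᶜ) {r R : ℝ} (h0 : 0 < r) (hle : r ≤ R) :
    (∮ z in C(0, R), g z) = ∮ z in C(0, r), g z := by
  refine circleIntegral_eq_of_differentiable_on_annulus_off_countable (s := ∅) h0 hle
    Set.countable_empty (hg.continuousOn.mono fun z hz => ?_) fun z hz => ?_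
  · intro h
    have h' : z = 0 := h
    exact hz.2 (by rw [h']; exact mem_ball_self h0)
  · refine hg.differentiableAt (isOpen_compl_singleton.mem_nhds ?_)
    intro h
    have h' : z = 0 := h
    exact hz.1.2 (by rw [h']; exact mem_closedBall_self h0.le)

theorem radius' (g : ℂ → ℂ) (hg : DifferentiableOn ℂ g {0}ᶜ) {r : ℝ} (h0 : 0 < r) :
    (∮ z in C(0, r), g z) = ∮ z in C(0, 1), g z := by
  rcases le_total r 1 with h | h
  · exact (radius g hg h0 h).symm
  · exact radius g hg one_pos h

theorem scale (n : ℤ) (f : ℂ → ℂ) (lam : ℂ) (hf : DifferentiableOn ℂ f {0}ᶜ) (hl : lam ≠ 0) :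
    co n (fun y => f (lam * y)) = lam ^ n * co n f := by
  have hg : DifferentiableOn ℂ (fun z : ℂ => z ^ (-(n + 1)) * f z) {0}ᶜ := by
    refine DifferentiableOn.mul (fun z hz => ?_) hf
    exact (differentiableAt_zpow.2 (Or.inl hz)).differentiableWithinAt
  have e1 := radius' _ hg (norm_pos_iff.2 hl)
  rw [change] at e1
  have e2 : (∮ y in C(0, 1), (lam * y) ^ (-(n + 1)) * f (lam * y)) =
      lam ^ (-(n + 1)) * ∮ y in C(0, 1), y ^ (-(n + 1)) * f (lam * y) := by
    rw [← circleIntegral.integral_const_mul]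
    simp only [mul_zpow, mul_assoc]
  rw [e2] at e1
  have e3 : lam ^ n * (lam * lam ^ (-(n + 1))) = 1 := by
    rw [← mul_assoc, ← zpow_add_one₀ hl, ← zpow_add₀ hl]
    simp
  unfold co
  rw [← e1, smul_eq_mul, smul_eq_mul]
  linear_combination (-((2 * Real.pi * I : ℂ)⁻¹ *
    ∮ y in C(0, 1), y ^ (-(n + 1)) * f (lam * y))) * e3

theorem zero_one (g : ℂ → ℂ) (hg : ContinuousOn g (sphere 0 1)) (h : ∀ n, co n g = 0) :
    g 1 = 0 := by
  have : Fact (0 < 2 * Real.pi) := ⟨Real.two_pi_pos⟩
  have hs : ∀ x : AddCircle (2 * Real.pi), (fourier 1 x : ℂ) ∈ sphere (0 : ℂ) 1 := by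
    intro x
    simp [fourier_apply]
  let F : C(AddCircle (2 * Real.pi), ℂ) :=
    ⟨fun x => g (fourier 1 x), hg.comp_continuous (fourier 1).continuous hs⟩
  have hpi : (Real.pi : ℂ) ≠ 0 := by simp [Real.pi_ne_zero]
  have hf : ∀ (m : ℤ) (x : ℝ),
      (fourier m (x : AddCircle (2 * Real.pi)) : ℂ) = circleMap 0 1 x ^ m := by
    intro m x
    rw [fourier_coe_apply, circleMap, zero_add, ofReal_one, one_mul, ← exp_int_mul]
    congr 1
    push_cast
    field_simp
  have hc : ∀ n, fourierCoeff F n = 0 := by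
    intro n
    have h1 := h n
    rw [co, smul_eq_mul, mul_eq_zero] at h1
    have h2 := h1.resolve_left (inv_ne_zero tpi_ne)
    have h3 : (∮ y in C(0, 1), y ^ (-(n + 1)) * g y) =
        I * ∫ x in (0 : ℝ)..0 + 2 * Real.pi,
          fourier (-n) (x : AddCircle (2 * Real.pi)) • F (x : AddCircle (2 * Real.pi)) := by
      rw [circleIntegral, zero_add, ← intervalIntegral.integral_const_mul]
      refine intervalIntegral.integral_congr fun θ _ => ?_
      have h0 : circleMap 0 1 θ ≠ 0 := circleMap_ne_center one_ne_zero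
      have e1 : F (θ : AddCircle (2 * Real.pi)) = g (circleMap 0 1 θ) := by
        show g (fourier 1 (θ : AddCircle (2 * Real.pi))) = _
        rw [hf, zpow_one]
      have e2 : circleMap 0 1 θ ^ (-n) = circleMap 0 1 θ ^ (-(n + 1)) * circleMap 0 1 θ := by
        rw [← zpow_add_one₀ h0]
        congr 1
        ring
      simp only [deriv_circleMap, smul_eq_mul, e1, hf, e2]
      ring
    rw [h3, mul_eq_zero] at h2
    rw [fourierCoeff_eq_intervalIntegral F n 0, h2.resolve_left I_ne_zero, smul_zero]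
  have hsum : Summable (fourierCoeff F) := by
    rw [show fourierCoeff F = fun _ => 0 from funext hc]
    exact summable_zero
  have h4 := has_pointwise_sum_fourier_series_of_summable hsum ((0 : ℝ) : AddCircle (2 * Real.pi))
  simp only [hc, zero_smul] at h4
  have h5 := hasSum_zero.unique h4
  have e1 : F ((0 : ℝ) : AddCircle (2 * Real.pi)) = g 1 := by
    show g (fourier 1 ((0 : ℝ) : AddCircle (2 * Real.pi))) = _
    rw [hf]
    simp [circleMap]
  rw [← e1, ← h5]

theorem zero (f : ℂ → ℂ) (hf : DifferentiableOn ℂ f {0}ᶜ) (h : ∀ n, co n f = 0) (y : ℂ)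
    (hy : y ≠ 0) : f y = 0 := by
  have := zero_one (fun z => f (y * z)) (by
      refine hf.continuousOn.comp (continuous_const.mul continuous_id).continuousOn fun z hz => ?_
      exact mul_ne_zero hy (ne_of_norm (norm_of_sphere hz)))
    fun n => by rw [scale n f y hf hy, h n, mul_zero]
  simpa using this

end CoAux

theorem stCo : StCo where
  bound := CoAux.bound
  add := CoAux.add
  congr := CoAux.congr'
  poly := CoAux.poly
  const := CoAux.const
  mul := CoAux.mul
  scale := CoAux.scale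
  zero := CoAux.zero

end Pool.Agent.Lib.MP_cd3a7b_ag.Q5
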