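import Pool.Agent.Lib.MP_cd3a7b_ag.Q5.St

/-! Continuity of the curves in the walk and the parameter. -/

namespace Pool.Agent.Lib.MP_cd3a7b_ag.Q5

open MvPolynomial Finset Filter Topology

namespace ContAux

lemma state (hWalk : StWalk) {F : Pol} {ε c C : ℝ} {X : Om → St} (h : Pack F ε c C X)
    {ι : Type} {l : Filter ι} {on : ι → Om} {o : Om} (ho : Tendsto on l (𝓝 o)) (k : ℤ) :
    Tendsto (fun n => X (on n) k) l (𝓝 (X o k)) := by
  refine Metric.tendsto_nhds.2 fun δ hδ => ?_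
  have C0 : 0 < C := one_pos.trans_le h.one
  obtain ⟨m, hm⟩ := exists_pow_lt_of_lt_one (div_pos hδ C0) (show (1 / 2 : ℝ) < 1 by norm_num)
  filter_upwards [hWalk.loc l on o ho (k - m) (k + m)] with n hn
  rw [dist_eq_norm]
  exact (h.est.dec _ _ _ _ k m (h.fam.sol _) (h.fam.sol _) hn).trans_lt ((lt_div_iff₀' C0).1 hm)

lemma bound (hWalk : StWalk) (hProd : StProd) {ε : ℝ} (h0 : 0 ≤ ε) (h1 : ε ≤ 1 / 2) (o : Om)
    {x : St} (hx : Small x ε) (k j : ℤ) : ‖va o x k j‖ ≤ (1 / 2) ^ nn j * 2 := by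
  have h2 := hProd.bound (ta x) ε k j h0 fun i => (norm_snd_le (x i)).trans (hx i)
  have h3 : ‖u o x (k + j)‖ ≤ 2 := by
    have h4 := (norm_fst_le (x (k + j))).trans (hx (k + j))
    refine (norm_add_le _ _).trans ?_
    rw [hWalk.norm_e]
    linarith
  rw [va, norm_smul]
  exact mul_le_mul (h2.trans (pow_le_pow_left₀ h0 h1 _)) h3 (norm_nonneg _) (by positivity)

lemma summ (hProd : StProd) (R : ℝ) (hR : 1 ≤ R) :
    Summable fun j : ℤ => (1 / 2 : ℝ) ^ nn j * 2 * R ^ j.natAbs := by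
  have R0 : 0 < R := one_pos.trans_le hR
  refine Summable.of_nonneg_of_le (fun j => by positivity) (fun j => ?_)
    ((hProd.sum R hR).mul_left 2)
  have h1 : (1 : ℝ) ≤ ((nn j : ℝ) + 1) * ((j.natAbs : ℝ) + 1) :=
    one_le_mul_of_one_le_of_one_le (le_add_of_nonneg_left (Nat.cast_nonneg _))
      (le_add_of_nonneg_left (Nat.cast_nonneg _))
  have h2 : (0 : ℝ) ≤ (1 / 2) ^ nn j * R ^ j.natAbs := by positivity
  have h3 := mul_le_mul_of_nonneg_right h1 h2
  linarith

end ContAux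

theorem stCont (hWalk : StWalk) (hProd : StProd) (hLau : StLau) : StCont := by
  intro F ε c C X h o z hz
  have ho : Tendsto (fun p : Om × ℂ => p.1) (𝓝 (o, z)) (𝓝 o) := continuous_fst.tendsto _
  have hX := ContAux.state hWalk h ho
  refine hLau.dom (𝓝 (o, z)) (fun p : Om × ℂ => va p.1 (X p.1) 0) (va o (X o) 0)
    (fun j => (1 / 2) ^ nn j * 2) (fun p => p.2) z hz (ContAux.summ hProd)
    (Eventually.of_forall fun p j =>
      ContAux.bound hWalk hProd h.pos.le h.half p.1 (h.fam.sol _).small 0 j)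
    (fun j => ?_) (continuous_snd.tendsto _)
  have h1 : Tendsto (fun p : Om × ℂ => ta (X p.1)) (𝓝 (o, z)) (𝓝 (ta (X o))) :=
    tendsto_pi_nhds.2 fun k => (continuous_snd.tendsto _).comp (hX k)
  have h2 : Tendsto (fun p : Om × ℂ => u p.1 (X p.1) (0 + j)) (𝓝 (o, z))
      (𝓝 (u o (X o) (0 + j))) := by
    refine Tendsto.congr' ?_ (((continuous_fst.tendsto _).comp (hX (0 + j))).const_add
      (e (w o (0 + j))))
    filter_upwards [hWalk.loc _ _ o ho (0 + j) (0 + j)] with p hp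
    rw [u, hp _ le_rfl le_rfl]
    rfl
  exact (((hProd.cont 0 j).tendsto _).comp h1).smul h2

end Pool.Agent.Lib.MP_cd3a7b_ag.Q5
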