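import Pool.Agent.Lib.MP_cd3a7b_ag.Q5.St

/-! A leaf with dense orbit is Zariski dense in the threefold. -/

namespace Pool.Agent.Lib.MP_cd3a7b_ag.Q5

open MvPolynomial Finset Filter Topology

namespace DenseAux

theorem ev_smul {G : Pol} {n : ℕ} (hG : G.IsHomogeneous n) (c : ℂ) (v : E) :
    eval (c • v) G = c ^ n * eval v G := by
  rw [← eval_w_alg hG c v]
  congr 2
  funext o
  simp

theorem ev_lin (lam v : E) : eval v (∑ i, C (lam i) * X i : Pol) = dot lam v := by
  simp [dot]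

theorem hom_lin (lam : E) : (∑ i, C (lam i) * X i : Pol).IsHomogeneous 1 :=
  IsHomogeneous.sum _ _ _ fun i _ => (isHomogeneous_X ℂ i).C_mul _

theorem near_line (hW : StWalk) {lam v : E} {y : ℂ} (h1 : ‖lam - (e 0 + e 2)‖ ≤ 1 / 100)
    (h2 : ‖v - (e 0 + y • e 2)‖ ≤ 1 / 100) (hy : ‖y‖ ≤ 2) : ‖dot lam v - (1 + y)‖ ≤ 1 / 10 := by
  obtain ⟨μ, rfl⟩ : ∃ μ, lam = μ + (e 0 + e 2) := ⟨lam - (e 0 + e 2), by simp⟩
  obtain ⟨ξ, rfl⟩ : ∃ ξ, v = ξ + (e 0 + y • e 2) := ⟨v - (e 0 + y • e 2), by simp⟩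
  rw [add_sub_cancel_right] at h1 h2
  have e1 : dot (μ + (e 0 + e 2)) (ξ + (e 0 + y • e 2)) - (1 + y) =
      dot μ ξ + μ 0 + y * μ 2 + ξ 0 + ξ 2 := by
    simp [dot, e, Fin.sum_univ_five]
    ring
  have b1 := hW.dot_le μ ξ
  have b2 := (norm_le_pi_norm μ 0).trans h1
  have b3 := (norm_le_pi_norm μ 2).trans h1
  have b4 := (norm_le_pi_norm ξ 0).trans h2
  have b5 := (norm_le_pi_norm ξ 2).trans h2
  have b6 : ‖y * μ 2‖ ≤ 2 * (1 / 100) := by
    rw [norm_mul]; exact mul_le_mul hy b3 (norm_nonneg _) (by norm_num)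
  have b7 : 5 * ‖μ‖ * ‖ξ‖ ≤ 5 * (1 / 100) * (1 / 100) := by gcongr
  rw [e1]
  have t1 := norm_add_le (dot μ ξ + μ 0 + y * μ 2 + ξ 0) (ξ 2)
  have t2 := norm_add_le (dot μ ξ + μ 0 + y * μ 2) (ξ 0)
  have t3 := norm_add_le (dot μ ξ + μ 0) (y * μ 2)
  have t4 := norm_add_le (dot μ ξ) (μ 0)
  linarith

theorem charts (hCh : StChart) {o : Om} {x : St} (hx : ∀ k, (x k).2 ≠ 0) {G : Pol} {n : ℕ}
    (hG : G.IsHomogeneous n) (h0 : ∀ z, z ≠ 0 → eval (V o x 0 z) G = 0) (k : ℤ) :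
    ∀ z, z ≠ 0 → eval (V o x k z) G = 0 := by
  induction k using Int.induction_on with
  | zero => exact h0
  | succ i ih =>
    intro z hz
    have h1 : z / (x (i + 1)).2 ≠ 0 := div_ne_zero hz (hx _)
    have h2 := ih _ h1
    rw [hCh.v o x i _ (hx _) h1, ev_smul hG, mul_div_cancel₀ _ (hx _)] at h2
    exact (mul_eq_zero.1 h2).resolve_left (pow_ne_zero _ h1)
  | pred i ih =>
    intro z hz
    rw [hCh.v o x _ z (hx _) hz, ev_smul hG, sub_add_cancel, ih _ (mul_ne_zero (hx _) hz),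
      mul_zero]

end DenseAux

open DenseAux in
theorem stDense (hWalk : StWalk) (hVan : StVan) (hChart : StChart) (hCont : StCont)
    (hAvoid : StAvoid) (hDep : StDep) (hPrime : StPrime) (hForm : StForm) : StDense := by
  intro F ε c C X hp o ho G k hG h0
  by_contra hnd
  have hx : ∀ j, (X o j).2 ≠ 0 := fun j =>
    norm_pos_iff.1 ((mul_pos hp.cpos hp.pos).trans_le ((hp.fam.sol o).low j))
  have hall : ∀ o' z, z ≠ 0 → eval (V o' (X o') 0 z) G = 0 := by
    intro o' z hz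
    have hv : Continuous fun o' => V o' (X o') 0 z := by
      refine continuous_iff_continuousAt.2 fun o' => ?_
      have h1 : Tendsto (fun a : Om => (a, z)) (𝓝 o') (𝓝 (o', z)) :=
        (Continuous.prodMk_left z).tendsto o'
      have h2 := (hCont F ε c C X hp o' z hz).comp h1
      exact h2
    have hc : Continuous fun o' => eval (V o' (X o') 0 z) G :=
      (differentiable_eval G).continuous.comp hv
    refine (isClosed_eq hc continuous_const).closure_subset_iff.2 ?_ (ho o')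
    rintro _ ⟨t, rfl⟩
    show eval (V (sh t o) (X (sh t o)) 0 z) G = 0
    rw [hChart.equi F ε c C X hp.fam hp.est t o, (hChart.shift o (X o) 0 t 0).1]
    exact charts hChart hx hG h0 _ z hz
  obtain ⟨lam, hl, hh⟩ := hForm F G (hPrime F hp.hom hp.smooth) hnd
  set l : Pol := ∑ i, MvPolynomial.C (lam i) * MvPolynomial.X i with hldef
  have hnear : ∀ o' y, 1 / 2 ≤ ‖y‖ → ‖y‖ ≤ 2 →
      ‖eval (V o' (X o') 0 y) l - (1 + y)‖ ≤ 1 / 10 := fun o' y h1 h2 => by
    rw [hldef, ev_lin]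
    exact near_line hWalk hl (hp.line o' y h1 h2) h2
  refine hAvoid F ε c C X hp {x | ∀ H ∈ ({F, G, l} : Set Pol), eval x H = 0} l (fun _ => true) 1 2
    ?_ ?_ (hDep _ hh) (fun x hx => hx l (by simp)) ⟨1, one_ne_zero, fun h => ?_⟩ one_pos rfl
    one_le_two (Eventually.of_forall fun o' => ?_)
  · rw [Set.ofPred_forall]
    refine isClosed_iInter fun H => ?_
    rw [Set.ofPred_forall]
    exact isClosed_iInter fun _ => isClosed_eq (differentiable_eval H).continuous continuous_const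
  · intro a x hx H hH
    have h1 := hx H hH
    rcases hH with rfl | rfl | rfl
    · rw [ev_smul hp.hom, h1, mul_zero]
    · rw [ev_smul hG, h1, mul_zero]
    · rw [ev_smul (hom_lin lam), h1, mul_zero]
  · have h1 := hnear (fun _ => true) 1 (by norm_num) (by norm_num)
    rw [h] at h1
    norm_num at h1
  · obtain ⟨z, hz, h1⟩ := hVan.zero (fun y => eval (V o' (X o') 0 y) l)
      (fun y hy => ((differentiable_eval l _).comp y (hChart.der o' (X o') 0 ε y
        (hp.fam.sol o').small hp.half hy).1.differentiableAt).differentiableWithinAt) (hnear o')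
    have hz0 : z ≠ 0 := norm_pos_iff.1 (lt_of_lt_of_le (by norm_num) hz.1)
    refine ⟨z, hz, fun H hH => ?_⟩
    rcases hH with rfl | rfl | rfl
    · exact (hp.fam.sol o').zero 0 z hz0
    · exact hall o' z hz0
    · exact h1

end Pool.Agent.Lib.MP_cd3a7b_ag.Q5
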