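import Pool.Agent.Lib.MP_cd3a7b_ag.Q5.St
import Pool.Agent.Lib.MP_cd3a7b_ag.H36Dim

/-! Three polynomial functions on a set of codimension at least three are dependent. -/

namespace Pool.Agent.Lib.MP_cd3a7b_ag.Q5

open MvPolynomial

namespace DepAux

theorem noether (P : Ideal Pol) [hP : P.IsPrime] (hc : (3 : ℕ∞) ≤ P.height) {s : ℕ}
    (g : MvPolynomial (Fin s) ℂ →ₐ[ℂ] Pol ⧸ P) (g1 : Function.Injective g) (g2 : g.IsIntegral) :
    s ≤ 2 := by
  algebraize [g.toRingHom]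
  have : FaithfulSMul (MvPolynomial (Fin s) ℂ) (Pol ⧸ P) :=
    (faithfulSMul_iff_algebraMap_injective _ _).2 g1
  obtain ⟨l, hl⟩ := (Order.le_krullDim_iff (n := s)).1
    (show _ ≤ ringKrullDim (MvPolynomial (Fin s) ℂ) by simp)
  obtain ⟨Q, hQ, hQ'⟩ := (inferInstance :
    Nonempty (l.head.asIdeal.primesOver (Pol ⧸ P)))
  obtain ⟨L, hL, -⟩ := Ideal.exists_ltSeries_of_hasGoingUp l Q
  have hm : StrictMono (PrimeSpectrum.comap (Ideal.Quotient.mk P)) := fun a b hab =>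
    lt_of_le_of_ne (Ideal.comap_mono hab.le) fun e => hab.ne
      (PrimeSpectrum.comap_injective_of_surjective _ Ideal.Quotient.mk_surjective e)
  have h2 := Order.length_le_coheight (x := (⟨P, hP⟩ : PrimeSpectrum _)) (p := L.map _ hm)
    (fun G hG => by
      rw [LTSeries.head_map]
      change Ideal.Quotient.mk P G ∈ L.head.asIdeal
      rw [Ideal.Quotient.eq_zero_iff_mem.2 hG]
      exact zero_mem _)
  rw [LTSeries.map_length, hL, hl] at h2
  have h3 := H36.krull_mv (Fin 5)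
  rw [ringKrullDim, Order.krullDim_eq_iSup_height_add_coheight_of_nonempty] at h3
  have h4 := le_iSup (fun a : PrimeSpectrum Pol => Order.height a + Order.coheight a) ⟨P, hP⟩
  rw [WithBot.coe_inj.1 h3, ← PrimeSpectrum.height_eq_orderHeight] at h4
  have h5 := (add_le_add hc h2).trans h4
  have h6 : 3 + s ≤ Fintype.card (Fin 5) := by exact_mod_cast h5
  simp only [Fintype.card_fin] at h6
  omega

theorem prime (P : Ideal Pol) [hP : P.IsPrime] (hc : (3 : ℕ∞) ≤ P.height) (A : Fin 3 → Pol) :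
    ∃ Q : MvPolynomial (Fin 3) ℂ, Q ≠ 0 ∧ aeval A Q ∈ P := by
  obtain ⟨s, g, g1, g2⟩ := exists_integral_inj_algHom_of_fg ℂ (Pol ⧸ P)
  have hs := noether P hc g g1 g2
  by_contra hn
  push Not at hn
  have hi : AlgebraicIndependent ℂ fun i => Ideal.Quotient.mkₐ ℂ P (A i) := by
    refine algebraicIndependent_iff.2 fun Q hQ => ?_
    by_contra h0
    refine hn Q h0 (Ideal.Quotient.eq_zero_iff_mem.1 ?_)
    rw [← hQ]
    exact MvPolynomial.comp_aeval_apply A (Ideal.Quotient.mkₐ ℂ P) Q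
  algebraize [g.toRingHom]
  have : FaithfulSMul (MvPolynomial (Fin s) ℂ) (Pol ⧸ P) :=
    (faithfulSMul_iff_algebraMap_injective _ _).2 g1
  have : IsScalarTower ℂ (MvPolynomial (Fin s) ℂ) (Pol ⧸ P) :=
    IsScalarTower.of_algebraMap_eq fun c => (g.commutes c).symm
  have h1 := trdeg_add_eq ℂ (MvPolynomial (Fin s) ℂ) (A := Pol ⧸ P)
  rw [trdeg_eq_zero (R := MvPolynomial (Fin s) ℂ), add_zero, MvPolynomial.trdeg_of_isDomain] at h1
  have h2 := hi.cardinalMk_le_trdeg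
  rw [← h1] at h2
  simp only [Cardinal.mk_fintype, Fintype.card_fin, Cardinal.lift_natCast, Nat.cast_le] at h2
  omega

end DepAux

theorem stDep : StDep := by
  intro S hS A
  have hf := (Ideal.span S).finite_minimalPrimes_of_isNoetherianRing Pol
  have hex : ∀ P : (Ideal.span S).minimalPrimes,
      ∃ Q : MvPolynomial (Fin 3) ℂ, Q ≠ 0 ∧ aeval A Q ∈ P.1 := fun P =>
    have := P.2.1.1
    DepAux.prime P.1 (hS.trans (Ideal.height_mono P.2.1.2)) A
  choose Q hQ0 hQ using hex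
  have := hf.fintype
  refine ⟨∏ P, Q P, Finset.prod_ne_zero_iff.2 fun P _ => hQ0 P, fun x hx => ?_⟩
  have := RingHom.ker_isPrime (eval x : Pol →+* ℂ)
  obtain ⟨P, h1, h2⟩ := Ideal.exists_minimalPrimes_le (I := Ideal.span S)
    (J := RingHom.ker (eval x)) (Ideal.span_le.2 hx)
  rw [map_prod]
  refine Finset.prod_eq_zero (Finset.mem_univ ⟨P, h1⟩) ?_
  have h3 : eval x (aeval A (Q ⟨P, h1⟩)) = 0 := h2 (hQ ⟨P, h1⟩)
  rw [← h3]
  exact (MvPolynomial.comp_aeval_apply A (aeval x : Pol →ₐ[ℂ] ℂ) (Q ⟨P, h1⟩)).symm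

end Pool.Agent.Lib.MP_cd3a7b_ag.Q5
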