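import Pool.Agent.Lib.MP_cd3a7b_ag.Q5.St

/-! Gluing lines in a quintic threefold: the a priori estimates. -/

namespace Pool.Agent.Lib.MP_cd3a7b_ag.Q5

open MvPolynomial Finset Filter Topology

namespace EstAux

theorem comp {v v' : E} {η : ℝ} (h : ‖v - (e 0 + e 2)‖ ≤ η) (h' : ‖v' - e 2‖ ≤ η) (α β : ℂ)
    (i : Fin 5) : ‖(α • v + β • v') i - (α * (e 0 + e 2 : E) i + β * e 2 i)‖ ≤ η * (‖α‖ + ‖β‖) := by
  have h1 : ‖(v - (e 0 + e 2)) i‖ ≤ η := (norm_le_pi_norm _ i).trans h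
  have h2 : ‖(v' - e 2) i‖ ≤ η := (norm_le_pi_norm _ i).trans h'
  have h3 : (α • v + β • v') i - (α * (e 0 + e 2 : E) i + β * e 2 i)
      = α * (v - (e 0 + e 2)) i + β * (v' - e 2) i := by
    simp only [Pi.add_apply, Pi.smul_apply, Pi.sub_apply, smul_eq_mul]
    ring
  rw [h3]
  refine (norm_add_le _ _).trans ?_
  rw [norm_mul, norm_mul]
  nlinarith [mul_le_mul_of_nonneg_left h1 (norm_nonneg α),
    mul_le_mul_of_nonneg_left h2 (norm_nonneg β)]

theorem coef {v v' : E} {η : ℝ} (h : ‖v - (e 0 + e 2)‖ ≤ η) (h' : ‖v' - e 2‖ ≤ η) (hη : η ≤ 1 / 6)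
    (α β : ℂ) : ‖α‖ + ‖β‖ ≤ 6 * ‖α • v + β • v'‖ ∧
      ‖(α • v + β • v') 1‖ ≤ η * (‖α‖ + ‖β‖) ∧ ‖(α • v + β • v') 3‖ ≤ η * (‖α‖ + ‖β‖) := by
  have h0 := comp h h' α β 0
  have h1 := comp h h' α β 1
  have h2 := comp h h' α β 2
  have h3 := comp h h' α β 3
  have e0 : α * (e 0 + e 2 : E) 0 + β * e 2 0 = α := by simp [e]
  have e1 : α * (e 0 + e 2 : E) 1 + β * e 2 1 = 0 := by simp [e]
  have e2 : α * (e 0 + e 2 : E) 2 + β * e 2 2 = α + β := by simp [e]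
  have e3 : α * (e 0 + e 2 : E) 3 + β * e 2 3 = 0 := by simp [e]
  rw [e0] at h0
  rw [e1, sub_zero] at h1
  rw [e2] at h2
  rw [e3, sub_zero] at h3
  refine ⟨?_, h1, h3⟩
  have g0 := norm_le_pi_norm (α • v + β • v') 0
  have g2 := norm_le_pi_norm (α • v + β • v') 2
  have k0 := norm_sub_norm_le α ((α • v + β • v') 0)
  have k2 := norm_sub_norm_le (α + β) ((α • v + β • v') 2)
  rw [norm_sub_rev] at k0 k2
  have k3 : ‖β‖ ≤ ‖α + β‖ + ‖α‖ := by simpa using norm_sub_le (α + β) α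
  have k4 : η * (‖α‖ + ‖β‖) ≤ 1 / 6 * (‖α‖ + ‖β‖) :=
    mul_le_mul_of_nonneg_right hη (by positivity)
  linarith

theorem dl_le {o o' : Om} {x x' : St} {ε : ℝ} (hε : 0 < ε) (hx : Small x ε) (hx' : Small x' ε)
    (i : ℤ) : dl o o' x x' ε i ≤ 2 * ε := by
  refine max_le ((norm_sub_le _ _).trans (by linarith [hx i, hx' i])) ?_
  split_ifs <;> linarith

theorem le_dl (o o' : Om) (x x' : St) (ε : ℝ) (i : ℤ) : ‖((x - x') i).2‖ ≤ dl o o' x x' ε i :=
  (norm_snd_le _).trans (le_max_left _ _)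

theorem agree_mono {o o' : Om} {a b a' b' : ℤ} (h : Agree o o' a b) (ha : a ≤ a') (hb : b' ≤ b) :
    Agree o o' a' b' := fun i h1 h2 => h i (ha.trans h1) (h2.trans hb)

end EstAux

open EstAux

theorem stEst (_hWalk : StWalk) (hSerA : StSerA) (hSerD : StSerD) (hRec : StRec) (hSeq : StSeq) :
    StEst := by
  intro c hc
  obtain ⟨R, εR, hR, hεR, hεR', h1⟩ := hRec c hc
  obtain ⟨C, κ₀, hC, hκ₀, h2⟩ := hSeq R (c / 2) hR (by positivity)
  obtain ⟨A, hA, h3⟩ := hSerA.est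
  obtain ⟨B, hB, h4⟩ := hSerD
  have hR0 : 0 < R := by linarith
  have hC0 : 0 < C := by linarith
  have hA0 : 0 < A := by linarith
  have hB0 : 0 < B := by linarith
  obtain ⟨K, hK⟩ : ∃ K : ℝ, K = R * (12 * A * (B / c * C) + C) := ⟨_, rfl⟩
  have hK0 : 0 < K := by rw [hK]; positivity
  refine ⟨C, min εR (min (κ₀ / R) (min (1 / 6 / A) (1 / 2 / K))), hC, by positivity,
    fun ε F hε hε₁ hF => ?_⟩
  simp only [le_min_iff] at hε₁
  obtain ⟨k1, k2, k3, k4⟩ := hε₁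
  rw [le_div_iff₀ hR0] at k2
  rw [le_div_iff₀ hA0] at k3
  rw [le_div_iff₀ hK0] at k4
  have hh : ε ≤ 1 / 2 := k1.trans hεR'
  obtain ⟨r1, r2, r3⟩ := h1 ε F hε k1 hF
  have hκ : 0 ≤ R * ε := by positivity
  have hκ' : R * ε ≤ κ₀ := by linarith
  have hv : ∀ o x, Sol F ε c o x →
      ‖V o x 0 1 - (e 0 + e 2)‖ ≤ A * ε ∧ ‖V' o x 0 1 - e 2‖ ≤ A * ε := fun o x hx => by
    obtain ⟨g1, g2, -⟩ := h3 o x 0 ε 1 hx.small hh (by norm_num) (by norm_num)
    have e1 : ell o 0 1 = e 0 + e 2 := by simp [ell, w]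
    have e2 : (1 : ℂ) • e (w o (0 + 1)) = e 2 := by simp [w]
    rw [e1] at g1
    rw [e2] at g2
    exact ⟨g1, g2⟩
  have hAε : A * ε ≤ 1 / 6 := by linarith
  refine ⟨fun o o' x x' k n hx hx' ha => ?_, fun o o' x x' p q k hx hx' ha hp hq l1 l2 => ?_,
    fun o x D N hx hD hN => ?_, fun o x hx => ?_, fun o x D α β hx hD hE => ?_⟩
  · have g := (h2 (R * ε) (fun i => ‖((x - x') i).2‖) (dl o o' x x' ε) hκ hκ'
      (fun i => norm_nonneg _) (le_dl o o' x x' ε)).1 (2 * ε) k n (dl_le hε hx.small hx'.small)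
      fun k' g1 g2 => r1 o o' x x' k' hx hx' (agree_mono ha g1 g2)
    refine (le_max_left _ _).trans (g.trans ?_)
    refine mul_le_mul_of_nonneg_right ?_ (by positivity)
    nlinarith
  · exact (h2 (R * ε) (fun i => ‖((x - x') i).2‖) (dl o o' x x' ε) hκ hκ'
      (fun i => norm_nonneg _) (le_dl o o' x x' ε)).2.1 (2 * ε) p q k
      (dl_le hε hx.small hx'.small)
      (fun k' g1 g2 => r1 o o' x x' k' hx hx' (agree_mono ha (by omega) (by omega))) hp hq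
      (le_of_eq_of_le (by ring) l1) (le_of_eq_of_le (by ring) l2)
  · funext k
    have g : ∀ n : ℕ, ‖D k‖ ≤ C * N * (1 / 2) ^ n := fun n =>
      (h2 (R * ε) (fun i => ‖(D i).2‖) (fun i => ‖D i‖) hκ hκ'
        (fun i => norm_nonneg _) fun i => norm_snd_le _).1 N k n hN
        fun k' _ _ => r2 o x D k' hx hD
    have g' : Tendsto (fun n : ℕ => C * N * (1 / 2 : ℝ) ^ n) atTop (𝓝 (C * N * 0)) :=
      (tendsto_pow_atTop_nhds_zero_of_lt_one (by norm_num) (by norm_num)).const_mul _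
    rw [mul_zero] at g'
    exact norm_le_zero_iff.1 (ge_of_tendsto' g' g)
  · refine LinearIndependent.pair_iff.2 fun α β h => ?_
    have g := (coef (hv o x hx).1 (hv o x hx).2 hAε α β).1
    rw [h, norm_zero] at g
    exact ⟨norm_le_zero_iff.1 (by linarith [norm_nonneg β]),
      norm_le_zero_iff.1 (by linarith [norm_nonneg α])⟩
  · obtain ⟨N, hN⟩ := hD.grow
    have hG : Grow D 0 (C * mm D 0) :=
      (h2 (R * ε) (fun i => ‖(D i).2‖) (fun i => ‖D i‖) hκ hκ'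
        (fun i => norm_nonneg _) fun i => norm_snd_le _).2.2 N hN fun k' => r2 o x D k' hx hD
    have hm : 0 ≤ mm D 0 := (norm_nonneg _).trans (le_max_left _ _)
    have g1 := (h4 o x D 0 ε c _ 1 hε hh hc hx.small hx.low hG norm_one).1
    have g2 := r3 o x D _ hx hD hG
    obtain ⟨g3, g4, g5⟩ := coef (hv o x hx).1 (hv o x hx).2 hAε α β
    rw [← hE] at g3 g4 g5
    have g6 : A * ε * (‖α‖ + ‖β‖) ≤ A * ε * (6 * (B / c * (C * mm D 0))) :=
      mul_le_mul_of_nonneg_left (by linarith) (by positivity)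
    have g7 : mm D 0 ≤ ε * K * mm D 0 := by
      refine g2.trans (le_of_le_of_eq (mul_le_mul_of_nonneg_left
        (add_le_add (add_le_add (g4.trans g6) (g5.trans g6)) le_rfl) hR0.le) ?_)
      rw [hK]
      ring
    have g8 : mm D 0 = 0 := by nlinarith [mul_le_mul_of_nonneg_right k4 hm]
    funext k
    have := hG k
    rw [g8, mul_zero, zero_mul] at this
    exact norm_le_zero_iff.1 this

end Pool.Agent.Lib.MP_cd3a7b_ag.Q5
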