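import Pool.Agent.Lib.MP_cd3a7b_ag.Q5.St

/-! A state with two dependent shifts and with no decay along the multiples of `Q` is bounded. -/

namespace Pool.Agent.Lib.MP_cd3a7b_ag.Q5

open Filter Topology

namespace FinAux

theorem iter (D : St) (T : ℤ) (lam : ℂ) (h : ∀ k, D (k + T) = lam • D k) (n : ℕ) (k : ℤ) :
    D (k + T * n) = lam ^ n • D k := by
  induction n with
  | zero => simp
  | succ n ih =>
    have e : k + T * ((n + 1 : ℕ) : ℤ) = (k + T * n) + T := by push_cast; ring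
    rw [e, h, ih, smul_smul, pow_succ']

theorem one_le (D : St) (T : ℤ) (lam : ℂ) (h : ∀ k, D (k + T) = lam • D k)
    (hm : ∀ n : ℕ, 1 ≤ mm D (T * n)) : 1 ≤ ‖lam‖ := by
  by_contra hlt
  have hlt : ‖lam‖ < 1 := not_le.mp hlt
  have ht : Tendsto (fun n : ℕ => ‖lam‖ ^ n * mm D 0) atTop (𝓝 (0 * mm D 0)) :=
    (tendsto_pow_atTop_nhds_zero_of_lt_one (norm_nonneg _) hlt).mul_const _
  rw [zero_mul] at ht
  obtain ⟨n, hn⟩ := (ht.eventually (gt_mem_nhds one_pos)).exists
  have e0 : D (T * n) = lam ^ n • D 0 := by simpa using iter D T lam h n 0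
  have e1 : D (T * n + 1) = lam ^ n • D (0 + 1) := by
    rw [← iter D T lam h n (0 + 1)]
    congr 1
    ring
  have e : mm D (T * n) = ‖lam‖ ^ n * mm D 0 := by
    unfold mm
    rw [e0, e1, Prod.smul_snd, Prod.smul_snd, norm_smul, norm_smul, norm_pow,
      mul_max_of_nonneg _ _ (pow_nonneg (norm_nonneg _) n)]
  have := hm n
  rw [e] at this
  exact absurd hn (not_lt.mpr this)

theorem bdd (f : ℤ → ℝ) (T : ℤ) (hT : T ≠ 0) (h : ∀ k, f (k + T) = f k) :
    ∃ N, ∀ k, f k ≤ N := by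
  have hp : Function.Periodic f T := h
  obtain ⟨N, hN⟩ := ((Set.finite_Ico (0 : ℤ) |T|).image f).bddAbove
  refine ⟨N, fun k => ?_⟩
  have e : f k = f (k % T) := by
    have := (hp.int_mul (k / T)) (k % T)
    rw [← this]
    congr 1
    have := Int.emod_add_mul_ediv k T
    simp only [Int.cast_id]
    linarith [mul_comm T (k / T)]
  rw [e]
  exact hN ⟨k % T, ⟨Int.emod_nonneg k hT, Int.emod_lt_abs k hT⟩, rfl⟩

end FinAux

theorem stFin : StFin := by
  intro D Q i i' γ δ hm hi hQ hγδ h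
  by_cases hγ : γ = 0
  · have hδ : δ ≠ 0 := hγδ.resolve_left (fun h' => h' hγ)
    refine ⟨0, fun k => ?_⟩
    have := h (k - Q * i')
    rw [hγ, zero_smul, zero_add, sub_add_cancel, smul_eq_zero] at this
    rw [this.resolve_left hδ, norm_zero]
  by_cases hδ : δ = 0
  · refine ⟨0, fun k => ?_⟩
    have := h (k - Q * i)
    rw [hδ, zero_smul, add_zero, sub_add_cancel, smul_eq_zero] at this
    rw [this.resolve_left hγ, norm_zero]
  have h1 : ∀ k, D (k + Q * (i - i')) = (-δ / γ) • D k := by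
    intro k
    have := h (k - Q * i')
    rw [sub_add_cancel, show k - Q * i' + Q * i = k + Q * (i - i') by ring] at this
    have e : γ • D (k + Q * (i - i')) = -(δ • D k) := eq_neg_of_add_eq_zero_left this
    rw [div_eq_inv_mul, mul_smul, neg_smul, ← e, smul_smul, inv_mul_cancel₀ hγ, one_smul]
  have h2 : ∀ k, D (k + Q * (i' - i)) = (-γ / δ) • D k := by
    intro k
    have := h (k - Q * i)
    rw [sub_add_cancel, show k - Q * i + Q * i' = k + Q * (i' - i) by ring] at this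
    have e : δ • D (k + Q * (i' - i)) = -(γ • D k) := eq_neg_of_add_eq_zero_right this
    rw [div_eq_inv_mul, mul_smul, neg_smul, ← e, smul_smul, inv_mul_cancel₀ hδ, one_smul]
  have a1 : 1 ≤ ‖-δ / γ‖ :=
    FinAux.one_le D _ _ h1 fun n => by rw [mul_assoc]; exact hm _
  have a2 : 1 ≤ ‖-γ / δ‖ :=
    FinAux.one_le D _ _ h2 fun n => by rw [mul_assoc]; exact hm _
  rw [norm_div, norm_neg, one_le_div (norm_pos_iff.mpr hδ)] at a2
  have a3 : ‖-δ / γ‖ = 1 := by
    refine le_antisymm ?_ a1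
    rw [norm_div, norm_neg, div_le_one (norm_pos_iff.mpr hγ)]
    exact a2
  exact FinAux.bdd (fun k => ‖D k‖) (Q * (i - i')) (mul_ne_zero hQ (sub_ne_zero.mpr hi))
    fun k => by rw [h1, norm_smul, a3, one_mul]

end Pool.Agent.Lib.MP_cd3a7b_ag.Q5
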