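import Pool.Agent.Lib.MP_cd3a7b_ag.Q5.St

namespace Pool.Agent.Lib.MP_cd3a7b_ag.Q5

open Filter Topology

theorem stFix : StFix := by
  intro Y _ _ Φ r hr hb hc
  have h1 : ∀ n k, ‖(Φ^[n] 0) k‖ ≤ r := by
    intro n
    induction n with
    | zero => simpa using hr
    | succ n ih =>
      rw [Function.iterate_succ_apply']
      exact hb _ ih
  have h2 : ∀ n k, ‖(Φ^[n] 0) k - (Φ^[n + 1] 0) k‖ ≤ r * (1 / 2) ^ n := by
    intro n
    induction n with
    | zero =>
      intro k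
      simpa using h1 1 k
    | succ n ih =>
      intro k
      have h3 := hc _ _ _ (h1 n) (h1 (n + 1)) ih k
      rw [← Function.iterate_succ_apply' Φ n, ← Function.iterate_succ_apply' Φ (n + 1)] at h3
      exact h3.trans_eq (by ring)
  have h3 : ∀ k n, dist ((Φ^[n] 0) k) ((Φ^[n + 1] 0) k) ≤ r * (1 / 2) ^ n := fun k n => by
    rw [dist_eq_norm]
    exact h2 n k
  have h4 : ∀ k, ∃ a, Tendsto (fun n => (Φ^[n] 0) k) atTop (𝓝 a) := fun k =>
    cauchySeq_tendsto_of_complete (cauchySeq_of_le_geometric (1 / 2) r (by norm_num) (h3 k))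
  choose x hx using h4
  have h5 : ∀ k, ‖x k‖ ≤ r := fun k => le_of_tendsto' (hx k).norm fun n => h1 n k
  have h6 : ∀ n k, ‖(Φ^[n] 0) k - x k‖ ≤ r * (1 / 2) ^ n / (1 - 1 / 2) := fun n k => by
    rw [← dist_eq_norm]
    exact dist_le_of_le_geometric_of_tendsto (1 / 2) r (by norm_num) (h3 k) (hx k) n
  refine ⟨x, h5, funext fun k => ?_⟩
  refine tendsto_nhds_unique ?_ ((tendsto_add_atTop_iff_nat 1).2 (hx k))
  rw [tendsto_iff_norm_sub_tendsto_zero]
  have h7 : Tendsto (fun n : ℕ => r * (1 / 2 : ℝ) ^ n / (1 - 1 / 2) / 2) atTop (𝓝 0) := by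
    have h8 := tendsto_pow_atTop_nhds_zero_of_lt_one (r := (1 / 2 : ℝ)) (by norm_num) (by norm_num)
    simpa using ((h8.const_mul r).div_const (1 - 1 / 2)).div_const 2
  refine squeeze_zero (fun _ => norm_nonneg _) (fun n => ?_) h7
  rw [Function.iterate_succ_apply']
  exact hc _ _ _ (h1 n) h5 (h6 n) k

end Pool.Agent.Lib.MP_cd3a7b_ag.Q5
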