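import Pool.Agent.Lib.MP_cd3a7b_ag.Q5.St

/-! A linear form near `x0 + x2` that cuts `V(F, G)` properly. -/

namespace Pool.Agent.Lib.MP_cd3a7b_ag.Q5

open MvPolynomial Finset Filter Topology

namespace FormAux

/-- The kernel of the substitution that kills the first `j` variables. -/
noncomputable def P (j : ℕ) : Ideal Pol :=
  RingHom.ker (aeval (fun i : Fin 5 => if (i : ℕ) < j then (0 : Pol) else X i) :
    Pol →ₐ[ℂ] Pol).toRingHom

instance P_prime (j : ℕ) : (P j).IsPrime := RingHom.ker_isPrime _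

theorem mem_P {j : ℕ} {f : Pol} :
    f ∈ P j ↔ aeval (fun i : Fin 5 => if (i : ℕ) < j then (0 : Pol) else X i) f = 0 := Iff.rfl

theorem P_le (j : ℕ) : P j ≤ P (j + 1) := by
  intro f hf
  rw [mem_P] at hf ⊢
  have h : (aeval (fun i : Fin 5 => if (i : ℕ) < j + 1 then (0 : Pol) else X i) :
      Pol →ₐ[ℂ] Pol) = (aeval (fun i : Fin 5 => if (i : ℕ) < j + 1 then (0 : Pol) else X i)).comp
        (aeval (fun i : Fin 5 => if (i : ℕ) < j then (0 : Pol) else X i)) := by
    ext1 i
    by_cases h1 : (i : ℕ) < j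
    · have h2 : (i : ℕ) ≤ j := by omega
      simp [h1, h2]
    · simp [h1]
  rw [h, AlgHom.comp_apply, hf, map_zero]

theorem P_lt (j : Fin 5) : P j < P (j + 1) := by
  refine lt_of_le_of_ne (P_le j) fun h => ?_
  have h1 : (X j : Pol) ∈ P (j + 1) := by simp [mem_P]
  rw [← h, mem_P] at h1
  simp at h1

theorem three_le_P : 3 ≤ (P 3).height := by
  have h0 := Ideal.height_add_one_le_of_lt_of_isPrime (P_lt 0)
  have h1 := Ideal.height_add_one_le_of_lt_of_isPrime (P_lt 1)
  have h2 := Ideal.height_add_one_le_of_lt_of_isPrime (P_lt 2)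
  calc (3 : ℕ∞) = 0 + 1 + 1 + 1 := by norm_num
    _ ≤ (P 0).height + 1 + 1 + 1 := by gcongr; exact zero_le
    _ ≤ (P 1).height + 1 + 1 := by gcongr; exact h0
    _ ≤ (P 2).height + 1 := by gcongr; exact h1
    _ ≤ (P 3).height := h2

theorem P_le_of_X {Q : Ideal Pol} (hQ : ∀ i, (X i : Pol) ∈ Q) (j : ℕ) : P j ≤ Q := by
  intro f hf
  rw [mem_P] at hf
  have h : ∀ g : Pol,
      g - aeval (fun i : Fin 5 => if (i : ℕ) < j then (0 : Pol) else X i) g ∈ Q := by
    intro g
    induction g using MvPolynomial.induction_on with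
    | C a => simp
    | add p q hp hq =>
      have := Q.add_mem hp hq
      rw [map_add]
      convert this using 1
      ring
    | mul_X p i hp =>
      rw [map_mul, aeval_X]
      split_ifs
      · rw [mul_zero, sub_zero]
        exact Q.mul_mem_left _ (hQ i)
      · rw [← sub_mul]
        exact Q.mul_mem_right _ hp
  have h1 := h f
  rwa [hf, sub_zero] at h1

/-- The linear form with coefficients `lam`. -/
noncomputable def lf : E →ₗ[ℂ] Pol where
  toFun lam := ∑ i, C (lam i) * X i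
  map_add' a b := by simp [add_mul, Finset.sum_add_distrib]
  map_smul' c a := by simp [Finset.smul_sum, smul_eq_C_mul, mul_assoc]

theorem lf_single (i : Fin 5) : lf (Pi.single i 1) = X i := by
  change ∑ k, C ((Pi.single i 1 : E) k) * X k = (X i : Pol)
  rw [Finset.sum_eq_single i]
  · simp
  · intro k _ hk
    simp [hk]
  · simp

theorem dense_avoid (Q : Ideal Pol) (hQ : ¬ ∀ i, (X i : Pol) ∈ Q) :
    IsOpen {lam : E | lf lam ∉ Q} ∧ Dense {lam : E | lf lam ∉ Q} := by
  let W : Submodule ℂ E := (Q.restrictScalars ℂ).comap lf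
  have hW : {lam : E | lf lam ∉ Q} = (W : Set E)ᶜ := rfl
  rw [hW]
  refine ⟨W.closed_of_finiteDimensional.isOpen_compl, interior_eq_empty_iff_dense_compl.1 ?_⟩
  by_contra hne
  have htop := W.eq_top_of_nonempty_interior' (Set.nonempty_iff_ne_empty.2 hne)
  refine hQ fun i => ?_
  have h1 : (Pi.single i 1 : E) ∈ W := htop ▸ Submodule.mem_top
  have h2 : lf (Pi.single i 1) ∈ Q := h1
  rwa [lf_single] at h2

theorem two_le {F G : Pol} (hF : Prime F) (hG : ¬ F ∣ G) {Q : Ideal Pol} [Q.IsPrime]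
    (h1 : F ∈ Q) (h2 : G ∈ Q) : 2 ≤ Q.height := by
  have : (Ideal.span {F}).IsPrime := (Ideal.span_singleton_prime hF.ne_zero).2 hF
  have a1 : (⊥ : Ideal Pol) < Ideal.span {F} :=
    bot_lt_iff_ne_bot.2 fun h => hF.ne_zero (Ideal.span_singleton_eq_bot.1 h)
  have a2 : Ideal.span {F} < Q :=
    lt_of_le_of_ne ((Ideal.span_singleton_le_iff_mem _).2 h1) fun h =>
      hG (Ideal.mem_span_singleton.1 (h ▸ h2))
  have b1 := Ideal.height_add_one_le_of_lt_of_isPrime a1
  have b2 := Ideal.height_add_one_le_of_lt_of_isPrime a2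
  calc (2 : ℕ∞) = 0 + 1 + 1 := by norm_num
    _ ≤ (⊥ : Ideal Pol).height + 1 + 1 := by gcongr; exact zero_le
    _ ≤ (Ideal.span {F}).height + 1 := by gcongr
    _ ≤ Q.height := b2

end FormAux

open FormAux in
theorem stForm : StForm := by
  intro F G hF hG
  let S : Set (Ideal Pol) :=
    {Q | Q ∈ (Ideal.span {F, G} : Ideal Pol).minimalPrimes ∧ ¬ ∀ i, (X i : Pol) ∈ Q}
  have hS : S.Finite :=
    (Ideal.finite_minimalPrimes_of_isNoetherianRing Pol (Ideal.span {F, G})).subset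
      fun Q hQ => hQ.1
  have hd : Dense (⋂ Q ∈ S, {lam : E | lf lam ∉ Q}) :=
    dense_biInter_of_isOpen (fun Q hQ => (dense_avoid Q hQ.2).1) hS.countable
      fun Q hQ => (dense_avoid Q hQ.2).2
  obtain ⟨lam, h1, h2⟩ := hd.exists_mem_open Metric.isOpen_ball
    (Metric.nonempty_ball.2 (show (0 : ℝ) < 1 / 100 by norm_num) :
      (Metric.ball (e 0 + e 2 : E) (1 / 100)).Nonempty)
  refine ⟨lam, (mem_ball_iff_norm.1 h2).le, ?_⟩
  rw [Ideal.height_eq_inf_minimalPrimes]
  refine le_iInf₂ fun R hR => ?_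
  have := hR.isPrime
  have hle : Ideal.span {F, G, ∑ i, C (lam i) * X i} ≤ R := hR.le
  have a1 : F ∈ R := hle (Ideal.subset_span (by simp))
  have a2 : G ∈ R := hle (Ideal.subset_span (by simp))
  have a3 : lf lam ∈ R := hle (Ideal.subset_span (Or.inr (Or.inr rfl)))
  have a4 : (Ideal.span {F, G} : Ideal Pol) ≤ R := by
    rw [Ideal.span_le]
    rintro x (rfl | rfl)
    · exact a1
    · exact a2
  obtain ⟨Q, hQ, hQR⟩ := Ideal.exists_minimalPrimes_le a4
  have := hQ.isPrime
  by_cases hX : ∀ i, (X i : Pol) ∈ Q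
  · exact three_le_P.trans (Ideal.height_mono ((P_le_of_X hX 3).trans hQR))
  · have b1 : lf lam ∉ Q := Set.mem_iInter₂.1 h1 Q ⟨hQ, hX⟩
    have b2 : Q < R := lt_of_le_of_ne hQR fun h => b1 (h ▸ a3)
    have b3 := two_le hF hG (hQ.le (Ideal.subset_span (by simp)))
      (hQ.le (Ideal.subset_span (by simp)))
    calc (3 : ℕ∞) = 2 + 1 := by norm_num
      _ ≤ Q.height + 1 := by gcongr
      _ ≤ R.height := Ideal.height_add_one_le_of_lt_of_isPrime b2

end Pool.Agent.Lib.MP_cd3a7b_ag.Q5
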