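import Pool.Agent.Lib.MP_cd3a7b_ag.Q5.St

/-! The model quintic along the six lines. -/

namespace Pool.Agent.Lib.MP_cd3a7b_ag.Q5

open MvPolynomial Finset Filter Topology

namespace IdAux

/-- The facts needed on the line from `e i` to `e j`. -/
def Ok (i j : Fin 5) : Prop := ∀ y : ℂ, eval (e i + y • e j) F0 = 0 ∧
  eval (e i + y • e j) G0 = ∑ r, gm i j r * y ^ (r : ℕ) ∧
  (∀ m, grad F0 (e i + y • e j) m = ∑ r : Fin 5, y ^ (r : ℕ) * gc i j r m) ∧
  ∃ m, grad F0 (e i + y • e j) m = y ^ 2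

theorem ok02 : Ok 0 2 := fun y => by
  have h : ∀ m, grad F0 (e 0 + y • e 2) m = ∑ r : Fin 5, y ^ (r : ℕ) * gc 0 2 r m := fun m => by
    fin_cases m <;> simp [grad, F0, e, gc, Fin.sum_univ_succ, Derivation.leibniz_pow,
      pderiv_X] <;> ring
  refine ⟨by simp [F0, e], by simp [G0, e, gm, Fin.sum_univ_succ] <;> ring, h, 4, ?_⟩
  rw [h]
  simp [gc, Fin.sum_univ_succ]

theorem ok21 : Ok 2 1 := fun y => by
  have h : ∀ m, grad F0 (e 2 + y • e 1) m = ∑ r : Fin 5, y ^ (r : ℕ) * gc 2 1 r m := fun m => by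
    fin_cases m <;> simp [grad, F0, e, gc, Fin.sum_univ_succ, Derivation.leibniz_pow,
      pderiv_X] <;> ring
  refine ⟨by simp [F0, e], by simp [G0, e, gm, Fin.sum_univ_succ] <;> ring, h, 4, ?_⟩
  rw [h]
  simp [gc, Fin.sum_univ_succ]

theorem ok13 : Ok 1 3 := fun y => by
  have h : ∀ m, grad F0 (e 1 + y • e 3) m = ∑ r : Fin 5, y ^ (r : ℕ) * gc 1 3 r m := fun m => by
    fin_cases m <;> simp [grad, F0, e, gc, Fin.sum_univ_succ, Derivation.leibniz_pow,
      pderiv_X] <;> ring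
  refine ⟨by simp [F0, e], by simp [G0, e, gm, Fin.sum_univ_succ] <;> ring, h, 2, ?_⟩
  rw [h]
  simp [gc, Fin.sum_univ_succ]

theorem ok14 : Ok 1 4 := fun y => by
  have h : ∀ m, grad F0 (e 1 + y • e 4) m = ∑ r : Fin 5, y ^ (r : ℕ) * gc 1 4 r m := fun m => by
    fin_cases m <;> simp [grad, F0, e, gc, Fin.sum_univ_succ, Derivation.leibniz_pow,
      pderiv_X] <;> ring
  refine ⟨by simp [F0, e], by simp [G0, e, gm, Fin.sum_univ_succ] <;> ring, h, 3, ?_⟩
  rw [h]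
  simp [gc, Fin.sum_univ_succ]

theorem ok30 : Ok 3 0 := fun y => by
  have h : ∀ m, grad F0 (e 3 + y • e 0) m = ∑ r : Fin 5, y ^ (r : ℕ) * gc 3 0 r m := fun m => by
    fin_cases m <;> simp [grad, F0, e, gc, Fin.sum_univ_succ, Derivation.leibniz_pow,
      pderiv_X] <;> ring
  refine ⟨by simp [F0, e], by simp [G0, e, gm, Fin.sum_univ_succ] <;> ring, h, 2, ?_⟩
  rw [h]
  simp [gc, Fin.sum_univ_succ]

theorem ok40 : Ok 4 0 := fun y => by
  have h : ∀ m, grad F0 (e 4 + y • e 0) m = ∑ r : Fin 5, y ^ (r : ℕ) * gc 4 0 r m := fun m => by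
    fin_cases m <;> simp [grad, F0, e, gc, Fin.sum_univ_succ, Derivation.leibniz_pow,
      pderiv_X] <;> ring
  refine ⟨by simp [F0, e], by simp [G0, e, gm, Fin.sum_univ_succ] <;> ring, h, 3, ?_⟩
  rw [h]
  simp [gc, Fin.sum_univ_succ]

theorem ok (hWalk : StWalk) (o : Om) (k : ℤ) : Ok (w o k) (w o (k + 1)) := by
  obtain ⟨a, a', ha, -, h | h | h | h⟩ := hWalk.cases o k <;>
    obtain ⟨-, -, -, h2, h3, -⟩ := h <;> rw [h2, h3]
  · exact ok02
  · exact ok21
  · rcases ha with rfl | rfl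
    exacts [ok13, ok14]
  · rcases ha with rfl | rfl
    exacts [ok30, ok40]

theorem ends (hWalk : StWalk) (o : Om) (k : ℤ) :
    gc (w o k) (w o (k + 1)) 0 (w o (k - 1)) = 0 ∧ gc (w o k) (w o (k + 1)) 4 (w o (k + 2)) = 0 := by
  obtain ⟨a, a', ha, ha', h | h | h | h⟩ := hWalk.cases o k <;>
    obtain ⟨-, -, h1, h2, h3, h4⟩ := h <;> rw [h1, h2, h3, h4] <;>
    rcases ha with rfl | rfl <;> rcases ha' with rfl | rfl <;> simp [gc]

theorem hX (i : Fin 5) (n : ℕ) : (X i ^ n : Pol).IsHomogeneous n := by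
  simpa using (isHomogeneous_X ℂ i).pow n

theorem hn (n : ℕ) [n.AtLeastTwo] : (OfNat.ofNat n : Pol).IsHomogeneous 0 := by
  rw [← map_ofNat (C : ℂ →+* Pol) n]
  exact isHomogeneous_C _ _

theorem homF0 : F0.IsHomogeneous 5 := by
  have hx := isHomogeneous_X (σ := Fin 5) ℂ
  have a0 : IsHomogeneous _ 5 := ((hX 0 4).mul (hx 1))
  have a1 := a0.add (((hX 0 2).mul (hx 1)).mul (hX 2 2))
  have a2 := a1.sub ((((hn 100).mul (hx 0)).mul (hX 2 3)).mul (hx 3))
  have a3 := a2.add (((hX 0 2).mul (hX 2 2)).mul (hx 4))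
  have a4 := a3.add (((hX 0 2).mul (hx 1)).mul (hX 3 2))
  have a5 := a4.sub ((((hn 100).mul (hx 0)).mul (hX 3 3)).mul (hx 4))
  have a6 := a5.add (((hX 0 2).mul (hx 2)).mul (hX 3 2))
  have a7 := a6.add (((hX 0 2).mul (hx 1)).mul (hX 4 2))
  have a8 := a7.sub ((((hn 100).mul (hx 0)).mul (hx 2)).mul (hX 4 3))
  have a9 := a8.add (((hX 0 2).mul (hx 3)).mul (hX 4 2))
  have a10 := a9.add ((hx 0).mul (hX 1 4))
  have a11 := a10.add ((((hn 100).mul (hx 0)).mul (hX 1 3)).mul (hx 2))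
  have a12 := a11.add (((hx 0).mul (hX 1 2)).mul (hX 2 2))
  have a13 := a12.sub ((((hn 100).mul (hx 1)).mul (hX 2 3)).mul (hx 3))
  have a14 := a13.add (((hX 1 2).mul (hX 2 2)).mul (hx 4))
  have a15 := a14.add ((((hn 100).mul (hx 0)).mul (hX 1 3)).mul (hx 3))
  have a16 := a15.add (((hx 0).mul (hX 1 2)).mul (hX 3 2))
  have a17 := a16.sub ((((hn 100).mul (hx 1)).mul (hX 3 3)).mul (hx 4))
  have a18 := a17.add (((hX 1 2).mul (hx 2)).mul (hX 3 2))
  have a19 := a18.add ((((hn 100).mul (hx 0)).mul (hX 1 3)).mul (hx 4))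
  have a20 := a19.add (((hx 0).mul (hX 1 2)).mul (hX 4 2))
  have a21 := a20.sub ((((hn 100).mul (hx 1)).mul (hx 2)).mul (hX 4 3))
  have a22 := a21.add (((hX 1 2).mul (hx 3)).mul (hX 4 2))
  have a23 := a22.sub ((hX 2 4).mul (hx 3))
  have a24 := a23.sub ((hX 3 4).mul (hx 4))
  have a25 := a24.sub ((hx 2).mul (hX 4 4))
  exact a25

theorem homG0 : G0.IsHomogeneous 5 := by
  have hx := isHomogeneous_X (σ := Fin 5) ℂ
  have a0 : IsHomogeneous _ 5 := (((hn 2).mul (hX 0 3)).mul (hX 2 2))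
  have a1 := a0.add (((hn 4).mul (hX 0 3)).mul (hX 4 2))
  have a2 := a1.add (((hn 2).mul (hX 1 3)).mul (hX 2 2))
  have a3 := a2.add (((hn 4).mul (hX 1 3)).mul (hX 4 2))
  have a4 := a3.add (((hn 3).mul (hX 0 2)).mul (hX 2 3))
  have a5 := a4.add (((hn 3).mul (hX 0 2)).mul (hX 3 3))
  have a6 := a5.add (((hn 3).mul (hX 0 2)).mul (hX 4 3))
  exact a6

end IdAux

open IdAux in
theorem stId (hWalk : StWalk) : StId where
  hom := ⟨homF0, homG0⟩
  f0 o k y := (ok hWalk o k y).1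
  g0 o k y := (ok hWalk o k y).2.1
  lin o x k y hy := by
    obtain ⟨h1, h2⟩ := ends hWalk o k
    have h3 : ∀ (a : E) (i : Fin 5), ∑ m, a m * e i m = a i := fun a i => by
      simp [e, Pi.single_apply]
    have h4 : ∀ (a b b' : E) (s t : ℂ) (i j : Fin 5), dot a (b + y • b' + s • e i + t • e j) =
        dot a b + y * dot a b' + s * a i + t * a j := fun a b b' s t i j => by
      rw [← h3 a i, ← h3 a j]
      simp only [dot, Finset.mul_sum, ← Finset.sum_add_distrib]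
      exact Finset.sum_congr rfl fun m _ => by simp; ring
    have h5 : ∀ b : E, dot (grad F0 (ell o k y)) b =
        ∑ r : Fin 5, y ^ (r : ℕ) * dot (gc (w o k) (w o (k + 1)) r) b := fun b => by
      simp only [dot, ell, (ok hWalk o k y).2.2.1, Finset.sum_mul, Finset.mul_sum]
      rw [Finset.sum_comm]
      exact Finset.sum_congr rfl fun r _ => Finset.sum_congr rfl fun m _ => by ring
    unfold Q5.lin
    rw [h4, h5, h5]
    simp only [ell, (ok hWalk o k y).2.2.1, L, Lp]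
    simp [Fin.sum_univ_succ, h1, h2]
    field_simp
    ring
  one o k y hy := by
    obtain ⟨m, hm⟩ := (ok hWalk o k y).2.2.2
    exact ⟨m, by rw [ell, hm, norm_pow, hy, one_pow]⟩

end Pool.Agent.Lib.MP_cd3a7b_ag.Q5
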