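import Pool.Agent.Lib.MP_cd3a7b_ag.Q5.St

/-! Lower bounds for the solutions of the perturbed Jacobi equation. -/

namespace Pool.Agent.Lib.MP_cd3a7b_ag.Q5

namespace JDAux

lemma nja (k : ℤ) : ‖ja k‖ = 1 := by unfold ja; split_ifs <;> simp

lemma njc (k : ℤ) : ‖jc k‖ = 1 := by unfold jc; split_ifs <;> simp

lemma tri (t : ℤ → ℂ) (k : ℤ) :
    100 * ‖t k‖ ≤ ‖J t k‖ + ‖t (k - 1)‖ + ‖t (k + 1)‖ ∧
    ‖J t k‖ ≤ 100 * ‖t k‖ + ‖t (k - 1)‖ + ‖t (k + 1)‖ ∧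
    ‖t (k + 1)‖ ≤ ‖J t k‖ + 100 * ‖t k‖ + ‖t (k - 1)‖ ∧
    ‖t (k - 1)‖ ≤ ‖J t k‖ + 100 * ‖t k‖ + ‖t (k + 1)‖ := by
  have h0 : ‖100 * t k‖ = 100 * ‖t k‖ := by simp
  have h1 : ‖ja k * t (k - 1)‖ = ‖t (k - 1)‖ := by rw [norm_mul, nja, one_mul]
  have h2 : ‖jc k * t (k + 1)‖ = ‖t (k + 1)‖ := by rw [norm_mul, njc, one_mul]
  rw [← h0, ← h1, ← h2]
  unfold J
  generalize 100 * t k = a
  generalize ja k * t (k - 1) = b
  generalize jc k * t (k + 1) = c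
  have key : ∀ x y z : ℂ, ‖x‖ ≤ ‖x + y + z‖ + ‖y‖ + ‖z‖ := fun x y z => by
    have h : x = x + y + z - y - z := by ring
    calc ‖x‖ = ‖x + y + z - y - z‖ := by rw [← h]
      _ ≤ ‖x + y + z - y‖ + ‖z‖ := norm_sub_le _ _
      _ ≤ _ := by gcongr; exact norm_sub_le _ _
  refine ⟨key a b c, norm_add₃_le, ?_, ?_⟩
  · have := key c a b
    rwa [show c + a + b = a + b + c by ring] at this
  · have := key b a c
    rwa [show b + a + c = a + b + c by ring] at this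

lemma nDD (o : Om) (k : ℤ) : 2 ≤ ‖DD o k‖ ∧ ‖DD o k‖ ≤ 4 := by
  unfold DD
  split_ifs <;> norm_num

lemma J_sub (t t' : ℤ → ℂ) (k : ℤ) : J (fun i => t i - t' i) k = J t k - J t' k := by
  unfold J; ring

lemma near {a b : ℂ} {s : ℝ} (hs : 0 < s) (h : ‖a - s * b‖ ≤ s / 1000) :
    s * ‖b‖ - s / 1000 ≤ ‖a‖ ∧ ‖a‖ ≤ s * ‖b‖ + s / 1000 := by
  have h1 : ‖(s : ℂ) * b‖ = s * ‖b‖ := by rw [norm_mul, Complex.norm_real, Real.norm_of_nonneg hs.le]
  have h2 := abs_norm_sub_norm_le a (s * b)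
  rw [h1, abs_le] at h2
  constructor <;> linarith [h2.1, h2.2]

lemma up {t : ℤ → ℂ} {s : ℝ} (o : Om) (hs : 0 < s) (hB : ∃ B : ℝ, ∀ k, ‖t k‖ ≤ B)
    (h : ∀ k, ‖J t k - s * DD o k‖ ≤ s / 1000) (k : ℤ) : ‖t k‖ ≤ s / 24 := by
  obtain ⟨B, hB⟩ := hB
  have hb : BddAbove (Set.range fun k => ‖t k‖) := ⟨B, by rintro _ ⟨k, rfl⟩; exact hB k⟩
  have h1 : ∀ k, ‖t k‖ ≤ ⨆ k, ‖t k‖ := le_ciSup hb
  have h2 : ⨆ k, ‖t k‖ ≤ (4 * s + s / 1000 + 2 * ⨆ k, ‖t k‖) / 100 := ciSup_le fun k => by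
    have a1 := (tri t k).1
    have a2 := (near hs (h k)).2
    have a3 := mul_le_mul_of_nonneg_left (nDD o k).2 hs.le
    linarith [h1 (k - 1), h1 (k + 1)]
  linarith [h1 k]

lemma DD_odd (o : Om) {k : ℤ} (hk : k % 2 = 1) : DD o k = 3 := by simp [DD, hk]

lemma DD_two (o : Om) (n : ℤ) : DD o (4 * n + 2) = if o n then 2 else 4 := by
  have h1 : w o (4 * n + 2 - 1) = 2 := by
    unfold w; rw [if_neg (by omega), if_pos (by omega)]
  have h2 : w o (4 * n + 2 + 1) = if o n then 3 else 4 := by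
    unfold w
    rw [if_neg (by omega), if_neg (by omega), if_neg (by omega),
      show (4 * n + 2 + 1) / 4 = n by omega]
  unfold DD
  rw [if_neg (by omega), h1, h2]
  cases o n <;> simp

lemma DD_four (o : Om) (n : ℤ) : DD o (4 * n + 4) = if o n then 2 else 4 := by
  have h1 : w o (4 * n + 4 + 1) = 2 := by
    unfold w; rw [if_neg (by omega), if_pos (by omega)]
  have h2 : w o (4 * n + 4 - 1) = if o n then 3 else 4 := by
    unfold w
    rw [if_neg (by omega), if_neg (by omega), if_neg (by omega),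
      show (4 * n + 4 - 1) / 4 = n by omega]
  unfold DD
  rw [if_neg (by omega), h1, h2]
  cases o n <;> simp

lemma flip {a b : Bool} (h : a ≠ b) :
    ‖(if a then (2 : ℂ) else 4) - if b then 2 else 4‖ = 2 := by
  cases a <;> cases b <;> simp_all <;> norm_num

end JDAux

open JDAux in
theorem stJD (_hWalk : StWalk) : StJD := by
  intro t s hs hB h
  have hu : ∀ o k, ‖t o k‖ ≤ s / 24 := fun o => up o hs (hB o) (h o)
  refine ⟨fun o k => ?_, fun o o' n hn => ?_⟩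
  · have a1 := (tri (t o) k).2.1
    have a2 := (near hs (h o k)).1
    have a3 := mul_le_mul_of_nonneg_left (nDD o k).1 hs.le
    linarith [hu o (k - 1), hu o (k + 1)]
  set d : ℤ → ℂ := fun i => t o i - t o' i with hd
  have hdu : ∀ k, ‖d k‖ ≤ s / 12 := fun k => by
    have := norm_sub_le (t o k) (t o' k)
    linarith [hu o k, hu o' k]
  have hJ : ∀ k, ‖J d k - s * (DD o k - DD o' k)‖ ≤ s / 500 := fun k => by
    have e1 : J d k - s * (DD o k - DD o' k) =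
        (J (t o) k - s * DD o k) - (J (t o') k - s * DD o' k) := by rw [hd, J_sub]; ring
    rw [e1]
    have := norm_sub_le (J (t o) k - s * DD o k) (J (t o') k - s * DD o' k)
    linarith [h o k, h o' k]
  have hub : ∀ k, ‖DD o k - DD o' k‖ = 2 → s * (18 / 1000) ≤ ‖d k‖ := fun k hk => by
    have a1 := (tri d k).2.1
    have h1 : ‖(s : ℂ) * (DD o k - DD o' k)‖ = s * 2 := by
      rw [norm_mul, Complex.norm_real, Real.norm_of_nonneg hs.le, hk]
    have h2 := abs_norm_sub_norm_le (J d k) (s * (DD o k - DD o' k))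
    rw [h1, abs_le] at h2
    linarith [hJ k, h2.1, hdu (k - 1), hdu (k + 1)]
  have cor : ∀ k, k % 2 = 1 → ‖J d k‖ ≤ s / 500 := fun k hk => by
    have := hJ k
    rwa [DD_odd o hk, DD_odd o' hk, sub_self, mul_zero, sub_zero] at this
  constructor
  · have a1 := hub (4 * n + 2) (by rw [DD_two, DD_two]; exact flip hn)
    have a2 := cor (4 * n + 1) (by omega)
    have a3 := (tri d (4 * n + 1)).2.2.1
    rw [show 4 * n + 1 + 1 = 4 * n + 2 by ring, show 4 * n + 1 - 1 = 4 * n by ring] at a3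
    have b1 := le_max_left ‖d (4 * n)‖ ‖d (4 * n + 1)‖
    have b2 := le_max_right ‖d (4 * n)‖ ‖d (4 * n + 1)‖
    change s / 10000 ≤ max ‖d (4 * n)‖ ‖d (4 * n + 1)‖
    linarith
  · have a1 := hub (4 * n + 4) (by rw [DD_four, DD_four]; exact flip hn)
    have a2 := cor (4 * n + 5) (by omega)
    have a3 := (tri d (4 * n + 5)).2.2.2
    rw [show 4 * n + 5 - 1 = 4 * n + 4 by ring] at a3
    have b1 := le_max_left ‖d (4 * n + 5)‖ ‖d (4 * n + 5 + 1)‖
    have b2 := le_max_right ‖d (4 * n + 5)‖ ‖d (4 * n + 5 + 1)‖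
    change s / 10000 ≤ max ‖d (4 * n + 5)‖ ‖d (4 * n + 5 + 1)‖
    linarith

end Pool.Agent.Lib.MP_cd3a7b_ag.Q5
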