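import Pool.Agent.Lib.MP_cd3a7b_ag.Q5.St

/-! The linear algebra of the ten corners. -/

namespace Pool.Agent.Lib.MP_cd3a7b_ag.Q5

open MvPolynomial Finset Filter Topology

namespace LAAux

theorem comb {a : Fin 6 → ℂ} {M : ℝ} (h : ∀ r, ‖a r‖ ≤ M) (c : Fin 6 → ℤ)
    (hc : ∀ r, |c r| ≤ 10000) : ‖∑ r, (c r : ℂ) * a r‖ ≤ 60000 * M := by
  calc ‖∑ r, (c r : ℂ) * a r‖ ≤ ∑ r, ‖(c r : ℂ) * a r‖ := norm_sum_le _ _
    _ ≤ ∑ _r : Fin 6, 10000 * M := Finset.sum_le_sum fun r _ => by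
      rw [norm_mul, Complex.norm_intCast]
      exact mul_le_mul (by exact_mod_cast hc r) (h r) (norm_nonneg _) (by norm_num)
    _ = 60000 * M := by simp; ring

theorem comb2 {a b : Fin 6 → ℂ} {M : ℝ} {z : ℂ} (h : ∀ r, ‖a r‖ ≤ M) (h' : ∀ r, ‖b r‖ ≤ M)
    (c d : Fin 6 → ℤ) (hc : ∀ r, |c r| ≤ 10000) (hd : ∀ r, |d r| ≤ 10000)
    (e : z = ∑ r, (c r : ℂ) * a r + ∑ r, (d r : ℂ) * b r) : ‖z‖ ≤ 120000 * M := by
  rw [e]
  refine (norm_add_le _ _).trans ?_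
  linarith [comb h c hc, comb h' d hd]

theorem comb3 {a : Fin 6 → ℂ} {M : ℝ} {z t0 t1 t2 : ℂ} (h : ∀ r, ‖a r‖ ≤ M)
    (c : Fin 6 → ℤ) (p q s : ℤ) (hc : ∀ r, |c r| ≤ 10000) (hp : |p| ≤ 100 ∧ |q| ≤ 100 ∧ |s| ≤ 100)
    (e : z = ∑ r, (c r : ℂ) * a r + p * t0 + q * t1 + s * t2) :
    ‖z‖ ≤ 60000 * (‖t0‖ + ‖t1‖ + ‖t2‖ + M) := by
  have k : ∀ (p : ℤ) (t : ℂ), |p| ≤ 100 → ‖(p : ℂ) * t‖ ≤ 100 * ‖t‖ := fun p t hp => by
    rw [norm_mul, Complex.norm_intCast]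
    exact mul_le_mul_of_nonneg_right (by exact_mod_cast hp) (norm_nonneg _)
  rw [e]
  refine (norm_add_le _ _).trans ((add_le_add ((norm_add_le _ _).trans (add_le_add
    ((norm_add_le _ _).trans (add_le_add (comb h c hc) (k _ _ hp.1))) (k _ _ hp.2.1)))
    (k _ _ hp.2.2)).trans ?_)
  linarith [norm_nonneg t0, norm_nonneg t1, norm_nonneg t2]

theorem j0 (b0 b1 b2 : E) (t0 t1 t2 s : ℂ) (M : ℝ)
    (h : ∀ r, ‖Lp 1 3 0 2 b0 b1 t0 t1 r + s * gm 3 0 r‖ ≤ M)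
    (h' : ∀ r, ‖Lp 3 0 2 1 b1 b2 t1 t2 r + s * gm 0 2 r‖ ≤ M) :
    ‖100 * t1 + (-1) * t0 + (-1) * t2 - s * 2‖ ≤ 120000 * M :=
  comb2 h h' ![100, -1, 0, 0, 0, 0] ![1, 0, -1, 0, 0, 0] (by decide) (by decide) (by
    simp [Lp, gc, gm, dot, Fin.sum_univ_succ]
    ring)

theorem b0 (b0 b1 b2 : E) (t0 t1 t2 : ℂ) (M : ℝ) (hb : b1 0 = 0)
    (h : ∀ r, ‖Lp 1 3 0 2 b0 b1 t0 t1 r‖ ≤ M)
    (h' : ∀ r, ‖Lp 3 0 2 1 b1 b2 t1 t2 r‖ ≤ M) :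
    ‖b1‖ ≤ 60000 * (‖t0‖ + ‖t1‖ + ‖t2‖ + M) := by
  have h0 : 0 ≤ 60000 * (‖t0‖ + ‖t1‖ + ‖t2‖ + M) := by
    have := (norm_nonneg _).trans (h 0)
    positivity
  refine (pi_norm_le_iff_of_nonneg h0).2 fun m => ?_
  fin_cases m
  · simpa [hb] using h0
  · exact comb3 h' ![1, 0, 0, 0, 0, 0] (0) (0) (0) (by decide) (by decide) (by
      simp [Lp, gc, dot, Fin.sum_univ_succ]
      all_goals ring)
  · exact comb3 h ![0, 0, 0, 1, 0, -1] (-1) (0) (0) (by decide) (by decide) (by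
      simp [Lp, gc, dot, Fin.sum_univ_succ]
      all_goals ring)
  · exact comb3 h' ![0, 0, 0, 0, -1, 100] (0) (0) (1) (by decide) (by decide) (by
      simp [Lp, gc, dot, Fin.sum_univ_succ]
      all_goals ring)
  · exact comb3 h' ![-1, 0, 1, 0, 0, 0] (0) (100) (-1) (by decide) (by decide) (by
      simp [Lp, gc, dot, Fin.sum_univ_succ]
      all_goals ring)

theorem j1 (b0 b1 b2 : E) (t0 t1 t2 s : ℂ) (M : ℝ)
    (h : ∀ r, ‖Lp 1 4 0 2 b0 b1 t0 t1 r + s * gm 4 0 r‖ ≤ M)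
    (h' : ∀ r, ‖Lp 4 0 2 1 b1 b2 t1 t2 r + s * gm 0 2 r‖ ≤ M) :
    ‖100 * t1 + (-1) * t0 + (-1) * t2 - s * 4‖ ≤ 120000 * M :=
  comb2 h h' ![0, 0, 0, -1, 0, 0] ![1, 0, 0, 0, -1, 100] (by decide) (by decide) (by
    simp [Lp, gc, gm, dot, Fin.sum_univ_succ]
    ring)

theorem b1 (b0 b1 b2 : E) (t0 t1 t2 : ℂ) (M : ℝ) (hb : b1 0 = 0)
    (h : ∀ r, ‖Lp 1 4 0 2 b0 b1 t0 t1 r‖ ≤ M)
    (h' : ∀ r, ‖Lp 4 0 2 1 b1 b2 t1 t2 r‖ ≤ M) :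
    ‖b1‖ ≤ 60000 * (‖t0‖ + ‖t1‖ + ‖t2‖ + M) := by
  have h0 : 0 ≤ 60000 * (‖t0‖ + ‖t1‖ + ‖t2‖ + M) := by
    have := (norm_nonneg _).trans (h 0)
    positivity
  refine (pi_norm_le_iff_of_nonneg h0).2 fun m => ?_
  fin_cases m
  · simpa [hb] using h0
  · exact comb3 h' ![1, 0, 0, 0, 0, 0] (0) (0) (0) (by decide) (by decide) (by
      simp [Lp, gc, dot, Fin.sum_univ_succ]
      all_goals ring)
  · exact comb3 h ![100, -1, 0, 0, 0, 0] (1) (0) (0) (by decide) (by decide) (by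
      simp [Lp, gc, dot, Fin.sum_univ_succ]
      all_goals ring)
  · exact comb3 h' ![0, 0, 0, 0, -1, 100] (0) (0) (1) (by decide) (by decide) (by
      simp [Lp, gc, dot, Fin.sum_univ_succ]
      all_goals ring)
  · exact comb3 h' ![-1, 0, 1, 0, 0, 0] (0) (0) (-1) (by decide) (by decide) (by
      simp [Lp, gc, dot, Fin.sum_univ_succ]
      all_goals ring)

theorem j2 (b0 b1 b2 : E) (t0 t1 t2 s : ℂ) (M : ℝ)
    (h : ∀ r, ‖Lp 3 0 2 1 b0 b1 t0 t1 r + s * gm 0 2 r‖ ≤ M)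
    (h' : ∀ r, ‖Lp 0 2 1 3 b1 b2 t1 t2 r + s * gm 2 1 r‖ ≤ M) :
    ‖100 * t1 + (1) * t0 + (-1) * t2 - s * 3‖ ≤ 120000 * M :=
  comb2 h h' ![0, 1, 0, -1, 100, 0] ![0, -100, 1, 0, -1, 100] (by decide) (by decide) (by
    simp [Lp, gc, gm, dot, Fin.sum_univ_succ]
    ring)

theorem b2 (b0 b1 b2 : E) (t0 t1 t2 : ℂ) (M : ℝ) (hb : b1 2 = 0)
    (h : ∀ r, ‖Lp 3 0 2 1 b0 b1 t0 t1 r‖ ≤ M)
    (h' : ∀ r, ‖Lp 0 2 1 3 b1 b2 t1 t2 r‖ ≤ M) :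
    ‖b1‖ ≤ 60000 * (‖t0‖ + ‖t1‖ + ‖t2‖ + M) := by
  have h0 : 0 ≤ 60000 * (‖t0‖ + ‖t1‖ + ‖t2‖ + M) := by
    have := (norm_nonneg _).trans (h 0)
    positivity
  refine (pi_norm_le_iff_of_nonneg h0).2 fun m => ?_
  fin_cases m
  · exact comb3 h' ![0, 0, 0, 0, 1, -100] (0) (0) (0) (by decide) (by decide) (by
      simp [Lp, gc, dot, Fin.sum_univ_succ]
      all_goals ring)
  · exact comb3 h ![0, 1, 0, 0, 0, 0] (0) (0) (0) (by decide) (by decide) (by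
      simp [Lp, gc, dot, Fin.sum_univ_succ]
      all_goals ring)
  · simpa [hb] using h0
  · exact comb3 h' ![-1, 0, 0, 0, 0, 0] (0) (0) (0) (by decide) (by decide) (by
      simp [Lp, gc, dot, Fin.sum_univ_succ]
      all_goals ring)
  · exact comb3 h' ![10000, -100, 1, 0, -1, 100] (0) (0) (1) (by decide) (by decide) (by
      simp [Lp, gc, dot, Fin.sum_univ_succ]
      all_goals ring)

theorem j3 (b0 b1 b2 : E) (t0 t1 t2 s : ℂ) (M : ℝ)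
    (h : ∀ r, ‖Lp 3 0 2 1 b0 b1 t0 t1 r + s * gm 0 2 r‖ ≤ M)
    (h' : ∀ r, ‖Lp 0 2 1 4 b1 b2 t1 t2 r + s * gm 2 1 r‖ ≤ M) :
    ‖100 * t1 + (1) * t0 + (-1) * t2 - s * 3‖ ≤ 120000 * M :=
  comb2 h h' ![0, 1, 0, -1, 100, 0] ![0, -100, 1, 0, -1, 100] (by decide) (by decide) (by
    simp [Lp, gc, gm, dot, Fin.sum_univ_succ]
    ring)

theorem b3 (b0 b1 b2 : E) (t0 t1 t2 : ℂ) (M : ℝ) (hb : b1 2 = 0)
    (h : ∀ r, ‖Lp 3 0 2 1 b0 b1 t0 t1 r‖ ≤ M)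
    (h' : ∀ r, ‖Lp 0 2 1 4 b1 b2 t1 t2 r‖ ≤ M) :
    ‖b1‖ ≤ 60000 * (‖t0‖ + ‖t1‖ + ‖t2‖ + M) := by
  have h0 : 0 ≤ 60000 * (‖t0‖ + ‖t1‖ + ‖t2‖ + M) := by
    have := (norm_nonneg _).trans (h 0)
    positivity
  refine (pi_norm_le_iff_of_nonneg h0).2 fun m => ?_
  fin_cases m
  · exact comb3 h' ![0, 0, 0, 0, 1, -100] (0) (0) (-1) (by decide) (by decide) (by
      simp [Lp, gc, dot, Fin.sum_univ_succ]
      all_goals ring)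
  · exact comb3 h ![0, 1, 0, 0, 0, 0] (0) (0) (0) (by decide) (by decide) (by
      simp [Lp, gc, dot, Fin.sum_univ_succ]
      all_goals ring)
  · simpa [hb] using h0
  · exact comb3 h' ![-1, 0, 0, 0, 0, 0] (0) (0) (0) (by decide) (by decide) (by
      simp [Lp, gc, dot, Fin.sum_univ_succ]
      all_goals ring)
  · exact comb3 h' ![10000, -100, 1, 0, -1, 100] (0) (0) (1) (by decide) (by decide) (by
      simp [Lp, gc, dot, Fin.sum_univ_succ]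
      all_goals ring)

theorem j4 (b0 b1 b2 : E) (t0 t1 t2 s : ℂ) (M : ℝ)
    (h : ∀ r, ‖Lp 4 0 2 1 b0 b1 t0 t1 r + s * gm 0 2 r‖ ≤ M)
    (h' : ∀ r, ‖Lp 0 2 1 3 b1 b2 t1 t2 r + s * gm 2 1 r‖ ≤ M) :
    ‖100 * t1 + (1) * t0 + (-1) * t2 - s * 3‖ ≤ 120000 * M :=
  comb2 h h' ![0, 1, 0, -1, 100, 0] ![0, -100, 1, 0, -1, 100] (by decide) (by decide) (by
    simp [Lp, gc, gm, dot, Fin.sum_univ_succ]
    ring)

theorem b4 (b0 b1 b2 : E) (t0 t1 t2 : ℂ) (M : ℝ) (hb : b1 2 = 0)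
    (h : ∀ r, ‖Lp 4 0 2 1 b0 b1 t0 t1 r‖ ≤ M)
    (h' : ∀ r, ‖Lp 0 2 1 3 b1 b2 t1 t2 r‖ ≤ M) :
    ‖b1‖ ≤ 60000 * (‖t0‖ + ‖t1‖ + ‖t2‖ + M) := by
  have h0 : 0 ≤ 60000 * (‖t0‖ + ‖t1‖ + ‖t2‖ + M) := by
    have := (norm_nonneg _).trans (h 0)
    positivity
  refine (pi_norm_le_iff_of_nonneg h0).2 fun m => ?_
  fin_cases m
  · exact comb3 h' ![0, 0, 0, 0, 1, -100] (0) (0) (0) (by decide) (by decide) (by
      simp [Lp, gc, dot, Fin.sum_univ_succ]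
      all_goals ring)
  · exact comb3 h ![0, 1, 0, 0, 0, 0] (-1) (0) (0) (by decide) (by decide) (by
      simp [Lp, gc, dot, Fin.sum_univ_succ]
      all_goals ring)
  · simpa [hb] using h0
  · exact comb3 h' ![-1, 0, 0, 0, 0, 0] (0) (0) (0) (by decide) (by decide) (by
      simp [Lp, gc, dot, Fin.sum_univ_succ]
      all_goals ring)
  · exact comb3 h' ![10000, -100, 1, 0, -1, 100] (0) (0) (1) (by decide) (by decide) (by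
      simp [Lp, gc, dot, Fin.sum_univ_succ]
      all_goals ring)

theorem j5 (b0 b1 b2 : E) (t0 t1 t2 s : ℂ) (M : ℝ)
    (h : ∀ r, ‖Lp 4 0 2 1 b0 b1 t0 t1 r + s * gm 0 2 r‖ ≤ M)
    (h' : ∀ r, ‖Lp 0 2 1 4 b1 b2 t1 t2 r + s * gm 2 1 r‖ ≤ M) :
    ‖100 * t1 + (1) * t0 + (-1) * t2 - s * 3‖ ≤ 120000 * M :=
  comb2 h h' ![0, 1, 0, -1, 100, 0] ![0, -100, 1, 0, -1, 100] (by decide) (by decide) (by
    simp [Lp, gc, gm, dot, Fin.sum_univ_succ]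
    ring)

theorem b5 (b0 b1 b2 : E) (t0 t1 t2 : ℂ) (M : ℝ) (hb : b1 2 = 0)
    (h : ∀ r, ‖Lp 4 0 2 1 b0 b1 t0 t1 r‖ ≤ M)
    (h' : ∀ r, ‖Lp 0 2 1 4 b1 b2 t1 t2 r‖ ≤ M) :
    ‖b1‖ ≤ 60000 * (‖t0‖ + ‖t1‖ + ‖t2‖ + M) := by
  have h0 : 0 ≤ 60000 * (‖t0‖ + ‖t1‖ + ‖t2‖ + M) := by
    have := (norm_nonneg _).trans (h 0)
    positivity
  refine (pi_norm_le_iff_of_nonneg h0).2 fun m => ?_
  fin_cases m
  · exact comb3 h' ![0, 0, 0, 0, 1, -100] (0) (0) (-1) (by decide) (by decide) (by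
      simp [Lp, gc, dot, Fin.sum_univ_succ]
      all_goals ring)
  · exact comb3 h ![0, 1, 0, 0, 0, 0] (-1) (0) (0) (by decide) (by decide) (by
      simp [Lp, gc, dot, Fin.sum_univ_succ]
      all_goals ring)
  · simpa [hb] using h0
  · exact comb3 h' ![-1, 0, 0, 0, 0, 0] (0) (0) (0) (by decide) (by decide) (by
      simp [Lp, gc, dot, Fin.sum_univ_succ]
      all_goals ring)
  · exact comb3 h' ![10000, -100, 1, 0, -1, 100] (0) (0) (1) (by decide) (by decide) (by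
      simp [Lp, gc, dot, Fin.sum_univ_succ]
      all_goals ring)

theorem j6 (b0 b1 b2 : E) (t0 t1 t2 s : ℂ) (M : ℝ)
    (h : ∀ r, ‖Lp 0 2 1 3 b0 b1 t0 t1 r + s * gm 2 1 r‖ ≤ M)
    (h' : ∀ r, ‖Lp 2 1 3 0 b1 b2 t1 t2 r + s * gm 1 3 r‖ ≤ M) :
    ‖100 * t1 + (-1) * t0 + (-1) * t2 - s * 2‖ ≤ 120000 * M :=
  comb2 h h' ![0, 0, 0, -1, 100, 0] ![-9999, 0, 0, 0, -1, 100] (by decide) (by decide) (by
    simp [Lp, gc, gm, dot, Fin.sum_univ_succ]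
    ring)

theorem b6 (b0 b1 b2 : E) (t0 t1 t2 : ℂ) (M : ℝ) (hb : b1 1 = 0)
    (h : ∀ r, ‖Lp 0 2 1 3 b0 b1 t0 t1 r‖ ≤ M)
    (h' : ∀ r, ‖Lp 2 1 3 0 b1 b2 t1 t2 r‖ ≤ M) :
    ‖b1‖ ≤ 60000 * (‖t0‖ + ‖t1‖ + ‖t2‖ + M) := by
  have h0 : 0 ≤ 60000 * (‖t0‖ + ‖t1‖ + ‖t2‖ + M) := by
    have := (norm_nonneg _).trans (h 0)
    positivity
  refine (pi_norm_le_iff_of_nonneg h0).2 fun m => ?_
  fin_cases m
  · exact comb3 h' ![1, 0, 0, 0, 0, 0] (0) (0) (0) (by decide) (by decide) (by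
      simp [Lp, gc, dot, Fin.sum_univ_succ]
      all_goals ring)
  · simpa [hb] using h0
  · exact comb3 h' ![9999, -100, 1, 0, 0, 0] (0) (100) (-1) (by decide) (by decide) (by
      simp [Lp, gc, dot, Fin.sum_univ_succ]
      all_goals ring)
  · exact comb3 h ![100, -1, 0, 0, 0, 0] (1) (0) (0) (by decide) (by decide) (by
      simp [Lp, gc, dot, Fin.sum_univ_succ]
      all_goals ring)
  · exact comb3 h' ![0, 0, 0, 0, -1, 100] (0) (0) (1) (by decide) (by decide) (by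
      simp [Lp, gc, dot, Fin.sum_univ_succ]
      all_goals ring)

theorem j7 (b0 b1 b2 : E) (t0 t1 t2 s : ℂ) (M : ℝ)
    (h : ∀ r, ‖Lp 0 2 1 4 b0 b1 t0 t1 r + s * gm 2 1 r‖ ≤ M)
    (h' : ∀ r, ‖Lp 2 1 4 0 b1 b2 t1 t2 r + s * gm 1 4 r‖ ≤ M) :
    ‖100 * t1 + (-1) * t0 + (-1) * t2 - s * 4‖ ≤ 120000 * M :=
  comb2 h h' ![100, -1, 0, 0, 0, 0] ![-9999, 100, -1, 0, 0, 0] (by decide) (by decide) (by
    simp [Lp, gc, gm, dot, Fin.sum_univ_succ]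
    ring)

theorem b7 (b0 b1 b2 : E) (t0 t1 t2 : ℂ) (M : ℝ) (hb : b1 1 = 0)
    (h : ∀ r, ‖Lp 0 2 1 4 b0 b1 t0 t1 r‖ ≤ M)
    (h' : ∀ r, ‖Lp 2 1 4 0 b1 b2 t1 t2 r‖ ≤ M) :
    ‖b1‖ ≤ 60000 * (‖t0‖ + ‖t1‖ + ‖t2‖ + M) := by
  have h0 : 0 ≤ 60000 * (‖t0‖ + ‖t1‖ + ‖t2‖ + M) := by
    have := (norm_nonneg _).trans (h 0)
    positivity
  refine (pi_norm_le_iff_of_nonneg h0).2 fun m => ?_
  fin_cases m
  · exact comb3 h' ![1, 0, 0, 0, 0, 0] (0) (0) (0) (by decide) (by decide) (by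
      simp [Lp, gc, dot, Fin.sum_univ_succ]
      all_goals ring)
  · simpa [hb] using h0
  · exact comb3 h' ![0, 0, 0, 0, -1, 100] (0) (0) (1) (by decide) (by decide) (by
      simp [Lp, gc, dot, Fin.sum_univ_succ]
      all_goals ring)
  · exact comb3 h' ![9999, -100, 1, 0, 0, 0] (0) (100) (-1) (by decide) (by decide) (by
      simp [Lp, gc, dot, Fin.sum_univ_succ]
      all_goals ring)
  · exact comb3 h ![0, 0, 0, 1, -100, 9999] (-1) (100) (0) (by decide) (by decide) (by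
      simp [Lp, gc, dot, Fin.sum_univ_succ]
      all_goals ring)

theorem j8 (b0 b1 b2 : E) (t0 t1 t2 s : ℂ) (M : ℝ)
    (h : ∀ r, ‖Lp 2 1 3 0 b0 b1 t0 t1 r + s * gm 1 3 r‖ ≤ M)
    (h' : ∀ r, ‖Lp 1 3 0 2 b1 b2 t1 t2 r + s * gm 3 0 r‖ ≤ M) :
    ‖100 * t1 + (-1) * t0 + (1) * t2 - s * 3‖ ≤ 120000 * M :=
  comb2 h h' ![100, -1, 0, 1, -100, 0] ![0, 100, -1, 0, 1, 0] (by decide) (by decide) (by
    simp [Lp, gc, gm, dot, Fin.sum_univ_succ]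
    ring)

theorem b8 (b0 b1 b2 : E) (t0 t1 t2 : ℂ) (M : ℝ) (hb : b1 3 = 0)
    (h : ∀ r, ‖Lp 2 1 3 0 b0 b1 t0 t1 r‖ ≤ M)
    (h' : ∀ r, ‖Lp 1 3 0 2 b1 b2 t1 t2 r‖ ≤ M) :
    ‖b1‖ ≤ 60000 * (‖t0‖ + ‖t1‖ + ‖t2‖ + M) := by
  have h0 : 0 ≤ 60000 * (‖t0‖ + ‖t1‖ + ‖t2‖ + M) := by
    have := (norm_nonneg _).trans (h 0)
    positivity
  refine (pi_norm_le_iff_of_nonneg h0).2 fun m => ?_
  fin_cases m
  · exact comb3 h ![-100, 1, 0, 0, 0, 0] (-1) (0) (0) (by decide) (by decide) (by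
      simp [Lp, gc, dot, Fin.sum_univ_succ]
      all_goals ring)
  · exact comb3 h' ![0, 0, 0, 0, 1, 0] (0) (0) (-1) (by decide) (by decide) (by
      simp [Lp, gc, dot, Fin.sum_univ_succ]
      all_goals ring)
  · exact comb3 h' ![10000, -100, 1, 0, -1, 0] (0) (100) (1) (by decide) (by decide) (by
      simp [Lp, gc, dot, Fin.sum_univ_succ]
      all_goals ring)
  · simpa [hb] using h0
  · exact comb3 h' ![-1, 0, 0, 0, 0, 0] (0) (0) (0) (by decide) (by decide) (by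
      simp [Lp, gc, dot, Fin.sum_univ_succ]
      all_goals ring)

theorem j9 (b0 b1 b2 : E) (t0 t1 t2 s : ℂ) (M : ℝ)
    (h : ∀ r, ‖Lp 2 1 4 0 b0 b1 t0 t1 r + s * gm 1 4 r‖ ≤ M)
    (h' : ∀ r, ‖Lp 1 4 0 2 b1 b2 t1 t2 r + s * gm 4 0 r‖ ≤ M) :
    ‖100 * t1 + (-1) * t0 + (1) * t2 - s * 3‖ ≤ 120000 * M :=
  comb2 h h' ![100, -1, 0, 1, -100, 0] ![0, 100, -1, 0, 1, 0] (by decide) (by decide) (by
    simp [Lp, gc, gm, dot, Fin.sum_univ_succ]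
    ring)

theorem b9 (b0 b1 b2 : E) (t0 t1 t2 : ℂ) (M : ℝ) (hb : b1 4 = 0)
    (h : ∀ r, ‖Lp 2 1 4 0 b0 b1 t0 t1 r‖ ≤ M)
    (h' : ∀ r, ‖Lp 1 4 0 2 b1 b2 t1 t2 r‖ ≤ M) :
    ‖b1‖ ≤ 60000 * (‖t0‖ + ‖t1‖ + ‖t2‖ + M) := by
  have h0 : 0 ≤ 60000 * (‖t0‖ + ‖t1‖ + ‖t2‖ + M) := by
    have := (norm_nonneg _).trans (h 0)
    positivity
  refine (pi_norm_le_iff_of_nonneg h0).2 fun m => ?_
  fin_cases m
  · exact comb3 h ![-100, 1, 0, 0, 0, 0] (0) (0) (0) (by decide) (by decide) (by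
      simp [Lp, gc, dot, Fin.sum_univ_succ]
      all_goals ring)
  · exact comb3 h' ![0, 0, 0, 0, 1, 0] (0) (0) (0) (by decide) (by decide) (by
      simp [Lp, gc, dot, Fin.sum_univ_succ]
      all_goals ring)
  · exact comb3 h' ![-1, 0, 0, 0, 0, 0] (0) (0) (0) (by decide) (by decide) (by
      simp [Lp, gc, dot, Fin.sum_univ_succ]
      all_goals ring)
  · exact comb3 h' ![10000, -100, 1, 0, -1, 0] (0) (100) (1) (by decide) (by decide) (by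
      simp [Lp, gc, dot, Fin.sum_univ_succ]
      all_goals ring)
  · simpa [hb] using h0

theorem f3 (b0 b1 : E) (t0 t1 : ℂ) (M : ℝ) (h : ∀ r, ‖Lp 3 0 2 1 b0 b1 t0 t1 r‖ ≤ M) (p q : ℂ)
    (hp : p = (b0 + (1 : ℂ) • b1 + (t0 * (1 : ℂ)⁻¹) • e 3 + (t1 * (1 : ℂ) ^ 2) • e 1) 1)
    (hq : q = (b0 + (1 : ℂ) • b1 + (t0 * (1 : ℂ)⁻¹) • e 3 + (t1 * (1 : ℂ) ^ 2) • e 1) 3) :
    max ‖t0‖ ‖t1‖ ≤ 60000 * (‖p‖ + ‖q‖ + M) := by
  have h1 := comb3 (z := t0) (t0 := p) (t1 := q) (t2 := 0) h ![1, 1, 0, 0, 1, -99] (-1) (1) 0 (by decide) (by decide) (by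
    rw [hp, hq]
    simp [Lp, gc, dot, e, Fin.sum_univ_succ]
    ring)
  have h2 := comb3 (z := t1) (t0 := p) (t1 := q) (t2 := 0) h ![-1, -1, 0, 0, 0, 0] (1) (0) 0 (by decide) (by decide) (by
    rw [hp, hq]
    simp [Lp, gc, dot, e, Fin.sum_univ_succ]
    ring)
  simp only [norm_zero, add_zero] at h1 h2
  exact max_le h1 h2

theorem f4 (b0 b1 : E) (t0 t1 : ℂ) (M : ℝ) (h : ∀ r, ‖Lp 4 0 2 1 b0 b1 t0 t1 r‖ ≤ M) (p q : ℂ)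
    (hp : p = (b0 + (1 : ℂ) • b1 + (t0 * (1 : ℂ)⁻¹) • e 4 + (t1 * (1 : ℂ) ^ 2) • e 1) 1)
    (hq : q = (b0 + (1 : ℂ) • b1 + (t0 * (1 : ℂ)⁻¹) • e 4 + (t1 * (1 : ℂ) ^ 2) • e 1) 3) :
    max ‖t0‖ ‖t1‖ ≤ 60000 * (‖p‖ + ‖q‖ + M) := by
  have h1 := comb3 (z := t0) (t0 := p) (t1 := q) (t2 := 0) h ![1, 1, 0, 0, 1, -99] (-1) (1) 0 (by decide) (by decide) (by
    rw [hp, hq]
    simp [Lp, gc, dot, e, Fin.sum_univ_succ]
    ring)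
  have h2 := comb3 (z := t1) (t0 := p) (t1 := q) (t2 := 0) h ![0, 0, 0, 0, 1, -99] (0) (1) 0 (by decide) (by decide) (by
    rw [hp, hq]
    simp [Lp, gc, dot, e, Fin.sum_univ_succ]
    ring)
  simp only [norm_zero, add_zero] at h1 h2
  exact max_le h1 h2

end LAAux

open LAAux in
theorem stLA (hWalk : StWalk) : StLA where
  top o x k := by
    have e1 : k + 1 - 1 = k := by ring
    have e2 : k + 1 + 1 = k + 2 := by ring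
    obtain ⟨a, a', ha, ha', h | h | h | h⟩ := hWalk.cases o k <;>
      obtain ⟨-, -, h1, h2, h3, h4⟩ := h <;> simp only [L, gam, e1, e2, h1, h2, h3, h4] <;>
      rcases ha with rfl | rfl <;> rcases ha' with rfl | rfl <;> simp [Lp, gc, gm]
  sub o x x' k := by
    funext r
    fin_cases r <;> simp [L, Lp, dot, mul_sub, Finset.sum_sub_distrib] <;> ring
  jac := ⟨120000, by norm_num, fun o x k s M h h' => by
    have e1 : k - 1 - 1 = k - 2 := by ring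
    have e2 : k - 1 + 1 = k := by ring
    have e3 : k - 1 + 2 = k + 1 := by ring
    simp only [L, gam, e1, e2, e3] at h h'
    obtain ⟨a, a', ha, ha', g | g | g | g⟩ := hWalk.cases o k <;>
      obtain ⟨g0, g1, g2, g3, g4, g5⟩ := g <;> rw [g1, g2, g3, g4] at h <;>
      rw [g2, g3, g4, g5] at h'
    · have g6 : ¬ k % 2 = 1 := by omega
      rcases ha with rfl | rfl
      · simpa [J, ja, jc, DD, ta, g0, g2, g4, g6] using j0 _ _ _ _ _ _ _ _ h h'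
      · simpa [J, ja, jc, DD, ta, g0, g2, g4, g6] using j1 _ _ _ _ _ _ _ _ h h'
    · have g6 : k % 2 = 1 := by omega
      rcases ha with rfl | rfl <;> rcases ha' with rfl | rfl
      · simpa [J, ja, jc, DD, ta, g0, g6] using j2 _ _ _ _ _ _ _ _ h h'
      · simpa [J, ja, jc, DD, ta, g0, g6] using j3 _ _ _ _ _ _ _ _ h h'
      · simpa [J, ja, jc, DD, ta, g0, g6] using j4 _ _ _ _ _ _ _ _ h h'
      · simpa [J, ja, jc, DD, ta, g0, g6] using j5 _ _ _ _ _ _ _ _ h h'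
    · have g6 : ¬ k % 2 = 1 := by omega
      rcases ha with rfl | rfl
      · simpa [J, ja, jc, DD, ta, g0, g2, g4, g6] using j6 _ _ _ _ _ _ _ _ h h'
      · simpa [J, ja, jc, DD, ta, g0, g2, g4, g6] using j7 _ _ _ _ _ _ _ _ h h'
    · have g6 : k % 2 = 1 := by omega
      rcases ha with rfl | rfl
      · simpa [J, ja, jc, DD, ta, g0, g6] using j8 _ _ _ _ _ _ _ _ h h'
      · simpa [J, ja, jc, DD, ta, g0, g6] using j9 _ _ _ _ _ _ _ _ h h'⟩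
  bb := ⟨60000, by norm_num, fun o x k M hb h h' => by
    have e1 : k - 1 - 1 = k - 2 := by ring
    have e2 : k - 1 + 1 = k := by ring
    have e3 : k - 1 + 2 = k + 1 := by ring
    simp only [L, e1, e2, e3] at h h'
    obtain ⟨a, a', ha, ha', g | g | g | g⟩ := hWalk.cases o k <;>
      obtain ⟨g0, g1, g2, g3, g4, g5⟩ := g <;> rw [g1, g2, g3, g4] at h <;>
      rw [g2, g3, g4, g5] at h' <;> rw [g3] at hb
    · rcases ha with rfl | rfl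
      exacts [b0 _ _ _ _ _ _ _ hb h h', b1 _ _ _ _ _ _ _ hb h h']
    · rcases ha with rfl | rfl <;> rcases ha' with rfl | rfl
      exacts [b2 _ _ _ _ _ _ _ hb h h', b3 _ _ _ _ _ _ _ hb h h', b4 _ _ _ _ _ _ _ hb h h',
        b5 _ _ _ _ _ _ _ hb h h']
    · rcases ha with rfl | rfl
      exacts [b6 _ _ _ _ _ _ _ hb h h', b7 _ _ _ _ _ _ _ hb h h']
    · rcases ha with rfl | rfl
      exacts [b8 _ _ _ _ _ _ _ hb h h', b9 _ _ _ _ _ _ _ hb h h']⟩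
  four := ⟨60000, by norm_num, fun o x M h => by
    obtain ⟨a, a', ha, ha', g | g | g | g⟩ := hWalk.cases o 0 <;>
      obtain ⟨g0, g1, g2, g3, g4, g5⟩ := g
    · simp only [L, g2, g3, g4, g5] at h
      rcases ha with rfl | rfl
      · exact f3 _ _ _ _ _ h _ _ (by simp only [lin, g2, g5]) (by simp only [lin, g2, g5])
      · exact f4 _ _ _ _ _ h _ _ (by simp only [lin, g2, g5]) (by simp only [lin, g2, g5])
    all_goals omega⟩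

end Pool.Agent.Lib.MP_cd3a7b_ag.Q5
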