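import Pool.Agent.Lib.MP_cd3a7b_ag.Q5.St

/-! Laurent series with rapidly decreasing coefficients. -/

namespace Pool.Agent.Lib.MP_cd3a7b_ag.Q5

open MvPolynomial Finset Filter Topology

namespace LauAux

theorem zpow_le {y : ℂ} {R : ℝ} (h1 : ‖y‖ ≤ R) (h2 : ‖y‖⁻¹ ≤ R) (j : ℤ) :
    ‖y ^ j‖ ≤ R ^ j.natAbs := by
  obtain ⟨n, rfl | rfl⟩ := Int.eq_nat_or_neg j
  · rw [zpow_natCast, norm_pow, Int.natAbs_natCast]
    exact pow_le_pow_left₀ (norm_nonneg _) h1 _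
  · rw [zpow_neg, zpow_natCast, norm_inv, norm_pow, ← inv_pow, Int.natAbs_neg, Int.natAbs_natCast]
    exact pow_le_pow_left₀ (inv_nonneg.2 (norm_nonneg _)) h2 _

theorem nbhd {y : ℂ} (hy : y ≠ 0) :
    ∃ R : ℝ, 1 ≤ R ∧ ∀ᶠ z in 𝓝 y, z ≠ 0 ∧ ‖z‖ ≤ R ∧ ‖z‖⁻¹ ≤ R := by
  have p1 : 0 ≤ ‖y‖ := norm_nonneg _
  have p2 : 0 ≤ ‖y‖⁻¹ := inv_nonneg.2 p1
  refine ⟨‖y‖ + ‖y‖⁻¹ + 1, by linarith, ?_⟩
  have c1 : Tendsto (fun z : ℂ => ‖z‖) (𝓝 y) (𝓝 ‖y‖) := continuous_norm.tendsto y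
  have c2 : Tendsto (fun z : ℂ => ‖z‖⁻¹) (𝓝 y) (𝓝 ‖y‖⁻¹) := c1.inv₀ (norm_ne_zero_iff.2 hy)
  exact (eventually_ne_nhds hy).and
    ((c1.eventually_le_const (by linarith)).and (c2.eventually_le_const (by linarith)))

theorem term_le {y : ℂ} {R : ℝ} (h1 : ‖y‖ ≤ R) (h2 : ‖y‖⁻¹ ≤ R) (j : ℤ) {v : E} {b : ℝ}
    (hv : ‖v‖ ≤ b) : ‖y ^ j • v‖ ≤ b * R ^ j.natAbs := by
  rw [norm_smul, mul_comm]
  exact mul_le_mul hv (zpow_le h1 h2 j) (norm_nonneg _) ((norm_nonneg _).trans hv)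

theorem sm (a : ℤ → E) (y : ℂ) (ha : Fast a) (hy : y ≠ 0) :
    Summable fun j : ℤ => y ^ j • a j := by
  obtain ⟨R, hR, h⟩ := nbhd hy
  obtain ⟨-, h1, h2⟩ := h.self_of_nhds
  exact Summable.of_norm_bounded (ha R hR) fun j => term_le h1 h2 j le_rfl

theorem fd (a : ℤ → E) (ha : Fast a) : Fast fun j => (j : ℂ) • a j := by
  intro R hR
  refine Summable.of_nonneg_of_le (fun j => by positivity) (fun j => ?_)
    (ha (2 * R) (by linarith))
  have h1 : ‖(j : ℂ)‖ ≤ 2 ^ j.natAbs := by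
    rw [Complex.norm_intCast, ← Int.cast_abs, ← Nat.cast_natAbs]
    exact_mod_cast (Nat.lt_two_pow_self (n := j.natAbs)).le
  rw [norm_smul, mul_pow]
  have h2 : 0 ≤ ‖a j‖ * R ^ j.natAbs := by positivity
  nlinarith [mul_le_mul_of_nonneg_right h1 h2]

theorem der (a : ℤ → E) (y : ℂ) (ha : Fast a) (hy : y ≠ 0) :
    HasDerivAt (Lau a) (y⁻¹ • Lau (fun j => (j : ℂ) • a j) y) y := by
  obtain ⟨R, hR, h⟩ := nbhd hy
  obtain ⟨r, hr, h⟩ := Metric.eventually_nhds_iff_ball.1 h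
  have key := hasDerivAt_tsum_of_isPreconnected (𝕜 := ℂ)
    (g := fun (j : ℤ) (z : ℂ) => z ^ j • a j)
    (g' := fun (j : ℤ) (z : ℂ) => z⁻¹ • z ^ j • (j : ℂ) • a j)
    ((fd a ha R hR).mul_left R) Metric.isOpen_ball (convex_ball y r).isPreconnected
    (fun j z hz => ?_) (fun j z hz => ?_) (Metric.mem_ball_self hr) (sm a y ha hy)
    (Metric.mem_ball_self hr)
  · rw [tsum_const_smul''] at key
    exact key
  · have hz0 := (h z hz).1
    have := (hasDerivAt_zpow j z (Or.inl hz0)).smul_const (a j)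
    have e : ((j : ℂ) * z ^ (j - 1)) • a j = z⁻¹ • z ^ j • (j : ℂ) • a j := by
      rw [smul_smul, smul_smul, zpow_sub_one₀ hz0]
      congr 1
      ring
    rwa [e] at this
  · obtain ⟨-, h1, h2⟩ := h z hz
    rw [norm_smul, norm_inv]
    exact mul_le_mul h2 (term_le h1 h2 j le_rfl) (norm_nonneg _) (by linarith)

theorem lin (a a' : ℤ → E) (α β : ℂ) (ha : Fast a) (ha' : Fast a') :
    Fast (fun j => α • a j + β • a' j) ∧
      ∀ y, y ≠ 0 → Lau (fun j => α • a j + β • a' j) y = α • Lau a y + β • Lau a' y := by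
  refine ⟨fun R hR => ?_, fun y hy => ?_⟩
  · refine Summable.of_nonneg_of_le (fun j => by positivity) (fun j => ?_)
      (((ha R hR).mul_left ‖α‖).add ((ha' R hR).mul_left ‖β‖))
    have h1 : ‖α • a j + β • a' j‖ ≤ ‖α‖ * ‖a j‖ + ‖β‖ * ‖a' j‖ := by
      rw [← norm_smul, ← norm_smul]
      exact norm_add_le _ _
    have h2 : 0 ≤ R ^ j.natAbs := by positivity
    nlinarith [mul_le_mul_of_nonneg_right h1 h2]
  · unfold Lau
    rw [← tsum_const_smul'', ← tsum_const_smul'',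
      ← ((sm a y ha hy).const_smul α).tsum_add ((sm a' y ha' hy).const_smul β)]
    refine tsum_congr fun j => ?_
    rw [smul_add, smul_comm (y ^ j) α, smul_comm (y ^ j) β]

theorem chart (a a' : ℤ → E) (lam y : ℂ) (hy : y ≠ 0)
    (h : ∀ j, a j = lam ^ (j - 1) • a' (j - 1)) : Lau a y = y • Lau a' (lam * y) := by
  unfold Lau
  rw [← tsum_const_smul'', ← (Equiv.subRight (1 : ℤ)).tsum_eq
    (fun j : ℤ => y • (lam * y) ^ j • a' j)]
  refine tsum_congr fun j => ?_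
  rw [h j, Equiv.subRight_apply, smul_smul, smul_smul, mul_zpow, zpow_sub_one₀ hy]
  congr 1
  field_simp

theorem dom {ι : Type} (l : Filter ι) (an : ι → ℤ → E) (a : ℤ → E) (B : ℤ → ℝ) (yn : ι → ℂ)
    (y : ℂ) (hy : y ≠ 0) (hB : ∀ R : ℝ, 1 ≤ R → Summable fun j : ℤ => B j * R ^ j.natAbs)
    (hb : ∀ᶠ n in l, ∀ j, ‖an n j‖ ≤ B j) (ha : ∀ j, Tendsto (fun n => an n j) l (𝓝 (a j)))
    (hyn : Tendsto yn l (𝓝 y)) : Tendsto (fun n => Lau (an n) (yn n)) l (𝓝 (Lau a y)) := by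
  obtain ⟨R, hR, h⟩ := nbhd hy
  refine tendsto_tsum_of_dominated_convergence (hB R hR)
    (fun j => (hyn.zpow₀ j (Or.inl hy)).smul (ha j)) ?_
  filter_upwards [hb, hyn.eventually h] with n h1 h2 j
  exact term_le h2.2.1 h2.2.2 j (h1 j)

end LauAux

theorem stLau : StLau where
  sm := LauAux.sm
  fd := LauAux.fd
  der := LauAux.der
  lin := LauAux.lin
  chart := fun a a' lam y _ hy h => LauAux.chart a a' lam y hy h
  dom := LauAux.dom

end Pool.Agent.Lib.MP_cd3a7b_ag.Q5
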