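import Pool.Agent.Lib.MP_cd3a7b_ag.Q5.St

/-! Limits of normalised differences of solutions are tangent vectors. -/

namespace Pool.Agent.Lib.MP_cd3a7b_ag.Q5

open MvPolynomial Finset Filter Topology

namespace LimitAux

theorem back {Y : Type} [NormedAddCommGroup Y] [NormedSpace ℂ Y] {l : Filter ℕ} {s : ℕ → ℂ}
    {d : ℕ → Y} {D : Y} (hs : Tendsto s l (𝓝 0)) (h0 : ∀ n, s n ≠ 0)
    (h : Tendsto (fun n => (s n)⁻¹ • d n) l (𝓝 D)) : Tendsto d l (𝓝 0) := by
  have := hs.smul h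
  rw [zero_smul] at this
  refine this.congr fun n => ?_
  rw [smul_smul, mul_inv_cancel₀ (h0 n), one_smul]

theorem norm_u (hW : StWalk) {o : Om} {x : St} {ε : ℝ} (hx : Small x ε) (h : ε ≤ 1 / 2) (i : ℤ) :
    ‖u o x i‖ ≤ 3 / 2 := by
  have h1 := norm_add_le (e (w o i)) (x i).1
  rw [hW.norm_e] at h1
  have h2 := (norm_fst_le (x i)).trans (hx i)
  unfold u
  linarith

theorem diff_u (hW : StWalk) {o o' : Om} {x x' : St} {ε M : ℝ} (hε : 0 < ε) {i : ℤ}
    (h : dl o o' x x' ε i ≤ M) : ‖u o x i - u o' x' i‖ ≤ (2 / ε + 1) * M := by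
  have h1 : ‖(x i).1 - (x' i).1‖ ≤ M :=
    (norm_fst_le (x i - x' i)).trans ((le_max_left _ _).trans h)
  have hM : 0 ≤ M := (norm_nonneg _).trans h1
  have h2 : ‖e (w o i) - e (w o' i)‖ ≤ 2 / ε * M := by
    by_cases hw : w o i = w o' i
    · rw [hw, sub_self, norm_zero]; positivity
    · have h3 : ε ≤ M := by
        have := (le_max_right _ _).trans h
        rwa [if_neg hw] at this
      have h4 := norm_sub_le (e (w o i)) (e (w o' i))
      rw [hW.norm_e, hW.norm_e] at h4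
      have h5 : 2 / ε * ε ≤ 2 / ε * M := mul_le_mul_of_nonneg_left h3 (by positivity)
      rw [div_mul_cancel₀ _ hε.ne'] at h5
      linarith
  have h6 : u o x i - u o' x' i = (e (w o i) - e (w o' i)) + ((x i).1 - (x' i).1) := by
    unfold u; abel
  rw [h6]
  linarith [norm_add_le (e (w o i) - e (w o' i)) ((x i).1 - (x' i).1)]

theorem pw {ε : ℝ} (h0 : 0 ≤ ε) (h : ε ≤ 1 / 2) (m : ℕ) :
    ε ^ m ≤ (1 / 2) ^ m ∧ ε ^ (m - 1) ≤ 2 * (1 / 2) ^ m := by
  refine ⟨pow_le_pow_left₀ h0 h m, (pow_le_pow_left₀ h0 h _).trans ?_⟩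
  cases m with
  | zero => norm_num
  | succ m => rw [Nat.add_sub_cancel, pow_succ]; linarith

theorem bnd (hW : StWalk) (hP : StProd) {o o' : Om} {x x' : St} {ε N : ℝ} (hε : 0 < ε)
    (h2 : ε ≤ 1 / 2) (hx : Small x ε) (hx' : Small x' ε) (hN : 0 ≤ N) {k : ℤ}
    (hc : Close o o' x x' ε k N) (j : ℤ) :
    ‖va o x k j - va o' x' k j‖ ≤ N * ((2 / ε + 4) *
      (((nn j : ℝ) + 1) * ((j.natAbs : ℝ) + 1) * (1 / 2) ^ nn j * 400 ^ j.natAbs)) := by
  have t1 : ∀ i, ‖ta x i‖ ≤ ε := fun i => (norm_snd_le (x i)).trans (hx i)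
  have t2 : ∀ i, ‖ta x' i‖ ≤ ε := fun i => (norm_snd_le (x' i)).trans (hx' i)
  have t3 : ∀ i, ‖ta x i - ta x' i‖ ≤ N * kw (i - k) := fun i =>
    (norm_snd_le (x i - x' i)).trans ((le_max_left _ _).trans (hc i))
  have a1 := hP.lip _ _ ε N k j hε.le hN t1 t2 t3
  have a2 := hP.bound _ ε k j hε.le t2
  have a3 := norm_u hW (o := o) hx h2 (k + j)
  have a4 := diff_u hW hε (hc (k + j))
  rw [add_sub_cancel_left] at a4
  obtain ⟨p1, p2⟩ := pw hε.le h2 (nn j)
  have e1 : va o x k j - va o' x' k j = (cc (ta x) k j - cc (ta x') k j) • u o x (k + j) +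
      cc (ta x') k j • (u o x (k + j) - u o' x' (k + j)) := by
    unfold va; rw [sub_smul, smul_sub]; abel
  have hk : kw j = 400 ^ j.natAbs := rfl
  rw [e1, ← hk]
  have k0 : 0 ≤ N * kw j := mul_nonneg hN (zero_le_one.trans (hW.one_le_kw j))
  have n0 : (0 : ℝ) ≤ nn j := Nat.cast_nonneg _
  have j0 : (0 : ℝ) ≤ j.natAbs := Nat.cast_nonneg _
  have q0 : (0 : ℝ) ≤ (1 / 2) ^ nn j := by positivity
  have e0 : 0 ≤ 2 / ε := by positivity
  have b1 : ‖(cc (ta x) k j - cc (ta x') k j) • u o x (k + j)‖ ≤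
      nn j * (2 * (1 / 2) ^ nn j) * (N * kw j) * (3 / 2) := by
    rw [norm_smul]
    refine mul_le_mul (a1.trans ?_) a3 (norm_nonneg _) (by positivity)
    exact mul_le_mul_of_nonneg_right (mul_le_mul_of_nonneg_left p2 n0) k0
  have b2 : ‖cc (ta x') k j • (u o x (k + j) - u o' x' (k + j))‖ ≤
      (1 / 2) ^ nn j * ((2 / ε + 1) * (N * kw j)) := by
    rw [norm_smul]
    exact mul_le_mul (a2.trans p1) a4 (norm_nonneg _) q0
  refine (norm_add_le _ _).trans ((add_le_add b1 b2).trans ?_)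
  have b3 : 3 * (nn j : ℝ) + (2 / ε + 1) ≤ (2 / ε + 4) * (((nn j : ℝ) + 1) * (j.natAbs + 1)) := by
    nlinarith [mul_nonneg n0 j0, mul_nonneg e0 n0, mul_nonneg e0 j0,
      mul_nonneg e0 (mul_nonneg n0 j0)]
  have b4 := mul_le_mul_of_nonneg_right b3 (mul_nonneg q0 k0)
  calc _ = (3 * (nn j : ℝ) + (2 / ε + 1)) * ((1 / 2) ^ nn j * (N * kw j)) := by ring
    _ ≤ _ := b4
    _ = _ := by ring

theorem close_k (hW : StWalk) {o o' : Om} {x x' : St} {ε N : ℝ} (hN : 0 ≤ N)
    (hc : Close o o' x x' ε 0 N) (k : ℤ) : Close o o' x x' ε k (N * kw k) := fun i => by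
  have h1 := hW.kw_add k (i - k)
  rw [add_sub_cancel] at h1
  have h2 := hc i
  rw [sub_zero] at h2
  rw [mul_assoc]
  exact h2.trans (mul_le_mul_of_nonneg_left h1 hN)

end LimitAux

open LimitAux in
theorem stLimit (hWalk : StWalk) (hProd : StProd) (hLau : StLau) (hSerA : StSerA)
    (_hChart : StChart) : StLimit := by
  intro F ε c A o x l on xn s D hl hε h2 hc hx hxn hs s0 hon hcl hD
  have sc0 : ∀ n, (s n : ℂ) ≠ 0 := fun n => Complex.ofReal_ne_zero.2 (hs n).ne'
  have sc : Tendsto (fun n => (s n : ℂ)) l (𝓝 0) := by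
    have h1 := (Complex.continuous_ofReal.tendsto 0).comp s0
    rw [Complex.ofReal_zero] at h1
    exact h1
  have ns : ∀ n, ‖((s n : ℂ))⁻¹‖ = (s n)⁻¹ := fun n => by
    rw [norm_inv, Complex.norm_real, Real.norm_of_nonneg (hs n).le]
  have hA : 0 ≤ A := by
    have h1 := ((norm_nonneg _).trans (le_max_left _ _)).trans (hcl 0 0)
    have h3 : kw (0 - 0) = 1 := by simp [kw]
    rw [h3, mul_one] at h1
    exact nonneg_of_mul_nonneg_left h1 (hs 0)
  have hw : ∀ i, ∀ᶠ n in l, w (on n) i = w o i := fun i =>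
    (hWalk.loc l on o hon i i).mono fun n h => h i le_rfl le_rfl
  have D1 : ∀ i, Tendsto (fun n => ((s n : ℂ))⁻¹ • ((xn n i).1 - (x i).1)) l (𝓝 (D i).1) :=
    fun i => (continuous_fst.tendsto _).comp (hD i)
  have D2 : ∀ i, Tendsto (fun n => ((s n : ℂ))⁻¹ * (ta (xn n) i - ta x i)) l (𝓝 (D i).2) :=
    fun i => (continuous_snd.tendsto _).comp (hD i)
  have t0 : ∀ i, ta x i ≠ 0 := fun i =>
    norm_pos_iff.1 ((mul_pos hc hε).trans_le (hx.low i))
  have U1 : ∀ i, Tendsto (fun n => ((s n : ℂ))⁻¹ • (u (on n) (xn n) i - u o x i)) l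
      (𝓝 (D i).1) := fun i => (D1 i).congr' ((hw i).mono fun n h => by
    simp only [u, h, add_sub_add_left_eq_sub])
  have U2 : ∀ i, Tendsto (fun n => u (on n) (xn n) i) l (𝓝 (u o x i)) := fun i =>
    tendsto_sub_nhds_zero_iff.1 (back sc sc0 (U1 i))
  have main : ∀ k (zn : ℕ → ℂ) z, z ≠ 0 → Tendsto zn l (𝓝 z) →
      Tendsto (fun n => ((s n : ℂ))⁻¹ • (V (on n) (xn n) k (zn n) - V o x k (zn n))) l
        (𝓝 (Eta o x D k z)) := by
    intro k zn z hz hzn
    have key := hLau.dom l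
      (fun n j => ((s n : ℂ))⁻¹ • va (on n) (xn n) k j + (-((s n : ℂ))⁻¹) • va o x k j)
      (ea o x D k) (fun j => A * kw k * ((2 / ε + 4) *
        (((nn j : ℝ) + 1) * ((j.natAbs : ℝ) + 1) * (1 / 2) ^ nn j * 400 ^ j.natAbs))) zn z hz
      (fun R hR => ((hProd.sum (400 * R) (by linarith)).mul_left
        (A * kw k * (2 / ε + 4))).congr fun j => by rw [mul_pow]; ring)
      (Eventually.of_forall fun n j => by
        have h0 : 0 ≤ A * s n := mul_nonneg hA (hs n).le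
        have h1 := bnd hWalk hProd hε h2 (hxn n).small hx.small
          (mul_nonneg h0 (zero_le_one.trans (hWalk.one_le_kw k))) (close_k hWalk h0 (hcl n) k) j
        rw [neg_smul, ← sub_eq_add_neg, ← smul_sub, norm_smul, ns,
          inv_mul_le_iff₀ (hs n)]
        refine h1.trans_eq ?_
        ring)
      (fun j => by
        have h1 := (hProd.lim l (ta x) (fun i => (D i).2) (fun n => ta (xn n))
          (fun n => (s n : ℂ)) k j sc sc0 t0 D2).smul (U2 (k + j))
        have h3 := h1.add ((U1 (k + j)).const_smul (cc (ta x) k j))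
        have e1 : ea o x D k j = (cc (ta x) k j * rr (fun i => (D i).2 / ta x i) k j) •
            u o x (k + j) + cc (ta x) k j • (D (k + j)).1 := by
          simp only [ea, ta, smul_add, smul_smul]
        rw [e1]
        refine h3.congr fun n => ?_
        simp only [va]
        module) hzn
    refine key.congr' ((hzn.eventually_ne hz).mono fun n hn => ?_)
    have h1 := (hLau.lin _ _ ((s n : ℂ))⁻¹ (-((s n : ℂ))⁻¹)
      (hSerA.fast (on n) (xn n) k ε (hxn n).small h2) (hSerA.fast o x k ε hx.small h2)).2 _ hn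
    simp only [h1, V]
    module
  refine ⟨⟨fun k => ?_, ⟨A, fun i => ?_⟩, fun k y hy => ?_⟩, main⟩
  · have h1 := ((continuous_apply (w o k)).tendsto _).comp (D1 k)
    refine tendsto_nhds_unique h1 (tendsto_const_nhds.congr' ((hw k).mono fun n h => ?_))
    have h3 := (hxn n).b0 k
    rw [h] at h3
    simp [h3, hx.b0 k]
  · refine le_of_tendsto (hD i).norm (Eventually.of_forall fun n => ?_)
    rw [norm_smul, ns, inv_mul_le_iff₀ (hs n)]
    refine ((le_max_left _ _).trans (hcl n i)).trans_eq ?_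
    ring
  · obtain ⟨Lf, hL, hL'⟩ := hasFDerivAt_eval_alg F (V o x k y)
    have h1 := main k (fun _ => y) y hy tendsto_const_nhds
    have h3 := (hL.hasFDerivWithinAt (s := Set.univ)).lim (back sc sc0 h1)
      (Eventually.of_forall fun _ => Set.mem_univ _) h1
    have h4 : Lf (Eta o x D k y) = 0 := by
      refine tendsto_nhds_unique h3 (tendsto_const_nhds.congr fun n => ?_)
      rw [add_sub_cancel, (hxn n).zero k y hy, hx.zero k y hy, sub_self, smul_zero]
    rw [hL'] at h4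
    rw [← h4]
    exact Finset.sum_congr rfl fun j _ => mul_comm _ _

end Pool.Agent.Lib.MP_cd3a7b_ag.Q5
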