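import Pool.Agent.Lib.MP_cd3a7b_ag.Q5.St

/-! Tangent directions of a plane curve at the origin lie on finitely many lines. -/

namespace Pool.Agent.Lib.MP_cd3a7b_ag.Q5

open MvPolynomial Finset Filter Topology

theorem stLow : StLow := by
  classical
  intro Q hQ
  obtain ⟨m0, h0, hmin⟩ := Q.support.exists_min_image (fun m => m 0 + m 1)
    (support_nonempty.2 hQ)
  obtain ⟨d, hd⟩ : ∃ d, d = m0 0 + m0 1 := ⟨_, rfl⟩
  let g : Polynomial ℂ := ∑ m ∈ Q.support,
    Polynomial.monomial (m 1) (coeff m Q * 0 ^ (m 0 + m 1 - d))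
  have hg : g ≠ 0 := fun e => by
    have h1 : g.coeff (m0 1) = coeff m0 Q := by
      rw [Polynomial.finsetSum_coeff, sum_eq_single m0 (fun m hm hne => ?_) (absurd h0)]
      · rw [Polynomial.coeff_monomial_same, ← hd, Nat.sub_self, pow_zero, mul_one]
      · rw [Polynomial.coeff_monomial]
        split_ifs with h
        · have h2 := hmin m hm
          have h3 : m 0 ≠ m0 0 := fun h3 => hne (Finsupp.ext (Fin.forall_fin_two.2 ⟨h3, h⟩))
          rw [zero_pow (by omega), mul_zero]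
        · rfl
    rw [e, Polynomial.coeff_zero] at h1
    exact mem_support_iff.1 h0 h1.symm
  refine ⟨insert (1, 0) ((fun r => (r, -1)) '' {r | g.IsRoot r}),
    ((g.finite_setOfPred_isRoot hg).image _).insert _, by simp, fun l p s η _ hs hp he hη => ?_⟩
  let Φ : ℂ × (Fin 2 → ℂ) → ℂ := fun z =>
    ∑ m ∈ Q.support, coeff m Q * z.1 ^ (m 0 + m 1 - d) * (z.2 0 ^ m 0 * z.2 1 ^ m 1)
  have hc : Continuous Φ := by fun_prop
  have h1 := (hc.tendsto _).comp
    (((Complex.continuous_ofReal.tendsto 0).comp hs).prodMk_nhds hη)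
  have h2 : Φ ((0 : ℝ), η) = 0 := by
    refine tendsto_nhds_unique h1 (tendsto_const_nhds.congr' (he.mono fun n hn => ?_))
    have h3 : (s n : ℂ) ≠ 0 := Complex.ofReal_ne_zero.2 (hp n).ne'
    refine (mul_eq_zero.1 (?_ : (s n : ℂ) ^ d * _ = 0)).resolve_left (pow_ne_zero d h3) |>.symm
    rw [← hn, eval_eq']
    simp only [Function.comp, Φ, mul_sum, Fin.prod_univ_two, Pi.smul_apply, smul_eq_mul]
    refine sum_congr rfl fun m hm => ?_
    obtain ⟨c, hc⟩ := Nat.exists_eq_add_of_le (hd ▸ hmin m hm : d ≤ m 0 + m 1)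
    have h4 : (s n : ℂ) ^ d * s n ^ c = s n ^ m 0 * s n ^ m 1 := by rw [← pow_add, ← pow_add, hc]
    rw [hc, Nat.add_sub_cancel_left, mul_pow, mul_pow, inv_pow, inv_pow]
    field_simp
    linear_combination coeff m Q * p n 0 ^ m 0 * p n 1 ^ m 1 * h4
  by_cases h : η 0 = 0
  · exact ⟨(1, 0), Or.inl rfl, by simp [h]⟩
  refine ⟨(η 1 / η 0, -1), Or.inr ⟨_, ?_, rfl⟩, by field_simp; ring⟩
  refine (mul_eq_zero.1 (?_ : η 0 ^ d * g.eval (η 1 / η 0) = 0)).resolve_left (pow_ne_zero d h)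
  rw [← h2]
  simp only [g, Φ, Polynomial.eval_finsetSum, Polynomial.eval_monomial, mul_sum,
    Complex.ofReal_zero]
  refine sum_congr rfl fun m hm => ?_
  rcases (hd ▸ hmin m hm : d ≤ m 0 + m 1).eq_or_lt with e | e
  · rw [e, pow_add, div_pow]
    field_simp
  · rw [zero_pow (by omega)]
    ring

end Pool.Agent.Lib.MP_cd3a7b_ag.Q5
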