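import Pool.Agent.Lib.MP_cd3a7b_ag.Q5.St

/-! The glued curve has no zero. -/

namespace Pool.Agent.Lib.MP_cd3a7b_ag.Q5

open MvPolynomial Finset Filter Topology

namespace NeAux

/-- The majorant of the terms. -/
noncomputable def maj (j : ℤ) : ℝ := 4 * (1 / 2) ^ nn j + 4 * (1 / 2) ^ nn (j + 1)

theorem maj_sum (hP : StProd) : Summable maj := by
  have h : Summable fun j : ℤ => (1 / 2 : ℝ) ^ nn j := by
    refine (hP.sum 1 le_rfl).of_nonneg_of_le (fun j => by positivity) fun j => ?_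
    rw [one_pow, mul_one]
    refine le_mul_of_one_le_left (by positivity) (one_le_mul_of_one_le_of_one_le ?_ ?_) <;> simp
  exact (h.mul_left 4).add (((Equiv.addRight (1 : ℤ)).summable_iff.2 h).mul_left 4)

theorem pw {ε : ℝ} (h0 : 0 ≤ ε) (h1 : ε ≤ 1 / 2) {n : ℕ} (hn : 1 ≤ n) :
    ε ^ n * 2 ≤ ε * (4 * (1 / 2) ^ n) := by
  obtain ⟨m, rfl⟩ := Nat.exists_eq_add_of_le' hn
  have := mul_le_mul_of_nonneg_left (pow_le_pow_left₀ h0 h1 m) h0
  rw [pow_succ, pow_succ]
  linarith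

theorem term (hW : StWalk) (hP : StProd) {o : Om} {x : St} {ε : ℝ} (h1 : ε ≤ 1 / 2)
    (hs : Small x ε) {k : ℤ} {y : ℂ} (ht : (x k).2 ≠ 0) (hy : ‖(x k).2‖ ≤ ‖y‖) (hy1 : ‖y‖ ≤ 1)
    (j : ℤ) : ‖(y ^ j • va o x k j) (w o k) - if j = 0 then 1 else 0‖ ≤ ε * maj j := by
  have h0 : 0 ≤ ε := (norm_nonneg _).trans (hs 0)
  have hb : ∀ i, ‖(x i).1 (w o k)‖ ≤ ε := fun i =>
    (norm_le_pi_norm _ _).trans ((norm_fst_le _).trans (hs i))
  have hta : ∀ i, ‖ta x i‖ ≤ ε := fun i => (norm_snd_le _).trans (hs i)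
  have hu : ∀ i, ‖u o x i (w o k)‖ ≤ 2 := fun i => by
    have := (norm_le_pi_norm _ (w o k)).trans (hW.norm_e (w o i)).le
    exact (norm_add_le _ _).trans (by linarith [hb i])
  have t0 : 0 < ‖(x k).2‖ := norm_pos_iff.2 ht
  have y0 : y ≠ 0 := norm_pos_iff.1 (t0.trans_le hy)
  have m1 : ∀ j, ε * (4 * (1 / 2) ^ nn j) ≤ ε * maj j := fun j =>
    mul_le_mul_of_nonneg_left (le_add_of_nonneg_right (by positivity)) h0
  have m2 : ∀ j, ε * (4 * (1 / 2) ^ nn (j + 1)) ≤ ε * maj j := fun j =>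
    mul_le_mul_of_nonneg_left (le_add_of_nonneg_left (by positivity)) h0
  obtain ⟨c0, c1, c2, -⟩ := hP.c0 (ta x) k
  obtain ⟨n0, n1, n2, n3, n4⟩ := hP.n0
  have e : (y ^ j • va o x k j) (w o k) = y ^ j * cc (ta x) k j * u o x (k + j) (w o k) := by
    simp [va, mul_assoc]
  rw [e]
  rcases (by omega : j = 0 ∨ j = 1 ∨ j = -1 ∨ 2 ≤ j ∨ j ≤ -2) with rfl | rfl | rfl | hj | hj
  · refine le_trans ?_ (m1 0)
    have := hb k
    simp [c0, n0, u, Q5.e]
    linarith
  · refine le_trans ?_ (m1 1)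
    have := mul_le_mul hy1 (hb (k + 1)) (norm_nonneg _) zero_le_one
    simp [c1, n1, u, Q5.e, (hW.ne o k).1.symm]
    linarith
  · refine le_trans ?_ (m2 (-1))
    have a1 : ‖y‖⁻¹ * ‖(x k).2‖ ≤ 1 := inv_mul_le_one_of_le₀ hy (norm_nonneg _)
    have := mul_le_mul a1 (hb (k - 1)) (norm_nonneg _) zero_le_one
    simp [c2, n0, u, Q5.e, ← sub_eq_add_neg, (hW.ne o k).2.symm, ta]
    linarith
  · have hn : 1 ≤ nn j := by
      rcases eq_or_lt_of_le hj with rfl | h
      exacts [n3.ge, le_trans (by norm_num) (n4 j (Or.inr h))]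
    refine le_trans ?_ ((pw h0 h1 hn).trans (m1 j))
    rw [if_neg (by omega), sub_zero, norm_mul, norm_mul, norm_zpow]
    have a1 : ‖y‖ ^ j ≤ 1 := zpow_le_one₀ (norm_pos_iff.2 y0) hy1 (by omega)
    have a2 := mul_le_mul a1 (hP.bound (ta x) ε k j h0 hta) (norm_nonneg _) zero_le_one
    rw [one_mul] at a2
    exact mul_le_mul a2 (hu _) (norm_nonneg _) (by positivity)
  · have hn : 1 ≤ nn (j + 1) := by
      rcases eq_or_lt_of_le hj with rfl | h
      exacts [n2.ge, le_trans (by norm_num) (n4 (j + 1) (Or.inl (by omega)))]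
    refine le_trans ?_ ((pw h0 h1 hn).trans (m2 j))
    have ch := hP.chart (ta x) (k - 1) (j + 1) (by rwa [sub_add_cancel])
    rw [sub_add_cancel, add_sub_cancel_right] at ch
    have a2 := hP.bound (ta x) ε (k - 1) (j + 1) h0 hta
    rw [ch, norm_mul, norm_zpow] at a2
    rw [if_neg (by omega), sub_zero, norm_mul, norm_mul, norm_zpow]
    have a1 : ‖y‖ ^ j ≤ ‖ta x k‖ ^ j := by
      rw [← neg_neg j, zpow_neg, zpow_neg ‖ta x k‖]
      exact inv_anti₀ (zpow_pos t0 _) (zpow_le_zpow_left₀ (by omega) t0.le hy)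
    exact mul_le_mul ((mul_le_mul_of_nonneg_right a1 (norm_nonneg _)).trans a2) (hu _)
      (norm_nonneg _) (by positivity)

end NeAux

open NeAux in
theorem stNe (hWalk : StWalk) (hProd : StProd) (hLau : StLau) (hSerA : StSerA)
    (hChart : StChart) : StNe := by
  have hG := (maj_sum hProd).hasSum
  generalize ∑' j, maj j = G at hG
  have G0 : 0 ≤ G := hG.nonneg fun j => by unfold maj; positivity
  refine ⟨1 / (2 + G), by positivity, fun o x ε a hε hs a0 hl => ?_⟩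
  have h1 : ε ≤ 1 / 2 := hε.trans (one_div_le_one_div_of_le two_pos (by linarith))
  have h0 : 0 ≤ ε := (norm_nonneg _).trans (hs 0)
  have ht : ∀ k, (x k).2 ≠ 0 := fun k => norm_pos_iff.1 (a0.trans_le (hl k))
  have ht2 : ∀ k, ‖(x k).2‖ ≤ 1 / 2 := fun k => ((norm_snd_le _).trans (hs k)).trans h1
  have ny : ∀ k {y : ℂ}, ‖(x k).2‖ ≤ ‖y‖ → y ≠ 0 := fun k y h =>
    norm_pos_iff.1 ((norm_pos_iff.2 (ht k)).trans_le h)
  have core : ∀ k y, ‖(x k).2‖ ≤ ‖y‖ → ‖y‖ ≤ 1 → V o x k y ≠ 0 := by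
    intro k y hy hy1 hV
    have s1 : HasSum _ (V o x k y) := (hLau.sm _ y (hSerA.fast o x k ε hs h1) (ny k hy)).hasSum
    have s2 := ((Pi.hasSum.1 s1 (w o k)).sub (hasSum_ite_eq (0 : ℤ) (1 : ℂ))).norm_le_of_bounded
      (hG.mul_left ε) (term hWalk hProd h1 hs (ht k) hy hy1)
    rw [hV, Pi.zero_apply, zero_sub, norm_neg, norm_one] at s2
    rw [le_div_iff₀ (by positivity)] at hε
    have : ε = 0 := by nlinarith
    rw [this] at s2
    linarith
  have up : ∀ (n : ℕ) k y, ‖(x k).2‖ ≤ ‖y‖ → ‖y‖ ≤ 2 ^ n → V o x k y ≠ 0 := by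
    intro n
    induction n with
    | zero => exact fun k y hy h => core k y hy (by simpa using h)
    | succ n ih =>
      intro k y hy h
      rcases le_total ‖y‖ 1 with c | c
      · exact core k y hy c
      · rw [hChart.v o x k y (ht _) (ny k hy)]
        refine smul_ne_zero (ny k hy) (ih _ _ ?_ ?_)
        · rw [norm_mul]; exact le_mul_of_one_le_right (norm_nonneg _) c
        · have := mul_le_mul (ht2 (k + 1)) h (norm_nonneg _) (by norm_num)
          rw [norm_mul]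
          rw [pow_succ] at this
          linarith
  have down : ∀ (n : ℕ) k y, (1 / 2) ^ n ≤ ‖y‖ → V o x k y ≠ 0 := by
    intro n
    induction n with
    | zero =>
      intro k y h
      obtain ⟨m, hm⟩ := pow_unbounded_of_one_lt ‖y‖ (one_lt_two (α := ℝ))
      exact up m k y (by linarith [ht2 k, pow_zero (1 / 2 : ℝ)]) hm.le
    | succ n ih =>
      intro k y h hV
      have y0 : y ≠ 0 := norm_pos_iff.1 (lt_of_lt_of_le (by positivity) h)
      have c := hChart.v o x (k - 1) (y / (x k).2) (ht _) (div_ne_zero y0 (ht k))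
      rw [sub_add_cancel, mul_div_cancel₀ _ (ht k), hV, smul_zero] at c
      refine ih _ _ ?_ c
      rw [norm_div, le_div_iff₀ (norm_pos_iff.2 (ht k))]
      exact (mul_le_mul_of_nonneg_left (ht2 k) (by positivity)).trans (by rwa [← pow_succ])
  intro k y hy
  obtain ⟨n, hn⟩ := exists_pow_lt_of_lt_one (norm_pos_iff.2 hy) (one_half_lt_one (α := ℝ))
  exact down n k y hn.le

end Pool.Agent.Lib.MP_cd3a7b_ag.Q5
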