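import Pool.Agent.Lib.MP_cd3a7b_ag.Q5.St

namespace Pool.Agent.Lib.MP_cd3a7b_ag.Q5

open MvPolynomial Finset Filter Topology

namespace NonAux

lemma dot_sub_left (a b c : E) : dot (a - b) c = dot a c - dot b c := by
  simp [dot, sub_mul, Finset.sum_sub_distrib]

lemma dot_sub_right (a b c : E) : dot a (b - c) = dot a b - dot a c := by
  simp [dot, mul_sub, Finset.sum_sub_distrib]

lemma norm_ell (hWalk : StWalk) (o : Om) (k : ℤ) {y : ℂ} (hy : ‖y‖ = 1) : ‖ell o k y‖ ≤ 2 := by
  refine (norm_add_le _ _).trans ?_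
  rw [norm_smul, hWalk.norm_e, hWalk.norm_e, hy]
  norm_num

lemma cont_eval (F : Pol) : Continuous fun x : E => eval x F := MvPolynomial.continuous_eval F

lemma cont_lin (o : Om) (x : St) (k : ℤ) :
    ContinuousOn (fun y => dot (grad F0 (ell o k y)) (lin o x k y)) (Metric.sphere 0 1) := by
  have h1 : Continuous (ell o k) := by
    unfold ell
    fun_prop
  have h2 : ContinuousOn (fun y : ℂ => y⁻¹) (Metric.sphere 0 1) :=
    continuousOn_id.inv₀ fun y hy h => by
      have h3 : y = 0 := h
      simp [h3] at hy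
  have h3 : ContinuousOn (lin o x k) (Metric.sphere 0 1) := by
    unfold lin
    exact ((continuousOn_const.add (continuousOn_id.smul continuousOn_const)).add
      ((continuousOn_const.mul h2).smul continuousOn_const)).add
      ((continuousOn_const.mul (continuousOn_id.pow 2)).smul continuousOn_const)
  unfold dot grad
  exact continuousOn_finsetSum _ fun i _ =>
    ((cont_eval _).comp h1).continuousOn.mul ((continuous_apply i).comp_continuousOn h3)

end NonAux

open NonAux in
theorem stNon (hWalk : StWalk) (hId : StId) (hSerA : StSerA) (hSerC : StSerC) (hSerD : StSerD)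
    (hChart : StChart) (hPoly : StPoly) : StNon := by
  obtain ⟨A, hA, hAe⟩ := hSerA.est
  obtain ⟨B, hB, hBe⟩ := hSerC
  obtain ⟨D, hD, hDe⟩ := hSerD
  obtain ⟨P, hP, -, hP2, hP3, hP4⟩ := hPoly
  set K : ℝ := P * (1 + A) with hK
  have hK2 : 1 + A ≤ K := by nlinarith
  have hPK : P ≤ K := by nlinarith
  have hK0 : 0 < K := by linarith
  have hS : 1 ≤ A + B + D := by linarith
  refine ⟨10 * K * (A + B + D), 1 / (2 * K), by nlinarith, by positivity,
    one_div_le_one_div_of_le two_pos (by linarith), fun ε F hε hε1 hF => ?_⟩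
  have hKε : K * ε ≤ 1 / 2 := by
    rw [le_div_iff₀ (by positivity)] at hε1
    linarith
  have hε2 : ε ≤ 1 / 2 := by nlinarith
  have hAε : A * ε ≤ 1 := by nlinarith
  have hest : ∀ o x k y, Small x ε → ‖y‖ = 1 → ‖V o x k y - ell o k y‖ ≤ A * ε ∧
      ‖V o x k y - ell o k y - lin o x k y‖ ≤ A * ε ^ 2 := by
    intro o x k y hx hy
    have := hAe o x k ε y hx hε2 (by rw [hy]; norm_num) (by rw [hy]; norm_num)
    exact ⟨this.1, this.2.2⟩
  have hg : ∀ o k y, ‖y‖ = 1 → ‖grad F0 (ell o k y)‖ ≤ K := fun o k y hy =>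
    (hP2 _ ((norm_ell hWalk o k hy).trans (by norm_num))).trans hPK
  have hgr : ∀ o x k y, Small x ε → ‖y‖ = 1 →
      ‖grad F (V o x k y) - grad F0 (ell o k y)‖ ≤ K * ε := by
    intro o x k y hx hy
    have h1 := (hest o x k y hx hy).1
    have h2 := hP3 F ε (ell o k y) (V o x k y - ell o k y) hF (norm_ell hWalk o k hy)
      (h1.trans hAε)
    rw [add_sub_cancel] at h2
    refine h2.trans ?_
    rw [hK, mul_assoc]
    exact mul_le_mul_of_nonneg_left (by linarith) (by linarith)
  have hdot : ∀ (a b : E) (s t : ℝ), ‖a‖ ≤ s → ‖b‖ ≤ t → ‖dot a b‖ ≤ 5 * s * t := by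
    intro a b s t h1 h2
    have h3 := (norm_nonneg a).trans h1
    exact (hWalk.dot_le a b).trans (by gcongr)
  have hPε : P * (ε + A * ε) = K * ε := by rw [hK]; ring
  refine ⟨fun o x k hx => ?_, fun o x k y hx hy => ?_, fun o o' x x' k N y hx hx' hag hcl hy => ?_,
    fun o x Dv k c N y hc hx hlow hgrow hy => ?_, fun o x k y hx hy => ?_⟩
  · refine ContinuousOn.sub ((cont_eval F).comp_continuousOn fun y hy => ?_) (cont_lin o x k)
    have h1 : y ≠ 0 := fun h => by simp [h] at hy
    exact (hChart.der o x k ε y hx hε2 h1).1.continuousAt.continuousWithinAt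
  · obtain ⟨h1, h2⟩ := hest o x k y hx hy
    have h3 := hP4 F ε (A * ε) (ell o k y) (V o x k y - ell o k y) 0 hF (norm_ell hWalk o k hy) h1
      (by rw [norm_zero]; positivity) hAε
    rw [add_sub_cancel, add_zero, sub_zero, hPε] at h3
    have h4 := hdot _ _ _ _ (hg o k y hy) h2
    have h5 : non F o x k y - eval (ell o k y) F =
        (eval (V o x k y) F - eval (ell o k y) F -
          dot (grad F0 (ell o k y)) (V o x k y - ell o k y)) +
        dot (grad F0 (ell o k y)) (V o x k y - ell o k y - lin o x k y) := by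
      simp only [non, dot_sub_right]
      ring
    rw [h5]
    refine (norm_add_le _ _).trans ?_
    have h6 : K * ε * ‖V o x k y - ell o k y‖ ≤ K * ε * (A * ε) := by gcongr
    have h7 : 0 ≤ K * ε ^ 2 := by positivity
    nlinarith
  · obtain ⟨h1, h2⟩ := hBe o o' x x' k ε N y hε hε2 hx hx' hag hcl hy
    have hN : 0 ≤ N := by nlinarith [norm_nonneg (V o x k y - V o' x' k y)]
    have e1 := hag (k - 1) (by omega) (by omega)
    have e2 := hag k (by omega) (by omega)
    have e3 := hag (k + 1) (by omega) (by omega)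
    have e4 := hag (k + 2) (by omega) (by omega)
    have e5 : ell o' k y = ell o k y := by simp only [ell, e2, e3]
    have e6 : lin o (x - x') k y = lin o x k y - lin o' x' k y := by
      simp only [lin, e1, e4, Pi.sub_apply, Prod.fst_sub, Prod.snd_sub, sub_mul, sub_smul,
        smul_sub]
      abel
    have h3 := hP4 F ε (A * ε) (ell o k y) (V o x k y - ell o k y) (V o' x' k y - ell o k y) hF
      (norm_ell hWalk o k hy) (hest o x k y hx hy).1 (e5 ▸ (hest o' x' k y hx' hy).1) hAε
    rw [add_sub_cancel, add_sub_cancel, sub_sub_sub_cancel_right, hPε] at h3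
    have h4 := hdot _ _ _ _ (hg o k y hy) h2
    have h5 : non F o x k y - non F o' x' k y =
        (eval (V o x k y) F - eval (V o' x' k y) F -
          dot (grad F0 (ell o k y)) (V o x k y - V o' x' k y)) +
        dot (grad F0 (ell o k y)) (V o x k y - V o' x' k y - lin o (x - x') k y) := by
      simp only [non, e5, e6, dot_sub_right]
      ring
    rw [h5]
    refine (norm_add_le _ _).trans ?_
    have h6 : K * ε * ‖V o x k y - V o' x' k y‖ ≤ K * ε * (B * N) := by gcongr
    have h7 : 0 ≤ K * ε * N := by positivity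
    nlinarith
  · obtain ⟨h1, h2⟩ := hDe o x Dv k ε c N y hε hε2 hc hx hlow hgrow hy
    have hN : 0 ≤ N := by
      have h3 := (norm_nonneg _).trans h1
      exact nonneg_of_mul_nonneg_right h3 (by positivity)
    have h3 := hdot _ _ _ _ (hgr o x k y hx hy) h1
    have h4 := hdot _ _ _ _ (hg o k y hy) h2
    have h5 : dot (grad F (V o x k y)) (Eta o x Dv k y) -
        dot (grad F0 (ell o k y)) (lin o Dv k y) =
        dot (grad F (V o x k y) - grad F0 (ell o k y)) (Eta o x Dv k y) +
        dot (grad F0 (ell o k y)) (Eta o x Dv k y - lin o Dv k y) := by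
      simp only [dot_sub_right, dot_sub_left]
      ring
    rw [h5]
    refine (norm_add_le _ _).trans ((add_le_add h3 h4).trans ?_)
    have h6 : 5 * (K * ε) * (D / c * N) + 5 * K * (D / c * ε * N) = 10 * K * D / c * ε * N := by
      ring
    rw [h6]
    gcongr
    linarith
  · obtain ⟨i, hi⟩ := hId.one o k y hy
    have h1 := (norm_le_pi_norm _ i).trans (hgr o x k y hx hy)
    have h2 := norm_sub_norm_le (grad F0 (ell o k y) i) (grad F (V o x k y) i)
    rw [norm_sub_rev] at h2
    refine ⟨i, ?_⟩
    rw [Pi.sub_apply] at h1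
    linarith

end Pool.Agent.Lib.MP_cd3a7b_ag.Q5
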