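import Pool.Agent.Lib.MP_cd3a7b_ag.Q5.St

/-! Uniform bounds for quintic forms on a ball. -/

namespace Pool.Agent.Lib.MP_cd3a7b_ag.Q5

open MvPolynomial Finset Filter Topology

namespace PolyAux

lemma deg_le {H : Pol} {n : ℕ} (hH : H.IsHomogeneous n) {d : Fin 5 →₀ ℕ} (hd : coeff d H ≠ 0) :
    ∑ i, d i = n := by
  rw [← hH hd, Finsupp.weight_apply, Finsupp.sum_fintype _ _ (by simp)]
  simp

lemma ev_bound {H : Pol} {n : ℕ} (hH : H.IsHomogeneous n) (hn : n ≤ 5) {η : ℝ}
    (hη : ∀ m, ‖coeff m H‖ ≤ η) {a : E} (ha : ‖a‖ ≤ 3) : ‖eval a H‖ ≤ 6 ^ 5 * 3 ^ 5 * η := by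
  have h0 : 0 ≤ η := (norm_nonneg _).trans (hη 0)
  have hc : H.support.card ≤ 6 ^ 5 := by
    refine (card_le_card_of_injOn (t := Fintype.piFinset fun _ : Fin 5 => range 6)
      (fun (d : Fin 5 →₀ ℕ) i => d i) (fun d hd => ?_)
      fun d _ d' _ h => Finsupp.ext (congrFun h)).trans (by simp)
    refine Fintype.mem_piFinset.2 fun i => mem_range.2 ?_
    have h1 := deg_le hH (mem_support_iff.1 hd)
    have h2 := single_le_sum (f := fun i => d i) (fun _ _ => Nat.zero_le _) (mem_univ i)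
    exact Nat.lt_succ_of_le ((h2.trans_eq h1).trans hn)
  rw [eval_eq']
  refine (norm_sum_le _ _).trans ((sum_le_card_nsmul _ _ (3 ^ 5 * η) fun d hd => ?_).trans ?_)
  · rw [norm_mul, norm_prod, mul_comm]
    refine mul_le_mul ?_ (hη d) (norm_nonneg _) (by positivity)
    calc ∏ i, ‖a i ^ d i‖ ≤ ∏ i, (3 : ℝ) ^ d i := prod_le_prod (fun _ _ => norm_nonneg _)
          fun i _ => by
            rw [norm_pow]
            exact pow_le_pow_left₀ (norm_nonneg _) ((norm_le_pi_norm a i).trans ha) _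
      _ ≤ 3 ^ 5 := by
        rw [prod_pow_eq_pow_sum, deg_le hH (mem_support_iff.1 hd)]
        exact pow_le_pow_right₀ (by norm_num) hn
  · rw [nsmul_eq_mul, mul_assoc]
    exact mul_le_mul_of_nonneg_right (by exact_mod_cast hc) (by positivity)

lemma der_bound {H : Pol} {n : ℕ} (hH : H.IsHomogeneous n) (hn : n ≤ 5) {η : ℝ}
    (hη : ∀ m, ‖coeff m H‖ ≤ η) (i : Fin 5) (m : Fin 5 →₀ ℕ) :
    ‖coeff m (pderiv i H)‖ ≤ 5 * η := by
  have h0 : 0 ≤ η := (norm_nonneg _).trans (hη 0)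
  rw [coeff_pderiv]
  by_cases h : coeff (m + Finsupp.single i 1) H = 0
  · rw [h, zero_mul, norm_zero]; positivity
  · have h1 := deg_le hH h
    have h2 := single_le_sum (f := fun j => (m + Finsupp.single i 1 : Fin 5 →₀ ℕ) j)
      (fun _ _ => Nat.zero_le _) (mem_univ i)
    simp only [Finsupp.add_apply, Finsupp.single_eq_same] at h1 h2
    rw [norm_mul, mul_comm]
    refine mul_le_mul ?_ (hη _) (norm_nonneg _) (by norm_num)
    rw [← Nat.cast_add_one, Complex.norm_natCast]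
    exact_mod_cast (h2.trans_eq h1).trans hn

lemma grad_bound {H : Pol} {n : ℕ} (hH : H.IsHomogeneous n) (hn : n ≤ 5) {η : ℝ}
    (hη : ∀ m, ‖coeff m H‖ ≤ η) {a : E} (ha : ‖a‖ ≤ 3) :
    ‖grad H a‖ ≤ 6 ^ 5 * 3 ^ 5 * (5 * η) := by
  have h0 : 0 ≤ η := (norm_nonneg _).trans (hη 0)
  exact (pi_norm_le_iff_of_nonneg (by positivity)).2 fun i =>
    ev_bound (hH.pderiv (i := i)) (by omega) (der_bound hH hn hη i) ha

lemma mean_value (hWalk : StWalk) (F : Pol) (g : E) {s : Set E} (hs : Convex ℝ s) {M : ℝ}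
    (hM : ∀ x ∈ s, ‖grad F x - g‖ ≤ M) {x y : E} (hx : x ∈ s) (hy : y ∈ s) :
    ‖eval x F - eval y F - dot g (x - y)‖ ≤ 5 * M * ‖x - y‖ := by
  choose L hL hL' using hasFDerivAt_eval_alg F
  set G : E →L[ℂ] ℂ := ∑ i, g i • ContinuousLinearMap.proj i with hG
  have hG' : ∀ p, G p = dot g p := fun p => by simp [hG, dot]
  have := hs.norm_image_sub_le_of_norm_hasFDerivWithin_le (f := fun v => eval v F - G v)
    (f' := fun v => L v - G) (C := 5 * M)
    (fun v _ => ((hL v).sub G.hasFDerivAt).hasFDerivWithinAt) (fun v hv => ?_) hy hx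
  · rw [← hG', map_sub]
    exact (congrArg norm (by ring)).trans_le this
  · have h0 : 0 ≤ M := (norm_nonneg _).trans (hM v hv)
    refine ContinuousLinearMap.opNorm_le_bound _ (by positivity) fun p => ?_
    have h1 : (L v - G) p = dot (grad F v - g) p := by
      simp [hL', hG', dot, grad, mul_sub, mul_comm]
    rw [h1]
    refine (hWalk.dot_le _ _).trans (mul_le_mul_of_nonneg_right ?_ (norm_nonneg _))
    exact mul_le_mul_of_nonneg_left (hM v hv) (by norm_num)

end PolyAux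

open PolyAux

theorem stPoly (hWalk : StWalk) (hId : StId) : StPoly := by
  obtain ⟨η, hη0, hη⟩ : ∃ η : ℝ, 1 ≤ η ∧ ∀ m, ‖coeff m F0‖ ≤ η := by
    have h0 : 0 ≤ ∑ m ∈ F0.support, ‖coeff m F0‖ := sum_nonneg fun _ _ => norm_nonneg _
    refine ⟨1 + ∑ m ∈ F0.support, ‖coeff m F0‖, by linarith, fun m => ?_⟩
    by_cases h : m ∈ F0.support
    · linarith [single_le_sum (f := fun m => ‖coeff m F0‖) (fun _ _ => norm_nonneg _) h]
    · rw [notMem_support_iff.1 h, norm_zero]; linarith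
  set K : ℝ := 6 ^ 5 * 3 ^ 5 * 125 * η with hK
  have hK1 : 6 ^ 5 * 3 ^ 5 * 125 ≤ K := by rw [hK]; nlinarith
  have h3 : ∀ F (ε : ℝ) (a ξ : E), Near F ε → ‖a‖ ≤ 2 → ‖ξ‖ ≤ 1 →
      ‖grad F (a + ξ) - grad F0 a‖ ≤ K * (ε + ‖ξ‖) := by
    intro F ε a ξ hF ha hξ
    have hε : 0 ≤ ε := (norm_nonneg _).trans (hF.2 0)
    have hb : ‖a + ξ‖ ≤ 3 := (norm_add_le _ _).trans (by linarith)
    have h1 := grad_bound (hF.1.sub hId.hom.1) le_rfl (η := ε) (by simpa using hF.2) hb
    have h2 : ‖grad F0 (a + ξ) - grad F0 a‖ ≤ K * ‖ξ‖ := by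
      refine (pi_norm_le_iff_of_nonneg (by positivity)).2 fun i => ?_
      have := mean_value hWalk (pderiv i F0) 0 (convex_closedBall (0 : E) 3)
        (M := 6 ^ 5 * 3 ^ 5 * (5 * (5 * η))) (fun x hx => by
          rw [sub_zero]
          exact grad_bound (hId.hom.1.pderiv (i := i)) (by norm_num)
            (der_bound hId.hom.1 le_rfl hη i) (by simpa using hx))
        (x := a + ξ) (y := a) (by simpa using hb) (by simp; linarith)
      simp only [dot, Pi.zero_apply, zero_mul, sum_const_zero, sub_zero, add_sub_cancel_left] at this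
      exact this.trans_eq (by rw [hK]; ring)
    have h4 : grad F (a + ξ) - grad F0 a =
        grad (F - F0) (a + ξ) + (grad F0 (a + ξ) - grad F0 a) := by
      funext i
      simp [grad]
    rw [h4]
    refine (norm_add_le _ _).trans ?_
    nlinarith
  refine ⟨5 * K, by linarith, fun H ε a hH hε ha => ?_, fun a ha => ?_,
    fun F ε a ξ hF ha hξ => ?_, fun F ε r a ξ ξ' hF ha hξ hξ' hr => ?_⟩
  · have h0 : 0 ≤ ε := (norm_nonneg _).trans (hε 0)
    exact ⟨(ev_bound hH le_rfl hε ha).trans (by nlinarith),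
      (grad_bound hH le_rfl hε ha).trans (by nlinarith)⟩
  · exact (grad_bound hId.hom.1 le_rfl hη ha).trans (by rw [hK]; nlinarith)
  · have hε : 0 ≤ ε := (norm_nonneg _).trans (hF.2 0)
    refine (h3 F ε a ξ hF ha hξ).trans (mul_le_mul_of_nonneg_right (by linarith) (by positivity))
  · have := mean_value hWalk F (grad F0 a) (convex_closedBall a r) (M := K * (ε + r))
      (fun x hx => by
        have h1 : ‖x - a‖ ≤ r := by rwa [Metric.mem_closedBall, dist_eq_norm] at hx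
        have h2 := h3 F ε a (x - a) hF ha (h1.trans hr)
        rw [add_sub_cancel] at h2
        exact h2.trans (mul_le_mul_of_nonneg_left (by linarith) (by linarith)))
      (x := a + ξ) (y := a + ξ') (by simpa using hξ) (by simpa using hξ')
    rw [add_sub_add_left_eq_sub] at this
    exact this.trans_eq (by ring)

end Pool.Agent.Lib.MP_cd3a7b_ag.Q5
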