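import Pool.Agent.Lib.MP_cd3a7b_ag.Q5.St

/-! The triangular products `cc` and sums `rr`. -/

namespace Pool.Agent.Lib.MP_cd3a7b_ag.Q5

open Finset Filter Topology

namespace ProdAux

/-- The index set of the triangular products. -/
def tri (j : ℤ) : Finset (Σ _ : ℕ, ℕ) := (range (len j)).sigma range

theorem cc_eq (t : ℤ → ℂ) (k j : ℤ) : cc t k j = ∏ p ∈ tri j, t (ix k j p.2) := by
  unfold cc tri
  rw [Finset.prod_sigma']

theorem rr_eq (t : ℤ → ℂ) (k j : ℤ) : rr t k j = ∑ p ∈ tri j, t (ix k j p.2) := by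
  unfold rr tri
  rw [Finset.sum_sigma']

theorem card_tri (j : ℤ) : (tri j).card = nn j := by
  unfold tri nn
  simp [Finset.card_sigma]

theorem ix_le (k j : ℤ) (p : Σ _ : ℕ, ℕ) (hp : p ∈ tri j) :
    (ix k j p.2 - k).natAbs ≤ j.natAbs := by
  unfold tri at hp
  simp only [Finset.mem_sigma, Finset.mem_range] at hp
  obtain ⟨h1, h2⟩ := hp
  unfold len at h1
  unfold ix
  split_ifs at h1 ⊢ with h <;> omega

theorem prod_bound {ι : Type} (s : Finset ι) (a : ι → ℂ) (ε : ℝ) (h : ∀ i ∈ s, ‖a i‖ ≤ ε) :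
    ‖∏ i ∈ s, a i‖ ≤ ε ^ s.card := by
  rw [norm_prod, ← Finset.prod_const]
  exact Finset.prod_le_prod (fun i _ => norm_nonneg _) h

theorem prod_lip {ι : Type} (s : Finset ι) (a a' : ι → ℂ) (ε M : ℝ) (hε : 0 ≤ ε) (hM : 0 ≤ M)
    (h : ∀ i ∈ s, ‖a i‖ ≤ ε) (h' : ∀ i ∈ s, ‖a' i‖ ≤ ε) (hd : ∀ i ∈ s, ‖a i - a' i‖ ≤ M) :
    ‖∏ i ∈ s, a i - ∏ i ∈ s, a' i‖ ≤ s.card * ε ^ (s.card - 1) * M := by
  classical
  induction s using Finset.induction_on with
  | empty => simp
  | insert x s hx ih =>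
    have ih' := ih (fun i hi => h i (Finset.mem_insert_of_mem hi))
      (fun i hi => h' i (Finset.mem_insert_of_mem hi))
      (fun i hi => hd i (Finset.mem_insert_of_mem hi))
    have hb := prod_bound s a' ε (fun i hi => h' i (Finset.mem_insert_of_mem hi))
    have h1 := h x (Finset.mem_insert_self _ _)
    have h2 := hd x (Finset.mem_insert_self _ _)
    rw [Finset.prod_insert hx, Finset.prod_insert hx, Finset.card_insert_of_notMem hx]
    have e : a x * ∏ i ∈ s, a i - a' x * ∏ i ∈ s, a' i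
        = a x * (∏ i ∈ s, a i - ∏ i ∈ s, a' i) + (a x - a' x) * ∏ i ∈ s, a' i := by ring
    have e2 : ε * ((s.card : ℝ) * ε ^ (s.card - 1) * M) = s.card * ε ^ s.card * M := by
      rcases Nat.eq_zero_or_pos s.card with h0 | h0
      · simp [h0]
      · obtain ⟨c, hc⟩ := Nat.exists_eq_succ_of_ne_zero h0.ne'
        rw [hc]
        simp only [Nat.succ_sub_one, pow_succ]
        ring
    rw [e]
    calc _ ≤ ‖a x‖ * ‖∏ i ∈ s, a i - ∏ i ∈ s, a' i‖ + ‖a x - a' x‖ * ‖∏ i ∈ s, a' i‖ := by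
          refine (norm_add_le _ _).trans ?_
          rw [norm_mul, norm_mul]
      _ ≤ ε * ((s.card : ℝ) * ε ^ (s.card - 1) * M) + M * ε ^ s.card := by
          gcongr
      _ = _ := by
          rw [e2]
          simp only [Nat.add_sub_cancel]
          push_cast
          ring

theorem prod_lim {ι : Type} (l : Filter ℕ) (S : Finset ι) (t D : ι → ℂ) (tn : ℕ → ι → ℂ)
    (s : ℕ → ℂ) (hs : Tendsto s l (𝓝 0)) (hs0 : ∀ n, s n ≠ 0) (ht : ∀ i, t i ≠ 0)
    (hD : ∀ i, Tendsto (fun n => (s n)⁻¹ * (tn n i - t i)) l (𝓝 (D i))) :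
    Tendsto (fun n => (s n)⁻¹ * (∏ i ∈ S, tn n i - ∏ i ∈ S, t i)) l
      (𝓝 ((∏ i ∈ S, t i) * ∑ i ∈ S, D i / t i)) := by
  classical
  induction S using Finset.induction_on with
  | empty => simpa using tendsto_const_nhds
  | insert x S hx ih =>
    have ha : Tendsto (fun n => tn n x) l (𝓝 (t x)) := by
      have h1 := (hs.mul (hD x)).const_add (t x)
      simp only [zero_mul, add_zero] at h1
      refine h1.congr fun n => ?_
      have := hs0 n
      field_simp
      ring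
    have h2 := (ha.mul ih).add ((hD x).mul_const (∏ i ∈ S, t i))
    simp only [Finset.prod_insert hx, Finset.sum_insert hx]
    have e : t x * (∏ i ∈ S, t i) * (D x / t x + ∑ i ∈ S, D i / t i)
        = t x * ((∏ i ∈ S, t i) * ∑ i ∈ S, D i / t i) + D x * ∏ i ∈ S, t i := by
      have := ht x
      field_simp
      ring
    rw [e]
    refine h2.congr fun n => ?_
    ring

theorem tri_prod (f : ℕ → ℂ) (n : ℕ) :
    ∏ i ∈ range (n + 1), ∏ l ∈ range i, f l
      = f 0 ^ n * ∏ i ∈ range n, ∏ l ∈ range i, f (l + 1) := by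
  rw [Finset.prod_range_succ']
  simp only [Finset.prod_range_succ', Finset.prod_mul_distrib, Finset.prod_const,
    Finset.card_range, Finset.range_zero, Finset.prod_empty, mul_one]
  ring

theorem tri_sum (f : ℕ → ℂ) (n : ℕ) :
    ∑ i ∈ range (n + 1), ∑ l ∈ range i, f l
      = n * f 0 + ∑ i ∈ range n, ∑ l ∈ range i, f (l + 1) := by
  rw [Finset.sum_range_succ']
  simp only [Finset.sum_range_succ', Finset.sum_add_distrib, Finset.sum_const,
    Finset.card_range, Finset.range_zero, Finset.sum_empty, add_zero, nsmul_eq_mul]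
  ring

theorem len_pos (n : ℕ) : len ((n : ℤ) + 1) = n + 1 := by
  unfold len
  rw [if_pos (by omega)]
  omega

theorem len_neg (n : ℕ) : len (-(n : ℤ)) = n + 1 := by
  unfold len
  rw [if_neg (by omega)]
  omega

theorem ix_pos (k : ℤ) (n l : ℕ) : ix k ((n : ℤ) + 1) l = k + 1 + l := by
  unfold ix
  rw [if_pos (by omega)]

theorem ix_neg (k : ℤ) (n l : ℕ) : ix k (-(n : ℤ)) l = k - l := by
  unfold ix
  rw [if_neg (by omega)]

theorem cases3 (j : ℤ) : (∃ n : ℕ, j = ((n + 1 : ℕ) : ℤ) + 1 ∧ j - 1 = (n : ℤ) + 1) ∨ j = 1 ∨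
    ∃ n : ℕ, j = -(n : ℤ) ∧ j - 1 = -((n + 1 : ℕ) : ℤ) := by
  rcases lt_trichotomy j 1 with h | h | h
  · exact Or.inr (Or.inr ⟨(-j).toNat, by omega, by omega⟩)
  · exact Or.inr (Or.inl h)
  · exact Or.inl ⟨(j - 2).toNat, by omega, by omega⟩

theorem chart (t : ℤ → ℂ) (k j : ℤ) (ht : t (k + 1) ≠ 0) :
    cc t k j = t (k + 1) ^ (j - 1) * cc t (k + 1) (j - 1) := by
  rcases cases3 j with ⟨n, h1, h2⟩ | h | ⟨n, h1, h2⟩
  · rw [h2, h1]
    unfold cc
    simp only [len_pos, ix_pos]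
    rw [tri_prod (fun l : ℕ => t (k + 1 + l)) (n + 1)]
    have e : ∀ l : ℕ, k + 1 + ((l + 1 : ℕ) : ℤ) = k + 1 + 1 + l := fun l => by push_cast; ring
    simp only [e, Nat.cast_zero, add_zero]
    congr 1
  · subst h
    simp [cc, len]
  · rw [h2, h1]
    unfold cc
    simp only [len_neg, ix_neg]
    rw [tri_prod (fun l : ℕ => t (k + 1 - l)) (n + 1)]
    have e : ∀ l : ℕ, k + 1 - ((l + 1 : ℕ) : ℤ) = k - l := fun l => by push_cast; ring
    simp only [e, Nat.cast_zero, sub_zero]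
    rw [zpow_neg, zpow_natCast, ← mul_assoc, inv_mul_cancel₀ (pow_ne_zero _ ht), one_mul]

theorem rchart (t : ℤ → ℂ) (k j : ℤ) :
    rr t k j = ((j : ℂ) - 1) * t (k + 1) + rr t (k + 1) (j - 1) := by
  rcases cases3 j with ⟨n, h1, h2⟩ | h | ⟨n, h1, h2⟩
  · rw [h2, h1]
    unfold rr
    simp only [len_pos, ix_pos]
    rw [tri_sum (fun l : ℕ => t (k + 1 + l)) (n + 1)]
    have e : ∀ l : ℕ, k + 1 + ((l + 1 : ℕ) : ℤ) = k + 1 + 1 + l := fun l => by push_cast; ring
    simp only [e, Nat.cast_zero, add_zero]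
    push_cast
    ring
  · subst h
    simp [rr, len]
  · rw [h2, h1]
    unfold rr
    simp only [len_neg, ix_neg]
    rw [tri_sum (fun l : ℕ => t (k + 1 - l)) (n + 1)]
    have e : ∀ l : ℕ, k + 1 - ((l + 1 : ℕ) : ℤ) = k - l := fun l => by push_cast; ring
    simp only [e, Nat.cast_zero, sub_zero]
    push_cast
    ring

theorem ix_shift (s k j : ℤ) (l : ℕ) : ix k j l + s = ix (k + s) j l := by
  unfold ix
  split_ifs <;> ring

theorem nn_two (j : ℤ) : nn j * 2 = len j * (len j - 1) := Finset.sum_range_id_mul_two _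

theorem le_len (j : ℤ) : j.natAbs ≤ len j := by
  unfold len
  split_ifs <;> omega

theorem nn_three (j : ℤ) (h : j ≤ -2 ∨ 3 ≤ j) : 3 ≤ nn j := by
  have h1 : 3 ≤ len j := by
    unfold len
    split_ifs <;> omega
  have h2 := nn_two j
  have h3 : 3 * 2 ≤ len j * (len j - 1) := Nat.mul_le_mul h1 (by omega)
  omega

theorem nn_big (j : ℤ) (K : ℕ) : K * j.natAbs ≤ nn j + (K + 1) ^ 2 := by
  have h1 := le_len j
  have h2 := nn_two j
  generalize j.natAbs = m at h1 ⊢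
  have h3 : m * (m - 1) ≤ len j * (len j - 1) := Nat.mul_le_mul h1 (by omega)
  rw [← h2] at h3
  generalize nn j = q at h3 ⊢
  rcases m with _ | m
  · simp
  · simp only [Nat.add_sub_cancel] at h3
    have h4 : ((m : ℤ) + 1) * m ≤ q * 2 := by exact_mod_cast h3
    have h5 : (K : ℤ) * (m + 1) ≤ q + (K + 1) ^ 2 := by
      nlinarith [sq_nonneg ((m : ℤ) - K), sq_nonneg (K : ℤ), Int.natCast_nonneg K,
        Int.natCast_nonneg m]
    exact_mod_cast h5

theorem sum_half : Summable fun j : ℤ => (1 / 2 : ℝ) ^ j.natAbs := by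
  refine Summable.of_nat_of_neg ?_ ?_
  · simpa using summable_geometric_two
  · simpa using summable_geometric_two

theorem sum (A : ℝ) (hA : 1 ≤ A) : Summable fun j : ℤ =>
    ((nn j : ℝ) + 1) * ((j.natAbs : ℝ) + 1) * (1 / 2) ^ nn j * A ^ j.natAbs := by
  obtain ⟨K, hK⟩ := exists_pow_lt_of_lt_one (x := 1 / (4 * A)) (y := (3 / 4 : ℝ))
    (by positivity) (by norm_num)
  refine Summable.of_nonneg_of_le (fun j => by positivity) (fun j => ?_)
    (sum_half.mul_left (2 * (4 / 3 : ℝ) ^ ((K + 1) ^ 2)))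
  have h0 := nn_big j K
  generalize j.natAbs = m at h0 ⊢
  generalize nn j = q at h0 ⊢
  have h1 : (q : ℝ) + 1 ≤ 2 * (3 / 2) ^ q := by
    have := one_add_mul_le_pow (a := (1 / 2 : ℝ)) (by norm_num) q
    norm_num at this ⊢
    linarith
  have h2 : (m : ℝ) + 1 ≤ 2 ^ m := by
    have := one_add_mul_le_pow (a := (1 : ℝ)) (by norm_num) m
    norm_num at this ⊢
    linarith
  have h3 : (3 / 4 : ℝ) ^ q ≤ (4 / 3) ^ ((K + 1) ^ 2) * (1 / (4 * A)) ^ m := by
    have e : (3 / 4 : ℝ) ^ q = (4 / 3) ^ ((K + 1) ^ 2) * (3 / 4) ^ (q + (K + 1) ^ 2) := by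
      rw [pow_add, mul_left_comm, ← mul_pow]
      norm_num
    rw [e]
    gcongr
    calc (3 / 4 : ℝ) ^ (q + (K + 1) ^ 2) ≤ (3 / 4) ^ (K * m) :=
          pow_le_pow_of_le_one (by norm_num) (by norm_num) h0
      _ = ((3 / 4) ^ K) ^ m := pow_mul _ _ _
      _ ≤ _ := by gcongr
  have e1 : (3 / 2 : ℝ) ^ q * (1 / 2) ^ q = (3 / 4) ^ q := by
    rw [← mul_pow]
    norm_num
  have e2 : (1 / (4 * A)) ^ m * (2 ^ m * A ^ m) = (1 / 2 : ℝ) ^ m := by
    rw [← mul_pow, ← mul_pow]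
    congr 1
    field_simp
    norm_num
  calc ((q : ℝ) + 1) * ((m : ℝ) + 1) * (1 / 2) ^ q * A ^ m
      ≤ (2 * (3 / 2) ^ q) * 2 ^ m * (1 / 2) ^ q * A ^ m := by gcongr
    _ = 2 * (3 / 4) ^ q * (2 ^ m * A ^ m) := by rw [← e1]; ring
    _ ≤ 2 * ((4 / 3) ^ ((K + 1) ^ 2) * (1 / (4 * A)) ^ m) * (2 ^ m * A ^ m) := by gcongr
    _ = _ := by rw [← e2]; ring

end ProdAux

open ProdAux in
theorem stProd (hWalk : StWalk) : StProd where
  c0 t k := by
    refine ⟨?_, ?_, ?_, ?_⟩ <;> simp [cc, len, ix, Finset.prod_range_succ]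
  r0 t k := by
    refine ⟨?_, ?_, ?_, ?_⟩ <;> simp [rr, len, ix, Finset.sum_range_succ]
  n0 := by
    refine ⟨?_, ?_, ?_, ?_, nn_three⟩ <;> simp [nn, len, Finset.sum_range_succ]
  bound t ε k j _ h := by
    rw [cc_eq, ← card_tri]
    exact prod_bound _ _ _ fun p _ => h _
  lip t t' ε N k j hε hN h h' hd := by
    rw [cc_eq, cc_eq, ← card_tri]
    refine prod_lip _ _ _ _ _ hε (mul_nonneg hN (zero_le_one.trans (hWalk.one_le_kw j)))
      (fun p _ => h _) (fun p _ => h' _) fun p hp => (hd _).trans ?_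
    exact mul_le_mul_of_nonneg_left (hWalk.kw_mono _ _ (ix_le k j p hp)) hN
  rbound t N k j hN h := by
    rw [rr_eq, ← card_tri, ← nsmul_eq_mul]
    refine (norm_sum_le _ _).trans (Finset.sum_le_card_nsmul _ _ _ fun p hp => (h _).trans ?_)
    exact mul_le_mul_of_nonneg_left (hWalk.kw_mono _ _ (ix_le k j p hp)) hN
  chart := ProdAux.chart
  rchart := ProdAux.rchart
  shift t s k j := by
    unfold cc rr
    simp only [ix_shift, and_self]
  rlin t t' a b k j := by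
    simp only [rr_eq, Finset.sum_add_distrib, Finset.mul_sum]
  lim l t D tn s k j hs hs0 ht hD := by
    simp only [cc_eq, rr_eq]
    exact prod_lim l (tri j) (fun p => t (ix k j p.2)) (fun p => D (ix k j p.2))
      (fun n p => tn n (ix k j p.2)) s hs hs0 (fun p => ht _) fun p => hD _
  cont k j := by
    simp only [cc_eq]
    exact continuous_finsetProd _ fun p _ => continuous_apply _
  sum := ProdAux.sum

end Pool.Agent.Lib.MP_cd3a7b_ag.Q5
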