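import Pool.Agent.Lib.MP_cd3a7b_ag.Q5.St

/-! The recursive inequalities for differences of solutions and for tangent vectors. -/

namespace Pool.Agent.Lib.MP_cd3a7b_ag.Q5

open MvPolynomial Finset Filter Topology

namespace RecAux

lemma coef (hCo : StCo) (a : Fin 6 → ℂ) (M : ℝ)
    (h : ∀ y : ℂ, ‖y‖ = 1 → ‖∑ s, a s * y ^ (s : ℕ)‖ ≤ M) (r : Fin 6) : ‖a r‖ ≤ M := by
  rw [← hCo.poly a r]
  exact hCo.bound _ _ M h

lemma norm_ja (k : ℤ) : ‖ja k‖ = 1 := by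
  unfold ja; split_ifs <;> simp

lemma norm_jc (k : ℤ) : ‖jc k‖ = 1 := by
  unfold jc; split_ifs <;> simp

lemma three (t : ℤ → ℂ) (k : ℤ) (B : ℝ) (h : ‖J t k‖ ≤ B) :
    100 * ‖t k‖ ≤ ‖t (k - 1)‖ + ‖t (k + 1)‖ + B ∧ ‖t (k + 1)‖ ≤ 100 * ‖t k‖ + ‖t (k - 1)‖ + B ∧
      ‖t (k - 1)‖ ≤ 100 * ‖t k‖ + ‖t (k + 1)‖ + B := by
  have h0 : ‖(100 : ℂ) * t k‖ = 100 * ‖t k‖ := by simp
  have h1 : ‖ja k * t (k - 1)‖ = ‖t (k - 1)‖ := by rw [norm_mul, norm_ja, one_mul]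
  have h2 : ‖jc k * t (k + 1)‖ = ‖t (k + 1)‖ := by rw [norm_mul, norm_jc, one_mul]
  unfold J at h
  rw [← h0, ← h1, ← h2]
  generalize (100 : ℂ) * t k = a at *
  generalize ja k * t (k - 1) = b at *
  generalize jc k * t (k + 1) = c at *
  have key : ∀ p q r : ℂ, ‖p‖ ≤ ‖q‖ + ‖r‖ + ‖p + q + r‖ := by
    intro p q r
    have e : p = (p + q + r) - q - r := by ring
    have h3 := norm_sub_le (p + q + r - q) r
    have h4 := norm_sub_le (p + q + r) q
    rw [← e] at h3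
    linarith
  refine ⟨?_, ?_, ?_⟩
  · have := key a b c
    linarith
  · have := key c a b
    rw [show c + a + b = a + b + c by ring] at this
    linarith
  · have := key b a c
    rw [show b + a + c = a + b + c by ring] at this
    linarith

lemma kw_step (hWalk : StWalk) (i k : ℤ) : kw (i - k) ≤ 400 * kw (i - (k - 1)) := by
  have h := hWalk.kw_add (i - (k - 1)) (-1)
  have e : i - (k - 1) + -1 = i - k := by ring
  have e2 : kw (-1) = 400 := by simp [kw]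
  rw [e, e2] at h
  linarith

lemma step (hWalk : StWalk) (d : ℤ → ℝ) (k : ℤ) (N : ℝ) (hN : 0 ≤ N)
    (h : ∀ i, d i ≤ N * kw (i - k)) (i : ℤ) : d i ≤ 400 * N * kw (i - (k - 1)) := by
  have h1 := mul_le_mul_of_nonneg_left (kw_step hWalk i k) hN
  have := h i
  linarith

lemma same (hWalk : StWalk) (d : ℤ → ℝ) (k : ℤ) (N : ℝ) (hN : 0 ≤ N)
    (h : ∀ i, d i ≤ N * kw (i - k)) (i : ℤ) : d i ≤ 400 * N * kw (i - k) := by
  have h1 : 0 ≤ N * kw (i - k) := mul_nonneg hN (le_trans zero_le_one (hWalk.one_le_kw _))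
  have := h i
  linarith

lemma core (hLA : StLA) : ∃ C : ℝ, 1 ≤ C ∧ ∀ o (D : St) k (M : ℝ), (D k).1 (w o k) = 0 →
    (∀ r, ‖L o D (k - 1) r‖ ≤ M) → (∀ r, ‖L o D k r‖ ≤ M) →
    100 * ‖(D k).2‖ ≤ ‖(D (k - 1)).2‖ + ‖(D (k + 1)).2‖ + C * M ∧
    ‖(D (k + 1)).2‖ ≤ 100 * ‖(D k).2‖ + ‖(D (k - 1)).2‖ + C * M ∧
    ‖(D (k - 1)).2‖ ≤ 100 * ‖(D k).2‖ + ‖(D (k + 1)).2‖ + C * M ∧
    ‖D k‖ ≤ C * (‖(D (k - 1)).2‖ + ‖(D k).2‖ + ‖(D (k + 1)).2‖) + C * M := by
  obtain ⟨C1, h1, hj⟩ := hLA.jac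
  obtain ⟨C2, h2, hb⟩ := hLA.bb
  refine ⟨C1 + C2, by linarith, fun o D k M h0 ha hc => ?_⟩
  have hM : 0 ≤ M := le_trans (norm_nonneg _) (ha 0)
  have hJ := hj o D k 0 M (by simpa using ha) (by simpa using hc)
  simp only [zero_mul, sub_zero] at hJ
  obtain ⟨t1, t2, t3⟩ := three (ta D) k _ hJ
  simp only [ta] at t1 t2 t3
  have hB := hb o D k M h0 ha hc
  have p1 : 0 ≤ C1 * M := mul_nonneg (by linarith) hM
  have p2 : 0 ≤ C2 * M := mul_nonneg (by linarith) hM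
  have n1 := norm_nonneg (D (k - 1)).2
  have n2 := norm_nonneg (D k).2
  have n3 := norm_nonneg (D (k + 1)).2
  refine ⟨by linarith, by linarith, by linarith, ?_⟩
  set s := ‖(D (k - 1)).2‖ + ‖(D k).2‖ + ‖(D (k + 1)).2‖ with hs
  have s0 : 0 ≤ s := by linarith
  have q1 : s ≤ C1 * s := le_mul_of_one_le_left s0 h1
  have q2 : 0 ≤ C2 * s := mul_nonneg (by linarith) s0
  rw [Prod.norm_def]
  refine max_le ?_ ?_
  · nlinarith
  · nlinarith

lemma ne0 {y : ℂ} (hy : ‖y‖ = 1) : y ≠ 0 := by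
  rintro rfl
  simp at hy

lemma L_agree {o o' : Om} {j : ℤ} (h : Agree o o' (j - 1) (j + 2)) (x : St) :
    L o' x j = L o x j := by
  unfold L
  rw [h (j - 1) le_rfl (by omega), h j (by omega) (by omega), h (j + 1) (by omega) (by omega),
    h (j + 2) (by omega) le_rfl]

lemma diff (hId : StId) (hLA : StLA) {F : Pol} {ε c : ℝ} {o o' : Om} {x x' : St} {j : ℤ}
    (hx : Sol F ε c o x) (hx' : Sol F ε c o' x') (h : Agree o o' (j - 1) (j + 2)) {y : ℂ}
    (hy : y ≠ 0) :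
    ∑ r, L o (x - x') j r * y ^ (r : ℕ) = -(non F o x j y - non F o' x' j y) := by
  unfold non
  rw [hx.zero j y hy, hx'.zero j y hy, hId.lin o x j y hy, hId.lin o' x' j y hy, L_agree h,
    hLA.sub]
  simp only [Pi.sub_apply, sub_mul, Finset.sum_sub_distrib]
  ring

end RecAux

open RecAux in
theorem stRec (hWalk : StWalk) (hCo : StCo) (hId : StId) (hLA : StLA) (hSerD : StSerD)
    (hNon : StNon) : StRec := by
  intro c hc
  obtain ⟨C0, h0, hcore⟩ := core hLA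
  obtain ⟨C4, h4, hfour⟩ := hLA.four
  obtain ⟨Cd, hd, hD⟩ := hSerD
  obtain ⟨Cn, ε₁, hn, hε₁, hhalf, hN⟩ := hNon
  have pn : 0 ≤ Cn / c := div_nonneg (by linarith) hc.le
  have pd : 0 ≤ Cd / c := div_nonneg (by linarith) hc.le
  set K : ℝ := 400 * Cn + 400 * (Cn / c) + 2 * (Cd / c) + 1 with hK
  have K1 : 1 ≤ K := by linarith
  have hC0 : C0 ≤ (C0 + C4) * K := by nlinarith
  have hC4 : C4 ≤ (C0 + C4) * K := by nlinarith
  refine ⟨(C0 + C4) * K, ε₁, by linarith, hε₁, hhalf, fun ε F hε hle hF => ?_⟩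
  obtain ⟨-, -, n3, n4, -⟩ := hN ε F hε hle hF
  have fin : ∀ o (D : St) k (N : ℝ), 0 ≤ N → (D k).1 (w o k) = 0 →
      (∀ r, ‖L o D (k - 1) r‖ ≤ K * ε * N) → (∀ r, ‖L o D k r‖ ≤ K * ε * N) →
      100 * ‖(D k).2‖ ≤ ‖(D (k - 1)).2‖ + ‖(D (k + 1)).2‖ + (C0 + C4) * K * ε * N ∧
      ‖(D (k + 1)).2‖ ≤ 100 * ‖(D k).2‖ + ‖(D (k - 1)).2‖ + (C0 + C4) * K * ε * N ∧
      ‖(D (k - 1)).2‖ ≤ 100 * ‖(D k).2‖ + ‖(D (k + 1)).2‖ + (C0 + C4) * K * ε * N ∧
      ‖D k‖ ≤ (C0 + C4) * K * (‖(D (k - 1)).2‖ + ‖(D k).2‖ + ‖(D (k + 1)).2‖)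
        + (C0 + C4) * K * ε * N := by
    intro o D k N hN0 hb ha hk
    obtain ⟨t1, t2, t3, t4⟩ := hcore o D k _ hb ha hk
    have p : 0 ≤ C4 * (K * ε * N) := by positivity
    have e : (C0 + C4) * K * ε * N = C0 * (K * ε * N) + C4 * (K * ε * N) := by ring
    have s0 : 0 ≤ ‖(D (k - 1)).2‖ + ‖(D k).2‖ + ‖(D (k + 1)).2‖ := by positivity
    have q := mul_le_mul_of_nonneg_right hC0 s0
    rw [e]
    exact ⟨by linarith, by linarith, by linarith, by linarith⟩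
  have tanL : ∀ o x D j (N : ℝ), Sol F ε c o x → Tan F o x D → Grow D j N →
      ∀ r, ‖L o D j r‖ ≤ Cn / c * ε * N := by
    intro o x D j N hx hT hG
    refine coef hCo _ _ fun y hy => ?_
    have h := n4 o x D j c N y hc hx.small hx.low hG hy
    rw [hT.zero j y (ne0 hy), hId.lin o D j y (ne0 hy), zero_sub, norm_neg] at h
    exact h
  refine ⟨?_, ?_, ?_⟩
  · intro o o' x x' k hx hx' hA N hN0 hcl
    have hk : w o k = w o' k := hA k (by omega) (by omega)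
    have bd : ∀ j, Agree o o' (j - 1) (j + 2) → Close o o' x x' ε j (400 * N) →
        ∀ r, ‖L o (x - x') j r‖ ≤ K * ε * N := by
      intro j hj hc'
      refine coef hCo _ _ fun y hy => ?_
      rw [diff hId hLA hx hx' hj (ne0 hy), norm_neg]
      refine (n3 o o' x x' j _ y hx.small hx'.small hj hc' hy).trans ?_
      have : 400 * Cn ≤ K := by linarith
      have h5 := mul_le_mul_of_nonneg_right this (mul_nonneg hε.le hN0)
      nlinarith
    have hb : ((x - x') k).1 (w o k) = 0 := by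
      have h1 := hx.b0 k
      have h2 := hx'.b0 k
      rw [← hk] at h2
      simp [h1, h2]
    have h := fin o (x - x') k N hN0 hb
      (bd (k - 1) (fun i h1 h2 => hA i (by omega) (by omega)) (step hWalk _ k N hN0 hcl))
      (bd k (fun i h1 h2 => hA i (by omega) h2) (same hWalk _ k N hN0 hcl))
    have e : dl o o' x x' ε k = ‖(x - x') k‖ := by
      simp [dl, hk]
    rw [e]
    exact h
  · intro o x D k hx hT N hN0 hG
    have bd : ∀ j, Grow D j (400 * N) → ∀ r, ‖L o D j r‖ ≤ K * ε * N := by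
      intro j hj r
      refine (tanL o x D j _ hx hT hj r).trans ?_
      have : 400 * (Cn / c) ≤ K := by linarith
      have h5 := mul_le_mul_of_nonneg_right this (mul_nonneg hε.le hN0)
      nlinarith
    exact fin o D k N hN0 (hT.b0 k) (bd (k - 1) (step hWalk _ k N hN0 hG))
      (bd k (same hWalk _ k N hN0 hG))
  · intro o x D N hx hT hG
    have hN0 : 0 ≤ N := by
      have h := hG 0
      have e : kw (0 - 0) = 1 := by simp [kw]
      rw [e, mul_one] at h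
      exact le_trans (norm_nonneg _) h
    have h1 := hfour o D _ (tanL o x D 0 N hx hT hG)
    have h2 := (hD o x D 0 ε c N 1 hε (hle.trans hhalf) hc hx.small hx.low hG (by simp)).2
    have comp : ∀ i, ‖lin o D 0 1 i‖ ≤ ‖Eta o x D 0 1 i‖ + Cd / c * ε * N := by
      intro i
      have h3 : ‖(Eta o x D 0 1 - lin o D 0 1) i‖ ≤ ‖Eta o x D 0 1 - lin o D 0 1‖ :=
        norm_le_pi_norm _ i
      have h5 := norm_sub_le (Eta o x D 0 1 i) ((Eta o x D 0 1 - lin o D 0 1) i)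
      have e : Eta o x D 0 1 i - (Eta o x D 0 1 - lin o D 0 1) i = lin o D 0 1 i := by simp
      rw [e] at h5
      linarith
    have c1 := comp 1
    have c3 := comp 3
    set a := ‖Eta o x D 0 1 1‖ with ha
    set b := ‖Eta o x D 0 1 3‖ with hb
    have a0 : 0 ≤ a := norm_nonneg _
    have b0 : 0 ≤ b := norm_nonneg _
    have eN : 0 ≤ ε * N := mul_nonneg hε.le hN0
    have k1 : 2 * (Cd / c) + Cn / c ≤ K := by linarith
    have k2 := mul_le_mul_of_nonneg_right k1 eN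
    have k3 : a + b ≤ K * (a + b) := le_mul_of_one_le_left (by linarith) K1
    have k4 : ‖lin o D 0 1 1‖ + ‖lin o D 0 1 3‖ + Cn / c * ε * N ≤ K * (a + b + ε * N) := by
      nlinarith
    have k5 := mul_le_mul_of_nonneg_left k4 (show 0 ≤ C4 by linarith)
    have k6 : 0 ≤ C0 * (K * (a + b + ε * N)) := by
      have : 0 ≤ C0 := by linarith
      have : 0 ≤ K := by linarith
      positivity
    nlinarith

end Pool.Agent.Lib.MP_cd3a7b_ag.Q5
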