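import Pool.Agent.Lib.MP_cd3a7b_ag.Q5.St

/-! Real sequence lemmas: decay and a priori bounds from the recursive inequalities. -/

namespace Pool.Agent.Lib.MP_cd3a7b_ag.Q5

namespace SeqAux

theorem least (f W : ℤ → ℝ) (P : ℤ → Prop) (hW : ∀ i, 0 < W i) (M : ℝ)
    (hM : ∀ i, P i → f i ≤ M * W i) :
    ∃ N, 0 ≤ N ∧ (∀ i, P i → f i ≤ N * W i) ∧
      ∀ N', 0 ≤ N' → (∀ i, P i → f i ≤ N' * W i) → N ≤ N' := by
  set S : Set ℝ := {N | 0 ≤ N ∧ ∀ i, P i → f i ≤ N * W i} with hS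
  have h1 : S.Nonempty := ⟨max M 0, le_max_right _ _, fun i hi =>
    (hM i hi).trans (mul_le_mul_of_nonneg_right (le_max_left _ _) (hW i).le)⟩
  refine ⟨sInf S, le_csInf h1 fun N hN => hN.1, fun i hi => ?_, fun N' h0 h => ?_⟩
  · exact (div_le_iff₀ (hW i)).1 (le_csInf h1 fun N hN => (div_le_iff₀ (hW i)).2 (hN.2 i hi))
  · exact csInf_le ⟨0, fun N hN => hN.1⟩ ⟨h0, h⟩

theorem one_le_kw (i : ℤ) : 1 ≤ kw i := one_le_pow₀ (by norm_num)

theorem kw_pos (i : ℤ) : 0 < kw i := one_pos.trans_le (one_le_kw i)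

theorem kw_mono {i j : ℤ} (h : i.natAbs ≤ j.natAbs) : kw i ≤ kw j :=
  pow_le_pow_right₀ (by norm_num) h

theorem kw_succ {i j : ℤ} (h : i.natAbs = j.natAbs + 1) : kw i = 400 * kw j := by
  rw [kw, kw, h, pow_succ']

theorem kw_le {i j : ℤ} (h : i.natAbs ≤ j.natAbs + 1) : kw i ≤ 400 * kw j := by
  rw [kw, kw, ← pow_succ']; exact pow_le_pow_right₀ (by norm_num) h

theorem kw_tri (i k l : ℤ) : kw (i - l) ≤ kw (k - l) * kw (i - k) := by
  rw [kw, kw, kw, ← pow_add]; exact pow_le_pow_right₀ (by norm_num) (by omega)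

theorem dec {C κ B : ℝ} {a d : ℤ → ℝ} (hC : 1 ≤ C) (h0 : 0 ≤ κ) (hκ : C * κ ≤ 1 / 4)
    (ha : ∀ i, 0 ≤ a i) (had : ∀ i, a i ≤ d i) (k₀ : ℤ) (n : ℕ) (hB : ∀ i, d i ≤ B)
    (hR : ∀ k, k₀ - n ≤ k - 2 → k + 2 ≤ k₀ + n → Rec a d C κ k) :
    d k₀ ≤ 28 * C * B * (1 / 2) ^ n := by
  have hB0 : 0 ≤ B := (ha 0).trans ((had 0).trans (hB 0))
  set W : ℤ → ℝ := fun i => 2 ^ (i - k₀).natAbs with hW
  have hW1 : ∀ i, 1 ≤ W i := fun i => one_le_pow₀ (by norm_num)
  have hW0 : ∀ i, 0 < W i := fun i => one_pos.trans_le (hW1 i)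
  have hBW : ∀ i, d i ≤ B * W i := fun i => (hB i).trans (le_mul_of_one_le_right hB0 (hW1 i))
  obtain ⟨N, hN0, hN, hNl⟩ := least d W (fun _ => True) hW0 B fun i _ => hBW i
  obtain ⟨A, hA0, hA, hAl⟩ := least a W (fun _ => True) hW0 B fun i _ => (had i).trans (hBW i)
  set β : ℝ := 2 * B * (1 / 2) ^ n with hβ
  have hβ0 : 0 ≤ β := by positivity
  have hout : ∀ k, ¬ (k₀ - n ≤ k - 2 ∧ k + 2 ≤ k₀ + n) → B ≤ β * W k := by
    intro k hk
    have h1 : (2 : ℝ) ^ n ≤ 2 * W k := by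
      simp only [hW]; rw [← pow_succ']; exact pow_le_pow_right₀ (by norm_num) (by omega)
    have h2 : (1 / 2 : ℝ) ^ n * 2 ^ n = 1 := by rw [← mul_pow]; norm_num
    calc B = B * ((1 / 2) ^ n * 2 ^ n) := by rw [h2, mul_one]
      _ ≤ B * ((1 / 2) ^ n * (2 * W k)) := by gcongr
      _ = β * W k := by rw [hβ]; ring
  have hin : ∀ k, Rec a d C κ k → 100 * a k ≤ (4 * A + κ * N) * W k ∧
      d k ≤ (5 * (C * A) + κ * N) * W k := by
    intro k hk
    have h1 : ∀ j : ℤ, (j - k₀).natAbs ≤ (k - k₀).natAbs + 1 → a j ≤ 2 * (A * W k) := by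
      intro j hj
      have : W j ≤ 2 * W k := by
        simp only [hW]; rw [← pow_succ']; exact pow_le_pow_right₀ (by norm_num) hj
      calc a j ≤ A * W j := hA j trivial
        _ ≤ A * (2 * W k) := by gcongr
        _ = _ := by ring
    obtain ⟨h2, -, -, h3⟩ := hk (N * W k) (mul_nonneg hN0 (hW0 k).le) fun i => by
      refine (hN i trivial).trans ?_
      rw [mul_assoc]
      refine mul_le_mul_of_nonneg_left ?_ hN0
      calc W i ≤ 2 ^ ((k - k₀).natAbs + (i - k).natAbs) :=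
            pow_le_pow_right₀ (by norm_num) (by omega)
        _ = W k * 2 ^ (i - k).natAbs := pow_add _ _ _
        _ ≤ W k * kw (i - k) :=
            mul_le_mul_of_nonneg_left (pow_le_pow_left₀ (by norm_num) (by norm_num) _) (hW0 k).le
    have h4 := h1 (k - 1) (by omega)
    have h5 := h1 (k + 1) (by omega)
    have h6 := hA k trivial
    refine ⟨by linarith, h3.trans ?_⟩
    have : C * (a (k - 1) + a k + a (k + 1)) ≤ C * (5 * (A * W k)) :=
      mul_le_mul_of_nonneg_left (by linarith) (by linarith)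
    linarith
  have hκN : 0 ≤ κ * N := mul_nonneg h0 hN0
  have hCA : 0 ≤ C * A := mul_nonneg (by linarith) hA0
  have e1 : A ≤ (4 * A + κ * N) / 100 + β := by
    refine hAl _ (by positivity) fun k _ => ?_
    have h1 : 0 ≤ β * W k := mul_nonneg hβ0 (hW0 k).le
    have h2 : 0 ≤ (4 * A + κ * N) * W k := mul_nonneg (by positivity) (hW0 k).le
    by_cases hk : k₀ - n ≤ k - 2 ∧ k + 2 ≤ k₀ + n
    · have := (hin k (hR k hk.1 hk.2)).1; linarith
    · have := hout k hk; have := had k; have := hB k; linarith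
  have e2 : N ≤ 5 * (C * A) + κ * N + β := by
    refine hNl _ (by positivity) fun k _ => ?_
    have h1 : 0 ≤ β * W k := mul_nonneg hβ0 (hW0 k).le
    have h2 : 0 ≤ (5 * (C * A) + κ * N) * W k := mul_nonneg (by positivity) (hW0 k).le
    by_cases hk : k₀ - n ≤ k - 2 ∧ k + 2 ≤ k₀ + n
    · have := (hin k (hR k hk.1 hk.2)).2; linarith
    · have := hout k hk; have := hB k; linarith
  have e3 : C * (96 * A) ≤ C * (κ * N + 100 * β) :=
    mul_le_mul_of_nonneg_left (by linarith) (by linarith)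
  have e4 : C * κ * N ≤ 1 / 4 * N := mul_le_mul_of_nonneg_right hκ hN0
  have e5 : 1 * (κ * N) ≤ C * (κ * N) := mul_le_mul_of_nonneg_right hC hκN
  have e6 : 1 * β ≤ C * β := mul_le_mul_of_nonneg_right hC hβ0
  have e7 := hN k₀ trivial
  simp only [hW, sub_self, Int.natAbs_zero, pow_zero, mul_one] at e7
  calc d k₀ ≤ 14 * (C * β) := by linarith
    _ = _ := by rw [hβ]; ring

theorem grow {C K κ M : ℝ} {a d : ℤ → ℝ} (hC : 1 ≤ C) (hK : 0 ≤ K) (h0 : 0 ≤ κ)
    (hκ : (1200 * C + K) * κ ≤ 1 / 8) (ha : ∀ i, 0 ≤ a i) (had : ∀ i, a i ≤ d i) (k₀ : ℤ)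
    (P : ℤ → Prop) (hM : ∀ i, d i ≤ M * kw (i - k₀))
    (hup : ∀ i, P (i + 1) → k₀ + 1 ≤ i → P i ∧ P (i - 1) ∧ Rec a d C κ i)
    (hdn : ∀ i, P (i - 1) → i ≤ k₀ → P i ∧ P (i + 1) ∧ Rec a d C κ i)
    (hd : ∀ k, (Rec a d C κ k ∧ P (k - 1) ∧ P k ∧ P (k + 1)) ∨
      ∀ A, 0 ≤ A → (∀ i, P i → a i ≤ A * kw (i - k₀)) → d k ≤ K * A * kw (k - k₀)) (i : ℤ) :
    d i ≤ 4 * (1200 * C + K) * max (a k₀) (a (k₀ + 1)) * kw (i - k₀) := by
  obtain ⟨N, hN0, hN, hNl⟩ := least d (fun i => kw (i - k₀)) (fun _ => True)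
    (fun i => kw_pos _) M fun i _ => hM i
  obtain ⟨A, hA0, hA, hAl⟩ := least a (fun i => kw (i - k₀)) P
    (fun i => kw_pos _) M fun i _ => (had i).trans (hM i)
  set m := max (a k₀) (a (k₀ + 1)) with hm
  have m1 : a k₀ ≤ m := le_max_left _ _
  have m2 : a (k₀ + 1) ≤ m := le_max_right _ _
  have m0 : 0 ≤ m := (ha _).trans m1
  have hκN : 0 ≤ κ * N := mul_nonneg h0 hN0
  have hrec : ∀ k, Rec a d C κ k →
      a (k + 1) ≤ 100 * a k + a (k - 1) + κ * N * kw (k - k₀) ∧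
      a (k - 1) ≤ 100 * a k + a (k + 1) + κ * N * kw (k - k₀) ∧
      d k ≤ C * (a (k - 1) + a k + a (k + 1)) + κ * N * kw (k - k₀) := by
    intro k hk
    obtain ⟨-, h⟩ := hk (N * kw (k - k₀)) (mul_nonneg hN0 (kw_pos _).le) fun j => by
      refine (hN j trivial).trans ?_
      rw [mul_assoc]
      exact mul_le_mul_of_nonneg_left (kw_tri _ _ _) hN0
    simpa only [mul_assoc] using h
  have e1 : A ≤ m + A / 2 + κ * N := by
    refine hAl _ (by positivity) fun j hj => ?_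
    have g1 : m ≤ m * kw (j - k₀) := le_mul_of_one_le_right m0 (one_le_kw _)
    have g2 : 0 ≤ A * kw (j - k₀) := mul_nonneg hA0 (kw_pos _).le
    have g3 : 0 ≤ κ * N * kw (j - k₀) := mul_nonneg hκN (kw_pos _).le
    rcases le_or_gt (k₀ + 2) j with h | h
    · obtain ⟨k, rfl⟩ : ∃ k, j = k + 1 := ⟨j - 1, by ring⟩
      obtain ⟨p1, p2, p3⟩ := hup k hj (by omega)
      have q1 := (hrec k p3).1
      have q2 := hA _ p1
      have q3 := hA _ p2
      have q4 : kw (k + 1 - k₀) = 400 * kw (k - k₀) := kw_succ (by omega)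
      have q5 : kw (k - k₀) = 400 * kw (k - 1 - k₀) := kw_succ (by omega)
      simp only [q4, q5] at *
      linarith
    rcases le_or_gt j (k₀ - 1) with h' | h'
    · obtain ⟨k, rfl⟩ : ∃ k, j = k - 1 := ⟨j + 1, by ring⟩
      obtain ⟨p1, p2, p3⟩ := hdn k hj (by omega)
      have q1 := (hrec k p3).2.1
      have q2 := hA _ p1
      have q4 : kw (k - 1 - k₀) = 400 * kw (k - k₀) := kw_succ (by omega)
      have q3 : a (k + 1) ≤ m + A * kw (k - k₀) := by
        have : 0 ≤ A * kw (k - k₀) := mul_nonneg hA0 (kw_pos _).le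
        rcases eq_or_ne k k₀ with rfl | hk
        · linarith
        · have t1 := hA _ p2
          have t2 : A * kw (k + 1 - k₀) ≤ A * kw (k - k₀) :=
            mul_le_mul_of_nonneg_left (kw_mono (by omega)) hA0
          linarith
      simp only [q4] at *
      linarith
    · have : a j ≤ m := by
        rcases (by omega : j = k₀ ∨ j = k₀ + 1) with rfl | rfl <;> assumption
      linarith
  have hCA : 0 ≤ C * A := mul_nonneg (by linarith) hA0
  have hKA : 0 ≤ K * A := mul_nonneg hK hA0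
  have e2 : N ≤ 1200 * (C * A) + K * A + κ * N := by
    refine hNl _ (by positivity) fun k _ => ?_
    have g1 : 0 ≤ C * A * kw (k - k₀) := mul_nonneg hCA (kw_pos _).le
    have g2 : 0 ≤ K * A * kw (k - k₀) := mul_nonneg hKA (kw_pos _).le
    have g3 : 0 ≤ κ * N * kw (k - k₀) := mul_nonneg hκN (kw_pos _).le
    rcases hd k with ⟨p0, p1, p2, p3⟩ | h
    · have q : ∀ j, P j → (j - k₀).natAbs ≤ (k - k₀).natAbs + 1 →
          a j ≤ A * (400 * kw (k - k₀)) := fun j hj h =>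
        (hA j hj).trans (mul_le_mul_of_nonneg_left (kw_le h) hA0)
      have q1 := q _ p1 (by omega)
      have q2 := q _ p2 (by omega)
      have q3 := q _ p3 (by omega)
      have q4 : C * (a (k - 1) + a k + a (k + 1)) ≤ C * (3 * (A * (400 * kw (k - k₀)))) :=
        mul_le_mul_of_nonneg_left (by linarith) (by linarith)
      have := (hrec k p0).2.2
      linarith
    · have := h A hA0 hA; linarith
  have e3 : (1200 * C + K) * A ≤ (1200 * C + K) * (2 * (m + κ * N)) :=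
    mul_le_mul_of_nonneg_left (by linarith) (by linarith)
  have e4 : (1200 * C + K) * κ * N ≤ 1 / 8 * N := mul_le_mul_of_nonneg_right hκ hN0
  have e5 : 1 * (κ * N) ≤ (1200 * C + K) * (κ * N) :=
    mul_le_mul_of_nonneg_right (by linarith) hκN
  exact (hN i trivial).trans (mul_le_mul_of_nonneg_right (by linarith) (kw_pos _).le)

end SeqAux

open SeqAux in
theorem stSeq (_hWalk : StWalk) : StSeq := by
  intro C c hC hc
  have hK : 0 < 400 / c := by positivity
  have hT : 0 < 1200 * C + 400 / c := by linarith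
  refine ⟨4 * (1200 * C + 400 / c), 1 / (8 * (1200 * C + 400 / c)), by linarith, by positivity,
    fun κ a d h0 hκ ha had => ?_⟩
  have hκ' : (1200 * C + 400 / c) * κ ≤ 1 / 8 := by
    rw [le_div_iff₀ (by positivity)] at hκ; linarith
  refine ⟨fun B k₀ n hB hR => ?_, fun B p q k₀ hB hR h1 h2 h3 h4 => ?_, fun N hN hR => ?_⟩
  · have hB0 : 0 ≤ B := (ha 0).trans ((had 0).trans (hB 0))
    have h5 : 0 ≤ 400 / c * κ := mul_nonneg hK.le h0
    have h6 : 0 ≤ C * κ := mul_nonneg (by linarith) h0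
    refine (dec hC h0 (by linarith) ha had k₀ n hB hR).trans ?_
    exact mul_le_mul_of_nonneg_right (mul_le_mul_of_nonneg_right (by linarith) hB0)
      (by positivity)
  · have hB0 : 0 ≤ B := (ha 0).trans ((had 0).trans (hB 0))
    refine grow (M := B) hC hK.le h0 hκ' ha had k₀ (fun i => p + 2 ≤ i ∧ i ≤ q - 2)
      (fun i => (hB i).trans (le_mul_of_one_le_right hB0 (one_le_kw _)))
      (fun i hi h => ⟨by omega, by omega, hR i (by omega) (by omega)⟩)
      (fun i hi h => ⟨by omega, by omega, hR i (by omega) (by omega)⟩) fun k => ?_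
    by_cases hk : p + 3 ≤ k ∧ k ≤ q - 3
    · exact Or.inl ⟨hR k hk.1 hk.2, by omega, by omega, by omega⟩
    refine Or.inr fun A hA0 hA => (hB k).trans ?_
    have g : ∀ j, p + 2 ≤ j → j ≤ q - 2 → (j - k₀).natAbs ≤ (k - k₀).natAbs + 1 →
        a j ≤ A * (400 * kw (k - k₀)) := fun j j1 j2 h =>
      (hA j ⟨j1, j2⟩).trans (mul_le_mul_of_nonneg_left (kw_le h) hA0)
    have g' : c * B ≤ A * (400 * kw (k - k₀)) := by
      rcases le_or_gt k (p + 2) with h | h
      · exact h3.trans (max_le (g _ (by omega) (by omega) (by omega))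
          (g _ (by omega) (by omega) (by omega)))
      · exact h4.trans (max_le (g _ (by omega) (by omega) (by omega))
          (g _ (by omega) (by omega) (by omega)))
    rw [div_mul_eq_mul_div, div_mul_eq_mul_div, le_div_iff₀ hc]
    linarith
  · exact grow hC hK.le h0 hκ' ha had 0 (fun _ => True) hN
      (fun i _ _ => ⟨trivial, trivial, hR i⟩) (fun i _ _ => ⟨trivial, trivial, hR i⟩)
      fun k => Or.inl ⟨hR k, trivial, trivial, trivial⟩

end Pool.Agent.Lib.MP_cd3a7b_ag.Q5
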