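import Pool.Agent.Lib.MP_cd3a7b_ag.Q5.St

/-! The difference of two curves in one chart. -/

namespace Pool.Agent.Lib.MP_cd3a7b_ag.Q5

open Finset

namespace SerCAux

/-- The summable majorant. -/
noncomputable def g (j : ℤ) : ℝ :=
  ((nn j : ℝ) + 1) * ((j.natAbs : ℝ) + 1) * (1 / 2) ^ nn j * (400 : ℝ) ^ j.natAbs

theorem g_nonneg (j : ℤ) : 0 ≤ g j := by unfold g; positivity

theorem smul_sub_le (t t' : ℂ) (b b' : E) :
    ‖t • b - t' • b'‖ ≤ ‖t - t'‖ * ‖b‖ + ‖t'‖ * ‖b - b'‖ := by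
  have : t • b - t' • b' = (t - t') • b + t' • (b - b') := by
    rw [sub_smul, smul_sub]; abel
  rw [this]
  exact (norm_add_le _ _).trans (by rw [norm_smul, norm_smul])

variable {o o' : Om} {x x' : St} {k : ℤ} {ε N : ℝ}

theorem cl (h : Close o o' x x' ε k N) (i : ℤ) : ‖x i - x' i‖ ≤ N * kw (i - k) :=
  (le_max_left _ _).trans (h i)

theorem cl1 (h : Close o o' x x' ε k N) (i : ℤ) : ‖(x i).1 - (x' i).1‖ ≤ N * kw (i - k) :=
  (norm_fst_le (x i - x' i)).trans (cl h i)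

theorem cl2 (h : Close o o' x x' ε k N) (i : ℤ) : ‖(x i).2 - (x' i).2‖ ≤ N * kw (i - k) :=
  (norm_snd_le (x i - x' i)).trans (cl h i)

theorem N_nonneg (h : Close o o' x x' ε k N) : 0 ≤ N := by
  have := (norm_nonneg _).trans (cl h k)
  simpa [kw] using this

theorem far (hW : StWalk) (hP : StProd) (h0 : 0 < ε) (h1 : ε ≤ 1 / 2) (hx : Small x ε)
    (hx' : Small x' ε) (hc : Close o o' x x' ε k N) {j : ℤ} (hj : j ≤ -2 ∨ 3 ≤ j) :
    ‖va o x k j - va o' x' k j‖ ≤ 10 * (ε * N) * g j := by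
  have hN := N_nonneg hc
  have ht : ∀ i, ‖ta x i‖ ≤ ε := fun i => (norm_snd_le (x i)).trans (hx i)
  have ht' : ∀ i, ‖ta x' i‖ ≤ ε := fun i => (norm_snd_le (x' i)).trans (hx' i)
  have a1 := hP.lip (ta x) (ta x') ε N k j h0.le hN ht ht' (cl2 hc)
  have a2 := hP.bound (ta x') ε k j h0.le ht'
  have hK : 0 ≤ N * kw j := mul_nonneg hN (zero_le_one.trans (hW.one_le_kw j))
  have a3 : ‖u o x (k + j)‖ ≤ 3 / 2 := by
    have := (norm_fst_le (x (k + j))).trans (hx (k + j))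
    refine (norm_add_le _ _).trans ?_
    rw [hW.norm_e]
    linarith
  have a4 : ε * ‖u o x (k + j) - u o' x' (k + j)‖ ≤ 5 / 2 * (N * kw j) := by
    have b1 := cl1 hc (k + j)
    have b2 := (le_max_right _ _).trans (hc (k + j))
    rw [add_sub_cancel_left] at b1 b2
    have b3 : ‖u o x (k + j) - u o' x' (k + j)‖ ≤
        ‖e (w o (k + j)) - e (w o' (k + j))‖ + N * kw j := by
      unfold u
      rw [add_sub_add_comm]
      exact (norm_add_le _ _).trans (by linarith)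
    have b4 : ε * ‖e (w o (k + j)) - e (w o' (k + j))‖ ≤ 2 * (N * kw j) := by
      by_cases hw : w o (k + j) = w o' (k + j)
      · rw [hw, sub_self, norm_zero]; linarith
      · rw [if_neg hw] at b2
        have := norm_sub_le (e (w o (k + j))) (e (w o' (k + j)))
        rw [hW.norm_e, hW.norm_e] at this
        nlinarith
    nlinarith
  obtain ⟨p, hp⟩ : ∃ p, nn j = p + 2 := ⟨nn j - 2, by have := hP.n0.2.2.2.2 j hj; omega⟩
  have a5 : ε ^ p ≤ (1 / 2) ^ p := pow_le_pow_left₀ h0.le h1 p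
  have a6 : 0 ≤ ε ^ p := by positivity
  have e1 : g j = ((p : ℝ) + 3) * ((j.natAbs : ℝ) + 1) * ((1 / 2) ^ p / 4) * kw j := by
    unfold g kw; rw [hp]; push_cast; ring
  rw [hp] at a1 a2
  rw [show p + 2 - 1 = p + 1 by omega] at a1
  push_cast at a1
  have c1 : ‖cc (ta x) k j - cc (ta x') k j‖ * ‖u o x (k + j)‖ ≤
      ((p : ℝ) + 2) * ε ^ (p + 1) * (N * kw j) * (3 / 2) :=
    mul_le_mul a1 a3 (norm_nonneg _) (by positivity)
  have c2 : ‖cc (ta x') k j‖ * ‖u o x (k + j) - u o' x' (k + j)‖ ≤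
      ε ^ (p + 1) * (5 / 2 * (N * kw j)) :=
    (mul_le_mul_of_nonneg_right a2 (norm_nonneg _)).trans (by
      rw [pow_succ ε (p + 1), mul_assoc]
      exact mul_le_mul_of_nonneg_left a4 (by positivity))
  have c3 : ε ^ (p + 1) * (N * kw j) ≤ (1 / 2) ^ p * (ε * (N * kw j)) := by
    rw [pow_succ, mul_assoc]
    exact mul_le_mul_of_nonneg_right a5 (by positivity)
  have c4 : 0 ≤ (1 / 2 : ℝ) ^ p * (ε * (N * kw j)) := by positivity
  have c5 : 0 ≤ ε ^ (p + 1) * (N * kw j) := by positivity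
  have hp0 : (0 : ℝ) ≤ p := Nat.cast_nonneg p
  have hj0 : (0 : ℝ) ≤ j.natAbs := Nat.cast_nonneg _
  refine (smul_sub_le _ _ _ _).trans ?_
  rw [e1]
  calc _ ≤ (3 / 2 * ((p : ℝ) + 2) + 5 / 2) * (ε ^ (p + 1) * (N * kw j)) := by linarith
    _ ≤ (5 / 2 * ((p : ℝ) + 3)) * ((1 / 2) ^ p * (ε * (N * kw j))) :=
      mul_le_mul (by linarith) c3 c5 (by positivity)
    _ ≤ (5 / 2 * ((p : ℝ) + 3)) * ((1 / 2) ^ p * (ε * (N * kw j))) * ((j.natAbs : ℝ) + 1) :=
      le_mul_of_one_le_right (by positivity) (by linarith)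
    _ = _ := by ring

/-- The four terms of the linear part. -/
noncomputable def nr (o : Om) (z : St) (k : ℤ) (y : ℂ) (j : ℤ) : E :=
  (if j = 0 then (z k).1 else 0) + (if j = 1 then y • (z (k + 1)).1 else 0)
    + (if j = -1 then ((z k).2 * y⁻¹) • e (w o (k - 1)) else 0)
    + (if j = 2 then ((z (k + 1)).2 * y ^ 2) • e (w o (k + 2)) else 0)

theorem hasSum_nr (o : Om) (z : St) (k : ℤ) (y : ℂ) : HasSum (nr o z k y) (lin o z k y) :=
  (((hasSum_ite_eq _ _).add (hasSum_ite_eq _ _)).add (hasSum_ite_eq _ _)).add (hasSum_ite_eq _ _)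

theorem term (hW : StWalk) (hP : StProd) (h0 : 0 < ε) (h1 : ε ≤ 1 / 2) (hx : Small x ε)
    (hx' : Small x' ε) (ha : Agree o o' (k - 1) (k + 2)) (hc : Close o o' x x' ε k N) {y : ℂ}
    (hy : ‖y‖ = 1) (j : ℤ) :
    ‖y ^ j • va o x k j - y ^ j • va o' x' k j - nr o (x - x') k y j‖ ≤ 10 * (ε * N) * g j := by
  have hN := N_nonneg hc
  have hg : 0 ≤ 10 * (ε * N) * g j := mul_nonneg (by positivity) (g_nonneg j)
  have hεN : 0 ≤ ε * N := by positivity
  have hb : ∀ i, ‖(x i).1‖ ≤ ε := fun i => (norm_fst_le (x i)).trans (hx i)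
  have ht' : ∀ i, ‖(x' i).2‖ ≤ ε := fun i => (norm_snd_le (x' i)).trans (hx' i)
  obtain ⟨c0, c1, cm, c2⟩ := hP.c0 (ta x) k
  obtain ⟨d0, d1, dm, d2⟩ := hP.c0 (ta x') k
  obtain ⟨-, -, nm, n2, -⟩ := hP.n0
  have key : ∀ (i i' : ℤ) (A B : ℝ), kw (i - k) = A → kw (i' - k) = B →
      ‖(x i).2 • (x i').1 - (x' i).2 • (x' i').1‖ ≤ (A + B) * (ε * N) := by
    rintro i i' _ _ rfl rfl
    refine (smul_sub_le _ _ _ _).trans ?_
    have k1 := zero_le_one.trans (hW.one_le_kw (i - k))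
    have e1 := mul_le_mul (cl2 hc i) (hb i') (norm_nonneg _) (mul_nonneg hN k1)
    have e2 := mul_le_mul (ht' i) (cl1 hc i') (norm_nonneg _) h0.le
    linarith
  by_cases hj : j ≤ -2 ∨ 3 ≤ j
  · have : nr o (x - x') k y j = 0 := by
      unfold nr
      rw [if_neg (by omega), if_neg (by omega), if_neg (by omega), if_neg (by omega)]
      simp
    rw [this, sub_zero, ← smul_sub, norm_smul, norm_zpow, hy, one_zpow, one_mul]
    exact far hW hP h0 h1 hx hx' hc hj
  obtain rfl | rfl | rfl | rfl : j = 0 ∨ j = 1 ∨ j = -1 ∨ j = 2 := by omega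
  · have : y ^ (0 : ℤ) • va o x k 0 - y ^ (0 : ℤ) • va o' x' k 0 - nr o (x - x') k y 0 = 0 := by
      simp [va, nr, u, c0, d0, ha k (by omega) (by omega)]
    rw [this, norm_zero]; exact hg
  · have : y ^ (1 : ℤ) • va o x k 1 - y ^ (1 : ℤ) • va o' x' k 1 - nr o (x - x') k y 1 = 0 := by
      simp [va, nr, u, c1, d1, ha (k + 1) (by omega) (by omega), smul_sub]
    rw [this, norm_zero]; exact hg
  · have : y ^ (-1 : ℤ) • va o x k (-1) - y ^ (-1 : ℤ) • va o' x' k (-1) - nr o (x - x') k y (-1)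
        = y⁻¹ • ((x k).2 • (x (k - 1)).1 - (x' k).2 • (x' (k - 1)).1) := by
      have hw := ha (k - 1) (by omega) (by omega)
      simp only [va, nr, u, cm, dm, ta, ← sub_eq_add_neg, ← hw, zpow_neg_one]
      simp
      module
    rw [this, norm_smul, norm_inv, hy, inv_one, one_mul]
    refine (key k (k - 1) 1 400 (by simp [kw]) (by simp [kw])).trans ?_
    have : g (-1) = 800 := by unfold g; rw [nm]; norm_num
    rw [this]
    linarith
  · have : y ^ (2 : ℤ) • va o x k 2 - y ^ (2 : ℤ) • va o' x' k 2 - nr o (x - x') k y 2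
        = y ^ 2 • ((x (k + 1)).2 • (x (k + 2)).1 - (x' (k + 1)).2 • (x' (k + 2)).1) := by
      have hw := ha (k + 2) (by omega) (by omega)
      simp only [va, nr, u, c2, d2, ta, ← hw, zpow_ofNat]
      simp
      module
    rw [this, norm_smul, norm_pow, hy, one_pow, one_mul]
    refine (key (k + 1) (k + 2) 400 160000 (by simp [kw]) (by simp [kw]; norm_num)).trans ?_
    have : g 2 = 480000 := by unfold g; rw [n2]; norm_num
    rw [this]
    linarith

theorem lin_le (hW : StWalk) (hc : Close o o' x x' ε k N) {y : ℂ} (hy : ‖y‖ = 1) :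
    ‖lin o (x - x') k y‖ ≤ 802 * N := by
  have a1 := cl1 hc k
  have a2 := cl1 hc (k + 1)
  have a3 := cl2 hc k
  have a4 := cl2 hc (k + 1)
  simp only [kw, sub_self, add_sub_cancel_left, Int.natAbs_zero, Int.natAbs_one, pow_zero,
    pow_one] at a1 a2 a3 a4
  unfold lin
  refine (norm_add_le _ _).trans ((add_le_add ((norm_add_le _ _).trans
    (add_le_add (norm_add_le _ _) le_rfl)) le_rfl).trans ?_)
  simp only [norm_smul, norm_mul, norm_inv, norm_pow, hy, hW.norm_e, Pi.sub_apply, Prod.fst_sub,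
    Prod.snd_sub]
  linarith

end SerCAux

open SerCAux in
theorem stSerC (hWalk : StWalk) (hProd : StProd) (hLau : StLau) (hSerA : StSerA) : StSerC := by
  have hs : Summable g := hProd.sum 400 (by norm_num)
  have hS : 0 ≤ ∑' j, g j := tsum_nonneg g_nonneg
  refine ⟨802 + 10 * ∑' j, g j, by linarith, fun o o' x x' k ε N y h0 h1 hx hx' ha hc hy => ?_⟩
  have hN := N_nonneg hc
  have hy0 : y ≠ 0 := by rintro rfl; simp at hy
  have s1 := (hLau.sm _ y (hSerA.fast o x k ε hx h1) hy0).hasSum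
  have s2 := (hLau.sm _ y (hSerA.fast o' x' k ε hx' h1) hy0).hasSum
  have main : ‖V o x k y - V o' x' k y - lin o (x - x') k y‖ ≤ 10 * (ε * N) * ∑' j, g j :=
    ((s1.sub s2).sub (hasSum_nr o (x - x') k y)).norm_le_of_bounded
      (hs.hasSum.mul_left (10 * (ε * N))) (term hWalk hProd h0 h1 hx hx' ha hc hy)
  have hl := lin_le hWalk hc hy
  have hεN : 0 ≤ ε * N := by positivity
  have h2 : ε * N * ∑' j, g j ≤ N * ∑' j, g j :=
    mul_le_mul_of_nonneg_right (by nlinarith) hS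
  constructor
  · have := norm_add_le (V o x k y - V o' x' k y - lin o (x - x') k y) (lin o (x - x') k y)
    rw [sub_add_cancel] at this
    linarith
  · linarith

end Pool.Agent.Lib.MP_cd3a7b_ag.Q5
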