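import Pool.Agent.Lib.MP_cd3a7b_ag.Q5.St

/-! The first variation of the curve is close to its linear part. -/

namespace Pool.Agent.Lib.MP_cd3a7b_ag.Q5

open MvPolynomial Finset Filter Topology

namespace SerDAux

/-- The four terms of the linear part. -/
noncomputable def g (o : Om) (D : St) (k : ℤ) (y : ℂ) (j : ℤ) : E :=
  if j = 0 then (D k).1 else if j = 1 then y • (D (k + 1)).1
  else if j = -1 then ((D k).2 * y⁻¹) • e (w o (k - 1))
  else if j = 2 then ((D (k + 1)).2 * y ^ 2) • e (w o (k + 2)) else 0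

lemma g_sum (o : Om) (D : St) (k : ℤ) (y : ℂ) : HasSum (g o D k y) (lin o D k y) := by
  have h : HasSum (g o D k y) (∑ j ∈ ({0, 1, -1, 2} : Finset ℤ), g o D k y j) :=
    hasSum_sum_of_ne_finset_zero fun j hj => by
      simp only [mem_insert, mem_singleton, not_or] at hj
      simp [g, hj.1, hj.2.1, hj.2.2.1, hj.2.2.2]
  convert h using 1
  rw [sum_insert (by decide), sum_insert (by decide), sum_insert (by decide), sum_singleton]
  simp [g, lin, add_assoc]

/-- The majorant. -/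
noncomputable def b (j : ℤ) : ℝ :=
  ((nn j : ℝ) + 1) * ((j.natAbs : ℝ) + 1) * (1 / 2) ^ nn j * 400 ^ j.natAbs

lemma b_nn (j : ℤ) : 0 ≤ b j := by unfold b; positivity

lemma near (t dt z : ℂ) (f p q : E) (ht : t ≠ 0) (hz : ‖z‖ = 1) {ε A B : ℝ} (hε : 0 ≤ ε)
    (hA : 0 ≤ A) (h1 : ‖t‖ ≤ ε) (h2 : ‖p‖ ≤ ε) (h3 : ‖dt‖ ≤ A) (h4 : ‖q‖ ≤ B) :
    ‖z • t • ((dt / t) • (f + p) + q) - (dt * z) • f‖ ≤ ε * (A + B) := by
  have h : z • t • ((dt / t) • (f + p) + q) - (dt * z) • f = z • (dt • p + t • q) := by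
    ext i
    simp only [Pi.sub_apply, Pi.smul_apply, Pi.add_apply, smul_eq_mul]
    field_simp
    ring
  rw [h, norm_smul, hz, one_mul]
  refine (norm_add_le _ _).trans ?_
  rw [norm_smul, norm_smul]
  have a1 : ‖dt‖ * ‖p‖ ≤ A * ε := mul_le_mul h3 h2 (norm_nonneg _) hA
  have a2 : ‖t‖ * ‖q‖ ≤ ε * B := mul_le_mul h1 h4 (norm_nonneg _) hε
  nlinarith

lemma far {ε c N K : ℝ} {n : ℕ} (hε : 0 < ε) (hε2 : ε ≤ 1 / 2) (hc : 0 < c) (hc1 : c ≤ 1)
    (hN : 0 ≤ N) (hK : 0 ≤ K) (hn : 3 ≤ n) :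
    ε ^ n * (n * (N / (c * ε) * K) * (3 / 2) + N * K)
      ≤ 6 * (ε * N / c) * (((n : ℝ) + 1) * (1 / 2) ^ n * K) := by
  obtain ⟨m, rfl⟩ : ∃ m, n = m + 2 := ⟨n - 2, by omega⟩
  have h1 : ε ^ m ≤ (1 / 2) ^ m := pow_le_pow_left₀ hε.le hε2 m
  have h2 : N * K ≤ N / (c * ε) * K := by
    refine mul_le_mul_of_nonneg_right ?_ hK
    rw [le_div_iff₀ (by positivity)]
    have : c * ε ≤ 1 := by nlinarith
    nlinarith
  have h3 : ((m + 2 : ℕ) : ℝ) * (N / (c * ε) * K) * (3 / 2) + N * K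
      ≤ 3 / 2 * (((m + 2 : ℕ) : ℝ) + 1) * (N / (c * ε) * K) := by
    have : 0 ≤ N / (c * ε) * K := by positivity
    nlinarith
  calc ε ^ (m + 2) * (((m + 2 : ℕ) : ℝ) * (N / (c * ε) * K) * (3 / 2) + N * K)
      ≤ ε ^ (m + 2) * (3 / 2 * (((m + 2 : ℕ) : ℝ) + 1) * (N / (c * ε) * K)) :=
        mul_le_mul_of_nonneg_left h3 (by positivity)
    _ = ε ^ m * (3 / 2 * (((m + 2 : ℕ) : ℝ) + 1) * (ε * N / c) * K) := by
        field_simp
        ring
    _ ≤ (1 / 2) ^ m * (3 / 2 * (((m + 2 : ℕ) : ℝ) + 1) * (ε * N / c) * K) :=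
        mul_le_mul_of_nonneg_right h1 (by positivity)
    _ = 6 * (ε * N / c) * ((((m + 2 : ℕ) : ℝ) + 1) * (1 / 2) ^ (m + 2) * K) := by ring

lemma term (hWalk : StWalk) (hProd : StProd) {o : Om} {x D : St} {k : ℤ} {ε c N : ℝ} {y : ℂ}
    (hε : 0 < ε) (hε2 : ε ≤ 1 / 2) (hc : 0 < c) (hc1 : c ≤ 1) (hN : 0 ≤ N) (hx : Small x ε)
    (hl : Low x (c * ε)) (hD : Grow D k N) (hy : ‖y‖ = 1) (j : ℤ) :
    ‖y ^ j • ea o x D k j - g o D k y j‖ ≤ 6 * (ε * N / c) * b j := by
  have hcε : 0 < c * ε := by positivity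
  have hτ : ∀ i, ‖(x i).2‖ ≤ ε := fun i => (norm_snd_le _).trans (hx i)
  have hb : ∀ i, ‖(x i).1‖ ≤ ε := fun i => (norm_fst_le _).trans (hx i)
  have hτ0 : ∀ i, (x i).2 ≠ 0 := fun i h => by
    have := hl i
    rw [h, norm_zero] at this
    linarith
  have hD1 : ∀ i, ‖(D i).1‖ ≤ N * kw (i - k) := fun i => (norm_fst_le _).trans (hD i)
  have hD2 : ∀ i, ‖(D i).2‖ ≤ N * kw (i - k) := fun i => (norm_snd_le _).trans (hD i)
  obtain ⟨c0, c1, c2, c3⟩ := hProd.c0 (ta x) k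
  obtain ⟨r0, r1, r2, r3⟩ := hProd.r0 (fun i => (D i).2 / (x i).2) k
  obtain ⟨n0, n1, n2, n3, n4⟩ := hProd.n0
  have hq : ε * N ≤ ε * N / c := by
    rw [le_div_iff₀ hc]
    have : 0 ≤ ε * N := by positivity
    nlinarith
  have hq0 : 0 ≤ ε * N := by positivity
  have hpos : 0 ≤ 6 * (ε * N / c) * b j := mul_nonneg (by positivity) (b_nn j)
  by_cases j0 : j = 0
  · subst j0
    simpa [ea, g, c0, r0] using hpos
  by_cases j1 : j = 1
  · subst j1
    simpa [ea, g, c1, r1] using hpos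
  by_cases j2 : j = -1
  · subst j2
    have e1 : y ^ (-1 : ℤ) • ea o x D k (-1) - g o D k y (-1)
        = y⁻¹ • (x k).2 • (((D k).2 / (x k).2) • (e (w o (k - 1)) + (x (k - 1)).1)
          + (D (k - 1)).1) - ((D k).2 * y⁻¹) • e (w o (k - 1)) := by
      simp [ea, g, c2, r2, ta, u, sub_eq_add_neg]
    have e2 : b (-1) = 800 := by simp [b, n2]; norm_num
    have a1 := hD2 k
    have a2 := hD1 (k - 1)
    have k1 : kw (k - k) = 1 := by simp [kw]
    have k2 : kw (k - 1 - k) = 400 := by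
      rw [show k - 1 - k = -1 by ring]; simp [kw]
    rw [k1] at a1
    rw [k2] at a2
    rw [e1, e2]
    refine (near _ _ _ _ _ _ (hτ0 k) (by rw [norm_inv, hy, inv_one]) hε.le (by positivity)
      (hτ k) (hb _) a1 a2).trans ?_
    nlinarith
  by_cases j3 : j = 2
  · subst j3
    have e1 : y ^ (2 : ℤ) • ea o x D k 2 - g o D k y 2
        = y ^ 2 • (x (k + 1)).2 • (((D (k + 1)).2 / (x (k + 1)).2)
          • (e (w o (k + 2)) + (x (k + 2)).1) + (D (k + 2)).1)
          - ((D (k + 1)).2 * y ^ 2) • e (w o (k + 2)) := by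
      simp [ea, g, c3, r3, ta, u, zpow_ofNat]
    have e2 : b 2 = 480000 := by simp [b, n3]; norm_num
    have a1 := hD2 (k + 1)
    have a2 := hD1 (k + 2)
    have k1 : kw (k + 1 - k) = 400 := by
      rw [show k + 1 - k = 1 by ring]; simp [kw]
    have k2 : kw (k + 2 - k) = 160000 := by
      rw [show k + 2 - k = 2 by ring]; simp [kw]; norm_num
    rw [k1] at a1
    rw [k2] at a2
    rw [e1, e2]
    refine (near _ _ _ _ _ _ (hτ0 (k + 1)) (by rw [norm_pow, hy, one_pow]) hε.le (by positivity)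
      (hτ _) (hb _) a1 a2).trans ?_
    nlinarith
  have hn : 3 ≤ nn j := n4 j (by omega)
  have hK : 0 ≤ kw j := zero_le_one.trans (hWalk.one_le_kw j)
  have e1 : g o D k y j = 0 := by simp [g, j0, j1, j2, j3]
  have a1 : ‖cc (ta x) k j‖ ≤ ε ^ nn j := hProd.bound _ ε k j hε.le hτ
  have a2 : ‖rr (fun i => (D i).2 / (x i).2) k j‖ ≤ nn j * (N / (c * ε) * kw j) := by
    refine hProd.rbound _ _ k j (by positivity) fun i => ?_
    rw [norm_div, div_mul_eq_mul_div]
    have := hWalk.one_le_kw (i - k)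
    exact div_le_div₀ (by positivity) (hD2 i) hcε (hl i)
  have a3 : ‖u o x (k + j)‖ ≤ 3 / 2 := by
    refine (norm_add_le _ _).trans ?_
    rw [hWalk.norm_e]
    linarith [hb (k + j)]
  have a4 : ‖(D (k + j)).1‖ ≤ N * kw j := by simpa using hD1 (k + j)
  have a5 : ‖rr (fun i => (D i).2 / (x i).2) k j • u o x (k + j) + (D (k + j)).1‖
      ≤ nn j * (N / (c * ε) * kw j) * (3 / 2) + N * kw j := by
    refine (norm_add_le _ _).trans (add_le_add ?_ a4)
    rw [norm_smul]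
    exact mul_le_mul a2 a3 (norm_nonneg _) (by positivity)
  rw [e1, sub_zero, norm_smul, norm_zpow, hy, one_zpow, one_mul, ea, norm_smul]
  refine (mul_le_mul a1 a5 (norm_nonneg _) (by positivity)).trans
    ((far hε hε2 hc hc1 hN hK hn).trans (mul_le_mul_of_nonneg_left ?_ (by positivity)))
  have h1 : (0 : ℝ) ≤ ((nn j : ℝ) + 1) * (1 / 2) ^ nn j * kw j := by positivity
  have h2 : b j = ((j.natAbs : ℝ) + 1) * (((nn j : ℝ) + 1) * (1 / 2) ^ nn j * kw j) := by
    unfold b kw; ring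
  have h3 : (0 : ℝ) ≤ j.natAbs := Nat.cast_nonneg _
  rw [h2]
  nlinarith

lemma lin_le (hWalk : StWalk) {o : Om} {D : St} {k : ℤ} {N : ℝ} {y : ℂ} (hD : Grow D k N)
    (hy : ‖y‖ = 1) : ‖lin o D k y‖ ≤ 802 * N := by
  have a1 := hD k
  have a2 := hD (k + 1)
  have k1 : kw (k - k) = 1 := by simp [kw]
  have k2 : kw (k + 1 - k) = 400 := by
    rw [show k + 1 - k = 1 by ring]; simp [kw]
  rw [k1] at a1
  rw [k2] at a2
  have b1 := (norm_fst_le _).trans a1
  have b2 := (norm_snd_le _).trans a1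
  have b3 := (norm_fst_le _).trans a2
  have b4 := (norm_snd_le _).trans a2
  unfold lin
  refine (norm_add_le _ _).trans ((add_le_add ((norm_add_le _ _).trans
    (add_le_add (norm_add_le _ _) le_rfl)) le_rfl).trans ?_)
  simp only [norm_smul, norm_mul, norm_inv, norm_pow, hy, hWalk.norm_e]
  linarith

end SerDAux

open SerDAux in
theorem stSerD (hWalk : StWalk) (hProd : StProd) (_hLau : StLau) (_hSerA : StSerA) : StSerD := by
  have hs : Summable b := hProd.sum 400 (by norm_num)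
  have hS : 0 ≤ ∑' j, b j := tsum_nonneg b_nn
  refine ⟨6 * ∑' j, b j + 802, by linarith, fun o x D k ε c N y hε hε2 hc hx hl hD hy => ?_⟩
  have hc1 : c ≤ 1 := by
    have h1 := (hl 0).trans ((norm_snd_le _).trans (hx 0))
    nlinarith
  have hN : 0 ≤ N := by
    have h1 := (norm_nonneg _).trans (hD k)
    simpa [kw] using h1
  have ht := term hWalk hProd (o := o) hε hε2 hc hc1 hN hx hl hD hy
  have hm : HasSum (fun j => 6 * (ε * N / c) * b j) (6 * (ε * N / c) * ∑' j, b j) :=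
    hs.hasSum.mul_left _
  have h1 : Summable fun j => y ^ j • ea o x D k j - g o D k y j :=
    Summable.of_norm_bounded hm.summable ht
  have h2 : Eta o x D k y - lin o D k y = ∑' j, (y ^ j • ea o x D k j - g o D k y j) := by
    have h3 := (h1.hasSum.add (g_sum o D k y)).tsum_eq
    simp only [sub_add_cancel] at h3
    rw [Eta, Lau, h3, add_sub_cancel_right]
  have h4 : ‖Eta o x D k y - lin o D k y‖ ≤ 6 * (ε * N / c) * ∑' j, b j := by
    rw [h2]; exact tsum_of_norm_bounded hm ht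
  have h5 := lin_le hWalk (o := o) hD hy
  have h6 : ‖Eta o x D k y‖ ≤ ‖Eta o x D k y - lin o D k y‖ + ‖lin o D k y‖ := by
    simpa using norm_add_le (Eta o x D k y - lin o D k y) (lin o D k y)
  have h7 : N ≤ N / c := by
    rw [le_div_iff₀ hc]; nlinarith
  have h8 : 0 ≤ N / c := by positivity
  have e1 : ε * N / c = ε * (N / c) := by ring
  have e2 : (6 * ∑' j, b j + 802) / c * N = (6 * ∑' j, b j + 802) * (N / c) := by ring
  have e3 : (6 * ∑' j, b j + 802) / c * ε * N = (6 * ∑' j, b j + 802) * (ε * (N / c)) := by ring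
  rw [e1] at h4
  rw [e2, e3]
  generalize N / c = M at *
  generalize ∑' j, b j = S at *
  have h9 : 0 ≤ M * S := by positivity
  have h10 : 0 ≤ ε * M := by positivity
  constructor <;> nlinarith

end Pool.Agent.Lib.MP_cd3a7b_ag.Q5
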