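import Pool.Agent.Lib.MP_cd3a7b_ag.Q5.St
import Pool.Agent.Lib.MP_cd3a7b_ag.H30Der

/-! Smooth quintics form a dense open set. -/

namespace Pool.Agent.Lib.MP_cd3a7b_ag.Q5

open MvPolynomial Finset Filter Topology

namespace SmoothAux

theorem eval_sm {F : Pol} {n : ℕ} (hF : F.IsHomogeneous n) (c : ℂ) (v : E) :
    eval (c • v) F = c ^ n * eval v F := by
  rw [← eval_w_alg hF c v]
  congr 2
  funext o
  simp

theorem dense (F₁ : Pol) {δ : ℝ} (hF : F₁.IsHomogeneous 5) (hδ : 0 < δ) :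
    ∃ F₂ : Pol, F₂.IsHomogeneous 5 ∧ (∀ m, ‖coeff m F₂ - coeff m F₁‖ ≤ δ) ∧ Smooth F₂ := by
  classical
  obtain ⟨p, hp⟩ := H30.exists_generic (T := (fun m => coeff m F₁) '' (F₁.support : Set _))
    (F₁.support.finite_toSet.image _) (Fin 5)
  obtain ⟨n, hn⟩ := exists_nat_gt ((∑ i, ‖p i‖) / δ)
  have h0 : (0 : ℝ) < n := lt_of_le_of_lt (by positivity) hn
  have h1 : (n : ℂ) ≠ 0 := by exact_mod_cast h0.ne'
  refine ⟨F₁ + ∑ i, C (p i / n) * X i ^ 5, hF.add (IsHomogeneous.sum _ _ _ fun i _ => ?_),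
    fun m => ?_, fun q hq he => ?_⟩
  · simpa using (isHomogeneous_C _ (p i / n)).mul ((isHomogeneous_X ℂ i).pow 5)
  · rw [coeff_add, add_sub_cancel_left, coeff_sum]
    refine (norm_sum_le _ _).trans ?_
    rw [div_lt_iff₀ hδ, mul_comm, ← div_lt_iff₀ h0, sum_div] at hn
    refine (sum_le_sum fun i _ => ?_).trans hn.le
    rw [coeff_C_mul, coeff_X_pow]
    split_ifs
    · simp
    · simp only [mul_zero, norm_zero]
      positivity
  · by_contra hc
    push Not at hc
    obtain ⟨i, hi⟩ := Function.ne_iff.1 hq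
    obtain ⟨D, hD, hT⟩ := hp (Pi.single i n)
    have h2 := H30.chain D (F := F₁) (fun m => by
      by_cases hm : m ∈ F₁.support
      · exact hT _ ⟨m, hm, rfl⟩
      · simp [notMem_support_iff.1 hm]) q
    replace h2 : D (eval q F₁) = ∑ j, eval q (pderiv j F₁) * D (q j) := h2
    have h3 : ∀ j, D (p j / n * q j ^ 5) =
        (Pi.single i 1 : E) j * q j ^ 5 + p j / n * (5 * q j ^ 4) * D (q j) := fun j => by
      have e1 : D (p j / n) = (Pi.single i 1 : E) j := by
        have e2 : D (p j / n * n) = n * D (p j / n) := by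
          rw [Derivation.leibniz, Derivation.map_natCast]
          simp
        rw [div_mul_cancel₀ _ h1, hD] at e2
        apply mul_left_cancel₀ h1
        rw [← e2]
        by_cases h : j = i <;> simp [h]
      rw [Derivation.leibniz, Derivation.leibniz_pow, e1]
      simp only [smul_eq_mul, nsmul_eq_mul]
      push_cast
      ring
    have h4 : ∀ j, eval q (pderiv j F₁) + p j / n * (5 * q j ^ 4) = 0 := fun j => by
      rw [← hc j, map_add, map_add, map_sum, map_sum, sum_eq_single j]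
      · simp [Derivation.leibniz_pow]
      · intro l _ hl
        simp [Derivation.leibniz_pow, pderiv_X, hl]
      · simp
    have h5 := congrArg D he
    simp only [map_add, map_sum, map_mul, eval_C, map_pow, eval_X, map_zero, h2, h3,
      sum_add_distrib] at h5
    rw [add_left_comm, ← sum_add_distrib] at h5
    simp only [← add_mul, h4, zero_mul, sum_const_zero, add_zero] at h5
    rw [sum_eq_single i (fun l _ hl => by simp [hl]) (by simp)] at h5
    exact hi (by simpa using h5)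

end SmoothAux

open SmoothAux in
theorem stSmooth (_hWalk : StWalk) (hPoly : StPoly) : StSmooth := by
  intro F₁ δ hF hδ
  obtain ⟨C, hC, hb, -⟩ := hPoly
  obtain ⟨F₂, h1, h2, h3⟩ := dense F₁ hF (half_pos hδ)
  have hc : Continuous fun a : E => max ‖eval a F₂‖ ‖grad F₂ a‖ :=
    (differentiable_eval F₂).continuous.norm.max
      (continuous_pi fun i => (differentiable_eval (pderiv i F₂)).continuous).norm
  obtain ⟨a₀, ha₀, hm⟩ := (isCompact_sphere (0 : E) 1).exists_isMinOn
    (NormedSpace.sphere_nonempty.2 zero_le_one) hc.continuousOn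
  obtain ⟨μ, hμ⟩ : ∃ μ, μ = max ‖eval a₀ F₂‖ ‖grad F₂ a₀‖ := ⟨_, rfl⟩
  have h4 : 0 < μ := by
    rw [hμ, lt_max_iff, norm_pos_iff, norm_pos_iff]
    by_cases h : eval a₀ F₂ = 0
    · obtain ⟨i, hi⟩ := h3 a₀ (fun e => by simp [e] at ha₀) h
      exact Or.inr fun e => hi (congrFun e i)
    · exact Or.inl h
  refine ⟨F₂, min (δ / 2) (μ / (2 * C)), h1, by positivity, fun F hF' hn => ⟨fun m => ?_,
    fun q hq he => ?_⟩⟩
  · have := norm_sub_le_norm_sub_add_norm_sub (coeff m F) (coeff m F₂) (coeff m F₁)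
    linarith [h2 m, (hn m).trans_le (min_le_left _ _)]
  · by_contra hg
    push Not at hg
    have h5 : 0 < ‖q‖ := norm_pos_iff.2 hq
    obtain ⟨a, ha⟩ : ∃ a : E, a = ((‖q‖⁻¹ : ℝ) : ℂ) • q := ⟨_, rfl⟩
    have h6 : ‖a‖ = 1 := by
      rw [ha, norm_smul, Complex.norm_real, norm_inv, norm_norm, inv_mul_cancel₀ h5.ne']
    obtain ⟨e1, e2⟩ := hb (F₂ - F) (μ / (2 * C)) a (h1.sub hF') (fun m => by
      rw [coeff_sub, norm_sub_rev]
      exact ((hn m).trans_le (min_le_right _ _)).le) (by rw [h6]; norm_num)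
    have e3 : eval a (F₂ - F) = eval a F₂ := by
      rw [map_sub, ha, eval_sm hF', he, mul_zero, sub_zero]
    have e4 : grad (F₂ - F) a = grad F₂ a := by
      funext i
      simp only [grad]
      rw [map_sub, map_sub, ha, eval_sm hF'.pderiv, hg, mul_zero, sub_zero]
    have e5 : C * (μ / (2 * C)) = μ / 2 := by field_simp
    rw [e3, e5] at e1
    rw [e4, e5] at e2
    have e6 : μ ≤ max ‖eval a F₂‖ ‖grad F₂ a‖ := hμ ▸ hm (mem_sphere_zero_iff_norm.2 h6)
    linarith [e6.trans (max_le e1 e2)]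

end Pool.Agent.Lib.MP_cd3a7b_ag.Q5
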