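import Pool.Agent.Lib.MP_cd3a7b_ag.Q5.St

/-! Solving the linearised equations along a walk. -/

namespace Pool.Agent.Lib.MP_cd3a7b_ag.Q5

open MvPolynomial Finset Filter Topology

namespace SolveAux

noncomputable section

def sb (h i j l : Fin 5) (p : Fin 6 → ℂ) (t t' : ℂ) : E :=
  if h = 3 ∧ i = 0 ∧ j = 2 ∧ l = 1 then
    ![0, p 0, 0, -p 4 + 100 * p 5 + t', -p 0 + p 2 + 100 * t - t']
  else if h = 4 ∧ i = 0 ∧ j = 2 ∧ l = 1 then
    ![0, p 0, 0, -p 4 + 100 * p 5 + t', -p 0 + p 2 - t']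
  else if h = 0 ∧ i = 2 ∧ j = 1 ∧ l = 3 then
    ![p 4 - 100 * p 5, 0, 0, -p 0, 10000 * p 0 - 100 * p 1 + p 2 - p 4 + 100 * p 5 + t']
  else if h = 0 ∧ i = 2 ∧ j = 1 ∧ l = 4 then
    ![p 4 - 100 * p 5 - t', 0, 0, -p 0, 10000 * p 0 - 100 * p 1 + p 2 - p 4 + 100 * p 5 + t']
  else if h = 2 ∧ i = 1 ∧ j = 3 ∧ l = 0 then
    ![p 0, 0, 9999 * p 0 - 100 * p 1 + p 2 + 100 * t - t', 0, -p 4 + 100 * p 5 + t']
  else if h = 2 ∧ i = 1 ∧ j = 4 ∧ l = 0 then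
    ![p 0, 0, -p 4 + 100 * p 5 + t', 9999 * p 0 - 100 * p 1 + p 2 + 100 * t - t', 0]
  else if h = 1 ∧ i = 3 ∧ j = 0 ∧ l = 2 then
    ![0, p 4 - t', 10000 * p 0 - 100 * p 1 + p 2 - p 4 + 100 * t + t', 0, -p 0]
  else
    ![0, p 4, -p 0, 10000 * p 0 - 100 * p 1 + p 2 - p 4 + 100 * t + t', 0]

def sb' (h i j l : Fin 5) (p : Fin 6 → ℂ) (t t' : ℂ) : E :=
  if h = 3 ∧ i = 0 ∧ j = 2 ∧ l = 1 then
    ![0, p 1, 0, -p 5, -p 1 + p 3 - 100 * p 4 + 10000 * p 5 + t + 100 * t']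
  else if h = 4 ∧ i = 0 ∧ j = 2 ∧ l = 1 then
    ![0, p 1 - t, 0, -p 5, -p 1 + p 3 - 100 * p 4 + 10000 * p 5 + t + 100 * t']
  else if h = 0 ∧ i = 2 ∧ j = 1 ∧ l = 3 then
    ![p 5, 0, 0, 100 * p 0 - p 1 + t, p 3 - 100 * p 4 + 9999 * p 5 - t + 100 * t']
  else if h = 0 ∧ i = 2 ∧ j = 1 ∧ l = 4 then
    ![p 5, 0, 0, 100 * p 0 - p 1 + t, p 3 - 100 * p 4 + 9999 * p 5 - t + 100 * t']
  else if h = 2 ∧ i = 1 ∧ j = 3 ∧ l = 0 then
    ![-100 * p 0 + p 1 - t, 0, 100 * p 0 - p 1 + p 3 - 100 * p 4 + 10000 * p 5 + t, 0, -p 5]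
  else if h = 2 ∧ i = 1 ∧ j = 4 ∧ l = 0 then
    ![-100 * p 0 + p 1, 0, -p 5, 100 * p 0 - p 1 + p 3 - 100 * p 4 + 10000 * p 5 + t, 0]
  else if h = 1 ∧ i = 3 ∧ j = 0 ∧ l = 2 then
    ![0, p 5, p 3 - p 5 - t, 0, 100 * p 0 - p 1 + t]
  else
    ![0, p 5, 100 * p 0 - p 1 + t, p 3 - p 5 - t + 100 * t', 0]

def la (h i j : Fin 5) : Fin 6 → ℤ :=
  if h = 3 ∧ i = 0 ∧ j = 2 then ![100, -1, 0, 0, 0, 0]
  else if h = 4 ∧ i = 0 ∧ j = 2 then ![0, 0, 0, -1, 0, 0]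
  else if h = 0 ∧ i = 2 ∧ j = 1 then ![0, 1, 0, -1, 100, 0]
  else if h = 2 ∧ i = 1 ∧ j = 3 then ![0, 0, 0, -1, 100, 0]
  else if h = 2 ∧ i = 1 ∧ j = 4 then ![100, -1, 0, 0, 0, 0]
  else if h = 1 ∧ i = 3 ∧ j = 0 then ![100, -1, 0, 1, -100, 0]
  else ![100, -1, 0, 1, -100, 0]

def lb (h i j : Fin 5) : Fin 6 → ℤ :=
  if h = 3 ∧ i = 0 ∧ j = 2 then ![1, 0, -1, 0, 0, 0]
  else if h = 4 ∧ i = 0 ∧ j = 2 then ![1, 0, 0, 0, -1, 100]
  else if h = 0 ∧ i = 2 ∧ j = 1 then ![0, -100, 1, 0, -1, 100]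
  else if h = 2 ∧ i = 1 ∧ j = 3 then ![-9999, 0, 0, 0, -1, 100]
  else if h = 2 ∧ i = 1 ∧ j = 4 then ![-9999, 100, -1, 0, 0, 0]
  else if h = 1 ∧ i = 3 ∧ j = 0 then ![0, 100, -1, 0, 1, 0]
  else ![0, 100, -1, 0, 1, 0]

def lm (h i j : Fin 5) (p q : Fin 6 → ℂ) : ℂ :=
  ∑ r, (la h i j r : ℂ) * p r + ∑ r, (lb h i j r : ℂ) * q r

def glue (j : Fin 5) (a b : E) : E := fun m => if m = j then a m else b m

end

theorem la_le : ∀ h i j r, |la h i j r| ≤ 10000 ∧ |lb h i j r| ≤ 10000 := by decide +kernel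

theorem comb {a : Fin 6 → ℂ} {M : ℝ} (h : ∀ r, ‖a r‖ ≤ M) (c : Fin 6 → ℤ)
    (hc : ∀ r, |c r| ≤ 10000) : ‖∑ r, (c r : ℂ) * a r‖ ≤ 60000 * M := by
  calc ‖∑ r, (c r : ℂ) * a r‖ ≤ ∑ r, ‖(c r : ℂ) * a r‖ := norm_sum_le _ _
    _ ≤ ∑ _r : Fin 6, 10000 * M := Finset.sum_le_sum fun r _ => by
      rw [norm_mul, Complex.norm_intCast]
      exact mul_le_mul (by exact_mod_cast hc r) (h r) (norm_nonneg _) (by norm_num)
    _ = 60000 * M := by simp; ring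

theorem lm_le (h i j : Fin 5) {p q : Fin 6 → ℂ} {M : ℝ} (hp : ∀ r, ‖p r‖ ≤ M)
    (hq : ∀ r, ‖q r‖ ≤ M) : ‖lm h i j p q‖ ≤ 120000 * M :=
  (norm_add_le _ _).trans (by
    linarith [comb hp _ fun r => (la_le h i j r).1, comb hq _ fun r => (la_le h i j r).2])

/-- The line before a corner is solved by the glued vectors. -/
def Ok (g h i j l : Fin 5) (a c : ℂ) : Prop :=
  ∀ (p q : Fin 6 → ℂ) (t0 t1 t2 : ℂ) (z : E), p 5 = q 0 →
    100 * t1 + a * t0 + c * t2 = lm h i j p q →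
    Lp g h i j (glue i z (sb g h i j p t0 t1)) (glue j (sb' g h i j p t0 t1) (sb h i j l q t1 t2))
      t0 t1 = p

theorem ok0 : Ok 1 3 0 2 1 (-1) (-1) := fun p q t0 t1 t2 z h1 h2 => by
  simp [lm, la, lb, Fin.sum_univ_succ] at h2
  funext r
  fin_cases r <;> simp [Lp, gc, dot, glue, sb, sb', Fin.sum_univ_succ] <;>
    first | ring1 | linear_combination h1 | linear_combination -h1 | grind

theorem ok1 : Ok 1 4 0 2 1 (-1) (-1) := fun p q t0 t1 t2 z h1 h2 => by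
  simp [lm, la, lb, Fin.sum_univ_succ] at h2
  funext r
  fin_cases r <;> simp [Lp, gc, dot, glue, sb, sb', Fin.sum_univ_succ] <;>
    first | ring1 | linear_combination h1 | linear_combination -h1 | grind

theorem ok2 : Ok 3 0 2 1 3 (1) (-1) := fun p q t0 t1 t2 z h1 h2 => by
  simp [lm, la, lb, Fin.sum_univ_succ] at h2
  funext r
  fin_cases r <;> simp [Lp, gc, dot, glue, sb, sb', Fin.sum_univ_succ] <;>
    first | ring1 | linear_combination h1 | linear_combination -h1 | grind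

theorem ok3 : Ok 3 0 2 1 4 (1) (-1) := fun p q t0 t1 t2 z h1 h2 => by
  simp [lm, la, lb, Fin.sum_univ_succ] at h2
  funext r
  fin_cases r <;> simp [Lp, gc, dot, glue, sb, sb', Fin.sum_univ_succ] <;>
    first | ring1 | linear_combination h1 | linear_combination -h1 | grind

theorem ok4 : Ok 4 0 2 1 3 (1) (-1) := fun p q t0 t1 t2 z h1 h2 => by
  simp [lm, la, lb, Fin.sum_univ_succ] at h2
  funext r
  fin_cases r <;> simp [Lp, gc, dot, glue, sb, sb', Fin.sum_univ_succ] <;>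
    first | ring1 | linear_combination h1 | linear_combination -h1 | grind

theorem ok5 : Ok 4 0 2 1 4 (1) (-1) := fun p q t0 t1 t2 z h1 h2 => by
  simp [lm, la, lb, Fin.sum_univ_succ] at h2
  funext r
  fin_cases r <;> simp [Lp, gc, dot, glue, sb, sb', Fin.sum_univ_succ] <;>
    first | ring1 | linear_combination h1 | linear_combination -h1 | grind

theorem ok6 : Ok 0 2 1 3 0 (-1) (-1) := fun p q t0 t1 t2 z h1 h2 => by
  simp [lm, la, lb, Fin.sum_univ_succ] at h2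
  funext r
  fin_cases r <;> simp [Lp, gc, dot, glue, sb, sb', Fin.sum_univ_succ] <;>
    first | ring1 | linear_combination h1 | linear_combination -h1 | grind

theorem ok7 : Ok 0 2 1 4 0 (-1) (-1) := fun p q t0 t1 t2 z h1 h2 => by
  simp [lm, la, lb, Fin.sum_univ_succ] at h2
  funext r
  fin_cases r <;> simp [Lp, gc, dot, glue, sb, sb', Fin.sum_univ_succ] <;>
    first | ring1 | linear_combination h1 | linear_combination -h1 | grind

theorem ok8 : Ok 2 1 3 0 2 (-1) (1) := fun p q t0 t1 t2 z h1 h2 => by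
  simp [lm, la, lb, Fin.sum_univ_succ] at h2
  funext r
  fin_cases r <;> simp [Lp, gc, dot, glue, sb, sb', Fin.sum_univ_succ] <;>
    first | ring1 | linear_combination h1 | linear_combination -h1 | grind

theorem ok9 : Ok 2 1 4 0 2 (-1) (1) := fun p q t0 t1 t2 z h1 h2 => by
  simp [lm, la, lb, Fin.sum_univ_succ] at h2
  funext r
  fin_cases r <;> simp [Lp, gc, dot, glue, sb, sb', Fin.sum_univ_succ] <;>
    first | ring1 | linear_combination h1 | linear_combination -h1 | grind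

theorem ok (hWalk : StWalk) (o : Om) (k : ℤ) :
    Ok (w o (k - 2)) (w o (k - 1)) (w o k) (w o (k + 1)) (w o (k + 2)) (ja k) (jc k) := by
  obtain ⟨a, a', ha, ha', g | g | g | g⟩ := hWalk.cases o k <;>
    obtain ⟨g0, g1, g2, g3, g4, g5⟩ := g <;> rw [g1, g2, g3, g4, g5] <;> simp only [ja, jc, g0]
  · rcases ha with rfl | rfl
    exacts [ok0, ok1]
  · rcases ha with rfl | rfl <;> rcases ha' with rfl | rfl
    exacts [ok2, ok3, ok4, ok5]
  · rcases ha with rfl | rfl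
    exacts [ok6, ok7]
  · rcases ha with rfl | rfl
    exacts [ok8, ok9]

theorem sb_self (hWalk : StWalk) (o : Om) (k : ℤ) (p : Fin 6 → ℂ) (t t' : ℂ) :
    sb (w o (k - 1)) (w o k) (w o (k + 1)) (w o (k + 2)) p t t' (w o k) = 0 := by
  obtain ⟨a, a', ha, ha', g | g | g | g⟩ := hWalk.cases o k <;>
    obtain ⟨g0, g1, g2, g3, g4, g5⟩ := g <;> rw [g2, g3, g4, g5] <;>
    rcases ha with rfl | rfl <;> rcases ha' with rfl | rfl <;> simp [sb]

theorem nja (k : ℤ) : ‖ja k‖ = 1 ∧ ‖jc k‖ = 1 := by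
  unfold ja jc
  constructor <;> split_ifs <;> simp

theorem sup_le {t : ℤ → ℂ} {B M : ℝ} (hB : ∀ k, ‖t k‖ ≤ B) (h : ∀ k, ‖J t k‖ ≤ M) (k : ℤ) :
    ‖t k‖ ≤ M := by
  have hb : BddAbove (Set.range fun k => ‖t k‖) := ⟨B, by rintro _ ⟨k, rfl⟩; exact hB k⟩
  have h1 : ∀ k, ‖t k‖ ≤ ⨆ k, ‖t k‖ := fun k => le_ciSup hb k
  have h2 : ⨆ k, ‖t k‖ ≤ (M + 2 * ⨆ k, ‖t k‖) / 100 := ciSup_le fun k => by
    have e : 100 * t k = J t k - ja k * t (k - 1) - jc k * t (k + 1) := by simp only [J]; ring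
    have h3 : ‖100 * t k‖ ≤ ‖J t k‖ + ‖ja k * t (k - 1)‖ + ‖jc k * t (k + 1)‖ := by
      rw [e]
      exact (norm_sub_le _ _).trans (add_le_add_left (norm_sub_le _ _) _)
    rw [norm_mul, norm_mul, norm_mul, (nja k).1, (nja k).2, Complex.norm_ofNat] at h3
    linarith [h k, h1 (k - 1), h1 (k + 1)]
  have h4 : 0 ≤ M := (norm_nonneg _).trans (h 0)
  linarith [h1 k]

theorem small (hLA : StLA) : ∃ C : ℝ, 1 ≤ C ∧ ∀ (o : Om) (x : St) (B M : ℝ),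
    (∀ k, (x k).1 (w o k) = 0) → (∀ k, ‖(x k).2‖ ≤ B) →
    (∀ k (r : Fin 5), ‖L o x k r.castSucc‖ ≤ M) → Small x (C * M) := by
  obtain ⟨A, hA, h1⟩ := hLA.jac
  obtain ⟨A', hA', h2⟩ := hLA.bb
  refine ⟨A' * (3 * A + 1), by nlinarith, fun o x B M h3 h4 h5 k => ?_⟩
  have hM : 0 ≤ M := (norm_nonneg _).trans (h5 0 0)
  have h6 : ∀ k r, ‖L o x k r‖ ≤ M := fun k r => by
    refine Fin.lastCases ?_ (fun r => h5 k r) r
    have := (hLA.top o x k).1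
    exact (congrArg norm this).trans_le (h5 (k + 1) 0)
  have h7 : ∀ k, ‖ta x k‖ ≤ A * M := sup_le h4 fun k => by
    simpa using h1 o x k 0 M (by simpa using h6 _) (by simpa using h6 _)
  have h8 := h2 o x k M (h3 k) (h6 _) (h6 _)
  have h9 : ‖(x (k - 1)).2‖ + ‖(x k).2‖ + ‖(x (k + 1)).2‖ + M ≤ (3 * A + 1) * M := by
    have a1 := h7 (k - 1)
    have a2 := h7 k
    have a3 := h7 (k + 1)
    simp only [ta] at a1 a2 a3
    linarith
  refine max_le (h8.trans ?_) ((h7 k).trans ?_)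
  · rw [mul_assoc]
    exact mul_le_mul_of_nonneg_left h9 (by linarith)
  · exact mul_le_mul_of_nonneg_right (by nlinarith) hM

theorem exists_sol (hWalk : StWalk) (hFix : StFix) (o : Om) (ρ : ℤ → Fin 5 → ℂ) (M : ℝ)
    (h : ∀ k r, ‖ρ k r‖ ≤ M) : ∃ x : St, (∀ k, (x k).1 (w o k) = 0) ∧
      (∃ B, ∀ k, ‖(x k).2‖ ≤ B) ∧ ∀ k (r : Fin 5), L o x k r.castSucc = ρ k r := by
  have hM : 0 ≤ M := (norm_nonneg _).trans (h 0 0)
  let p : ℤ → Fin 6 → ℂ := fun k => ![ρ k 0, ρ k 1, ρ k 2, ρ k 3, ρ k 4, ρ (k + 1) 0]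
  have hp : ∀ k r, ‖p k r‖ ≤ M := fun k r => by fin_cases r <;> exact h _ _
  let m : ℤ → ℂ := fun k => lm (w o (k - 1)) (w o k) (w o (k + 1)) (p (k - 1)) (p k)
  have hm : ∀ k, ‖m k‖ ≤ 120000 * M := fun k => lm_le _ _ _ (hp _) (hp _)
  have key : ∀ (k : ℤ) (a b c : ℂ), ‖(a - ja k * b - jc k * c) / 100‖ ≤ (‖a‖ + ‖b‖ + ‖c‖) / 100 :=
    fun k a b c => by
      rw [norm_div, Complex.norm_ofNat]
      refine div_le_div_of_nonneg_right ((norm_sub_le _ _).trans ((add_le_add_left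
        (norm_sub_le _ _) _).trans ?_)) (by norm_num)
      rw [norm_mul, norm_mul, (nja k).1, (nja k).2, one_mul, one_mul]
  obtain ⟨t, ht, hf⟩ := hFix (fun (t : ℤ → ℂ) k => (m k - ja k * t (k - 1) - jc k * t (k + 1)) / 100)
    (120000 * M) (by positivity) (fun t ht k => (key k _ _ _).trans (by
      linarith [hm k, ht (k - 1), ht (k + 1)])) fun t t' N _ _ hN k => by
      have e : (m k - ja k * t (k - 1) - jc k * t (k + 1)) / 100 -
          (m k - ja k * t' (k - 1) - jc k * t' (k + 1)) / 100 =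
          (0 - ja k * (t (k - 1) - t' (k - 1)) - jc k * (t (k + 1) - t' (k + 1))) / 100 := by ring
      rw [e]
      refine (key k _ _ _).trans ?_
      have := (norm_nonneg _).trans (hN 0)
      rw [norm_zero]
      linarith [hN (k - 1), hN (k + 1)]
  let b : ℤ → E := fun k => glue (w o (k + 1))
    (sb' (w o (k - 2)) (w o (k - 1)) (w o k) (w o (k + 1)) (p (k - 1)) (t (k - 1)) (t k))
    (sb (w o (k - 1)) (w o k) (w o (k + 1)) (w o (k + 2)) (p k) (t k) (t (k + 1)))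
  refine ⟨fun k => (b k, t k), fun k => ?_, ⟨_, ht⟩, fun k r => ?_⟩
  · simp only [b, glue, if_neg (hWalk.ne o k).1.symm]
    exact sb_self hWalk o k _ _ _
  · have e1 : k + 1 - 2 = k - 1 := by ring
    have e2 : k + 1 - 1 = k := by ring
    have e3 : k + 1 + 1 = k + 2 := by ring
    have h1 := congrFun hf (k + 1)
    have h2 := ok hWalk o (k + 1)
    simp only [m, e2, e3] at h1
    rw [e1, e2, e3] at h2
    have h3 := h2 (p k) (p (k + 1)) (t k) (t (k + 1)) (t (k + 2))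
      (sb' (w o (k - 2)) (w o (k - 1)) (w o k) (w o (k + 1)) (p (k - 1)) (t (k - 1)) (t k)) rfl
      (by linear_combination (-100) * h1)
    have h4 : L o (fun k => (b k, t k)) k = p k := by
      simp only [L, b, e1, e2, e3]
      exact h3
    rw [h4]
    fin_cases r <;> rfl

end SolveAux

open SolveAux in
theorem stSolve (hWalk : StWalk) (hLA : StLA) (hFix : StFix) : StSolve := by
  classical
  obtain ⟨C, hC, h1⟩ := small hLA
  refine ⟨C, hC, fun o => ?_⟩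
  let P : (ℤ → Fin 5 → ℂ) → St → Prop := fun ρ x => (∀ k, (x k).1 (w o k) = 0) ∧
      (∃ B, ∀ k, ‖(x k).2‖ ≤ B) ∧ ∀ k (r : Fin 5), L o x k r.castSucc = ρ k r
  have h2 : ∀ ρ (M : ℝ), (∀ k r, ‖ρ k r‖ ≤ M) → P ρ (Classical.epsilon (P ρ)) := fun ρ M h =>
    Classical.epsilon_spec (exists_sol hWalk hFix o ρ M h)
  refine ⟨fun ρ => Classical.epsilon (P ρ), fun ρ M h => ?_, fun ρ ρ' M B h h' hM => ?_⟩
  · obtain ⟨a1, ⟨B, a2⟩, a3⟩ := h2 ρ M h
    exact ⟨a1, h1 o _ B M a1 a2 fun k r => (a3 k r).symm ▸ h k r, a3⟩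
  · obtain ⟨a1, ⟨A, a2⟩, a3⟩ := h2 ρ B h
    obtain ⟨b1, ⟨A', b2⟩, b3⟩ := h2 ρ' B h'
    refine h1 o _ (A + A') M (fun k => by simp [a1 k, b1 k])
      (fun k => (norm_sub_le _ _).trans (add_le_add (a2 k) (b2 k))) fun k r => ?_
    rw [hLA.sub, Pi.sub_apply, a3, b3]
    exact hM k r

end Pool.Agent.Lib.MP_cd3a7b_ag.Q5
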