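import Pool.Agent.Lib.MP_cd3a7b_ag.Q5.St

/-! Limits of displacements from a curve to a cone of small dimension lie in finitely many
classes. -/

namespace Pool.Agent.Lib.MP_cd3a7b_ag.Q5

open MvPolynomial Finset Filter Topology Asymptotics

namespace TLAux

theorem frame {v₀ v₁ ψ : E} (hψ : ψ ≠ 0) (h0 : dot ψ v₀ = 0) (h1 : dot ψ v₁ = 0)
    (hli : LinearIndependent ℂ ![v₀, v₁]) : ∃ g : Fin 4 → E →L[ℂ] ℂ,
      (∀ i, g i v₀ = if i = 2 then 1 else 0) ∧ (∀ i, g i v₁ = if i = 3 then 1 else 0) ∧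
      ∀ η, dot ψ η = 0 → g 0 η = 0 → g 1 η = 0 → ∃ α β : ℂ, η = α • v₀ + β • v₁ := by
  let f : Module.Dual ℂ E :=
    { toFun := dot ψ
      map_add' := fun x y => by simp [dot, mul_add, sum_add_distrib]
      map_smul' := fun c x => by simp [dot, mul_sum, mul_left_comm] }
  have hf : f ≠ 0 := fun h => hψ (funext fun i => by
    simpa [f, dot, Pi.single_apply] using LinearMap.congr_fun h (Pi.single i 1))
  have hk := Module.Dual.finrank_ker_add_one_of_ne_zero hf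
  rw [Module.finrank_fintype_fun_eq_card, Fintype.card_fin] at hk
  have l2 : LinearIndependent ℂ ![(⟨v₀, h0⟩ : LinearMap.ker f), ⟨v₁, h1⟩] := by
    refine LinearIndependent.of_comp (LinearMap.ker f).subtype ?_
    convert hli using 1
    funext i
    fin_cases i <;> rfl
  obtain ⟨q₁, l3⟩ := exists_linearIndependent_cons_of_lt_finrank l2 (by omega)
  obtain ⟨q₀, l4⟩ := exists_linearIndependent_cons_of_lt_finrank l3 (by omega)
  let b := basisOfLinearIndependentOfCardEqFinrank l4 (by rw [Fintype.card_fin]; omega)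
  have b2 : b 2 = ⟨v₀, h0⟩ := by simp [b]
  have b3 : b 3 = ⟨v₁, h1⟩ := by simp [b]
  choose g hg using fun i => LinearMap.exists_extend (b.coord i)
  have hg' : ∀ i (x : LinearMap.ker f), g i x = b.repr x i := fun i x =>
    LinearMap.congr_fun (hg i) x
  refine ⟨fun i => (g i).toContinuousLinearMap, fun i => ?_, fun i => ?_, fun η hη e0 e1 => ?_⟩
  · have := hg' i (b 2)
    rw [b.repr_self, b2, Finsupp.single_apply] at this
    exact this.trans (if_congr eq_comm rfl rfl)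
  · have := hg' i (b 3)
    rw [b.repr_self, b3, Finsupp.single_apply] at this
    exact this.trans (if_congr eq_comm rfl rfl)
  · have h := b.sum_repr ⟨η, hη⟩
    rw [Fin.sum_univ_four, ← hg' 0, ← hg' 1, show g 0 _ = 0 from e0, show g 1 _ = 0 from e1,
      zero_smul, zero_smul, zero_add, zero_add, b2, b3] at h
    exact ⟨_, _, (congrArg Subtype.val h).symm⟩

theorem lin_pol (f : E →L[ℂ] ℂ) : ∃ A : Pol, ∀ x, eval x A = f x :=
  ⟨∑ i, C (f (Pi.single i 1)) * X i, fun x => by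
    conv_rhs => rw [pi_eq_sum_univ' x]
    simp [map_sum, mul_comm]⟩

/-- the affine defect of a point from the approximating curve -/
noncomputable def ww (l₀ l₁ m : E →L[ℂ] ℂ) (p : Polynomial ℂ) (x : E) : ℂ :=
  m x / l₀ x - p.eval (l₁ x / l₀ x)

theorem ww_smul (l₀ l₁ m : E →L[ℂ] ℂ) (p : Polynomial ℂ) (x : E) {c : ℂ} (hc : c ≠ 0) :
    ww l₀ l₁ m p (c • x) = ww l₀ l₁ m p x := by
  simp only [ww, map_smul, smul_eq_mul, mul_div_mul_left _ _ hc]

theorem ww_pol (l₀ l₁ m : E →L[ℂ] ℂ) {p : Polynomial ℂ} {M : ℕ} (hp : p.natDegree ≤ M + 1) :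
    ∃ W : Pol, ∀ x, l₀ x ≠ 0 → eval x W = l₀ x ^ (M + 1) * ww l₀ l₁ m p x := by
  obtain ⟨A₀, h₀⟩ := lin_pol l₀
  obtain ⟨A₁, h₁⟩ := lin_pol l₁
  obtain ⟨B, hB⟩ := lin_pol m
  refine ⟨A₀ ^ M * B - ∑ j ∈ range (M + 2), C (p.coeff j) * A₁ ^ j * A₀ ^ (M + 1 - j),
    fun x hx => ?_⟩
  rw [ww, Polynomial.eval_eq_sum_range' (n := M + 2) (by omega), mul_sub, mul_sum]
  simp only [map_sub, map_mul, map_pow, map_sum, eval_C, h₀, h₁, hB]
  congr 1
  · field_simp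
    ring
  · refine sum_congr rfl fun j hj => ?_
    obtain ⟨k, hk⟩ := Nat.exists_eq_add_of_le (show j ≤ M + 1 by have := mem_range.1 hj; omega)
    rw [hk, Nat.add_sub_cancel_left, pow_add, div_pow]
    field_simp

theorem ww_der {l₀ l₁ m : E →L[ℂ] ℂ} {p : Polynomial ℂ} {x : E} (h0 : l₀ x = 1) (h1 : l₁ x = 0)
    (hm : m x = 0) (hp : p.coeff 1 = 0) : HasStrictFDerivAt (ww l₀ l₁ m p) m x := by
  have i0 := (hasStrictDerivAt_inv (h0 ▸ one_ne_zero : l₀ x ≠ 0)).comp_hasStrictFDerivAt x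
    l₀.hasStrictFDerivAt
  have i1 := (p.hasStrictDerivAt (l₁ x * (l₀ x)⁻¹)).comp_hasStrictFDerivAt x
    ((l₁.hasStrictFDerivAt (x := x)).mul i0)
  have i2 := ((m.hasStrictFDerivAt (x := x)).mul i0).sub i1
  refine (i2.congr_fderiv ?_).congr_of_eventuallyEq (Eventually.of_forall fun y => ?_)
  · ext1 y
    simp [h0, h1, hm, ← Polynomial.coeff_zero_eq_eval_zero, Polynomial.coeff_derivative, hp]
  · simp [ww, div_eq_mul_inv]

section

variable {l : Filter ℕ} {s : ℕ → ℝ} {x y : ℕ → E} {η x₀ : E}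

theorem tend_x (hs : Tendsto s l (𝓝 0)) (hs0 : ∀ n, 0 < s n) (hy : Tendsto y l (𝓝 x₀))
    (h : Tendsto (fun n => ((s n : ℂ))⁻¹ • (x n - y n)) l (𝓝 η)) : Tendsto x l (𝓝 x₀) := by
  have h1 : Tendsto (fun n => (s n : ℂ)) l (𝓝 0) := (Complex.continuous_ofReal.tendsto 0).comp hs
  have h2 := hy.add (h1.smul h)
  rw [zero_smul, add_zero] at h2
  refine h2.congr fun n => ?_
  rw [smul_inv_smul₀ (Complex.ofReal_ne_zero.2 (hs0 n).ne'), add_sub_cancel]

theorem small {u : ℕ → ℂ} (h : u =o[l] fun n => (s n : ℂ)) :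
    Tendsto (fun n => ((s n : ℂ))⁻¹ * u n) l (𝓝 0) := by
  simpa only [div_eq_inv_mul] using h.tendsto_div_nhds_zero

theorem big {F : Type} [NormedAddCommGroup F] [NormedSpace ℂ F] {u : ℕ → F} {c : F}
    (hs0 : ∀ n, 0 < s n) (h : Tendsto (fun n => ((s n : ℂ))⁻¹ • u n) l (𝓝 c)) :
    u =O[l] fun n => (s n : ℂ) := by
  have h1 := (isBigO_refl (fun n => (s n : ℂ)) l).smul (h.isBigO_one ℂ)
  refine h1.congr (fun n => ?_) fun n => ?_
  · exact smul_inv_smul₀ (Complex.ofReal_ne_zero.2 (hs0 n).ne') _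
  · simp

theorem quot {w : E → ℂ} {f : E →L[ℂ] ℂ} (hw : HasStrictFDerivAt w f x₀)
    (hs : Tendsto s l (𝓝 0)) (hs0 : ∀ n, 0 < s n) (hy : Tendsto y l (𝓝 x₀))
    (h : Tendsto (fun n => ((s n : ℂ))⁻¹ • (x n - y n)) l (𝓝 η)) :
    Tendsto (fun n => ((s n : ℂ))⁻¹ * (w (x n) - w (y n))) l (𝓝 (f η)) := by
  have h1 := (hw.isLittleO.comp_tendsto ((tend_x hs hs0 hy h).prodMk_nhds hy)).trans_isBigO
    (big hs0 h)
  have h2 := (small h1).add ((f.continuous.tendsto η).comp h)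
  rw [zero_add] at h2
  refine h2.congr fun n => ?_
  simp only [Function.comp, map_smul, smul_eq_mul]
  ring

end

theorem plane (P : MvPolynomial (Fin 3) ℂ) (hP : P ≠ 0) (k : ℕ) :
    ∃ (c : ℂ) (Q : MvPolynomial (Fin 2) ℂ), c ≠ 0 ∧ Q ≠ 0 ∧
      ∀ t, eval t Q = eval ![c, c ^ k * t 0, c ^ k * t 1] P := by
  obtain ⟨y, hy⟩ : ∃ y, eval y (X 0 * P) ≠ 0 := by
    by_contra h
    exact mul_ne_zero (X_ne_zero 0) hP (MvPolynomial.funext fun y => by
      rw [map_zero]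
      exact not_not.1 fun h' => h ⟨y, h'⟩)
  rw [map_mul, eval_X, mul_ne_zero_iff] at hy
  have he : ∀ t : Fin 2 → ℂ, eval t (bind₁ ![C (y 0), C (y 0 ^ k) * X 0, C (y 0 ^ k) * X 1] P) =
      eval ![y 0, y 0 ^ k * t 0, y 0 ^ k * t 1] P := fun t => by
    rw [← coe_aeval_eq_eval, ← coe_aeval_eq_eval]
    change aeval t _ = aeval _ P
    rw [aeval_bind₁]
    congr 2
    funext i
    fin_cases i <;> simp
  refine ⟨y 0, _, hy.1, fun h => hy.2 ?_, he⟩
  have h1 := he ![y 1 / y 0 ^ k, y 2 / y 0 ^ k]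
  rw [h, map_zero] at h1
  rw [h1]
  congr 2
  funext i
  have := pow_ne_zero k hy.1
  fin_cases i <;> simp <;> field_simp

theorem prop2 {q₁ q₂ a₂ a₃ b₂ b₃ : ℂ} (hq : (q₁, q₂) ≠ (0, 0)) (ha : q₁ * a₂ + q₂ * a₃ = 0)
    (hb : q₁ * b₂ + q₂ * b₃ = 0) :
    ∃ α β : ℂ, (α ≠ 0 ∨ β ≠ 0) ∧ α * a₂ + β * b₂ = 0 ∧ α * a₃ + β * b₃ = 0 := by
  have hd : a₂ * b₃ - a₃ * b₂ = 0 := by
    by_contra h
    refine hq (Prod.ext (mul_right_cancel₀ h ?_) (mul_right_cancel₀ h ?_))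
    · linear_combination b₃ * ha - a₃ * hb
    · linear_combination a₂ * hb - b₂ * ha
  by_cases h2 : a₂ = 0
  · by_cases h3 : a₃ = 0
    · exact ⟨1, 0, Or.inl one_ne_zero, by simp [h2], by simp [h3]⟩
    · exact ⟨-b₃, a₃, Or.inr h3, by linear_combination -hd, by ring⟩
  · exact ⟨-b₂, a₂, Or.inr h2, by ring, by linear_combination hd⟩

theorem quo_an {v : ℂ → E} {a : ℂ} (hv : AnalyticAt ℂ v a) (l₀ m : E →L[ℂ] ℂ) (h0 : l₀ (v a) = 1)
    (hm : m (v a) = 0) : AnalyticAt ℂ (fun z => m (v z) / l₀ (v z)) a ∧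
      deriv (fun z => m (v z) / l₀ (v z)) a = m (deriv v a) := by
  have h1 : l₀ (v a) ≠ 0 := h0 ▸ one_ne_zero
  refine ⟨((m.analyticAt _).comp hv).div ((l₀.analyticAt _).comp hv) h1, ?_⟩
  have d := hv.differentiableAt.hasDerivAt
  have h2 := ((m.hasFDerivAt.comp_hasDerivAt a d).div (l₀.hasFDerivAt.comp_hasDerivAt a d) h1).deriv
  refine h2.trans ?_
  simp [h0, hm]

end TLAux

open TLAux

theorem stTL (hLow : StLow) (hApp : StApp) : StTL := by
  intro Z v a μ ψ G hc hd hv hG hne hμ hψ h0 h1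
  by_cases hli : LinearIndependent ℂ ![v a, deriv v a]
  swap
  · refine ⟨fun _ => 0, Set.finite_range_const, fun η η' _ _ _ _ _ h => hli ?_⟩
    refine LinearIndependent.pair_iff.2 fun s t e => ?_
    have := Fintype.linearIndependent_iff.1 h ![s, t / μ, 0, 0] (by
      simpa [Fin.sum_univ_four, smul_smul, hμ] using e)
    exact ⟨this 0, by simpa [hμ] using this 1⟩
  obtain ⟨g, g0, g1, hg⟩ := frame hψ h0 h1 hli
  have aG : ∀ x, AnalyticAt ℂ (fun x : E => eval x G) x := fun x =>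
    AnalyticOnNhd.eval_mvPolynomial G x trivial
  obtain ⟨M, k, hk, hk0, hke⟩ :=
    ((aG _).comp hv).exists_eventuallyEq_pow_smul_nonzero_iff.2 hne
  have hO : (fun z => (z - a) ^ M) =O[𝓝 a] fun z => eval (v z) G := by
    have e1 := ((hk.continuousAt.inv₀ hk0).tendsto.isBigO_one ℂ).mul
      (isBigO_refl (fun z => eval (v z) G) (𝓝 a))
    refine e1.congr' ?_ (Eventually.of_forall fun z => one_mul _)
    filter_upwards [hke, hk.continuousAt.eventually_ne hk0] with z e2 e3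
    rw [show eval (v z) G = _ from e2, smul_eq_mul, Pi.inv_apply]
    field_simp
  have e2 : g 2 (v a) = 1 := by simp [g0]
  obtain ⟨σ1, σ2⟩ := quo_an hv (g 2) (g 3) e2 (by simp [g0])
  have hp : ∀ i, i = 0 ∨ i = 1 → ∃ p : Polynomial ℂ, p.natDegree ≤ M + 1 ∧
      ∀ (l : Filter ℕ) (z : ℕ → ℂ) (s : ℕ → ℝ) (x : ℕ → E) (η : E), Tendsto z l (𝓝 a) →
        Tendsto s l (𝓝 0) → (∀ n, 0 < s n) → (∀ᶠ n in l, x n ∈ Z) →
        Tendsto (fun n => ((s n : ℂ))⁻¹ • (x n - v (z n))) l (𝓝 η) →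
        Tendsto (fun n => ((s n : ℂ))⁻¹ * ww (g 2) (g 3) (g i) p (x n)) l (𝓝 (g i η)) := by
    intro i hi
    have f0 : g i (v a) = 0 := by rcases hi with rfl | rfl <;> simp [g0]
    have f1 : g i (deriv v a) = 0 := by rcases hi with rfl | rfl <;> simp [g1]
    obtain ⟨φ1, φ2⟩ := quo_an hv (g 2) (g i) e2 f0
    obtain ⟨p, -, p1, p2, p3⟩ := hApp _ _ a φ1 σ1 (by simp [g0]) (by simp [σ2, g1]) (by simp [f0])
      (φ2.trans f1) M
    refine ⟨p, p2, fun l z s x η hz hs hs0 hx h => ?_⟩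
    have hy : Tendsto (fun n => v (z n)) l (𝓝 (v a)) := hv.continuousAt.tendsto.comp hz
    have q1 := quot (ww_der e2 (show g 3 (v a) = 0 by simp [g0]) f0 p1) hs hs0 hy h
    have q2 : (fun n => eval (v (z n)) G) =O[l] fun n => (s n : ℂ) := by
      refine (big hs0 (quot (aG _).hasStrictFDerivAt hs hs0 hy h)).neg_left.congr' ?_
        EventuallyEq.rfl
      filter_upwards [hx] with n hn
      rw [hG _ hn, zero_sub, neg_neg]
    have q3 : (fun n => (z n - a) ^ 2) =o[l] fun _ => (1 : ℂ) := by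
      rw [isLittleO_one_iff]
      simpa using (hz.sub_const a).pow 2
    have q4 := ((hO.comp_tendsto hz).trans q2).mul_isLittleO q3
    have q5 := (p3.comp_tendsto hz).trans_isLittleO
      (q4.congr (fun n => (pow_add _ _ _).symm) fun n => mul_one _)
    have q6 := q1.add (small q5)
    rw [add_zero] at q6
    refine q6.congr fun n => ?_
    simp only [Function.comp, ww]
    ring
  obtain ⟨p₀, d₀, t₀⟩ := hp 0 (Or.inl rfl)
  obtain ⟨p₁, d₁, t₁⟩ := hp 1 (Or.inr rfl)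
  obtain ⟨A, hA⟩ := lin_pol (g 2)
  obtain ⟨W₀, hW₀⟩ := ww_pol (g 2) (g 3) (g 0) d₀
  obtain ⟨W₁, hW₁⟩ := ww_pol (g 2) (g 3) (g 1) d₁
  obtain ⟨P, hP, hPZ⟩ := hd ![A, W₀, W₁]
  obtain ⟨c, Q, hc0, hQ, hQP⟩ := plane P hP (M + 1)
  have hQZ : ∀ x ∈ Z, g 2 x ≠ 0 →
      eval ![ww (g 2) (g 3) (g 0) p₀ x, ww (g 2) (g 3) (g 1) p₁ x] Q = 0 := fun x hx hx0 => by
    have e3 : g 2 ((c / g 2 x) • x) = c := by rw [map_smul, smul_eq_mul, div_mul_cancel₀ _ hx0]
    rw [hQP, ← hPZ _ (hc (c / g 2 x) x hx)]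
    congr 2
    funext i
    fin_cases i
    · exact ((hA _).trans e3).symm
    · exact ((hW₀ _ (e3.trans_ne hc0)).trans
        (by rw [e3, ww_smul _ _ _ _ _ (div_ne_zero hc0 hx0)]; rfl)).symm
    · exact ((hW₁ _ (e3.trans_ne hc0)).trans
        (by rw [e3, ww_smul _ _ _ _ _ (div_ne_zero hc0 hx0)]; rfl)).symm
  obtain ⟨T, hT, hT0, hTl⟩ := hLow Q hQ
  have key : ∀ η, ∃ q ∈ insert (0, 0) T, Lim v a Z η → q ∈ T ∧ q.1 * g 0 η + q.2 * g 1 η = 0 := by
    intro η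
    by_cases hη : Lim v a Z η
    swap
    · exact ⟨_, Set.mem_insert _ _, fun h => absurd h hη⟩
    obtain ⟨l, z, s, x, hl, hz, hs, hs0, hx, h⟩ := hη
    have hx0 : ∀ᶠ n in l, g 2 (x n) ≠ 0 :=
      (((g 2).continuous.tendsto _).comp (tend_x hs hs0 (hv.continuousAt.tendsto.comp hz) h)).eventually_ne
        (e2 ▸ one_ne_zero)
    obtain ⟨q, hq, e⟩ := hTl l (fun n => ![ww (g 2) (g 3) (g 0) p₀ (x n), ww (g 2) (g 3) (g 1) p₁ (x n)])
      s ![g 0 η, g 1 η] hl hs hs0 ((hx.and hx0).mono fun n h => hQZ _ h.1 h.2)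
      (tendsto_pi_nhds.2 fun i => by
        fin_cases i
        exacts [t₀ l z s x η hz hs hs0 hx h, t₁ l z s x η hz hs hs0 hx h])
    exact ⟨q, Set.mem_insert_of_mem _ hq, fun _ => ⟨hq, e⟩⟩
  choose q hq hq' using key
  obtain ⟨f, hf⟩ := Set.countable_iff_exists_injOn.1 (hT.insert (0, 0)).countable
  refine ⟨fun η => f (q η), ((hT.insert (0, 0)).image f).subset ?_, fun η η' k1 k2 k3 k4 k5 h => ?_⟩
  · rintro _ ⟨η, rfl⟩
    exact ⟨_, hq η, rfl⟩
  have k6 := hf (hq η) (hq η') k5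
  obtain ⟨α, β, k7, k8, k9⟩ := prop2 (q₁ := (q η).1) (q₂ := (q η).2)
    (fun e => hT0 (e ▸ (hq' η k1).1)) (hq' η k1).2 (k6 ▸ (hq' η' k2).2)
  obtain ⟨γ, δ, e⟩ := hg (α • η + β • η') (by
    have : dot ψ (α • η + β • η') = α * dot ψ η + β * dot ψ η' := by
      simp [dot, mul_add, sum_add_distrib, mul_sum, mul_left_comm]
    rw [this, k3, k4, mul_zero, mul_zero, add_zero]) (by simpa using k8) (by simpa using k9)
  have := Fintype.linearIndependent_iff.1 h ![-γ, -δ / μ, α, β] (by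
    simp only [Fin.sum_univ_four, Matrix.cons_val_zero, Matrix.cons_val_one, Matrix.cons_val,
      smul_smul, div_mul_cancel₀ _ hμ]
    rw [add_assoc, e]
    module)
  exact k7.elim (fun h => h (this 2)) fun h => h (this 3)

end Pool.Agent.Lib.MP_cd3a7b_ag.Q5
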