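import Pool.Agent.Lib.MP_cd3a7b_ag.Q5.St

/-! Periodic points are dense in the full shift and points with dense orbit are residual. -/

namespace Pool.Agent.Lib.MP_cd3a7b_ag.Q5

open Filter Topology TopologicalSpace

namespace TopAux

/-- A neighbourhood contains a cylinder. -/
theorem cyl {o : Om} {U : Set Om} (hU : U ∈ 𝓝 o) :
    ∃ n : ℕ, ∀ o' : Om, (∀ s : ℤ, -(n : ℤ) ≤ s → s ≤ n → o' s = o s) → o' ∈ U := by
  rw [nhds_pi, Filter.mem_pi] at hU
  obtain ⟨I, hI, t, ht, hsub⟩ := hU
  obtain ⟨n, hn⟩ := (hI.image Int.natAbs).bddAbove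
  refine ⟨n, fun o' h => hsub fun i hi => ?_⟩
  have h1 : i.natAbs ≤ n := hn ⟨i, hi, rfl⟩
  rw [h i (by omega) (by omega)]
  exact mem_of_mem_nhds (ht i)

theorem cont (t : ℤ) : Continuous (sh t) := continuous_pi fun s => continuous_apply (s + t)

theorem hit {V : Set Om} (hV : IsOpen V) (hne : V.Nonempty) :
    {o : Om | ∃ t, sh t o ∈ V} ∈ residual Om := by
  refine residual_of_dense_open ?_ ?_
  · rw [Set.ofPred_exists]
    exact isOpen_iUnion fun t => hV.preimage (cont t)
  · intro o₀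
    rw [mem_closure_iff_nhds]
    intro U hU
    obtain ⟨o₁, h₁⟩ := hne
    obtain ⟨n, hn⟩ := cyl hU
    obtain ⟨m, hm⟩ := cyl (hV.mem_nhds h₁)
    refine ⟨fun s => if s ≤ n then o₀ s else o₁ (s - (n + m + 1)),
      hn _ fun s _ h => if_pos h, (n + m + 1 : ℤ), hm _ fun s h _ => ?_⟩
    show (if s + (n + m + 1) ≤ n then o₀ (s + (n + m + 1))
      else o₁ (s + (n + m + 1) - (n + m + 1))) = o₁ s
    rw [if_neg (by omega), add_sub_cancel_right]

end TopAux

open TopAux in
theorem stTop : StTop := by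
  refine ⟨fun o U hU => ?_, ?_⟩
  · obtain ⟨n, hn⟩ := cyl hU
    refine ⟨fun t => o ((t + n) % (2 * n + 1) - n), hn _ fun s h1 h2 => ?_, 2 * n + 1,
      by omega, funext fun s => ?_⟩
    · show o ((s + n) % (2 * n + 1) - n) = o s
      rw [Int.emod_eq_of_lt (by omega) (by omega), add_sub_cancel_right]
    · show o ((s + (2 * n + 1) + n) % (2 * n + 1) - n) = o ((s + n) % (2 * n + 1) - n)
      rw [add_right_comm, Int.add_emod_right]
  · have h : ∀ᶠ o in residual Om, ∀ V ∈ countableBasis Om, ∃ t, sh t o ∈ V :=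
      (eventually_countable_ball (countable_countableBasis Om)).2 fun V hV =>
        hit (isOpen_of_mem_countableBasis hV) (nonempty_of_mem_countableBasis hV)
    refine h.mono fun o ho o' => ?_
    rw [(isBasis_countableBasis Om).mem_closure_iff]
    intro V hV _
    obtain ⟨t, ht⟩ := ho V hV
    exact ⟨_, ht, t, rfl⟩

end Pool.Agent.Lib.MP_cd3a7b_ag.Q5
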