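import Pool.Agent.Lib.MP_cd3a7b_ag.Q5.St

/-! Vanishing statements for functions on the punctured plane. -/

namespace Pool.Agent.Lib.MP_cd3a7b_ag.Q5

open Filter Topology

namespace VanAux

theorem ne_of_norm {y : ℂ} (h : ‖y‖ = 1) : y ≠ 0 := fun e => by simp [e] at h

theorem van (hCo : StCo) (f : ℤ → ℂ → ℂ) (t : ℤ → ℂ) (ht : ∀ k, t k ≠ 0)
    (hf : ∀ k, DifferentiableOn ℂ (f k) {0}ᶜ)
    (h : ∀ k y, y ≠ 0 → f k y = y ^ 5 * f (k + 1) (t (k + 1) * y))
    (h0 : ∀ k (r : Fin 5), co (r : ℕ) (f k) = 0) (k : ℤ) (y : ℂ) (hy : y ≠ 0) : f k y = 0 := by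
  have step : ∀ n k, co n (f k) = t (k + 1) ^ (n - 5) * co (n - 5) (f (k + 1)) := fun n k => by
    rw [hCo.congr n (f k) _ fun y e => h k y (ne_of_norm e),
      hCo.mul n fun y => f (k + 1) (t (k + 1) * y), hCo.scale _ _ _ (hf _) (ht _)]
  have key : ∀ (r : Fin 5) (q k : ℤ), co (5 * q + (r : ℕ)) (f k) = 0 := fun r q => by
    induction q using Int.induction_on with
    | zero => simpa using fun k => h0 k r
    | succ q ih =>
      intro k
      rw [step, show 5 * ((q : ℤ) + 1) + (r : ℕ) - 5 = 5 * q + (r : ℕ) by ring, ih, mul_zero]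
    | pred q ih =>
      intro k
      have := ih (k - 1)
      rw [step, sub_add_cancel,
        show 5 * (-(q : ℤ)) + (r : ℕ) - 5 = 5 * (-q - 1) + (r : ℕ) by ring] at this
      exact (mul_eq_zero.1 this).resolve_left (zpow_ne_zero _ (ht _))
  refine hCo.zero _ (hf k) (fun n => ?_) y hy
  have := key ⟨(n % 5).toNat, by omega⟩ (n / 5) k
  rwa [show 5 * (n / 5) + (((n % 5).toNat : ℕ) : ℤ) = n by omega] at this

theorem zero_of_chain (a : ℕ → ℝ) {ε A B : ℝ} (h0 : 0 ≤ ε) (hA : 0 ≤ A) (h1 : A * ε < 1)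
    (h2 : ∀ k, a k ≤ ε * a (k + 1)) (h3 : ∀ k, a k ≤ B * A ^ k) : a 0 ≤ 0 := by
  have h4 : ∀ k, a 0 ≤ ε ^ k * a k := fun k => by
    induction k with
    | zero => simp
    | succ k ih =>
      refine ih.trans ?_
      rw [pow_succ, mul_assoc]
      exact mul_le_mul_of_nonneg_left (h2 k) (pow_nonneg h0 k)
  have h5 : Tendsto (fun k : ℕ => B * (A * ε) ^ k) atTop (𝓝 (B * 0)) :=
    (tendsto_pow_atTop_nhds_zero_of_lt_one (mul_nonneg hA h0) h1).const_mul B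
  rw [mul_zero] at h5
  refine ge_of_tendsto' h5 fun k => (h4 k).trans ?_
  calc ε ^ k * a k ≤ ε ^ k * (B * A ^ k) := mul_le_mul_of_nonneg_left (h3 k) (pow_nonneg h0 k)
    _ = B * (A * ε) ^ k := by rw [mul_pow]; ring

theorem const (hCo : StCo) (W : ℤ → ℂ → ℂ) (t : ℤ → ℂ) (ε A B : ℝ) (ht : ∀ k, t k ≠ 0)
    (hε : ∀ k, ‖t k‖ ≤ ε) (hA : 0 ≤ A) (h1 : ε ≤ 1) (h2 : A * ε < 1)
    (hW : ∀ k, DifferentiableOn ℂ (W k) {0}ᶜ)
    (h : ∀ k y, y ≠ 0 → W k y = W (k + 1) (t (k + 1) * y))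
    (hB : ∀ k y, ‖y‖ = 1 → ‖W k y‖ ≤ B * A ^ k.natAbs) (y : ℂ) (hy : y ≠ 0) :
    W 0 y = W 0 1 := by
  have h0 : 0 ≤ ε := (norm_nonneg _).trans (hε 0)
  have step : ∀ n k, co n (W k) = t (k + 1) ^ n * co n (W (k + 1)) := fun n k => by
    rw [hCo.congr n (W k) _ fun y e => h k y (ne_of_norm e), hCo.scale _ _ _ (hW _) (ht _)]
  have pw : ∀ k (m : ℕ), ‖t k ^ (m + 1)‖ ≤ ε := fun k m => by
    rw [norm_pow, pow_succ]
    exact (mul_le_of_le_one_left (norm_nonneg _)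
      (pow_le_one₀ (norm_nonneg _) ((hε k).trans h1))).trans (hε k)
  have key : ∀ n, n ≠ 0 → co n (W 0) = 0 := fun n hn => by
    refine norm_le_zero_iff.1 ?_
    rcases lt_or_gt_of_ne hn with e | e
    · obtain ⟨m, rfl⟩ : ∃ m : ℕ, n = -((m + 1 : ℕ) : ℤ) := ⟨(-n - 1).toNat, by omega⟩
      refine zero_of_chain (fun k => ‖co (-((m + 1 : ℕ) : ℤ)) (W (-(k : ℤ)))‖) (B := B) h0 hA h2
        (fun k => ?_) fun k => hCo.bound _ _ _ fun y e => by simpa using hB (-(k : ℤ)) y e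
      have := step (-((m + 1 : ℕ) : ℤ)) (-((k + 1 : ℕ) : ℤ))
      rw [show -((k + 1 : ℕ) : ℤ) + 1 = -(k : ℤ) by push_cast; ring, zpow_neg, zpow_natCast,
        eq_inv_mul_iff_mul_eq₀ (pow_ne_zero _ (ht _))] at this
      show ‖co _ (W (-(k : ℤ)))‖ ≤ _
      rw [← this, norm_mul]
      exact mul_le_mul_of_nonneg_right (pw _ _) (norm_nonneg _)
    · obtain ⟨m, rfl⟩ : ∃ m : ℕ, n = ((m + 1 : ℕ) : ℤ) := ⟨(n - 1).toNat, by omega⟩
      refine zero_of_chain (fun k => ‖co ((m + 1 : ℕ) : ℤ) (W (k : ℤ))‖) (B := B) h0 hA h2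
        (fun k => ?_) fun k => hCo.bound _ _ _ fun y e => by simpa using hB (k : ℤ) y e
      show ‖co _ (W (k : ℤ))‖ ≤ _
      rw [step, norm_mul, zpow_natCast]
      exact mul_le_mul_of_nonneg_right (pw _ _) (norm_nonneg _)
  have all : ∀ y, y ≠ 0 → W 0 y - co 0 (W 0) = 0 :=
    hCo.zero (fun y => W 0 y - co 0 (W 0)) ((hW 0).sub_const _) fun n => by
      rw [(hCo.add n (W 0) (fun _ => co 0 (W 0)) ((hW 0).continuousOn.mono fun y e =>
        ne_of_norm (by simpa using e)) continuousOn_const).2, hCo.const]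
      split_ifs with e
      · rw [e, sub_self]
      · rw [key n e, sub_self]
  rw [sub_eq_zero.1 (all y hy), sub_eq_zero.1 (all 1 one_ne_zero)]

theorem zero (f : ℂ → ℂ) (hf : DifferentiableOn ℂ f {0}ᶜ)
    (h : ∀ y, 1 / 2 ≤ ‖y‖ → ‖y‖ ≤ 2 → ‖f y - (1 + y)‖ ≤ 1 / 10) : ∃ z ∈ Ann 2, f z = 0 := by
  by_contra hn
  push Not at hn
  have b : ∀ y ∈ Metric.closedBall (-1 : ℂ) (1 / 2), 1 / 2 ≤ ‖y‖ ∧ ‖y‖ ≤ 2 := fun y hy => by
    rw [mem_closedBall_iff_norm] at hy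
    have := abs_le.1 (abs_norm_sub_norm_le y (-1))
    rw [norm_neg, norm_one] at this
    constructor <;> linarith [this.1, this.2]
  have ne : ∀ y ∈ Metric.closedBall (-1 : ℂ) (1 / 2), f y ≠ 0 := fun y hy =>
    hn y ⟨by simpa using (b y hy).1, (b y hy).2⟩
  have d : DifferentiableOn ℂ (fun y => (f y)⁻¹) (Metric.closedBall (-1 : ℂ) (1 / 2)) :=
    (hf.mono fun y hy e => by
      have := (b y hy).1
      rw [Set.mem_singleton_iff.1 e, norm_zero] at this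
      norm_num at this).inv ne
  have hr : (1 / 2 : ℝ) ≠ 0 := by norm_num
  have := Complex.norm_le_of_forall_mem_frontier_norm_le (U := Metric.ball (-1 : ℂ) (1 / 2))
    (f := fun y => (f y)⁻¹) (C := 5 / 2) (z := -1) Metric.isBounded_ball
    (DifferentiableOn.diffContOnCl (by rwa [closure_ball _ hr])) (fun y hy => by
      rw [frontier_ball _ hr] at hy
      have k := b y (Metric.sphere_subset_closedBall hy)
      have k1 := h y k.1 k.2
      rw [mem_sphere_iff_norm, sub_neg_eq_add, add_comm] at hy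
      have k2 := abs_le.1 (abs_norm_sub_norm_le (f y) (1 + y))
      rw [norm_inv]
      exact inv_le_of_inv_le₀ (by norm_num) (by norm_num; linarith [k2.1]))
    (subset_closure (Metric.mem_ball_self (by norm_num)))
  have k1 := h (-1) (by norm_num) (by norm_num)
  have k2 := norm_pos_iff.2 (ne (-1) (Metric.mem_closedBall_self (by norm_num)))
  rw [add_neg_cancel, sub_zero] at k1
  rw [norm_inv, inv_le_comm₀ k2 (by norm_num)] at this
  norm_num at this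
  linarith

end VanAux

theorem stVan (hCo : StCo) : StVan :=
  ⟨VanAux.van hCo, VanAux.const hCo, VanAux.zero⟩

end Pool.Agent.Lib.MP_cd3a7b_ag.Q5
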