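import Pool.Agent.Lib.MP_cd3a7b_ag.Q5.St

/-! The walk and elementary bounds. -/

namespace Pool.Agent.Lib.MP_cd3a7b_ag.Q5

open MvPolynomial Finset Filter Topology

namespace WalkAux

theorem w0 (o : Om) {k : ℤ} (h : k % 4 = 0) : w o k = 0 := by simp [w, h]
theorem w1 (o : Om) {k : ℤ} (h : k % 4 = 1) : w o k = 2 := by simp [w, h]
theorem w2 (o : Om) {k : ℤ} (h : k % 4 = 2) : w o k = 1 := by simp [w, h]
theorem w3 (o : Om) {k : ℤ} (h : k % 4 = 3) : w o k = 3 ∨ w o k = 4 := by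
  simp only [w, h]
  cases o (k / 4) <;> simp

theorem cases (o : Om) (k : ℤ) : ∃ x x' : Fin 5, (x = 3 ∨ x = 4) ∧ (x' = 3 ∨ x' = 4) ∧
    ((k % 4 = 0 ∧ w o (k - 2) = 1 ∧ w o (k - 1) = x ∧ w o k = 0 ∧ w o (k + 1) = 2 ∧
        w o (k + 2) = 1) ∨
      (k % 4 = 1 ∧ w o (k - 2) = x ∧ w o (k - 1) = 0 ∧ w o k = 2 ∧ w o (k + 1) = 1 ∧
        w o (k + 2) = x') ∨
      (k % 4 = 2 ∧ w o (k - 2) = 0 ∧ w o (k - 1) = 2 ∧ w o k = 1 ∧ w o (k + 1) = x ∧
        w o (k + 2) = 0) ∨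
      (k % 4 = 3 ∧ w o (k - 2) = 2 ∧ w o (k - 1) = 1 ∧ w o k = x ∧ w o (k + 1) = 0 ∧
        w o (k + 2) = 2)) := by
  have h : k % 4 = 0 ∨ k % 4 = 1 ∨ k % 4 = 2 ∨ k % 4 = 3 := by omega
  rcases h with h | h | h | h
  · exact ⟨_, 3, w3 o (k := k - 1) (by omega), .inl rfl, .inl ⟨h, w2 o (by omega), rfl, w0 o h,
      w1 o (by omega), w2 o (by omega)⟩⟩
  · exact ⟨_, _, w3 o (k := k - 2) (by omega), w3 o (k := k + 2) (by omega), .inr (.inl
      ⟨h, rfl, w0 o (by omega), w1 o h, w2 o (by omega), rfl⟩)⟩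
  · exact ⟨_, 3, w3 o (k := k + 1) (by omega), .inl rfl, .inr (.inr (.inl
      ⟨h, w0 o (by omega), w1 o (by omega), w2 o h, rfl, w0 o (by omega)⟩))⟩
  · exact ⟨_, 3, w3 o h, .inl rfl, .inr (.inr (.inr
      ⟨h, w1 o (by omega), w2 o (by omega), rfl, w0 o (by omega), w1 o (by omega)⟩))⟩

theorem congr {o o' : Om} {i : ℤ} (h : i % 4 = 3 → o (i / 4) = o' (i / 4)) : w o i = w o' i := by
  unfold w
  split_ifs with h0 h1 h2 h3 h4 h5 <;> first | rfl | (exfalso; have := h (by omega); simp_all)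

end WalkAux

open WalkAux in
theorem stWalk : StWalk where
  sh t o k := by
    have h1 : (k + 4 * t) % 4 = k % 4 := by omega
    have h2 : (k + 4 * t) / 4 = k / 4 + t := by omega
    simp only [w, sh, h1, h2]
    rfl
  cases := WalkAux.cases
  ne o k := by
    obtain ⟨x, x', hx, -, h | h | h | h⟩ := WalkAux.cases o k <;>
      obtain ⟨-, -, h1, h2, h3, -⟩ := h <;> rw [h1, h2, h3] <;> rcases hx with rfl | rfl <;> decide
  agree o o' a b h i h1 h2 := WalkAux.congr fun h3 => h _ (by omega) (by omega)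
  flip o o' t h := by
    have h1 : (4 * t + 3) % 4 = 3 := by omega
    have h2 : (4 * t + 3) / 4 = t := by omega
    simp only [w, h1, h2]
    cases ho : o t <;> cases ho' : o' t <;> simp_all
  loc l on o h a b := by
    have h1 : ∀ s, ∀ᶠ n in l, on n s = o s := fun s => by
      have := tendsto_pi_nhds.1 h s
      rwa [nhds_discrete, tendsto_pure] at this
    have h2 : ∀ᶠ n in l, ∀ i ∈ Finset.Icc a b, on n (i / 4) = o (i / 4) :=
      (Finset.eventually_all _).2 fun i _ => h1 _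
    filter_upwards [h2] with n hn i h3 h4
    exact WalkAux.congr fun _ => hn i (Finset.mem_Icc.2 ⟨h3, h4⟩)
  kw_add i j := by
    unfold kw
    rw [← pow_add]
    exact pow_le_pow_right₀ (by norm_num) (Int.natAbs_add_le i j)
  kw_mono i j h := pow_le_pow_right₀ (by norm_num) h
  one_le_kw i := one_le_pow₀ (by norm_num)
  norm_e i := by simp [e, Pi.norm_single]
  dot_le a b := by
    calc ‖dot a b‖ ≤ ∑ i, ‖a i * b i‖ := norm_sum_le _ _
      _ ≤ ∑ _i : Fin 5, ‖a‖ * ‖b‖ := Finset.sum_le_sum fun i _ => by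
        rw [norm_mul]
        exact mul_le_mul (norm_le_pi_norm a i) (norm_le_pi_norm b i) (norm_nonneg _) (norm_nonneg _)
      _ = 5 * ‖a‖ * ‖b‖ := by simp [mul_assoc]

end Pool.Agent.Lib.MP_cd3a7b_ag.Q5
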