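import Pool.Agent.Lib.MP_cd3a7b_ag.Q5.St

/-! Constancy of the Wronskian. -/

namespace Pool.Agent.Lib.MP_cd3a7b_ag.Q5

open MvPolynomial Finset Filter Topology

namespace WrAux

/-- The determinant of `v` and four more vectors. -/
noncomputable def dd (A : Fin 4 → E) (v : E) : ℂ :=
  Matrix.det (Matrix.of (Fin.cons v A : Fin 5 → E))

theorem dd_upd (A : Fin 4 → E) (v : E) :
    dd A v = Matrix.det ((Matrix.of (Fin.cons 0 A : Fin 5 → E)).updateRow 0 v) := by
  unfold dd
  congr 1
  ext i j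
  refine Fin.cases ?_ (fun i => ?_) i
  · simp
  · rw [Matrix.updateRow_ne (Fin.succ_ne_zero i)]; simp

theorem dd_add (A : Fin 4 → E) (v v' : E) : dd A (v + v') = dd A v + dd A v' := by
  simp only [dd_upd]; exact Matrix.det_updateRow_add _ _ _ _

theorem dd_smul (A : Fin 4 → E) (c : ℂ) (v : E) : dd A (c • v) = c * dd A v := by
  simp only [dd_upd]; exact Matrix.det_updateRow_smul _ _ _ _

theorem dd_sum (A : Fin 4 → E) (v : E) : dd A v = ∑ i, v i * dd A (e i) := by
  have h : v = v 0 • e 0 + v 1 • e 1 + v 2 • e 2 + v 3 • e 3 + v 4 • e 4 := by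
    funext j; fin_cases j <;> simp [e]
  conv_lhs => rw [h]
  simp only [dd_add, dd_smul, Fin.sum_univ_five]

theorem dd_ker (A : Fin 4 → E) (g : E) (hg : g ≠ 0) (hA : ∀ r, dot g (A r) = 0) (v : E)
    (hv : dot g v = 0) : dd A v = 0 := by
  refine Matrix.exists_mulVec_eq_zero_iff.1 ⟨g, hg, ?_⟩
  funext i
  refine Fin.cases ?_ (fun i => ?_) i
  · simp only [Pi.zero_apply]
    rw [← hv]; simp [Matrix.mulVec, dotProduct, dot, mul_comm]
  · have := hA i
    simp only [Pi.zero_apply]
    rw [← this]; simp [Matrix.mulVec, dotProduct, dot, mul_comm]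

theorem dot_e (g : E) (i : Fin 5) : dot g (e i) = g i := by
  simp [dot, e, Pi.single_apply]

theorem dd_prop (A : Fin 4 → E) (g : E) (hg : g ≠ 0) (hA : ∀ r, dot g (A r) = 0) (i j : Fin 5) :
    g j * dd A (e i) = g i * dd A (e j) := by
  have h := dd_ker A g hg hA (g j • e i + (-g i) • e j) (by
    have h1 := dot_e g i
    have h2 := dot_e g j
    simp only [dot, Pi.add_apply, Pi.smul_apply, smul_eq_mul, mul_add, sum_add_distrib] at h1 h2 ⊢
    have e1 : ∑ l, g l * (g j * e i l) = g j * ∑ l, g l * e i l := by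
      rw [mul_sum]; exact sum_congr rfl fun l _ => by ring
    have e2 : ∑ l, g l * (-g i * e j l) = -g i * ∑ l, g l * e j l := by
      rw [mul_sum]; exact sum_congr rfl fun l _ => by ring
    rw [e1, e2, h1, h2]; ring)
  rw [dd_add, dd_smul, dd_smul] at h
  linear_combination h

theorem dep_iff (A : Fin 4 → E) : ¬ LinearIndependent ℂ A ↔ ∀ i, dd A (e i) = 0 := by
  have key : ∀ v, LinearIndependent ℂ (Fin.cons v A : Fin 5 → E) ↔ dd A v ≠ 0 := by
    intro v
    have := Matrix.linearIndependent_rows_iff_isUnit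
      (A := Matrix.of (Fin.cons v A : Fin 5 → E))
    rw [Matrix.isUnit_iff_isUnit_det, isUnit_iff_ne_zero] at this
    exact this
  constructor
  · intro h i
    by_contra hn
    exact h (((key _).2 hn).comp Fin.succ (Fin.succ_injective _))
  · intro h hA
    obtain ⟨x, hx⟩ := exists_linearIndependent_cons_of_lt_finrank hA (by simp)
    refine (key x).1 hx ?_
    rw [dd_sum]; simp [h]

open Classical in
/-- The quotient of the determinants by the gradient. -/
noncomputable def ww (A : Fin 4 → E) (g : E) : ℂ :=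
  if h : ∃ i, g i ≠ 0 then dd A (e h.choose) / g h.choose else 0

theorem ww_spec (A : Fin 4 → E) (g : E) (hg : g ≠ 0) (hA : ∀ r, dot g (A r) = 0) (i : Fin 5) :
    dd A (e i) = ww A g * g i := by
  have h : ∃ i, g i ≠ 0 := Function.ne_iff.1 hg
  rw [ww, dif_pos h]
  have h1 := h.choose_spec
  have h2 := dd_prop A g hg hA i h.choose
  field_simp
  linear_combination h2

theorem dd_diff {A : ℂ → Fin 4 → E} {y : ℂ} (h : ∀ r, DifferentiableAt ℂ (fun y => A y r) y)
    (v : E) : DifferentiableAt ℂ (fun y => dd (A y) v) y := by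
  simp only [dd, Matrix.det_apply']
  refine DifferentiableAt.fun_sum fun σ _ => DifferentiableAt.const_mul ?_ _
  refine DifferentiableAt.fun_finsetProd fun i _ => ?_
  generalize σ i = l
  refine Fin.cases ?_ (fun l => ?_) l
  · simp
  · simpa using differentiableAt_pi.1 (h l) i

theorem dd_chart (a b c f v : E) (y s s' : ℂ) :
    dd ![y • a, y • (a + b), y • (c + s • b), y • (f + s' • b)] v = y ^ 4 * dd ![a, b, c, f] v := by
  have h : Matrix.of (Fin.cons v ![y • a, y • (a + b), y • (c + s • b), y • (f + s' • b)] :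
      Fin 5 → E) = !![1, 0, 0, 0, 0; 0, y, 0, 0, 0; 0, y, y, 0, 0; 0, 0, y * s, y, 0;
        0, 0, y * s', 0, y] * Matrix.of (Fin.cons v ![a, b, c, f] : Fin 5 → E) := by
    ext i j
    fin_cases i <;> simp [Matrix.mul_apply, Fin.sum_univ_succ] <;> ring
  have h2 : Matrix.det (!![1, 0, 0, 0, 0; 0, y, 0, 0, 0; 0, y, y, 0, 0; 0, 0, y * s, y, 0;
        0, 0, y * s', 0, y] : Matrix (Fin 5) (Fin 5) ℂ) = y ^ 4 := by
    rw [Matrix.det_of_isLowerTriangular]
    · simp [Fin.prod_univ_five]; ring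
    · intro i j hij
      fin_cases i <;> fin_cases j <;> first | rfl | (exfalso; revert hij; decide)
  rw [dd, h, Matrix.det_mul, h2, dd]

theorem dd_le (A : Fin 4 → E) (v : E) (x : ℝ) (hA : ∀ r, ‖A r‖ ≤ x) (hv : ‖v‖ ≤ x) :
    ‖dd A v‖ ≤ 120 * x ^ 5 := by
  have h := Matrix.det_le (A := Matrix.of (Fin.cons v A : Fin 5 → E))
    (abv := IsAbsoluteValue.toAbsoluteValue (norm : ℂ → ℝ)) (x := x) (by
      intro i j
      refine Fin.cases ?_ (fun i => ?_) i
      · exact (norm_le_pi_norm v j).trans hv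
      · exact (norm_le_pi_norm (A i) j).trans (hA i))
  simp only [Fintype.card_fin, nsmul_eq_mul] at h
  have e5 : ((Nat.factorial 5 : ℕ) : ℝ) = 120 := by norm_num [Nat.factorial]
  rw [e5] at h
  exact h

theorem grad_smul {F : Pol} (hF : F.IsHomogeneous 5) (c : ℂ) (v : E) :
    grad F (c • v) = c ^ 4 • grad F v := by
  funext i
  have h4 : (pderiv i F).IsHomogeneous 4 := hF.pderiv
  have := eval_w_alg h4 c v
  simp only [grad, Pi.smul_apply, smul_eq_mul]
  rw [← this]
  congr 2
  funext o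
  simp

theorem euler {F : Pol} (hF : F.IsHomogeneous 5) (v : E) (hv : eval v F = 0) :
    dot (grad F v) v = 0 := by
  have h := congrArg (eval v) hF.sum_X_mul_pderiv
  simp only [map_sum, map_mul, eval_X, map_nsmul, hv, smul_zero] at h
  rw [← h]
  exact sum_congr rfl fun i _ => mul_comm _ _

theorem tangent {F : Pol} {v : ℂ → E} {v' : E} {y : ℂ} (hy : y ≠ 0)
    (hd : HasDerivAt v (y⁻¹ • v') y) (h0 : ∀ z, z ≠ 0 → eval (v z) F = 0) :
    dot (grad F (v y)) v' = 0 := by
  obtain ⟨L, hL, hL'⟩ := hasFDerivAt_eval_alg F (v y)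
  have h1 := hL.comp_hasDerivAt y hd
  have h2 : HasDerivAt ((fun v : E => eval v F) ∘ v) 0 y := by
    refine (hasDerivAt_const y (0 : ℂ)).congr_of_eventuallyEq ?_
    filter_upwards [isOpen_ne.mem_nhds hy] with z hz using h0 z hz
  have h3 := h1.unique h2
  rw [map_smul, smul_eq_mul, mul_eq_zero, hL'] at h3
  rcases h3 with h3 | h3
  · exact absurd h3 (inv_ne_zero hy)
  · rw [← h3]; exact sum_congr rfl fun i _ => mul_comm _ _

end WrAux

open WrAux

theorem stWr (hWalk : StWalk) (hVan : StVan) (hSerA : StSerA) (hSerD : StSerD)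
    (hChart : StChart) (hNe : StNe) (hNon : StNon) : StWr := by
  intro c hc
  obtain ⟨e1, he1, hne⟩ := hNe
  obtain ⟨CN, e2, -, he2, he2', hnon⟩ := hNon
  obtain ⟨CA, hCA, hest⟩ := hSerA.est
  obtain ⟨CD, hCD, hD⟩ := hSerD
  refine ⟨min e1 (min e2 (1 / (2 * 400 ^ 5))), by positivity, ?_⟩
  intro ε F hε hle hF hS o x D D' z hx hT hT' hz hdep
  have l1 : ε ≤ e1 := hle.trans (min_le_left _ _)
  have l2 : ε ≤ e2 := hle.trans ((min_le_right _ _).trans (min_le_left _ _))
  have l3 : ε ≤ 1 / (2 * 400 ^ 5) := hle.trans ((min_le_right _ _).trans (min_le_right _ _))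
  have lh : ε ≤ 1 / 2 := l2.trans he2'
  have hcε : 0 < c * ε := mul_pos hc hε
  obtain ⟨N, hN⟩ := hT.grow
  obtain ⟨N', hN'⟩ := hT'.grow
  have hτ : ∀ k, (x k).2 ≠ 0 := fun k => norm_pos_iff.1 (hcε.trans_le (hx.low k))
  set A : ℤ → ℂ → Fin 4 → E := fun k y =>
    ![V o x k y, V' o x k y, Eta o x D k y, Eta o x D' k y] with hA
  set g : ℤ → ℂ → E := fun k y => grad F (V o x k y) with hg
  have hg0 : ∀ k y, y ≠ 0 → g k y ≠ 0 := by
    intro k y hy h
    obtain ⟨i, hi⟩ := hS _ (hne o x ε _ l1 hx.small hcε hx.low k y hy) (hx.zero k y hy)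
    exact hi (congrFun h i)
  have hker : ∀ k y, y ≠ 0 → ∀ r, dot (g k y) (A k y r) = 0 := by
    intro k y hy r
    fin_cases r
    · exact euler hF.1 _ (hx.zero k y hy)
    · exact tangent hy (hChart.der o x k ε y hx.small lh hy).1 (hx.zero k)
    · exact hT.zero k y hy
    · exact hT'.zero k y hy
  set W : ℤ → ℂ → ℂ := fun k y => ww (A k y) (g k y) with hW
  have hsp : ∀ k y, y ≠ 0 → ∀ i, dd (A k y) (e i) = W k y * g k y i :=
    fun k y hy i => ww_spec _ _ (hg0 k y hy) (hker k y hy) i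
  have hdiff : ∀ k, DifferentiableOn ℂ (W k) {0}ᶜ := by
    intro k y hy
    have hy : y ≠ 0 := hy
    obtain ⟨i, hi⟩ := Function.ne_iff.1 (hg0 k y hy)
    have hV : DifferentiableAt ℂ (V o x k) y :=
      (hChart.der o x k ε y hx.small lh hy).1.differentiableAt
    have hgi : DifferentiableAt ℂ (fun y => g k y i) y :=
      ((differentiable_eval (pderiv i F)) _).comp y hV
    have hdi : DifferentiableAt ℂ (fun y => dd (A k y) (e i)) y := by
      refine dd_diff (fun r => ?_) _
      fin_cases r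
      · exact hV
      · exact (hChart.der o x k ε y hx.small lh hy).2
      · exact hChart.dere o x D k ε _ N y hx.small lh hcε hx.low hN hy
      · exact hChart.dere o x D' k ε _ N' y hx.small lh hcε hx.low hN' hy
    refine ((hdi.div hgi hi).congr_of_eventuallyEq ?_).differentiableWithinAt
    filter_upwards [isOpen_ne.mem_nhds hy, hgi.continuousAt.eventually_ne hi] with y' h1 h2
    rw [Pi.div_apply, hsp k y' h1 i, mul_div_cancel_right₀ _ h2]
  have hch : ∀ k y, y ≠ 0 → W k y = W (k + 1) ((x (k + 1)).2 * y) := by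
    intro k y hy
    have hy' : (x (k + 1)).2 * y ≠ 0 := mul_ne_zero (hτ _) hy
    obtain ⟨i, hi⟩ := Function.ne_iff.1 (hg0 k y hy)
    have h1 := hsp k y hy i
    have h2 := hsp (k + 1) _ hy' i
    have h3 : dd (A k y) (e i) = y ^ 4 * dd (A (k + 1) ((x (k + 1)).2 * y)) (e i) := by
      simp only [hA]
      rw [hChart.eta o x D k ε _ N y hx.small lh hcε hx.low hN hy,
        hChart.eta o x D' k ε _ N' y hx.small lh hcε hx.low hN' hy,
        hChart.v' o x k ε y hx.small lh (hτ _) hy, hChart.v o x k y (hτ _) hy]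
      exact dd_chart _ _ _ _ _ _ _ _
    have h4 : g k y i = y ^ 4 * g (k + 1) ((x (k + 1)).2 * y) i := by
      simp only [hg]
      rw [hChart.v o x k y (hτ _) hy, grad_smul hF.1]; rfl
    refine mul_right_cancel₀ hi ?_
    rw [← h1, h3, h2, h4]; ring
  have hN0 : 0 ≤ N := by
    have := (norm_nonneg _).trans (hN 0)
    exact nonneg_of_mul_nonneg_left this (lt_of_lt_of_le one_pos (hWalk.one_le_kw _))
  have hN0' : 0 ≤ N' := by
    have := (norm_nonneg _).trans (hN' 0)
    exact nonneg_of_mul_nonneg_left this (lt_of_lt_of_le one_pos (hWalk.one_le_kw _))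
  set M : ℝ := 2 + CA + CD / c * (N + N') with hM
  have hq : 0 ≤ CD / c := by positivity
  have hbd : ∀ k y, ‖y‖ = 1 → ‖W k y‖ ≤ 240 * M ^ 5 * (400 ^ 5) ^ k.natAbs := by
    intro k y hy
    have hy0 : y ≠ 0 := norm_pos_iff.1 (by rw [hy]; exact one_pos)
    obtain ⟨i, hi⟩ := (hnon ε F hε l2 hF).2.2.2.2 o x k y hx.small hy
    have hk := hWalk.one_le_kw k
    have hM2 : 2 + CA ≤ M := by
      have := mul_nonneg hq (add_nonneg hN0 hN0'); linarith
    have hM0 : 0 ≤ M := by linarith
    have hMk : M ≤ M * kw k := le_mul_of_one_le_right hM0 hk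
    obtain ⟨b1, b2, -⟩ := hest o x k ε y hx.small lh (by rw [hy]; norm_num) (by rw [hy]; norm_num)
    have hCε : CA * ε ≤ CA := mul_le_of_le_one_right (by linarith) (by linarith)
    have hye : ‖y • e (w o (k + 1))‖ = 1 := by rw [norm_smul, hy, hWalk.norm_e, one_mul]
    have hell : ‖ell o k y‖ ≤ 2 := by
      refine (norm_add_le _ _).trans ?_
      rw [hye, hWalk.norm_e]; norm_num
    have c1 : ‖V o x k y‖ ≤ M * kw k := by
      have := norm_le_norm_add_norm_sub' (V o x k y) (ell o k y)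
      linarith
    have c2 : ‖V' o x k y‖ ≤ M * kw k := by
      have := norm_le_norm_add_norm_sub' (V' o x k y) (y • e (w o (k + 1)))
      linarith
    have c3 : ‖Eta o x D k y‖ ≤ M * kw k := by
      refine (hD o x D k ε c _ y hε lh hc hx.small hx.low (hChart.grow D k N hN) hy).1.trans ?_
      rw [← mul_assoc]
      refine mul_le_mul_of_nonneg_right ?_ (by linarith)
      have := mul_nonneg hq hN0'
      rw [hM, mul_add]; linarith
    have c4 : ‖Eta o x D' k y‖ ≤ M * kw k := by
      refine (hD o x D' k ε c _ y hε lh hc hx.small hx.low (hChart.grow D' k N' hN') hy).1.trans ?_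
      rw [← mul_assoc]
      refine mul_le_mul_of_nonneg_right ?_ (by linarith)
      have := mul_nonneg hq hN0
      rw [hM, mul_add]; linarith
    have h1 := dd_le (A k y) (e i) (M * kw k) (by
      intro r; fin_cases r
      exacts [c1, c2, c3, c4]) (by rw [hWalk.norm_e]; linarith)
    rw [hsp k y hy0 i, norm_mul] at h1
    have h2 : ‖W k y‖ * (1 / 2) ≤ ‖W k y‖ * ‖g k y i‖ :=
      mul_le_mul_of_nonneg_left hi (norm_nonneg _)
    have h3 : (M * kw k) ^ 5 = M ^ 5 * (400 ^ 5) ^ k.natAbs := by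
      rw [mul_pow, kw, ← pow_mul, ← pow_mul, mul_comm k.natAbs]
    rw [h3] at h1
    linarith
  have hconst := hVan.const W (fun k => (x k).2) ε (400 ^ 5) (240 * M ^ 5) hτ
    (fun k => (norm_snd_le (x k)).trans (hx.small k)) (by positivity) (by linarith)
    (by
      have : (400 : ℝ) ^ 5 * ε ≤ 400 ^ 5 * (1 / (2 * 400 ^ 5)) :=
        mul_le_mul_of_nonneg_left l3 (by positivity)
      norm_num at this ⊢; linarith) hdiff hch hbd z hz
  have hz0 : W 0 z = 0 := by
    obtain ⟨i, hi⟩ := Function.ne_iff.1 (hg0 0 z hz)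
    have h1 := (dep_iff (A 0 z)).1 hdep i
    rw [hsp 0 z hz i] at h1
    exact (mul_eq_zero.1 h1).resolve_right hi
  refine (dep_iff (A 0 1)).2 fun i => ?_
  rw [hsp 0 1 one_ne_zero i, ← hconst, hz0, zero_mul]

end Pool.Agent.Lib.MP_cd3a7b_ag.Q5
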