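import Pool.Agent.Lib.MP_cd3a7b_ag.Q5.Main
import Pool.Agent.Lib.MP_cd3a7b_ag.Q5.Walk
import Pool.Agent.Lib.MP_cd3a7b_ag.Q5.Prod
import Pool.Agent.Lib.MP_cd3a7b_ag.Q5.Lau
import Pool.Agent.Lib.MP_cd3a7b_ag.Q5.Co
import Pool.Agent.Lib.MP_cd3a7b_ag.Q5.Van
import Pool.Agent.Lib.MP_cd3a7b_ag.Q5.Id
import Pool.Agent.Lib.MP_cd3a7b_ag.Q5.LA
import Pool.Agent.Lib.MP_cd3a7b_ag.Q5.Fix
import Pool.Agent.Lib.MP_cd3a7b_ag.Q5.Solve
import Pool.Agent.Lib.MP_cd3a7b_ag.Q5.SerA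
import Pool.Agent.Lib.MP_cd3a7b_ag.Q5.SerC
import Pool.Agent.Lib.MP_cd3a7b_ag.Q5.SerD
import Pool.Agent.Lib.MP_cd3a7b_ag.Q5.Chart
import Pool.Agent.Lib.MP_cd3a7b_ag.Q5.Ne
import Pool.Agent.Lib.MP_cd3a7b_ag.Q5.Poly
import Pool.Agent.Lib.MP_cd3a7b_ag.Q5.Non
import Pool.Agent.Lib.MP_cd3a7b_ag.Q5.Rec
import Pool.Agent.Lib.MP_cd3a7b_ag.Q5.Seq
import Pool.Agent.Lib.MP_cd3a7b_ag.Q5.Est
import Pool.Agent.Lib.MP_cd3a7b_ag.Q5.JD
import Pool.Agent.Lib.MP_cd3a7b_ag.Q5.Exist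
import Pool.Agent.Lib.MP_cd3a7b_ag.Q5.Wr
import Pool.Agent.Lib.MP_cd3a7b_ag.Q5.Blow
import Pool.Agent.Lib.MP_cd3a7b_ag.Q5.Limit
import Pool.Agent.Lib.MP_cd3a7b_ag.Q5.Low
import Pool.Agent.Lib.MP_cd3a7b_ag.Q5.App
import Pool.Agent.Lib.MP_cd3a7b_ag.Q5.TL
import Pool.Agent.Lib.MP_cd3a7b_ag.Q5.Fin
import Pool.Agent.Lib.MP_cd3a7b_ag.Q5.Cont
import Pool.Agent.Lib.MP_cd3a7b_ag.Q5.Avoid
import Pool.Agent.Lib.MP_cd3a7b_ag.Q5.Dep
import Pool.Agent.Lib.MP_cd3a7b_ag.Q5.Prime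
import Pool.Agent.Lib.MP_cd3a7b_ag.Q5.Form
import Pool.Agent.Lib.MP_cd3a7b_ag.Q5.Smooth
import Pool.Agent.Lib.MP_cd3a7b_ag.Q5.Top
import Pool.Agent.Lib.MP_cd3a7b_ag.Q5.Dense
import Pool.Agent.Lib.MP_cd3a7b_ag.Q5.Baire

/-! Gluing lines in a quintic threefold: all steps together. -/

namespace Pool.Agent.Lib.MP_cd3a7b_ag.Q5

open MvPolynomial

theorem aWalk : StWalk := stWalk
theorem aProd : StProd := stProd aWalk
theorem aLau : StLau := stLau
theorem aCo : StCo := stCo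
theorem aVan : StVan := stVan aCo
theorem aId : StId := stId aWalk
theorem aLA : StLA := stLA aWalk
theorem aFix : StFix := @stFix
theorem aSolve : StSolve := stSolve aWalk aLA @aFix
theorem aSerA : StSerA := stSerA aWalk aProd aLau
theorem aSerC : StSerC := stSerC aWalk aProd aLau aSerA
theorem aSerD : StSerD := stSerD aWalk aProd aLau aSerA
theorem aChart : StChart := stChart aWalk aProd aLau aSerA
theorem aNe : StNe := stNe aWalk aProd aLau aSerA aChart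
theorem aPoly : StPoly := stPoly aWalk aId
theorem aNon : StNon := stNon aWalk aId aSerA aSerC aSerD aChart aPoly
theorem aRec : StRec := stRec aWalk aCo aId aLA aSerD aNon
theorem aSeq : StSeq := stSeq aWalk
theorem aEst : StEst := stEst aWalk aSerA aSerD aRec aSeq
theorem aJD : StJD := stJD aWalk
theorem aExist : StExist := stExist aWalk aCo aVan aId aLA @aFix aSolve aChart aPoly aNon aJD
theorem aWr : StWr := stWr aWalk aVan aSerA aSerD aChart aNe aNon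
theorem aBlow : StBlow := stBlow aWalk aChart
theorem aLimit : StLimit := stLimit aWalk aProd aLau aSerA aChart
theorem aLow : StLow := stLow
theorem aApp : StApp := stApp
theorem aTL : StTL := stTL aLow aApp
theorem aFin : StFin := stFin
theorem aCont : StCont := stCont aWalk aProd aLau
theorem aAvoid : StAvoid := stAvoid aWalk aChart aBlow aLimit aTL aFin
theorem aDep : StDep := stDep
theorem aPrime : StPrime := stPrime
theorem aForm : StForm := stForm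
theorem aSmooth : StSmooth := stSmooth aWalk aPoly
theorem aTop : StTop := stTop
theorem aDense : StDense := stDense aWalk aVan aChart aCont aAvoid aDep aPrime aForm
theorem aBaire : StBaire := stBaire aChart aCont aAvoid aDep aTop aDense

theorem all : ∃ (F₁ : Pol) (δ : ℝ), F₁.IsHomogeneous 5 ∧ 0 < δ ∧ ∀ F : Pol, F.IsHomogeneous 5 →
      (∀ m, ‖coeff m F - coeff m F₁‖ < δ) → Smooth F ∧
      ∀ S : Set Pol, (∀ G ∈ S, ∃ k, G.IsHomogeneous k) → 3 ≤ (Ideal.span S).height →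
        ∃ v : ℂ → E, Differentiable ℂ v ∧ (∀ t, v t ≠ 0 ∧ eval (v t) F = 0) ∧
          (∀ t, ∃ G ∈ S, eval (v t) G ≠ 0) ∧
          ∀ (G : Pol) (k : ℕ), G.IsHomogeneous k → (∀ t, eval (v t) G = 0) → F ∣ G :=
  final (stPack aExist aEst aWr aNe aSerA aSmooth) aDense aBaire aChart

end Pool.Agent.Lib.MP_cd3a7b_ag.Q5
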