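import Pool.Agent.Lib.MP_cd3a7b_ag.H8Alg

/-! Gluing lines in a quintic threefold along a bi-infinite walk: definitions. -/

namespace Pool.Agent.Lib.MP_cd3a7b_ag.Q5

open MvPolynomial Finset Filter Topology

abbrev E : Type := Fin 5 → ℂ
abbrev Pol : Type := MvPolynomial (Fin 5) ℂ
abbrev Om : Type := ℤ → Bool
/-- A state: the pairs `(b k, tau k)`. -/
abbrev St : Type := ℤ → E × ℂ

noncomputable section

def e (i : Fin 5) : E := Pi.single i 1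
def dot (a b : E) : ℂ := ∑ i, a i * b i
def grad (F : Pol) (x : E) : E := fun i => eval x (pderiv i F)
def Smooth (F : Pol) : Prop := ∀ p : E, p ≠ 0 → eval p F = 0 → ∃ i, eval p (pderiv i F) ≠ 0

/-- The walk `0, 2, 1, x, 0, 2, 1, x', ...` with `x` in `{3, 4}`. -/
def w (o : Om) (k : ℤ) : Fin 5 :=
  if k % 4 = 0 then 0 else if k % 4 = 1 then 2 else if k % 4 = 2 then 1
  else if o (k / 4) then 3 else 4

def sh (t : ℤ) (o : Om) : Om := fun s => o (s + t)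
def shx (t : ℤ) (x : St) : St := fun k => x (k + t)

def F0 : Pol :=
  X 0 ^ 4 * X 1 + X 0 ^ 2 * X 1 * X 2 ^ 2 - 100 * X 0 * X 2 ^ 3 * X 3 + X 0 ^ 2 * X 2 ^ 2 * X 4
  + X 0 ^ 2 * X 1 * X 3 ^ 2 - 100 * X 0 * X 3 ^ 3 * X 4 + X 0 ^ 2 * X 2 * X 3 ^ 2
  + X 0 ^ 2 * X 1 * X 4 ^ 2 - 100 * X 0 * X 2 * X 4 ^ 3 + X 0 ^ 2 * X 3 * X 4 ^ 2 + X 0 * X 1 ^ 4
  + 100 * X 0 * X 1 ^ 3 * X 2 + X 0 * X 1 ^ 2 * X 2 ^ 2 - 100 * X 1 * X 2 ^ 3 * X 3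
  + X 1 ^ 2 * X 2 ^ 2 * X 4 + 100 * X 0 * X 1 ^ 3 * X 3 + X 0 * X 1 ^ 2 * X 3 ^ 2
  - 100 * X 1 * X 3 ^ 3 * X 4 + X 1 ^ 2 * X 2 * X 3 ^ 2 + 100 * X 0 * X 1 ^ 3 * X 4
  + X 0 * X 1 ^ 2 * X 4 ^ 2 - 100 * X 1 * X 2 * X 4 ^ 3 + X 1 ^ 2 * X 3 * X 4 ^ 2
  - X 2 ^ 4 * X 3 - X 3 ^ 4 * X 4 - X 2 * X 4 ^ 4

def G0 : Pol :=
  2 * X 0 ^ 3 * X 2 ^ 2 + 4 * X 0 ^ 3 * X 4 ^ 2 + 2 * X 1 ^ 3 * X 2 ^ 2 + 4 * X 1 ^ 3 * X 4 ^ 2
  + 3 * X 0 ^ 2 * X 2 ^ 3 + 3 * X 0 ^ 2 * X 3 ^ 3 + 3 * X 0 ^ 2 * X 4 ^ 3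

/-- Coefficient of `y ^ r` in the gradient of `F0` at `e i + y e j`. -/
def gc (i j : Fin 5) : Fin 5 → E :=
  if i = 0 then
    ![![0, 1, 0, 0, 0], ![0, 0, 0, 0, 0], ![0, 1, 0, 0, 1], ![0, 0, 0, -100, 0], ![0, 0, 0, -1, 0]]
  else if i = 2 then
    ![![0, 0, 0, -1, 0], ![0, 0, 0, -100, 0], ![1, 0, 0, 0, 1], ![100, 0, 0, 0, 0], ![1, 0, 0, 0, 0]]
  else if i = 3 then
    ![![0, 0, 0, 0, -1], ![0, 0, 0, 0, -100], ![0, 1, 1, 0, 0], ![0, 0, 0, 0, 0], ![0, 1, 0, 0, 0]]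
  else if i = 4 then
    ![![0, 0, -1, 0, 0], ![0, 0, -100, 0, 0], ![0, 1, 0, 1, 0], ![0, 0, 0, 0, 0], ![0, 1, 0, 0, 0]]
  else if j = 3 then
    ![![1, 0, 0, 0, 0], ![100, 0, 0, 0, 0], ![1, 0, 1, 0, 0], ![0, 0, 0, 0, -100], ![0, 0, 0, 0, -1]]
  else
    ![![1, 0, 0, 0, 0], ![100, 0, 0, 0, 0], ![1, 0, 0, 1, 0], ![0, 0, -100, 0, 0], ![0, 0, -1, 0, 0]]

/-- Coefficient of `y ^ r` in `G0 (e i + y e j)`. -/
def gm (i j : Fin 5) : Fin 6 → ℂ :=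
  if i = 0 then ![0, 0, 2, 3, 0, 0] else if i = 2 then ![0, 0, 0, 2, 0, 0]
  else if i = 3 then ![0, 0, 3, 0, 0, 0] else if i = 4 then ![0, 0, 3, 4, 0, 0]
  else if j = 3 then ![0, 0, 0, 0, 0, 0] else ![0, 0, 4, 0, 0, 0]

/-- Coefficients of the linearised equation on the line from `e i` to `e j`. -/
def Lp (h i j l : Fin 5) (b b' : E) (t t' : ℂ) : Fin 6 → ℂ :=
  ![dot (gc i j 0) b + t * gc i j 1 h,
    dot (gc i j 1) b + dot (gc i j 0) b' + t * gc i j 2 h,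
    dot (gc i j 2) b + dot (gc i j 1) b' + t * gc i j 3 h + t' * gc i j 0 l,
    dot (gc i j 3) b + dot (gc i j 2) b' + t * gc i j 4 h + t' * gc i j 1 l,
    dot (gc i j 4) b + dot (gc i j 3) b' + t' * gc i j 2 l,
    dot (gc i j 4) b' + t' * gc i j 3 l]

def L (o : Om) (x : St) (k : ℤ) : Fin 6 → ℂ :=
  Lp (w o (k - 1)) (w o k) (w o (k + 1)) (w o (k + 2)) (x k).1 (x (k + 1)).1 (x k).2 (x (k + 1)).2

def gam (o : Om) (k : ℤ) : Fin 6 → ℂ := gm (w o k) (w o (k + 1))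

def ja (k : ℤ) : ℂ := if k % 4 = 1 then 1 else -1
def jc (k : ℤ) : ℂ := if k % 4 = 3 then 1 else -1
/-- The Jacobi operator. -/
def J (t : ℤ → ℂ) (k : ℤ) : ℂ := 100 * t k + ja k * t (k - 1) + jc k * t (k + 1)
def DD (o : Om) (k : ℤ) : ℂ :=
  if k % 2 = 1 then 3 else if w o (k - 1) = 3 ∨ w o (k + 1) = 3 then 2 else 4

def len (j : ℤ) : ℕ := if 1 ≤ j then j.toNat else (1 - j).toNat
def ix (k j : ℤ) (l : ℕ) : ℤ := if 1 ≤ j then k + 1 + l else k - l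
def cc (t : ℤ → ℂ) (k j : ℤ) : ℂ := ∏ i ∈ range (len j), ∏ l ∈ range i, t (ix k j l)
def rr (t : ℤ → ℂ) (k j : ℤ) : ℂ := ∑ i ∈ range (len j), ∑ l ∈ range i, t (ix k j l)
def nn (j : ℤ) : ℕ := ∑ i ∈ range (len j), i
def kw (i : ℤ) : ℝ := 400 ^ i.natAbs

def Lau (a : ℤ → E) (y : ℂ) : E := ∑' j : ℤ, y ^ j • a j
def Fast (a : ℤ → E) : Prop := ∀ R : ℝ, 1 ≤ R → Summable fun j : ℤ => ‖a j‖ * R ^ j.natAbs

def ta (x : St) : ℤ → ℂ := fun k => (x k).2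
def u (o : Om) (x : St) (k : ℤ) : E := e (w o k) + (x k).1
def va (o : Om) (x : St) (k : ℤ) : ℤ → E := fun j => cc (ta x) k j • u o x (k + j)
def va' (o : Om) (x : St) (k : ℤ) : ℤ → E := fun j => (j : ℂ) • va o x k j
def ea (o : Om) (x D : St) (k : ℤ) : ℤ → E := fun j =>
  cc (ta x) k j • (rr (fun i => (D i).2 / (x i).2) k j • u o x (k + j) + (D (k + j)).1)
/-- The curve in the chart `k`. -/
def V (o : Om) (x : St) (k : ℤ) : ℂ → E := Lau (va o x k)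
/-- `y` times the derivative of the curve. -/
def V' (o : Om) (x : St) (k : ℤ) : ℂ → E := Lau (va' o x k)
/-- The first variation of the curve in the direction `D`. -/
def Eta (o : Om) (x D : St) (k : ℤ) : ℂ → E := Lau (ea o x D k)
def ell (o : Om) (k : ℤ) (y : ℂ) : E := e (w o k) + y • e (w o (k + 1))
def lin (o : Om) (x : St) (k : ℤ) (y : ℂ) : E :=
  (x k).1 + y • (x (k + 1)).1 + ((x k).2 * y⁻¹) • e (w o (k - 1))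
    + ((x (k + 1)).2 * y ^ 2) • e (w o (k + 2))
/-- The nonlinear part of the equation. -/
def non (F : Pol) (o : Om) (x : St) (k : ℤ) (y : ℂ) : ℂ :=
  eval (V o x k y) F - dot (grad F0 (ell o k y)) (lin o x k y)

/-- The Laurent coefficient of a function on the unit circle. -/
def co (n : ℤ) (f : ℂ → ℂ) : ℂ :=
  (2 * Real.pi * Complex.I : ℂ)⁻¹ • ∮ y in C(0, 1), y ^ (-(n + 1)) * f y

def Near (F : Pol) (ε : ℝ) : Prop := F.IsHomogeneous 5 ∧ ∀ m, ‖coeff m F - coeff m F0‖ ≤ ε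

def Agree (o o' : Om) (a b : ℤ) : Prop := ∀ i, a ≤ i → i ≤ b → w o i = w o' i
def Small (x : St) (ε : ℝ) : Prop := ∀ k, ‖x k‖ ≤ ε
def Low (x : St) (a : ℝ) : Prop := ∀ k, a ≤ ‖(x k).2‖
def Grow (D : St) (k : ℤ) (N : ℝ) : Prop := ∀ i, ‖D i‖ ≤ N * kw (i - k)
def dl (o o' : Om) (x x' : St) (ε : ℝ) (i : ℤ) : ℝ :=
  max ‖x i - x' i‖ (if w o i = w o' i then 0 else ε)
def Close (o o' : Om) (x x' : St) (ε : ℝ) (k : ℤ) (N : ℝ) : Prop :=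
  ∀ i, dl o o' x x' ε i ≤ N * kw (i - k)
def mm (D : St) (k : ℤ) : ℝ := max ‖(D k).2‖ ‖(D (k + 1)).2‖

structure Sol (F : Pol) (ε c : ℝ) (o : Om) (x : St) : Prop where
  b0 : ∀ k, (x k).1 (w o k) = 0
  small : Small x ε
  low : Low x (c * ε)
  zero : ∀ k y, y ≠ 0 → eval (V o x k y) F = 0

structure Tan (F : Pol) (o : Om) (x D : St) : Prop where
  b0 : ∀ k, (D k).1 (w o k) = 0
  grow : ∃ N, Grow D 0 N
  zero : ∀ k y, y ≠ 0 → dot (grad F (V o x k y)) (Eta o x D k y) = 0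

structure Fam (F : Pol) (ε c : ℝ) (X : Om → St) : Prop where
  sol : ∀ o, Sol F ε c o (X o)
  lb : ∀ o o' t, o t ≠ o' t →
    c * ε ≤ mm (X o - X o') (4 * t) ∧ c * ε ≤ mm (X o - X o') (4 * t + 5)

/-- The recursive inequalities at the corner `k`. -/
def Rec (a d : ℤ → ℝ) (C κ : ℝ) (k : ℤ) : Prop :=
  ∀ N, 0 ≤ N → (∀ i, d i ≤ N * kw (i - k)) →
    100 * a k ≤ a (k - 1) + a (k + 1) + κ * N ∧ a (k + 1) ≤ 100 * a k + a (k - 1) + κ * N ∧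
    a (k - 1) ≤ 100 * a k + a (k + 1) + κ * N ∧
    d k ≤ C * (a (k - 1) + a k + a (k + 1)) + κ * N

structure Est (F : Pol) (ε c C : ℝ) : Prop where
  dec : ∀ o o' x x' k (n : ℕ), Sol F ε c o x → Sol F ε c o' x' → Agree o o' (k - n) (k + n) →
    ‖x k - x' k‖ ≤ C * (1 / 2) ^ n
  ap : ∀ o o' x x' p q k, Sol F ε c o x → Sol F ε c o' x' → Agree o o' (p + 1) (q - 1) →
    p + 2 ≤ k → k ≤ q - 3 → c * ε ≤ mm (x - x') (p + 2) → c * ε ≤ mm (x - x') (q - 3) →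
    Close o o' x x' ε k (C * mm (x - x') k)
  bdd : ∀ o x D N, Sol F ε c o x → Tan F o x D → Small D N → D = 0
  ind : ∀ o x, Sol F ε c o x → LinearIndependent ℂ ![V o x 0 1, V' o x 0 1]
  nd : ∀ o x D (α β : ℂ), Sol F ε c o x → Tan F o x D →
    Eta o x D 0 1 = α • V o x 0 1 + β • V' o x 0 1 → D = 0

/-- Constancy of the Wronskian, in the form in which it is used. -/
def Wr (F : Pol) (ε c : ℝ) : Prop :=
  ∀ o x D D' z, Sol F ε c o x → Tan F o x D → Tan F o x D' → z ≠ 0 →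
    ¬ LinearIndependent ℂ ![V o x 0 z, V' o x 0 z, Eta o x D 0 z, Eta o x D' 0 z] →
    ¬ LinearIndependent ℂ ![V o x 0 1, V' o x 0 1, Eta o x D 0 1, Eta o x D' 0 1]

def Dep (Z : Set E) : Prop :=
  ∀ A : Fin 3 → Pol, ∃ P : MvPolynomial (Fin 3) ℂ, P ≠ 0 ∧
    ∀ x ∈ Z, eval (fun i => eval x (A i)) P = 0

def IsCone (Z : Set E) : Prop := ∀ (c : ℂ), ∀ x ∈ Z, c • x ∈ Z

/-- `η` is a limit of normalised displacements from the curve `v` to `Z` near the parameter `a`. -/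
def Lim (v : ℂ → E) (a : ℂ) (Z : Set E) (η : E) : Prop :=
  ∃ (l : Filter ℕ) (z : ℕ → ℂ) (s : ℕ → ℝ) (x : ℕ → E), l.NeBot ∧ Tendsto z l (𝓝 a) ∧
    Tendsto s l (𝓝 0) ∧ (∀ n, 0 < s n) ∧ (∀ᶠ n in l, x n ∈ Z) ∧
    Tendsto (fun n => ((s n : ℂ))⁻¹ • (x n - v (z n))) l (𝓝 η)

def Ann (R : ℝ) : Set ℂ := {z | R⁻¹ ≤ ‖z‖ ∧ ‖z‖ ≤ R}

end

end Pool.Agent.Lib.MP_cd3a7b_ag.Q5
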