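import Pool.Agent.Lib.MP_cd3a7b_ag.Q5.St

/-! Existence of the glued curves by a contraction. -/

namespace Pool.Agent.Lib.MP_cd3a7b_ag.Q5

open MvPolynomial Finset Filter Topology

namespace ExistAux

lemma coeff_bound (G : Pol) : ∃ B : ℝ, 1 ≤ B ∧ ∀ m, ‖coeff m G‖ ≤ B := by
  classical
  refine ⟨1 + ∑ m ∈ G.support, ‖coeff m G‖, le_add_of_nonneg_right (by positivity), fun m => ?_⟩
  by_cases h : m ∈ G.support
  · have := Finset.single_le_sum (f := fun m => ‖coeff m G‖) (fun _ _ => norm_nonneg _) h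
    linarith
  · rw [notMem_support_iff.1 h, norm_zero]; positivity

lemma eval_smul5 {F : Pol} (hF : F.IsHomogeneous 5) (c : ℂ) (v : E) :
    eval (c • v) F = c ^ 5 * eval v F := by
  rw [← eval_w_alg hF c v]
  congr 2
  funext o
  simp

lemma ell_le (hWalk : StWalk) (o : Om) (k : ℤ) {y : ℂ} (hy : ‖y‖ = 1) : ‖ell o k y‖ ≤ 3 := by
  have := norm_add_le (e (w o k)) (y • e (w o (k + 1)))
  rw [norm_smul, hy, hWalk.norm_e, hWalk.norm_e] at this
  unfold ell; linarith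

lemma poly_cont (a : Fin 6 → ℂ) :
    ContinuousOn (fun y : ℂ => ∑ s, a s * y ^ (s : ℕ)) (Metric.sphere 0 1) :=
  Continuous.continuousOn (by fun_prop)

/-- the curve lies on the hypersurface once the first five coefficients vanish -/
lemma zero (hCo : StCo) (hVan : StVan) (hId : StId) (hChart : StChart) {F : Pol}
    (hF : F.IsHomogeneous 5) {o : Om} {x : St} {ε : ℝ} (hx : Small x ε) (hε : ε ≤ 1 / 2)
    (ht : ∀ k, (x k).2 ≠ 0) (hc : ∀ k, ContinuousOn (non F o x k) (Metric.sphere 0 1))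
    (hL : ∀ k (r : Fin 5), L o x k r.castSucc = -co (r : ℕ) (non F o x k)) :
    ∀ k y, y ≠ 0 → eval (V o x k y) F = 0 := by
  refine hVan.van (fun k y => eval (V o x k y) F) (ta x) ht (fun k y hy => ?_)
    (fun k y hy => ?_) fun k r => ?_
  · exact ((differentiable_eval F _).comp y
      (hChart.der o x k ε y hx hε hy).1.differentiableAt).differentiableWithinAt
  · rw [hChart.v o x k y (ht _) hy, eval_smul5 hF]; rfl
  · rw [hCo.congr _ _ (fun y => non F o x k y + ∑ s, L o x k s * y ^ (s : ℕ)) fun y hy => ?_,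
      (hCo.add _ _ _ (hc k) (poly_cont _)).1]
    · have := hCo.poly (L o x k) r.castSucc
      rw [Fin.val_castSucc] at this
      rw [this, hL, add_neg_cancel]
    · have h0 : y ≠ 0 := fun h => by simp [h] at hy
      rw [← hId.lin o x k y h0, non, sub_add_cancel]

/-- one walk -/
lemma one (hWalk : StWalk) (hCo : StCo) (hId : StId) (hLA : StLA) (hFix : StFix)
    {F : Pol} {ε s M K Cs : ℝ} (hε : 0 < ε) (hCs : 0 ≤ Cs) {o : Om}
    (Ψ : (ℤ → Fin 5 → ℂ) → St)
    (h1 : ∀ ρ (M : ℝ), (∀ k r, ‖ρ k r‖ ≤ M) → (∀ k, (Ψ ρ k).1 (w o k) = 0) ∧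
      Small (Ψ ρ) (Cs * M) ∧ ∀ k (r : Fin 5), L o (Ψ ρ) k r.castSucc = ρ k r)
    (h2 : ∀ ρ ρ' (M B : ℝ), (∀ k r, ‖ρ k r‖ ≤ B) → (∀ k r, ‖ρ' k r‖ ≤ B) →
      (∀ k r, ‖ρ k r - ρ' k r‖ ≤ M) → Small (Ψ ρ - Ψ ρ') (Cs * M))
    (hc : ∀ x k, Small x ε → ContinuousOn (non F o x k) (Metric.sphere 0 1))
    (hM : ∀ x k y, Small x ε → ‖y‖ = 1 → ‖non F o x k y‖ ≤ M)
    (hK : ∀ x k y, Small x ε → ‖y‖ = 1 →
      ‖non F o x k y - s * eval (ell o k y) G0‖ ≤ K * ε ^ 2)
    (hlip : ∀ x x' k (N : ℝ) y, Small x ε → Small x' ε → Close o o x x' ε k N → ‖y‖ = 1 →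
      ‖non F o x k y - non F o x' k y‖ ≤ K * ε * N)
    (hMε : Cs * M ≤ ε) (hKε : Cs * K * ε ≤ 1 / 2) :
    ∃ x : St, (∀ k, (x k).1 (w o k) = 0) ∧ Small x ε ∧
      (∀ k (r : Fin 5), L o x k r.castSucc = -co (r : ℕ) (non F o x k)) ∧
      ∀ k r, ‖L o x k r + s * gam o k r‖ ≤ K * ε ^ 2 := by
  set ρ : St → ℤ → Fin 5 → ℂ := fun x k r => -co (r : ℕ) (non F o x k) with hρ
  have hb : ∀ x, Small x ε → ∀ k r, ‖ρ x k r‖ ≤ M := fun x hx k r => by
    rw [hρ, norm_neg]; exact hCo.bound _ _ _ fun y hy => hM x k y hx hy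
  obtain ⟨x, hx, hfix⟩ := hFix (fun x => Ψ (ρ x)) ε hε.le
    (fun x hx k => ((h1 _ _ (hb x hx)).2.1 k).trans hMε) fun x x' N hx hx' hN k => by
      have hN0 : 0 ≤ N := (norm_nonneg _).trans (hN 0)
      refine (h2 _ _ (K * ε * N) M (hb x hx) (hb x' hx') (fun j r => ?_) k).trans ?_
      · rw [hρ, neg_sub_neg, norm_sub_rev, ← (hCo.add _ _ _ (hc x j hx) (hc x' j hx')).2]
        refine hCo.bound _ _ _ fun y hy => hlip x x' j N y hx hx' (fun i => ?_) hy
        have := hWalk.one_le_kw (i - j)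
        simp only [dl, if_true]
        exact (max_le (hN i) hN0).trans (le_mul_of_one_le_right hN0 this)
      · nlinarith [mul_le_mul_of_nonneg_right hKε hN0]
  have hS := h1 _ _ (hb x hx)
  rw [hfix] at hS
  have h5 : ∀ k (r : Fin 5), ‖L o x k r.castSucc + s * gam o k r.castSucc‖ ≤ K * ε ^ 2 := by
    intro k r
    have e1 := hCo.poly (fun r => s * gam o k r) r.castSucc
    rw [Fin.val_castSucc] at e1
    rw [hS.2.2 k r, ← e1, hρ, neg_add_eq_sub, norm_sub_rev,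
      ← (hCo.add _ _ _ (hc x k hx) (poly_cont _)).2]
    refine hCo.bound _ _ _ fun y hy => ?_
    have := hK x k y hx hy
    rw [hId.g0, Finset.mul_sum] at this
    simpa only [mul_assoc] using this
  refine ⟨x, hS.1, hx, hS.2.2, fun k r => ?_⟩
  induction r using Fin.lastCases with
  | cast r => exact h5 k r
  | last =>
    have := h5 (k + 1) 0
    rw [show (0 : Fin 5).castSucc = 0 from rfl, (hLA.top o x (k + 1)).2.2] at this
    rw [show Fin.last 5 = 5 from rfl, (hLA.top o x k).1, (hLA.top o x k).2.1]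
    exact this

end ExistAux

open ExistAux in
theorem stExist (hWalk : StWalk) (hCo : StCo) (hVan : StVan) (hId : StId) (hLA : StLA)
    (hFix : StFix) (hSolve : StSolve) (hChart : StChart) (hPoly : StPoly) (hNon : StNon)
    (hJD : StJD) : StExist := by
  obtain ⟨Cs, hCs, hΨ⟩ := hSolve
  obtain ⟨Cn, ε₁, hCn, hε₁, hhalf, hN⟩ := hNon
  obtain ⟨Cj, hCj, hjac⟩ := hLA.jac
  obtain ⟨Cp, hCp, hP, -⟩ := hPoly
  obtain ⟨Cg, hCg, hG⟩ := coeff_bound G0
  obtain ⟨A, hA⟩ : ∃ A : ℝ, A = 2 * Cs * Cp * Cg := ⟨_, rfl⟩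
  obtain ⟨K, hK⟩ : ∃ K : ℝ, K = Cn + Cp := ⟨_, rfl⟩
  have hsp : 1 ≤ Cs * Cp := one_le_mul_of_one_le_of_one_le hCs hCp
  have hpg : 1 ≤ Cp * Cg := one_le_mul_of_one_le_of_one_le hCp hCg
  have hAg : 2 * Cg ≤ A := by rw [hA]; nlinarith
  have hAs : 2 * Cs ≤ A := by rw [hA]; nlinarith
  have hA0 : 0 < A := by linarith
  have hK0 : 0 < K := by rw [hK]; linarith
  have hCj0 : 0 < Cj := by linarith
  refine ⟨1 / (10000 * A), min ε₁ (1 / (1000 * A * Cj * K)), by positivity,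
    lt_min hε₁ (by positivity), fun ε hε hle => ?_⟩
  have hl1 : ε ≤ ε₁ := hle.trans (min_le_left _ _)
  have hl2 : 1000 * A * Cj * K * ε ≤ 1 := by
    have := hle.trans (min_le_right _ _)
    rw [le_div_iff₀ (by positivity)] at this
    linarith
  have hl3 : ε ≤ 1 / 2 := hl1.trans hhalf
  obtain ⟨s, hs⟩ : ∃ s : ℝ, s = ε / A := ⟨_, rfl⟩
  have hs0 : 0 < s := by rw [hs]; positivity
  have hsA : s * A = ε := by rw [hs]; field_simp
  have hKε : Cs * K * ε ≤ 1 / 2 := by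
    have h1 : 0 ≤ K * ε := by positivity
    have h2 : A ≤ A * Cj := le_mul_of_one_le_right hA0.le hCj
    nlinarith [mul_le_mul_of_nonneg_right (hAs.trans h2) h1, mul_nonneg hA0.le h1,
      mul_nonneg (mul_nonneg hA0.le hCj0.le) h1]
  refine ⟨F0 + C (s : ℂ) * G0, ε ^ 2, hId.hom.1.add (hId.hom.2.C_mul _), by positivity,
    fun F hF hδ => ?_⟩
  have hnear : Near F ε := ⟨hF, fun m => by
    have h1 := hδ m
    rw [coeff_add, coeff_C_mul] at h1
    have h2 : ‖(s : ℂ) * coeff m G0‖ ≤ s * Cg := by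
      rw [norm_mul, Complex.norm_real, Real.norm_of_nonneg hs0.le]
      exact mul_le_mul_of_nonneg_left (hG m) hs0.le
    have h3 := norm_add_le (coeff m F - (coeff m F0 + s * coeff m G0)) (s * coeff m G0)
    rw [show coeff m F - (coeff m F0 + s * coeff m G0) + s * coeff m G0 =
      coeff m F - coeff m F0 by ring] at h3
    nlinarith [mul_le_mul_of_nonneg_left hAg hs0.le]⟩
  refine ⟨hnear, ?_⟩
  obtain ⟨n1, n2, n3, -⟩ := hN ε F hε hl1 hnear
  have hKK : ∀ o x k y, Small x ε → ‖y‖ = 1 →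
      ‖non F o x k y - s * eval (ell o k y) G0‖ ≤ K * ε ^ 2 := fun o x k y hx hy => by
    have h1 := (hP (F - (F0 + C (s : ℂ) * G0)) (ε ^ 2) (ell o k y)
      (hF.sub (hId.hom.1.add (hId.hom.2.C_mul _))) (fun m => by
        rw [coeff_sub]; exact (hδ m).le) (ell_le hWalk o k hy)).1
    rw [map_sub, map_add, map_mul, eval_C, hId.f0, zero_add] at h1
    have h2 := norm_add_le (non F o x k y - eval (ell o k y) F)
      (eval (ell o k y) F - s * eval (ell o k y) G0)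
    rw [sub_add_sub_cancel] at h2
    have h3 := n2 o x k y hx hy
    rw [hK]; linarith
  have hMM : ∀ o x k y, Small x ε → ‖y‖ = 1 →
      ‖non F o x k y‖ ≤ K * ε ^ 2 + s * (Cp * Cg) := fun o x k y hx hy => by
    have h1 := (hP G0 Cg (ell o k y) hId.hom.2 hG (ell_le hWalk o k hy)).1
    have h2 := norm_add_le (non F o x k y - s * eval (ell o k y) G0) (s * eval (ell o k y) G0)
    rw [sub_add_cancel, norm_mul, Complex.norm_real, Real.norm_of_nonneg hs0.le] at h2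
    linarith [hKK o x k y hx hy, mul_le_mul_of_nonneg_left h1 hs0.le]
  have hMε : Cs * (K * ε ^ 2 + s * (Cp * Cg)) ≤ ε := by
    have h1 := mul_le_mul_of_nonneg_right hKε hε.le
    have h2 : Cs * (s * (Cp * Cg)) = ε / 2 := by rw [← hsA, hA]; ring
    nlinarith
  have hall : ∀ o, ∃ x : St, (∀ k, (x k).1 (w o k) = 0) ∧ Small x ε ∧
      (∀ k (r : Fin 5), L o x k r.castSucc = -co (r : ℕ) (non F o x k)) ∧
      ∀ k r, ‖L o x k r + s * gam o k r‖ ≤ K * ε ^ 2 := fun o => by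
    obtain ⟨Ψ, h1, h2⟩ := hΨ o
    refine one hWalk hCo hId hLA hFix hε (by linarith) Ψ h1 h2 (n1 o) (hMM o) (hKK o)
      (fun x x' k N y hx hx' hc hy => ?_) hMε hKε
    have hN0 : 0 ≤ N := by
      have h3 := ((norm_nonneg _).trans (le_max_left _ _)).trans (hc k)
      exact nonneg_of_mul_nonneg_left h3 (lt_of_lt_of_le one_pos (hWalk.one_le_kw _))
    refine (n3 o o x x' k N y hx hx' (fun _ _ _ => rfl) hc hy).trans ?_
    have : Cn ≤ K := by rw [hK]; linarith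
    gcongr
  choose X hb hsm hL hJ using hall
  obtain ⟨j1, j2⟩ := hJD (fun o => ta (X o)) s hs0
    (fun o => ⟨ε, fun k => (norm_snd_le _).trans (hsm o k)⟩) fun o k => by
      refine (hjac o (X o) k s _ (hJ o (k - 1)) (hJ o k)).trans ?_
      have h1 : Cj * (K * ε ^ 2) = 1000 * A * Cj * K * ε * (s / 1000) := by rw [← hsA]; ring
      rw [h1]
      exact mul_le_of_le_one_left (by positivity) hl2
  have hcε : 1 / (10000 * A) * ε = s / 10000 := by rw [hs]; field_simp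
  refine ⟨X, fun o => ⟨hb o, hsm o, fun k => ?_, zero hCo hVan hId hChart hF (hsm o) hl3
    (fun k h => ?_) (fun k => n1 o _ k (hsm o)) (hL o)⟩, fun o o' t ht => ?_⟩
  · have := j1 o k
    rw [hcε]; simp only [ta] at this; linarith
  · have := j1 o k
    simp only [ta, h, norm_zero] at this; linarith
  · rw [hcε]; exact j2 o o' t ht

end Pool.Agent.Lib.MP_cd3a7b_ag.Q5
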