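import Pool.Agent.Lib.MP_cd3a7b_ag.Q5.St

/-! Gluing lines in a quintic threefold: assembly. -/

namespace Pool.Agent.Lib.MP_cd3a7b_ag.Q5

open MvPolynomial Finset Filter Topology

theorem stPack (hE : StExist) (hEst : StEst) (hW : StWr) (hN : StNe) (hA : StSerA)
    (hS : StSmooth) : StPack := by
  obtain ⟨c, ε₀, hc, hε₀, h1⟩ := hE
  obtain ⟨C, ε₁, hC, hε₁, h2⟩ := hEst c hc
  obtain ⟨ε₂, hε₂, h3⟩ := hW c hc
  obtain ⟨ε₃, hε₃, h4⟩ := hN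
  obtain ⟨A, hA1, h5⟩ := hA.est
  have hA0 : 0 < A := by linarith
  obtain ⟨ε, hε, k0, k1, k2, k3, k4, k5⟩ : ∃ ε : ℝ, 0 < ε ∧ ε ≤ ε₀ ∧ ε ≤ ε₁ ∧ ε ≤ ε₂ ∧ ε ≤ ε₃ ∧
      ε ≤ 1 / 2 ∧ ε ≤ 1 / 100 / A :=
    ⟨min ε₀ (min ε₁ (min ε₂ (min ε₃ (min (1 / 2) (1 / 100 / A))))), by positivity, by simp, by simp,
      by simp, by simp, (min_le_right _ _).trans ((min_le_right _ _).trans ((min_le_right _ _).trans
        ((min_le_right _ _).trans (min_le_left _ _)))), (min_le_right _ _).trans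
        ((min_le_right _ _).trans ((min_le_right _ _).trans
        ((min_le_right _ _).trans (min_le_right _ _))))⟩
  obtain ⟨F₁, δ, g1, g2, g3⟩ := h1 ε hε k0
  obtain ⟨F₂, δ₂, g4, g5, g6⟩ := hS F₁ δ g1 g2
  refine ⟨F₂, δ₂, g4, g5, fun F hF hb => ?_⟩
  obtain ⟨g7, g8⟩ := g6 F hF hb
  obtain ⟨g9, X, hX⟩ := g3 F hF g7
  refine ⟨ε, c, C, X, hε, k4, hc, hC, hF, g8, hX, h2 ε F hε k1 g9, h3 ε F hε k2 g9 g8,
    fun o => h4 o (X o) ε (c * ε) k3 (hX.sol o).small (by positivity) (hX.sol o).low,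
    fun o y hy hy' => ?_⟩
  have h6 := (h5 o (X o) 0 ε y (hX.sol o).small k4 hy hy').1
  have h7 : ell o 0 y = e 0 + y • e 2 := by simp [ell, w]
  rw [h7] at h6
  refine h6.trans ?_
  rw [le_div_iff₀ hA0] at k5
  linarith

theorem final (hP : StPack) (hD : StDense) (hB : StBaire) (hC : StChart) :
    ∃ (F₁ : Pol) (δ : ℝ), F₁.IsHomogeneous 5 ∧ 0 < δ ∧ ∀ F : Pol, F.IsHomogeneous 5 →
      (∀ m, ‖coeff m F - coeff m F₁‖ < δ) → Smooth F ∧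
      ∀ S : Set Pol, (∀ G ∈ S, ∃ k, G.IsHomogeneous k) → 3 ≤ (Ideal.span S).height →
        ∃ v : ℂ → E, Differentiable ℂ v ∧ (∀ t, v t ≠ 0 ∧ eval (v t) F = 0) ∧
          (∀ t, ∃ G ∈ S, eval (v t) G ≠ 0) ∧
          ∀ (G : Pol) (k : ℕ), G.IsHomogeneous k → (∀ t, eval (v t) G = 0) → F ∣ G := by
  obtain ⟨F₁, δ, h1, h2, h3⟩ := hP
  refine ⟨F₁, δ, h1, h2, fun F hF hb => ?_⟩
  obtain ⟨ε, c, C, X, hp⟩ := h3 F hF hb
  refine ⟨hp.smooth, fun S hS hh => ?_⟩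
  obtain ⟨o, ho, h4⟩ := hB F ε c C X hp S hS hh
  refine ⟨fun t => V o (X o) 0 (Complex.exp t), fun t => ?_, fun t => ⟨hp.ne o 0 _
    (Complex.exp_ne_zero t), (hp.fam.sol o).zero 0 _ (Complex.exp_ne_zero t)⟩,
    fun t => h4 _ (Complex.exp_ne_zero t), fun G k hG h5 => hD F ε c C X hp o ho G k hG
      fun z hz => ?_⟩
  · exact (hC.der o (X o) 0 ε _ (hp.fam.sol o).small hp.half
      (Complex.exp_ne_zero t)).1.differentiableAt.comp t Complex.differentiable_exp.differentiableAt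
  · simpa [Complex.exp_log hz] using h5 (Complex.log z)

end Pool.Agent.Lib.MP_cd3a7b_ag.Q5
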