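import Pool.Agent.Lib.MP_cd3a7b_ag.Q5.St

/-! A smooth quintic form in five variables is prime. -/

namespace Pool.Agent.Lib.MP_cd3a7b_ag.Q5

open MvPolynomial

namespace PrimeAux

/-- Scaling all variables by a new one. -/
noncomputable def sc : Pol →ₐ[ℂ] Polynomial Pol :=
  aeval fun i => Polynomial.X * Polynomial.C (X i)

theorem sc_hom {F : Pol} {n : ℕ} (hF : F.IsHomogeneous n) :
    sc F = Polynomial.monomial n F := by
  conv_lhs => rw [F.as_sum]
  conv_rhs => rw [F.as_sum]
  rw [map_sum, map_sum]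
  refine Finset.sum_congr rfl fun d hd => ?_
  have h1 : ∑ i, d i = n := by
    have := hF (mem_support_iff.1 hd)
    simpa [Finsupp.weight_apply, Finsupp.sum_fintype] using this
  rw [sc, aeval_monomial, monomial_eq, Finsupp.prod_fintype _ _ (by simp),
    Finsupp.prod_fintype _ _ (by simp), ← Polynomial.C_mul_X_pow_eq_monomial]
  simp only [mul_pow, Finset.prod_mul_distrib, Finset.prod_pow_eq_pow_sum, h1, map_mul, map_prod,
    map_pow]
  rw [Polynomial.algebraMap_apply, algebraMap_eq]
  ring

theorem sc_eval (t : ℂ) (A : Pol) :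
    (sc A).eval (C t) = aeval (fun i => C t * X i : Fin 5 → Pol) A := by
  induction A using MvPolynomial.induction_on with
  | C a => simp [sc]
  | add p q hp hq => simp only [map_add, Polynomial.eval_add, hp, hq]
  | mul_X p i hp =>
    rw [map_mul, map_mul, Polynomial.eval_mul, hp, sc, aeval_X, aeval_X, Polynomial.eval_mul,
      Polynomial.eval_X, Polynomial.eval_C]

theorem sc_one (A : Pol) : (sc A).eval 1 = A := by
  have := sc_eval 1 A
  simpa using this

theorem sc_zero (A : Pol) : (sc A).coeff 0 = C (eval 0 A) := by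
  rw [Polynomial.coeff_zero_eq_eval_zero]
  induction A using MvPolynomial.induction_on with
  | C a => simp [sc]
  | add p q hp hq => simp only [map_add, Polynomial.eval_add, hp, hq]
  | mul_X p i _ =>
    rw [map_mul, map_mul, Polynomial.eval_mul]
    simp [sc]

theorem unit {F A B : Pol} (hF : F.IsHomogeneous 5) (h0 : F ≠ 0) (h : F = A * B)
    (hA : eval 0 A ≠ 0) : IsUnit A := by
  have h1 : sc A * sc B = Polynomial.monomial 5 F := by rw [← map_mul, ← h, sc_hom hF]
  have h2 : sc A * sc B ≠ 0 := by rw [h1]; simpa using h0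
  have hA0 := left_ne_zero_of_mul h2
  have hB0 := right_ne_zero_of_mul h2
  have h3 := Polynomial.natDegree_mul hA0 hB0
  have h4 := Polynomial.natTrailingDegree_mul hA0 hB0
  rw [h1, Polynomial.natDegree_monomial_eq _ h0] at h3
  rw [h1, Polynomial.natTrailingDegree_monomial h0] at h4
  have h5 := (sc B).natTrailingDegree_le_natDegree
  have h6 : (sc A).natTrailingDegree = 0 :=
    Polynomial.natTrailingDegree_eq_zero.2 (.inr (by rw [sc_zero]; simpa using hA))
  have h7 := Polynomial.eq_C_of_natDegree_eq_zero (p := sc A) (by omega)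
  have h8 := sc_one A
  rw [h7, Polynomial.eval_C, sc_zero] at h8
  rw [← h8]
  exact (IsUnit.mk0 _ hA).map C

/-- The kernel of setting the first `k` variables to zero. -/
noncomputable def K (k : ℕ) : Ideal Pol :=
  RingHom.ker (aeval fun i : Fin 5 => if (i : ℕ) < k then (0 : Pol) else X i : Pol →ₐ[ℂ] Pol)

theorem K_prime (k : ℕ) : (K k).IsPrime := RingHom.ker_isPrime _

theorem K_le (k : ℕ) : K k ≤ K (k + 1) := fun G hG => by
  have h : (aeval fun i : Fin 5 => if (i : ℕ) < k + 1 then (0 : Pol) else X i : Pol →ₐ[ℂ] Pol) =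
      (aeval fun i : Fin 5 => if (i : ℕ) < k + 1 then (0 : Pol) else X i : Pol →ₐ[ℂ] Pol).comp
        (aeval fun i : Fin 5 => if (i : ℕ) < k then (0 : Pol) else X i) := by
    ext1 i
    by_cases hi : (i : ℕ) < k
    · simp [hi, hi.le]
    · simp [hi]
  rw [K, RingHom.mem_ker] at hG ⊢
  rw [h, AlgHom.comp_apply, hG, map_zero]

theorem K_lt (i : Fin 5) : K i < K (i + 1) :=
  lt_of_le_of_ne (K_le i) fun h => by
    have h1 : (X i : Pol) ∈ K (i + 1) := by simp [K, RingHom.mem_ker]
    rw [← h] at h1
    simp [K, RingHom.mem_ker] at h1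

theorem K_height : 3 ≤ (K 3).height := by
  have := K_prime
  have h0 := Ideal.height_add_one_le_of_lt_of_isPrime (K_lt 0)
  have h1 := Ideal.height_add_one_le_of_lt_of_isPrime (K_lt 1)
  have h2 := Ideal.height_add_one_le_of_lt_of_isPrime (K_lt 2)
  change (K 0).height + 1 ≤ (K 1).height at h0
  change (K 1).height + 1 ≤ (K 2).height at h1
  change (K 2).height + 1 ≤ (K 3).height at h2
  calc (3 : ℕ∞) = 0 + 1 + 1 + 1 := by norm_num
    _ ≤ (K 0).height + 1 + 1 + 1 := by gcongr; exact zero_le
    _ ≤ (K 1).height + 1 + 1 := by gcongr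
    _ ≤ (K 2).height + 1 := by gcongr
    _ ≤ _ := h2

theorem K_sub {P : Ideal Pol} (h : ∀ i, X i ∈ P) (k : ℕ) : K k ≤ P := fun G hG => by
  have key : ∀ H : Pol, H - (aeval fun i : Fin 5 =>
      if (i : ℕ) < k then (0 : Pol) else X i : Pol →ₐ[ℂ] Pol) H ∈ P := fun H => by
    induction H using MvPolynomial.induction_on with
    | C a => simp
    | add p q hp hq =>
      rw [map_add, add_sub_add_comm]
      exact add_mem hp hq
    | mul_X p i _ =>
      rw [map_mul, aeval_X]
      refine sub_mem (P.mul_mem_left _ (h i)) (P.mul_mem_left _ ?_)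
      split_ifs
      exacts [zero_mem _, h i]
  have := key G
  rwa [RingHom.mem_ker.1 hG, sub_zero] at this

theorem common {A B : Pol} (hA : eval 0 A = 0) (hB : eval 0 B = 0) :
    ∃ p : E, p ≠ 0 ∧ eval p A = 0 ∧ eval p B = 0 := by
  classical
  by_contra hne
  have hle : Ideal.span (({A, B} : Finset Pol) : Set Pol) ≤ RingHom.ker (eval (0 : E)) :=
    Ideal.span_le.2 (by
      intro G hG
      simp only [Finset.coe_insert, Finset.coe_singleton, Set.mem_insert_iff,
        Set.mem_singleton_iff] at hG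
      rcases hG with rfl | rfl
      exacts [hA, hB])
  have := RingHom.ker_isPrime (eval (0 : E))
  obtain ⟨P, hP, -⟩ := Ideal.exists_minimalPrimes_le hle
  have h1 := Ideal.height_le_card_of_mem_minimalPrimes_span_finset hP
  have hp : P.IsPrime := hP.1.1
  have h2 : ∀ i, X i ∈ P := fun i => by
    rw [← IsPrime.vanishingIdeal_zeroLocus (K := ℂ) P, mem_vanishingIdeal_iff]
    intro x hx
    have hx' : ∀ G ∈ P, eval x G = 0 := fun G hG => by
      simpa [aeval_eq_eval] using mem_zeroLocus_iff.1 hx G hG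
    have h3 : x = 0 := by
      by_contra h4
      exact hne ⟨x, h4, hx' A (hP.1.2 (Ideal.subset_span (by simp))),
        hx' B (hP.1.2 (Ideal.subset_span (by simp)))⟩
    simp [h3]
  have h3 := K_height.trans ((Ideal.height_mono (K_sub h2 3)).trans h1)
  have h4 : ({A, B} : Finset Pol).card ≤ 2 := Finset.card_le_two
  have h5 : 3 ≤ ({A, B} : Finset Pol).card := by exact_mod_cast h3
  omega

end PrimeAux

open PrimeAux in
theorem stPrime : StPrime := by
  intro F hF hS
  have h0 : F ≠ 0 := by
    rintro rfl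
    obtain ⟨i, hi⟩ := hS (fun _ => 1) (fun h => one_ne_zero (congrFun h 0)) (by simp)
    simp at hi
  refine Irreducible.prime ⟨fun hu => ?_, fun A B h => ?_⟩
  · have h1 := hu.map (eval (0 : E))
    have h2 := sc_zero F
    rw [sc_hom hF, Polynomial.coeff_monomial, if_neg (by norm_num)] at h2
    exact h1.ne_zero (by simpa using h2.symm)
  by_contra hn
  obtain ⟨hA, hB⟩ := not_or.1 hn
  obtain ⟨p, hp, h1, h2⟩ := common (A := A) (B := B)
    (by_contra fun e => hA (unit hF h0 h e))
    (by_contra fun e => hB (unit hF h0 (h.trans (mul_comm _ _)) e))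
  obtain ⟨i, hi⟩ := hS p hp (by rw [h, map_mul, h1, zero_mul])
  exact hi (by simp [h, Derivation.leibniz, h1, h2])

end Pool.Agent.Lib.MP_cd3a7b_ag.Q5
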