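import Pool.Agent.Lib.MP_cd3a7b_ag.Q5.St

namespace Pool.Agent.Lib.MP_cd3a7b_ag.Q5

open MvPolynomial Finset Filter Topology

namespace SerAAux

/-- the majorant -/
noncomputable def g (A : ℝ) (j : ℤ) : ℝ :=
  ((nn j : ℝ) + 1) * ((j.natAbs : ℝ) + 1) * (1 / 2) ^ nn j * A ^ j.natAbs

theorem eps_nonneg {x : St} {ε : ℝ} (h : Small x ε) : 0 ≤ ε := (norm_nonneg _).trans (h 0)

theorem norm_u (hW : StWalk) (o : Om) {x : St} {ε : ℝ} (h : Small x ε) (hε : ε ≤ 1 / 2) (k : ℤ) :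
    ‖u o x k‖ ≤ 2 := by
  have := norm_add_le (e (w o k)) (x k).1
  have h2 := (norm_fst_le (x k)).trans (h k)
  rw [hW.norm_e] at this
  unfold u; linarith

theorem norm_cc (hP : StProd) {x : St} {ε : ℝ} (h : Small x ε) (k j : ℤ) :
    ‖cc (ta x) k j‖ ≤ ε ^ nn j :=
  hP.bound _ ε k j (eps_nonneg h) fun i => (norm_snd_le (x i)).trans (h i)

theorem norm_va (hW : StWalk) (hP : StProd) (o : Om) {x : St} {ε : ℝ} (h : Small x ε)
    (hε : ε ≤ 1 / 2) (k j : ℤ) : ‖va o x k j‖ ≤ ε ^ nn j * 2 := by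
  unfold va
  rw [norm_smul]
  exact mul_le_mul (norm_cc hP h k j) (norm_u hW o h hε _) (norm_nonneg _)
    (pow_nonneg (eps_nonneg h) _)

theorem norm_zpow_le {y : ℂ} (h1 : 1 / 2 ≤ ‖y‖) (h2 : ‖y‖ ≤ 2) (j : ℤ) :
    ‖y ^ j‖ ≤ 2 ^ j.natAbs := by
  rw [norm_zpow]
  rcases Int.natAbs_eq j with h | h
  · conv_lhs => rw [h]
    rw [zpow_natCast]
    exact pow_le_pow_left₀ (norm_nonneg _) h2 _
  · conv_lhs => rw [h]
    rw [zpow_neg, zpow_natCast, ← inv_pow]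
    exact pow_le_pow_left₀ (by positivity) (inv_le_of_inv_le₀ (by norm_num) (by linarith)) _

theorem tail (T : ℤ → E) (B : ℤ → ℝ) (hT : Summable T) (hB : Summable B) (h0 : ∀ j, 0 ≤ B j)
    (h : ∀ j, j ≤ -2 ∨ 3 ≤ j → ‖T j‖ ≤ B j) :
    ‖∑' j, T j - (T (-1) + T 0 + T 1 + T 2)‖ ≤ ∑' j, B j := by
  have e1 : T (-1) + T 0 + T 1 + T 2 = ∑ j ∈ ({-1, 0, 1, 2} : Finset ℤ), T j := by
    simp [add_assoc]
  have hs : HasSum (fun j => if j ∈ ({-1, 0, 1, 2} : Finset ℤ) then T j else 0)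
      (∑ j ∈ ({-1, 0, 1, 2} : Finset ℤ), T j) := by
    have := hasSum_sum_of_ne_finset_zero (L := SummationFilter.unconditional ℤ)
      (f := fun j => if j ∈ ({-1, 0, 1, 2} : Finset ℤ) then T j else 0)
      (s := {-1, 0, 1, 2}) fun j hj => if_neg hj
    rwa [sum_congr rfl fun j hj => if_pos hj] at this
  rw [e1, ← (hT.hasSum.sub hs).tsum_eq]
  refine tsum_of_norm_bounded hB.hasSum fun j => ?_
  split_ifs with hj
  · simpa using h0 j
  · rw [sub_zero]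
    simp only [mem_insert, mem_singleton] at hj
    exact h j (by omega)

theorem far (hW : StWalk) (hP : StProd) (o : Om) {x : St} {ε : ℝ} (h : Small x ε)
    (hε : ε ≤ 1 / 2) (k j : ℤ) (hj : j ≤ -2 ∨ 3 ≤ j) {y : ℂ} (h1 : 1 / 2 ≤ ‖y‖) (h2 : ‖y‖ ≤ 2)
    (z : ℂ) (hz : ‖z‖ ≤ (j.natAbs : ℝ) + 1) :
    ‖y ^ j • z • va o x k j‖ ≤ 8 * ε ^ 2 * g 2 j := by
  have h0 := eps_nonneg h
  obtain ⟨n, hn⟩ : ∃ n, nn j = n + 2 := ⟨nn j - 2, by have := hP.n0.2.2.2.2 j hj; omega⟩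
  have a1 := norm_va hW hP o h hε k j
  have a2 : ε ^ n ≤ (1 / 2) ^ n := pow_le_pow_left₀ h0 hε n
  have a3 : ‖va o x k j‖ ≤ 8 * ε ^ 2 * (1 / 2) ^ nn j := by
    rw [hn] at a1 ⊢
    calc _ ≤ ε ^ n * (ε ^ 2 * 2) := by rw [← mul_assoc, ← pow_add]; exact a1
      _ ≤ (1 / 2) ^ n * (ε ^ 2 * 2) := by gcongr
      _ = _ := by ring
  rw [norm_smul, norm_smul]
  calc _ ≤ 2 ^ j.natAbs * (((j.natAbs : ℝ) + 1) * (8 * ε ^ 2 * (1 / 2) ^ nn j)) := by
        gcongr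
        exact norm_zpow_le h1 h2 j
    _ = 1 * (8 * ε ^ 2 * (((j.natAbs : ℝ) + 1) * (1 / 2) ^ nn j * 2 ^ j.natAbs)) := by ring
    _ ≤ ((nn j : ℝ) + 1) * (8 * ε ^ 2 * (((j.natAbs : ℝ) + 1) * (1 / 2) ^ nn j * 2 ^ j.natAbs)) := by
        gcongr
        exact le_add_of_nonneg_left (Nat.cast_nonneg _)
    _ = _ := by unfold g; ring

theorem fast_of (hP : StProd) (a : ℤ → E) (M A : ℝ) (hA : 1 ≤ A) (hM : 0 ≤ M)
    (h : ∀ j, ‖a j‖ ≤ M * (((nn j : ℝ) + 1) * (1 / 2) ^ nn j * A ^ j.natAbs)) : Fast a := by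
  intro R hR
  refine Summable.of_nonneg_of_le (fun j => by positivity) (fun j => ?_)
    ((hP.sum (A * R) (one_le_mul_of_one_le_of_one_le hA hR)).mul_left M)
  calc _ ≤ 1 * (M * (((nn j : ℝ) + 1) * (1 / 2) ^ nn j * A ^ j.natAbs) * R ^ j.natAbs) := by
        rw [one_mul]; gcongr; exact h j
    _ ≤ ((j.natAbs : ℝ) + 1) *
        (M * (((nn j : ℝ) + 1) * (1 / 2) ^ nn j * A ^ j.natAbs) * R ^ j.natAbs) := by
        gcongr
        exact le_add_of_nonneg_left (Nat.cast_nonneg _)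
    _ = _ := by rw [mul_pow]; ring

theorem fast (hW : StWalk) (hP : StProd) (o : Om) (x : St) (k : ℤ) (ε : ℝ) (h : Small x ε)
    (hε : ε ≤ 1 / 2) : Fast (va o x k) := by
  refine fast_of hP _ 2 1 le_rfl (by norm_num) fun j => (norm_va hW hP o h hε k j).trans ?_
  have a2 : ε ^ nn j ≤ (1 / 2) ^ nn j := pow_le_pow_left₀ (eps_nonneg h) hε _
  have : (0 : ℝ) ≤ nn j * (1 / 2) ^ nn j := by positivity
  rw [one_pow]; nlinarith

theorem faste (hW : StWalk) (hP : StProd) (o : Om) (x D : St) (k : ℤ) (ε a N : ℝ) (h : Small x ε)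
    (hε : ε ≤ 1 / 2) (ha : 0 < a) (hl : Low x a) (hD : Grow D k N) : Fast (ea o x D k) := by
  have hN : 0 ≤ N := by
    have := (norm_nonneg _).trans (hD k)
    simpa [kw] using this
  have hr := fun j => hP.rbound (fun i => (D i).2 / (x i).2) (N / a) k j (by positivity) fun i => by
    rw [norm_div, div_mul_eq_mul_div]
    exact div_le_div₀ ((norm_nonneg _).trans (hD i)) ((norm_snd_le _).trans (hD i)) ha (hl i)
  refine fast_of hP _ (N / a * 2 + N) 400 (by norm_num) (by positivity) fun j => ?_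
  have a2 : ‖cc (ta x) k j‖ ≤ (1 / 2) ^ nn j :=
    (norm_cc hP h k j).trans (pow_le_pow_left₀ (eps_nonneg h) hε _)
  have a3 : ‖(D (k + j)).1‖ ≤ N * kw j := by
    simpa using (norm_fst_le _).trans (hD (k + j))
  have a4 : ‖rr (fun i => (D i).2 / (x i).2) k j • u o x (k + j)‖ ≤ nn j * (N / a * kw j) * 2 := by
    rw [norm_smul]
    exact mul_le_mul (hr j) (norm_u hW o h hε _) (norm_nonneg _) ((norm_nonneg _).trans (hr j))
  have k0 : 0 ≤ kw j := by unfold kw; positivity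
  unfold ea
  rw [norm_smul]
  refine (mul_le_mul a2 ((norm_add_le _ _).trans (add_le_add a4 a3)) (norm_nonneg _)
    (by positivity)).trans ?_
  change _ ≤ _ * (_ * _ * kw j)
  have b1 : 0 ≤ (1 / 2 : ℝ) ^ nn j * kw j * (N / a * 2 + nn j * N) := by positivity
  nlinarith

theorem nsm {z : ℂ} {v : E} {a b : ℝ} (h1 : ‖z‖ ≤ a) (h2 : ‖v‖ ≤ b) : ‖z • v‖ ≤ a * b := by
  rw [norm_smul]; exact mul_le_mul h1 h2 (norm_nonneg _) ((norm_nonneg _).trans h1)

theorem nml {z v : ℂ} {a b : ℝ} (h1 : ‖z‖ ≤ a) (h2 : ‖v‖ ≤ b) : ‖z * v‖ ≤ a * b := by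
  rw [norm_mul]; exact mul_le_mul h1 h2 (norm_nonneg _) ((norm_nonneg _).trans h1)

end SerAAux

open SerAAux in
theorem stSerA (hWalk : StWalk) (hProd : StProd) (hLau : StLau) : StSerA := by
  refine ⟨fast hWalk hProd, faste hWalk hProd, ?_⟩
  have hg : Summable (g 2) := hProd.sum 2 (by norm_num)
  have g0 : ∀ j, 0 ≤ g 2 j := fun j => by unfold g; positivity
  have G0 : 0 ≤ ∑' j, g 2 j := tsum_nonneg g0
  refine ⟨22 + 8 * ∑' j, g 2 j, by linarith, fun o x k ε y h hε h1 h2 => ?_⟩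
  have h0 := eps_nonneg h
  have hy : y ≠ 0 := by rintro rfl; norm_num at h1
  have hf := fast hWalk hProd o x k ε h hε
  have t1 := tail (fun j => y ^ j • va o x k j) _ (hLau.sm _ y hf hy) (hg.mul_left (8 * ε ^ 2))
    (fun j => mul_nonneg (by positivity) (g0 j)) fun j hj => by
      simpa using far hWalk hProd o h hε k j hj h1 h2 1 (by simp)
  have t2 := tail (fun j => y ^ j • va' o x k j) _ (hLau.sm _ y (hLau.fd _ hf) hy)
    (hg.mul_left (8 * ε ^ 2)) (fun j => mul_nonneg (by positivity) (g0 j)) fun j hj =>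
      far hWalk hProd o h hε k j hj h1 h2 j (by
        rw [Complex.norm_intCast, Nat.cast_natAbs, Int.cast_abs]; linarith)
  rw [tsum_mul_left] at t1 t2
  obtain ⟨c0, c1, c2, c3⟩ := hProd.c0 (ta x) k
  have hb : ∀ i, ‖(x i).1‖ ≤ ε := fun i => (norm_fst_le _).trans (h i)
  have ht : ∀ i, ‖(x i).2‖ ≤ ε := fun i => (norm_snd_le _).trans (h i)
  have yi : ‖y⁻¹‖ ≤ 2 := by simpa using norm_zpow_le h1 h2 (-1)
  have y2 : ‖y ^ 2‖ ≤ 4 := by rw [norm_pow]; nlinarith [norm_nonneg y]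
  have he : ∀ i, ‖e i‖ ≤ 1 := fun i => (hWalk.norm_e i).le
  have hu := norm_u hWalk o h hε
  have e1 : V o x k y - ell o k y - lin o x k y = (∑' j : ℤ, y ^ j • va o x k j -
      (y ^ (-1 : ℤ) • va o x k (-1) + y ^ (0 : ℤ) • va o x k 0 + y ^ (1 : ℤ) • va o x k 1 +
        y ^ (2 : ℤ) • va o x k 2)) + (((x k).2 * y⁻¹) • (x (k - 1)).1 +
        ((x (k + 1)).2 * y ^ 2) • (x (k + 2)).1) := by
    simp only [V, Lau, va, c0, c1, c2, c3, u, ell, lin, ta, zpow_neg,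
      zpow_ofNat, add_zero, ← sub_eq_add_neg]
    module
  have e2 : V' o x k y - y • e (w o (k + 1)) = (∑' j : ℤ, y ^ j • va' o x k j -
      (y ^ (-1 : ℤ) • va' o x k (-1) + y ^ (0 : ℤ) • va' o x k 0 + y ^ (1 : ℤ) • va' o x k 1 +
        y ^ (2 : ℤ) • va' o x k 2)) + (y • (x (k + 1)).1 - ((x k).2 * y⁻¹) • u o x (k - 1) +
        (2 : ℂ) • ((x (k + 1)).2 * y ^ 2) • u o x (k + 2)) := by
    have : u o x (k + 1) = e (w o (k + 1)) + (x (k + 1)).1 := rfl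
    simp only [V', Lau, va', va, c0, c1, c2, c3, this, ta, zpow_neg,
      zpow_ofNat, add_zero, ← sub_eq_add_neg]
    push_cast
    module
  have n1 := nml (ht k) yi
  have n2 := nml (ht (k + 1)) y2
  have r3 : ‖V o x k y - ell o k y - lin o x k y‖ ≤ (6 + 8 * ∑' j, g 2 j) * ε ^ 2 := by
    rw [e1]
    refine ((norm_add_le _ _).trans (add_le_add t1 ((norm_add_le _ _).trans
      (add_le_add (nsm n1 (hb _)) (nsm n2 (hb _)))))).trans (le_of_eq (by ring))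
  have r0 : ‖lin o x k y‖ ≤ 9 * ε :=
    ((norm_add_le _ _).trans (add_le_add ((norm_add_le _ _).trans (add_le_add
      ((norm_add_le _ _).trans (add_le_add (hb _) (nsm h2 (hb _)))) (nsm n1 (he _))))
      (nsm n2 (he _)))).trans (le_of_eq (by ring))
  have sq : ε ^ 2 ≤ ε := by nlinarith
  have sq' : (∑' j, g 2 j) * ε ^ 2 ≤ (∑' j, g 2 j) * ε := by gcongr
  refine ⟨?_, ?_, r3.trans (by nlinarith [sq_nonneg ε])⟩
  · have := norm_add_le (V o x k y - ell o k y - lin o x k y) (lin o x k y)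
    rw [sub_add_cancel] at this
    nlinarith
  · rw [e2]
    refine ((norm_add_le _ _).trans (add_le_add t2 ((norm_add_le _ _).trans
      (add_le_add ((norm_sub_le _ _).trans (add_le_add (nsm h2 (hb _)) (nsm n1 (hu _))))
      (nsm (a := 2) (by simp) (nsm n2 (hu _))))))).trans (by nlinarith)

end Pool.Agent.Lib.MP_cd3a7b_ag.Q5
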