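import Pool.Agent.Lib.MP_cd3a7b_ag.Q5.Defs

/-! Gluing lines in a quintic threefold: the statements of the steps. -/

namespace Pool.Agent.Lib.MP_cd3a7b_ag.Q5

open MvPolynomial Finset Filter Topology Asymptotics

structure StWalk : Prop where
  sh : ∀ t o k, w (sh t o) k = w o (k + 4 * t)
  cases : ∀ o k, ∃ x x' : Fin 5, (x = 3 ∨ x = 4) ∧ (x' = 3 ∨ x' = 4) ∧
    ((k % 4 = 0 ∧ w o (k - 2) = 1 ∧ w o (k - 1) = x ∧ w o k = 0 ∧ w o (k + 1) = 2 ∧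
        w o (k + 2) = 1) ∨
      (k % 4 = 1 ∧ w o (k - 2) = x ∧ w o (k - 1) = 0 ∧ w o k = 2 ∧ w o (k + 1) = 1 ∧
        w o (k + 2) = x') ∨
      (k % 4 = 2 ∧ w o (k - 2) = 0 ∧ w o (k - 1) = 2 ∧ w o k = 1 ∧ w o (k + 1) = x ∧
        w o (k + 2) = 0) ∨
      (k % 4 = 3 ∧ w o (k - 2) = 2 ∧ w o (k - 1) = 1 ∧ w o k = x ∧ w o (k + 1) = 0 ∧
        w o (k + 2) = 2))
  ne : ∀ o k, w o (k + 1) ≠ w o k ∧ w o (k - 1) ≠ w o k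
  agree : ∀ o o' a b, (∀ s, a ≤ 4 * s + 3 → 4 * s + 3 ≤ b → o s = o' s) → Agree o o' a b
  flip : ∀ o o' t, o t ≠ o' t → w o (4 * t + 3) ≠ w o' (4 * t + 3)
  loc : ∀ {ι : Type} (l : Filter ι) (on : ι → Om) (o : Om), Tendsto on l (𝓝 o) →
    ∀ a b, ∀ᶠ n in l, Agree (on n) o a b
  kw_add : ∀ i j, kw (i + j) ≤ kw i * kw j
  kw_mono : ∀ i j : ℤ, i.natAbs ≤ j.natAbs → kw i ≤ kw j
  one_le_kw : ∀ i, 1 ≤ kw i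
  norm_e : ∀ i, ‖e i‖ = 1
  dot_le : ∀ a b : E, ‖dot a b‖ ≤ 5 * ‖a‖ * ‖b‖

structure StProd : Prop where
  c0 : ∀ t k, cc t k 0 = 1 ∧ cc t k 1 = 1 ∧ cc t k (-1) = t k ∧ cc t k 2 = t (k + 1)
  r0 : ∀ t k, rr t k 0 = 0 ∧ rr t k 1 = 0 ∧ rr t k (-1) = t k ∧ rr t k 2 = t (k + 1)
  n0 : nn 0 = 0 ∧ nn 1 = 0 ∧ nn (-1) = 1 ∧ nn 2 = 1 ∧ ∀ j, j ≤ -2 ∨ 3 ≤ j → 3 ≤ nn j
  bound : ∀ t (ε : ℝ) k j, 0 ≤ ε → (∀ i, ‖t i‖ ≤ ε) → ‖cc t k j‖ ≤ ε ^ nn j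
  lip : ∀ t t' (ε N : ℝ) k j, 0 ≤ ε → 0 ≤ N → (∀ i, ‖t i‖ ≤ ε) → (∀ i, ‖t' i‖ ≤ ε) →
    (∀ i, ‖t i - t' i‖ ≤ N * kw (i - k)) →
    ‖cc t k j - cc t' k j‖ ≤ nn j * ε ^ (nn j - 1) * (N * kw j)
  rbound : ∀ t (N : ℝ) k j, 0 ≤ N → (∀ i, ‖t i‖ ≤ N * kw (i - k)) →
    ‖rr t k j‖ ≤ nn j * (N * kw j)
  chart : ∀ t k j, t (k + 1) ≠ 0 → cc t k j = t (k + 1) ^ (j - 1) * cc t (k + 1) (j - 1)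
  rchart : ∀ t k j, rr t k j = ((j : ℂ) - 1) * t (k + 1) + rr t (k + 1) (j - 1)
  shift : ∀ (t : ℤ → ℂ) s k j, cc (fun i => t (i + s)) k j = cc t (k + s) j ∧
    rr (fun i => t (i + s)) k j = rr t (k + s) j
  rlin : ∀ (t t' : ℤ → ℂ) (a b : ℂ) k j,
    rr (fun i => a * t i + b * t' i) k j = a * rr t k j + b * rr t' k j
  lim : ∀ (l : Filter ℕ) (t D : ℤ → ℂ) (tn : ℕ → ℤ → ℂ) (s : ℕ → ℂ) k j, Tendsto s l (𝓝 0) →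
    (∀ n, s n ≠ 0) → (∀ i, t i ≠ 0) →
    (∀ i, Tendsto (fun n => (s n)⁻¹ * (tn n i - t i)) l (𝓝 (D i))) →
    Tendsto (fun n => (s n)⁻¹ * (cc (tn n) k j - cc t k j)) l
      (𝓝 (cc t k j * rr (fun i => D i / t i) k j))
  cont : ∀ k j, Continuous fun t : ℤ → ℂ => cc t k j
  sum : ∀ A : ℝ, 1 ≤ A → Summable fun j : ℤ =>
    ((nn j : ℝ) + 1) * ((j.natAbs : ℝ) + 1) * (1 / 2) ^ nn j * A ^ j.natAbs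

structure StLau : Prop where
  sm : ∀ a (y : ℂ), Fast a → y ≠ 0 → Summable fun j : ℤ => y ^ j • a j
  fd : ∀ a, Fast a → Fast fun j => (j : ℂ) • a j
  der : ∀ a (y : ℂ), Fast a → y ≠ 0 → HasDerivAt (Lau a) (y⁻¹ • Lau (fun j => (j : ℂ) • a j) y) y
  lin : ∀ a a' (α β : ℂ), Fast a → Fast a' → Fast (fun j => α • a j + β • a' j) ∧
    ∀ y, y ≠ 0 → Lau (fun j => α • a j + β • a' j) y = α • Lau a y + β • Lau a' y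
  chart : ∀ (a a' : ℤ → E) (lam y : ℂ), lam ≠ 0 → y ≠ 0 →
    (∀ j, a j = lam ^ (j - 1) • a' (j - 1)) → Lau a y = y • Lau a' (lam * y)
  dom : ∀ {ι : Type} (l : Filter ι) (an : ι → ℤ → E) (a : ℤ → E) (B : ℤ → ℝ) (yn : ι → ℂ) (y : ℂ),
    y ≠ 0 → (∀ R : ℝ, 1 ≤ R → Summable fun j : ℤ => B j * R ^ j.natAbs) →
    (∀ᶠ n in l, ∀ j, ‖an n j‖ ≤ B j) → (∀ j, Tendsto (fun n => an n j) l (𝓝 (a j))) →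
    Tendsto yn l (𝓝 y) → Tendsto (fun n => Lau (an n) (yn n)) l (𝓝 (Lau a y))

structure StCo : Prop where
  bound : ∀ n f (M : ℝ), (∀ y, ‖y‖ = 1 → ‖f y‖ ≤ M) → ‖co n f‖ ≤ M
  add : ∀ n f g, ContinuousOn f (Metric.sphere 0 1) → ContinuousOn g (Metric.sphere 0 1) →
    co n (fun y => f y + g y) = co n f + co n g ∧ co n (fun y => f y - g y) = co n f - co n g
  congr : ∀ n f g, (∀ y, ‖y‖ = 1 → f y = g y) → co n f = co n g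
  poly : ∀ (a : Fin 6 → ℂ) (r : Fin 6), co (r : ℕ) (fun y => ∑ s, a s * y ^ (s : ℕ)) = a r
  const : ∀ n (a : ℂ), co n (fun _ => a) = if n = 0 then a else 0
  mul : ∀ n f, co n (fun y => y ^ 5 * f y) = co (n - 5) f
  scale : ∀ n f (lam : ℂ), DifferentiableOn ℂ f {0}ᶜ → lam ≠ 0 →
    co n (fun y => f (lam * y)) = lam ^ n * co n f
  zero : ∀ f, DifferentiableOn ℂ f {0}ᶜ → (∀ n, co n f = 0) → ∀ y, y ≠ 0 → f y = 0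

structure StVan : Prop where
  van : ∀ (f : ℤ → ℂ → ℂ) (t : ℤ → ℂ), (∀ k, t k ≠ 0) → (∀ k, DifferentiableOn ℂ (f k) {0}ᶜ) →
    (∀ k y, y ≠ 0 → f k y = y ^ 5 * f (k + 1) (t (k + 1) * y)) →
    (∀ k (r : Fin 5), co (r : ℕ) (f k) = 0) → ∀ k y, y ≠ 0 → f k y = 0
  const : ∀ (W : ℤ → ℂ → ℂ) (t : ℤ → ℂ) (ε A B : ℝ), (∀ k, t k ≠ 0) → (∀ k, ‖t k‖ ≤ ε) → 0 ≤ A →
    ε ≤ 1 → A * ε < 1 → (∀ k, DifferentiableOn ℂ (W k) {0}ᶜ) →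
    (∀ k y, y ≠ 0 → W k y = W (k + 1) (t (k + 1) * y)) →
    (∀ k y, ‖y‖ = 1 → ‖W k y‖ ≤ B * A ^ k.natAbs) → ∀ y, y ≠ 0 → W 0 y = W 0 1
  zero : ∀ f : ℂ → ℂ, DifferentiableOn ℂ f {0}ᶜ →
    (∀ y, 1 / 2 ≤ ‖y‖ → ‖y‖ ≤ 2 → ‖f y - (1 + y)‖ ≤ 1 / 10) → ∃ z ∈ Ann 2, f z = 0

structure StId : Prop where
  hom : F0.IsHomogeneous 5 ∧ G0.IsHomogeneous 5
  f0 : ∀ o k y, eval (ell o k y) F0 = 0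
  g0 : ∀ o k y, eval (ell o k y) G0 = ∑ r, gam o k r * y ^ (r : ℕ)
  lin : ∀ o x k y, y ≠ 0 → dot (grad F0 (ell o k y)) (lin o x k y) = ∑ r, L o x k r * y ^ (r : ℕ)
  one : ∀ o k y, ‖y‖ = 1 → ∃ i, ‖grad F0 (ell o k y) i‖ = 1

structure StLA : Prop where
  top : ∀ o x k, L o x k 5 = L o x (k + 1) 0 ∧ gam o k 5 = 0 ∧ gam o k 0 = 0
  sub : ∀ o x x' k, L o (x - x') k = L o x k - L o x' k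
  jac : ∃ C : ℝ, 1 ≤ C ∧ ∀ o x k (s : ℂ) (M : ℝ),
    (∀ r, ‖L o x (k - 1) r + s * gam o (k - 1) r‖ ≤ M) → (∀ r, ‖L o x k r + s * gam o k r‖ ≤ M) →
    ‖J (ta x) k - s * DD o k‖ ≤ C * M
  bb : ∃ C : ℝ, 1 ≤ C ∧ ∀ o (x : St) k (M : ℝ), (x k).1 (w o k) = 0 →
    (∀ r, ‖L o x (k - 1) r‖ ≤ M) → (∀ r, ‖L o x k r‖ ≤ M) →
    ‖(x k).1‖ ≤ C * (‖(x (k - 1)).2‖ + ‖(x k).2‖ + ‖(x (k + 1)).2‖ + M)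
  four : ∃ C : ℝ, 1 ≤ C ∧ ∀ o x (M : ℝ), (∀ r, ‖L o x 0 r‖ ≤ M) →
    mm x 0 ≤ C * (‖lin o x 0 1 1‖ + ‖lin o x 0 1 3‖ + M)

def StFix : Prop :=
  ∀ {Y : Type} [NormedAddCommGroup Y] [CompleteSpace Y] (Φ : (ℤ → Y) → ℤ → Y) (r : ℝ), 0 ≤ r →
    (∀ x, (∀ k, ‖x k‖ ≤ r) → ∀ k, ‖Φ x k‖ ≤ r) →
    (∀ x x' (N : ℝ), (∀ k, ‖x k‖ ≤ r) → (∀ k, ‖x' k‖ ≤ r) → (∀ k, ‖x k - x' k‖ ≤ N) →
      ∀ k, ‖Φ x k - Φ x' k‖ ≤ N / 2) →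
    ∃ x, (∀ k, ‖x k‖ ≤ r) ∧ Φ x = x

def StSolve : Prop :=
  ∃ C : ℝ, 1 ≤ C ∧ ∀ o, ∃ Ψ : (ℤ → Fin 5 → ℂ) → St,
    (∀ ρ (M : ℝ), (∀ k r, ‖ρ k r‖ ≤ M) → (∀ k, (Ψ ρ k).1 (w o k) = 0) ∧ Small (Ψ ρ) (C * M) ∧
      ∀ k (r : Fin 5), L o (Ψ ρ) k r.castSucc = ρ k r) ∧
    ∀ ρ ρ' (M B : ℝ), (∀ k r, ‖ρ k r‖ ≤ B) → (∀ k r, ‖ρ' k r‖ ≤ B) →
      (∀ k r, ‖ρ k r - ρ' k r‖ ≤ M) → Small (Ψ ρ - Ψ ρ') (C * M)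

structure StSerA : Prop where
  fast : ∀ o x k (ε : ℝ), Small x ε → ε ≤ 1 / 2 → Fast (va o x k)
  faste : ∀ o x D k (ε a N : ℝ), Small x ε → ε ≤ 1 / 2 → 0 < a → Low x a → Grow D k N →
    Fast (ea o x D k)
  est : ∃ C : ℝ, 1 ≤ C ∧ ∀ o x k (ε : ℝ) y, Small x ε → ε ≤ 1 / 2 → 1 / 2 ≤ ‖y‖ → ‖y‖ ≤ 2 →
    ‖V o x k y - ell o k y‖ ≤ C * ε ∧ ‖V' o x k y - y • e (w o (k + 1))‖ ≤ C * ε ∧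
    ‖V o x k y - ell o k y - lin o x k y‖ ≤ C * ε ^ 2

def StSerC : Prop :=
  ∃ C : ℝ, 1 ≤ C ∧ ∀ o o' x x' k (ε N : ℝ) y, 0 < ε → ε ≤ 1 / 2 → Small x ε → Small x' ε →
    Agree o o' (k - 1) (k + 2) → Close o o' x x' ε k N → ‖y‖ = 1 →
    ‖V o x k y - V o' x' k y‖ ≤ C * N ∧
    ‖V o x k y - V o' x' k y - lin o (x - x') k y‖ ≤ C * ε * N

def StSerD : Prop :=
  ∃ C : ℝ, 1 ≤ C ∧ ∀ o x D k (ε c N : ℝ) y, 0 < ε → ε ≤ 1 / 2 → 0 < c → Small x ε →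
    Low x (c * ε) → Grow D k N → ‖y‖ = 1 →
    ‖Eta o x D k y‖ ≤ C / c * N ∧ ‖Eta o x D k y - lin o D k y‖ ≤ C / c * ε * N

structure StChart : Prop where
  v : ∀ o x k y, (x (k + 1)).2 ≠ 0 → y ≠ 0 → V o x k y = y • V o x (k + 1) ((x (k + 1)).2 * y)
  v' : ∀ o x k (ε : ℝ) y, Small x ε → ε ≤ 1 / 2 → (x (k + 1)).2 ≠ 0 → y ≠ 0 →
    V' o x k y = y • (V o x (k + 1) ((x (k + 1)).2 * y) + V' o x (k + 1) ((x (k + 1)).2 * y))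
  eta : ∀ o x D k (ε a N : ℝ) y, Small x ε → ε ≤ 1 / 2 → 0 < a → Low x a → Grow D 0 N → y ≠ 0 →
    Eta o x D k y = y • (Eta o x D (k + 1) ((x (k + 1)).2 * y) +
      ((D (k + 1)).2 / (x (k + 1)).2) • V' o x (k + 1) ((x (k + 1)).2 * y))
  der : ∀ o x k (ε : ℝ) y, Small x ε → ε ≤ 1 / 2 → y ≠ 0 →
    HasDerivAt (V o x k) (y⁻¹ • V' o x k y) y ∧ DifferentiableAt ℂ (V' o x k) y
  dere : ∀ o x D k (ε a N : ℝ) y, Small x ε → ε ≤ 1 / 2 → 0 < a → Low x a → Grow D 0 N → y ≠ 0 →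
    DifferentiableAt ℂ (Eta o x D k) y
  grow : ∀ D k (N : ℝ), Grow D 0 N → Grow D k (N * kw k)
  shift : ∀ o x D t k, V (sh t o) (shx (4 * t) x) k = V o x (k + 4 * t) ∧
    V' (sh t o) (shx (4 * t) x) k = V' o x (k + 4 * t) ∧
    Eta (sh t o) (shx (4 * t) x) (shx (4 * t) D) k = Eta o x D (k + 4 * t)
  sol : ∀ F ε c o x t, Sol F ε c o x → Sol F ε c (sh t o) (shx (4 * t) x)
  comb : ∀ F (ε c : ℝ) o x D D' (α β : ℂ), 0 < ε → ε ≤ 1 / 2 → 0 < c → Sol F ε c o x →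
    Tan F o x D → Tan F o x D' → Tan F o x (α • D + β • D') ∧ ∀ k y, y ≠ 0 →
      Eta o x (α • D + β • D') k y = α • Eta o x D k y + β • Eta o x D' k y
  equi : ∀ F ε c C X, Fam F ε c X → Est F ε c C → ∀ t o, X (sh t o) = shx (4 * t) (X o)

def StNe : Prop :=
  ∃ ε₁ : ℝ, 0 < ε₁ ∧ ∀ o x (ε a : ℝ), ε ≤ ε₁ → Small x ε → 0 < a → Low x a →
    ∀ k y, y ≠ 0 → V o x k y ≠ 0

def StPoly : Prop :=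
  ∃ C : ℝ, 1 ≤ C ∧
    (∀ (H : Pol) (η : ℝ) (a : E), H.IsHomogeneous 5 → (∀ m, ‖coeff m H‖ ≤ η) → ‖a‖ ≤ 3 →
      ‖eval a H‖ ≤ C * η ∧ ‖grad H a‖ ≤ C * η) ∧
    (∀ a : E, ‖a‖ ≤ 3 → ‖grad F0 a‖ ≤ C) ∧
    (∀ F (ε : ℝ) (a ξ : E), Near F ε → ‖a‖ ≤ 2 → ‖ξ‖ ≤ 1 →
      ‖grad F (a + ξ) - grad F0 a‖ ≤ C * (ε + ‖ξ‖)) ∧
    ∀ F (ε r : ℝ) (a ξ ξ' : E), Near F ε → ‖a‖ ≤ 2 → ‖ξ‖ ≤ r → ‖ξ'‖ ≤ r → r ≤ 1 →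
      ‖eval (a + ξ) F - eval (a + ξ') F - dot (grad F0 a) (ξ - ξ')‖ ≤ C * (ε + r) * ‖ξ - ξ'‖

def StNon : Prop :=
  ∃ C ε₁ : ℝ, 1 ≤ C ∧ 0 < ε₁ ∧ ε₁ ≤ 1 / 2 ∧ ∀ (ε : ℝ) F, 0 < ε → ε ≤ ε₁ → Near F ε →
    (∀ o x k, Small x ε → ContinuousOn (non F o x k) (Metric.sphere 0 1)) ∧
    (∀ o x k y, Small x ε → ‖y‖ = 1 → ‖non F o x k y - eval (ell o k y) F‖ ≤ C * ε ^ 2) ∧
    (∀ o o' x x' k (N : ℝ) y, Small x ε → Small x' ε → Agree o o' (k - 1) (k + 2) →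
      Close o o' x x' ε k N → ‖y‖ = 1 → ‖non F o x k y - non F o' x' k y‖ ≤ C * ε * N) ∧
    (∀ o x D k (c N : ℝ) y, 0 < c → Small x ε → Low x (c * ε) → Grow D k N → ‖y‖ = 1 →
      ‖dot (grad F (V o x k y)) (Eta o x D k y) - dot (grad F0 (ell o k y)) (lin o D k y)‖ ≤
        C / c * ε * N) ∧
    ∀ o x k y, Small x ε → ‖y‖ = 1 → ∃ i, 1 / 2 ≤ ‖grad F (V o x k y) i‖

def StRec : Prop :=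
  ∀ c : ℝ, 0 < c → ∃ C ε₁ : ℝ, 1 ≤ C ∧ 0 < ε₁ ∧ ε₁ ≤ 1 / 2 ∧ ∀ (ε : ℝ) F, 0 < ε → ε ≤ ε₁ →
    Near F ε →
    (∀ o o' x x' k, Sol F ε c o x → Sol F ε c o' x' → Agree o o' (k - 2) (k + 2) →
      Rec (fun i => ‖((x - x') i).2‖) (dl o o' x x' ε) C (C * ε) k) ∧
    (∀ o x D k, Sol F ε c o x → Tan F o x D →
      Rec (fun i => ‖(D i).2‖) (fun i => ‖D i‖) C (C * ε) k) ∧
    ∀ o x D (N : ℝ), Sol F ε c o x → Tan F o x D → Grow D 0 N →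
      mm D 0 ≤ C * (‖Eta o x D 0 1 1‖ + ‖Eta o x D 0 1 3‖ + ε * N)

def StSeq : Prop :=
  ∀ C c : ℝ, 1 ≤ C → 0 < c → ∃ C' κ₀ : ℝ, 1 ≤ C' ∧ 0 < κ₀ ∧ ∀ (κ : ℝ) (a d : ℤ → ℝ), 0 ≤ κ →
    κ ≤ κ₀ → (∀ i, 0 ≤ a i) → (∀ i, a i ≤ d i) →
    (∀ (B : ℝ) (k₀ : ℤ) (n : ℕ), (∀ i, d i ≤ B) →
      (∀ k, k₀ - n ≤ k - 2 → k + 2 ≤ k₀ + n → Rec a d C κ k) → d k₀ ≤ C' * B * (1 / 2) ^ n) ∧
    (∀ (B : ℝ) (p q k₀ : ℤ), (∀ i, d i ≤ B) → (∀ k, p + 3 ≤ k → k ≤ q - 3 → Rec a d C κ k) →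
      p + 2 ≤ k₀ → k₀ ≤ q - 3 → c * B ≤ max (a (p + 2)) (a (p + 2 + 1)) →
      c * B ≤ max (a (q - 3)) (a (q - 3 + 1)) →
      ∀ i, d i ≤ C' * max (a k₀) (a (k₀ + 1)) * kw (i - k₀)) ∧
    ∀ N : ℝ, (∀ i, d i ≤ N * kw (i - 0)) → (∀ k, Rec a d C κ k) →
      ∀ i, d i ≤ C' * max (a 0) (a (0 + 1)) * kw (i - 0)

def StEst : Prop :=
  ∀ c : ℝ, 0 < c → ∃ C ε₁ : ℝ, 1 ≤ C ∧ 0 < ε₁ ∧ ∀ (ε : ℝ) F, 0 < ε → ε ≤ ε₁ → Near F ε →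
    Est F ε c C

def StJD : Prop :=
  ∀ (t : Om → ℤ → ℂ) (s : ℝ), 0 < s → (∀ o, ∃ B : ℝ, ∀ k, ‖t o k‖ ≤ B) →
    (∀ o k, ‖J (t o) k - s * DD o k‖ ≤ s / 1000) → (∀ o k, s / 100 ≤ ‖t o k‖) ∧
    ∀ o o' n, o n ≠ o' n →
      s / 10000 ≤ max ‖t o (4 * n) - t o' (4 * n)‖ ‖t o (4 * n + 1) - t o' (4 * n + 1)‖ ∧
      s / 10000 ≤ max ‖t o (4 * n + 5) - t o' (4 * n + 5)‖
        ‖t o (4 * n + 5 + 1) - t o' (4 * n + 5 + 1)‖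

def StExist : Prop :=
  ∃ c ε₀ : ℝ, 0 < c ∧ 0 < ε₀ ∧ ∀ ε : ℝ, 0 < ε → ε ≤ ε₀ → ∃ (F₁ : Pol) (δ : ℝ),
    F₁.IsHomogeneous 5 ∧ 0 < δ ∧ ∀ F : Pol, F.IsHomogeneous 5 →
      (∀ m, ‖coeff m F - coeff m F₁‖ < δ) → Near F ε ∧ ∃ X, Fam F ε c X

def StWr : Prop :=
  ∀ c : ℝ, 0 < c → ∃ ε₁ : ℝ, 0 < ε₁ ∧ ∀ (ε : ℝ) F, 0 < ε → ε ≤ ε₁ → Near F ε → Smooth F →
    Wr F ε c

/-- Everything that the topological part uses. -/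
structure Pack (F : Pol) (ε c C : ℝ) (X : Om → St) : Prop where
  pos : 0 < ε
  half : ε ≤ 1 / 2
  cpos : 0 < c
  one : 1 ≤ C
  hom : F.IsHomogeneous 5
  smooth : Smooth F
  fam : Fam F ε c X
  est : Est F ε c C
  wr : Wr F ε c
  ne : ∀ o k y, y ≠ 0 → V o (X o) k y ≠ 0
  line : ∀ o y, 1 / 2 ≤ ‖y‖ → ‖y‖ ≤ 2 → ‖V o (X o) 0 y - (e 0 + y • e 2)‖ ≤ 1 / 100

def StBlow : Prop :=
  ∀ F ε c C X, Pack F ε c C X → ∀ (o : Om) (P : ℤ), 0 < P → sh P o = o →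
    ∃ (on : ℕ → Om) (s : ℕ → ℝ), (∀ n, 0 < s n) ∧ Tendsto s atTop (𝓝 0) ∧
      Tendsto on atTop (𝓝 o) ∧ (∀ n, Close (on n) o (X (on n)) (X o) ε 0 (C * s n)) ∧
      ∀ i : ℤ, ∀ᶠ n in atTop, s n ≤ mm (X (on n) - X o) (4 * P * i)

def StLimit : Prop :=
  ∀ F (ε c A : ℝ) o x (l : Filter ℕ) (on : ℕ → Om) (xn : ℕ → St) (s : ℕ → ℝ) (D : St),
    l.NeBot → 0 < ε → ε ≤ 1 / 2 → 0 < c → Sol F ε c o x → (∀ n, Sol F ε c (on n) (xn n)) →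
    (∀ n, 0 < s n) → Tendsto s l (𝓝 0) → Tendsto on l (𝓝 o) →
    (∀ n, Close (on n) o (xn n) x ε 0 (A * s n)) →
    (∀ k, Tendsto (fun n => ((s n : ℂ))⁻¹ • (xn n k - x k)) l (𝓝 (D k))) →
    Tan F o x D ∧ ∀ k (zn : ℕ → ℂ) z, z ≠ 0 → Tendsto zn l (𝓝 z) →
      Tendsto (fun n => ((s n : ℂ))⁻¹ • (V (on n) (xn n) k (zn n) - V o x k (zn n))) l
        (𝓝 (Eta o x D k z))

def StLow : Prop :=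
  ∀ Q : MvPolynomial (Fin 2) ℂ, Q ≠ 0 → ∃ T : Set (ℂ × ℂ), T.Finite ∧ (0, 0) ∉ T ∧
    ∀ (l : Filter ℕ) (p : ℕ → Fin 2 → ℂ) (s : ℕ → ℝ) (η : Fin 2 → ℂ), l.NeBot →
      Tendsto s l (𝓝 0) → (∀ n, 0 < s n) → (∀ᶠ n in l, eval (p n) Q = 0) →
      Tendsto (fun n => ((s n : ℂ))⁻¹ • p n) l (𝓝 η) → ∃ q ∈ T, q.1 * η 0 + q.2 * η 1 = 0

def StApp : Prop :=
  ∀ (φ σ : ℂ → ℂ) (a : ℂ), AnalyticAt ℂ φ a → AnalyticAt ℂ σ a → σ a = 0 → deriv σ a ≠ 0 →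
    φ a = 0 → deriv φ a = 0 → ∀ M : ℕ, ∃ p : Polynomial ℂ, p.coeff 0 = 0 ∧ p.coeff 1 = 0 ∧
      p.natDegree ≤ M + 1 ∧ (fun z => φ z - p.eval (σ z)) =O[𝓝 a] fun z => (z - a) ^ (M + 2)

def StTL : Prop :=
  ∀ (Z : Set E) (v : ℂ → E) (a μ : ℂ) (ψ : E) (G : Pol), IsCone Z → Dep Z → AnalyticAt ℂ v a →
    (∀ x ∈ Z, eval x G = 0) → (¬ ∀ᶠ z in 𝓝 a, eval (v z) G = 0) → μ ≠ 0 → ψ ≠ 0 →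
    dot ψ (v a) = 0 → dot ψ (deriv v a) = 0 →
    ∃ col : E → ℕ, (Set.range col).Finite ∧ ∀ η η', Lim v a Z η → Lim v a Z η' → dot ψ η = 0 →
      dot ψ η' = 0 → col η = col η' → ¬ LinearIndependent ℂ ![v a, μ • deriv v a, η, η']

def StFin : Prop :=
  ∀ (D : St) (Q i i' : ℤ) (γ δ : ℂ), (∀ s, 1 ≤ mm D (Q * s)) → i ≠ i' → Q ≠ 0 → (γ ≠ 0 ∨ δ ≠ 0) →
    (∀ k, γ • D (k + Q * i) + δ • D (k + Q * i') = 0) → ∃ N, Small D N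

def StCont : Prop :=
  ∀ F ε c C X, Pack F ε c C X → ∀ (o : Om) (z : ℂ), z ≠ 0 →
    Tendsto (fun p : Om × ℂ => V p.1 (X p.1) 0 p.2) (𝓝 (o, z)) (𝓝 (V o (X o) 0 z))

def StAvoid : Prop :=
  ∀ F ε c C X, Pack F ε c C X → ∀ (Z : Set E) (G : Pol) (o : Om) (P : ℤ) (R : ℝ), IsClosed Z →
    IsCone Z → Dep Z → (∀ x ∈ Z, eval x G = 0) → (∃ z, z ≠ 0 ∧ eval (V o (X o) 0 z) G ≠ 0) →
    0 < P → sh P o = o → 1 ≤ R → ¬ ∀ᶠ o' in 𝓝 o, ∃ z ∈ Ann R, V o' (X o') 0 z ∈ Z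

def StDep : Prop :=
  ∀ S : Set Pol, 3 ≤ (Ideal.span S).height → Dep {x | ∀ G ∈ S, eval x G = 0}

def StPrime : Prop := ∀ F : Pol, F.IsHomogeneous 5 → Smooth F → Prime F

def StForm : Prop :=
  ∀ F G : Pol, Prime F → ¬ F ∣ G → ∃ lam : E, ‖lam - (e 0 + e 2)‖ ≤ 1 / 100 ∧
    3 ≤ (Ideal.span {F, G, ∑ i, C (lam i) * X i}).height

def StSmooth : Prop :=
  ∀ (F₁ : Pol) (δ : ℝ), F₁.IsHomogeneous 5 → 0 < δ → ∃ (F₂ : Pol) (δ₂ : ℝ),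
    F₂.IsHomogeneous 5 ∧ 0 < δ₂ ∧ ∀ F : Pol, F.IsHomogeneous 5 →
      (∀ m, ‖coeff m F - coeff m F₂‖ < δ₂) → (∀ m, ‖coeff m F - coeff m F₁‖ < δ) ∧ Smooth F

/-- The orbit of `o` under the shift is dense. -/
def Trv (o : Om) : Prop := ∀ o', o' ∈ closure (Set.range fun t => sh t o)

structure StTop : Prop where
  per : ∀ (o : Om) (U : Set Om), U ∈ 𝓝 o → ∃ o' ∈ U, ∃ P : ℤ, 0 < P ∧ sh P o' = o'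
  trv : {o | Trv o} ∈ residual Om

def StPack : Prop :=
  ∃ (F₁ : Pol) (δ : ℝ), F₁.IsHomogeneous 5 ∧ 0 < δ ∧ ∀ F : Pol, F.IsHomogeneous 5 →
    (∀ m, ‖coeff m F - coeff m F₁‖ < δ) → ∃ ε c C X, Pack F ε c C X

def StDense : Prop :=
  ∀ F ε c C X, Pack F ε c C X → ∀ o, Trv o → ∀ (G : Pol) (k : ℕ), G.IsHomogeneous k →
    (∀ z, z ≠ 0 → eval (V o (X o) 0 z) G = 0) → F ∣ G

def StBaire : Prop :=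
  ∀ F ε c C X, Pack F ε c C X → ∀ S : Set Pol, (∀ G ∈ S, ∃ k, G.IsHomogeneous k) →
    3 ≤ (Ideal.span S).height →
    ∃ o, Trv o ∧ ∀ z, z ≠ 0 → ∃ G ∈ S, eval (V o (X o) 0 z) G ≠ 0

end Pool.Agent.Lib.MP_cd3a7b_ag.Q5
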